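import Pool.Agent.AFree.Norm

/-!
# MP_e44b8a_al: the action modulo the commutator ideal (helper90)
-/

namespace AFree

noncomputable section

open Polynomial (aeval)

variable {K : Type} [Field K]

/-- the abelianization -/
def ab : Al K →ₐ[K] MvPolynomial (Fin 3) K := FreeAlgebra.lift K MvPolynomial.X

theorem ab_X (i : Fin 3) : ab (X (K := K) i) = MvPolynomial.X i := by
  unfold ab
  rw [lift_X]

/-- all variables to `1` -/
def e1 : Al K →ₐ[K] K := FreeAlgebra.lift K (fun _ => 1)

/-- `x_j` to `0`, the other variables to `1` -/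
def ej (j : Fin 3) : Al K →ₐ[K] K := FreeAlgebra.lift K (fun l => if l = j then 0 else 1)

theorem e1_mon (w : List (Fin 3)) : e1 (mon (K := K) w) = 1 := by
  rw [map_mon]
  refine List.prod_eq_one fun x hx => ?_
  obtain ⟨i, -, rfl⟩ := List.mem_map.1 hx
  unfold e1
  rw [lift_X]

theorem ej_mem {j : Fin 3} {w : List (Fin 3)} (h : j ∈ w) : ej j (mon (K := K) w) = 0 := by
  rw [map_mon]
  refine List.prod_eq_zero (List.mem_map.2 ⟨j, h, ?_⟩)
  unfold ej
  rw [lift_X, if_pos rfl]

theorem ej_notMem {j : Fin 3} {w : List (Fin 3)} (h : j ∉ w) : ej j (mon (K := K) w) = 1 := by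
  rw [map_mon]
  refine List.prod_eq_one fun x hx => ?_
  obtain ⟨i, hi, rfl⟩ := List.mem_map.1 hx
  unfold ej
  rw [lift_X, if_neg]
  intro h'
  exact h (h' ▸ hi)

theorem ej_el (j : Fin 3) (p : Al K) : ej j (el j 1 p) = e1 p := by
  have h1 : (ej j).comp ((el j 1 : Gp K) : Al K →ₐ[K] Al K) = e1 := by
    apply hom_ext_X
    intro l
    change ej j (el j 1 (X l)) = e1 (X l)
    by_cases hl : l = j
    · rw [hl, el_self (one_mem j), map_add, map_one]
      unfold ej e1
      rw [lift_X, lift_X, if_pos rfl, zero_add]
    · rw [el_ne _ hl]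
      unfold ej e1
      rw [lift_X, lift_X, if_neg hl]
  exact congrArg (fun F : Al K →ₐ[K] K => F p) h1

/-- linear functions on `Mh` -/
theorem Mh_map {C : Type} [AddCommGroup C] [Module K C] {m : Fin 3 → ℕ} {p : Al K}
    (hp : p ∈ Mh K m) (L : Al K →ₗ[K] C) (c : C) (h : ∀ v, (∀ j, v.count j = m j) → L (mon v) = c) :
    L p = e1 p • c := by
  rw [sum_cf p, map_sum, map_sum, Finset.sum_smul]
  refine Finset.sum_congr rfl fun v hv => ?_
  rw [map_smul, map_smul, e1_mon, h v (mem_sp.1 hp v (mem_su.1 hv)), smul_eq_mul, mul_one]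

/-- the translation changes a monomial by shorter ones -/
theorem low (i j : Fin 3) {w : List (Fin 3)} (hw : i ∉ w) :
    el j 1 (mon (K := K) w) - mon w ∈ sp K (fun v => i ∉ v ∧ v.length < w.length) := by
  induction w with
  | nil =>
    rw [mon_nil, map_one, sub_self]
    exact Submodule.zero_mem _
  | cons x w ih =>
    rw [List.mem_cons, not_or] at hw
    have h1 := ih hw.2
    have h2 : X x * (el j 1 (mon w) - mon w) ∈
        sp K (fun v => i ∉ v ∧ v.length < (x :: w).length) := by
      rw [← mon_single]
      refine sp_mul (P := fun v => v = [x]) (Q := fun v => i ∉ v ∧ v.length < w.length)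
        (fun v u hv hu => ?_) (mon_mem_sp rfl) h1
      rw [hv]
      refine ⟨fun h => ?_, ?_⟩
      · rw [List.singleton_append, List.mem_cons] at h
        exact h.elim hw.1 hu.1
      · rw [List.singleton_append, List.length_cons, List.length_cons]
        omega
    have h3 : el j 1 (mon w) ∈ sp K (fun v => i ∉ v ∧ v.length < (x :: w).length) := by
      rw [← sub_add_cancel (el j 1 (mon w)) (mon w)]
      have h5 : ∀ v : List (Fin 3), v.length < w.length → v.length < (x :: w).length := by
        intro v hv
        rw [List.length_cons]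
        omega
      have h6 : w.length < (x :: w).length := by
        rw [List.length_cons]
        omega
      exact Submodule.add_mem _ (sp_mono (fun v hv => ⟨hv.1, h5 v hv.2⟩) h1)
        (mon_mem_sp ⟨hw.2, h6⟩)
    rw [mon_cons, map_mul]
    by_cases hx : x = j
    · rw [hx, el_self (one_mem j), add_mul, one_mul]
      rw [hx] at h2 h3
      have h4 : X (K := K) j * el j 1 (mon w) + el j 1 (mon w) - X j * mon w =
          X j * (el j 1 (mon w) - mon w) + el j 1 (mon w) := by
        rw [mul_sub]
        abel
      rw [h4]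
      exact Submodule.add_mem _ h2 h3
    · rw [el_ne _ hx, ← mul_sub]
      exact h2

section

variable [Infinite K] {Ψ : Gp K ≃* Gp K} (hΨ : ∀ t, Ψ (dg t) = dg t) (h1 : ∀ i, al Ψ i 1 = 1)

include hΨ h1

theorem al_e1 (i : Fin 3) : ∀ n, ∀ w : List (Fin 3), w.length = n → i ∉ w →
    e1 (al Ψ i (mon w)) = 1 := by
  intro n
  induction n using Nat.strong_induction_on with
  | _ n ih =>
    intro w hn hw
    cases w with
    | nil =>
      rw [mon_nil, h1, map_one]
    | cons j w' =>
      have hji : j ≠ i := fun h => hw (h ▸ List.mem_cons_self)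
      generalize hW : j :: w' = w at hn hw
      have hjw : j ∈ w := hW ▸ List.mem_cons_self
      have hMh : ∀ v : List (Fin 3), i ∉ v → al Ψ i (mon v) ∈ Mh K (fun l => v.count l) :=
        fun v hv => al_Mh hΨ (List.count_eq_zero.2 hv) (mon_mem_sp fun l => rfl)
      have hB : ∀ v : List (Fin 3), i ∉ v → mon v ∈ Bi K i := fun v hv => mon_mem_sp hv
      -- monomials which contain x_j
      have hzero : ∀ v : List (Fin 3), i ∉ v → j ∈ v → ej j (al Ψ i (mon v)) = 0 := by
        intro v hv hjv
        have h2 := Mh_map (hMh v hv) (ej j).toLinearMap (0 : K) (fun u hu => by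
          refine ej_mem (List.count_pos_iff.1 ?_)
          rw [hu j]
          exact List.count_pos_iff.2 hjv)
        rw [smul_zero] at h2
        exact h2
      have hlow : ∀ p ∈ sp K (fun v => i ∉ v ∧ v.length < w.length),
          ej j (al Ψ i p) = ej j p := by
        intro p hp
        have hle : sp K (fun v => i ∉ v ∧ v.length < w.length) ≤ Bi K i :=
          sp_mono fun v hv => hv.1
        refine sp_induct (Q := fun p => ej j (al Ψ i p) = ej j p) ?_ ?_ ?_ hp
        · rw [al_zero]
        · intro p q hp hq h2 h3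
          rw [al_add hΨ (hle hp) (hle hq), map_add, map_add, h2, h3]
        · intro v c hv
          rw [al_smul hΨ (hB v hv.1), map_smul, map_smul]
          congr 1
          by_cases hjv : j ∈ v
          · rw [hzero v hv.1 hjv, ej_mem hjv]
          · rw [ej_notMem hjv]
            have h2 := Mh_map (hMh v hv.1) (ej j).toLinearMap (1 : K) (fun u hu => by
              refine ej_notMem fun h3 => hjv (List.count_pos_iff.1 ?_)
              rw [← hu j]
              exact List.count_pos_iff.2 h3)
            rw [ih v.length (by rw [← hn]; exact hv.2) v rfl hv.1, one_smul] at h2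
            exact h2
      have h2 := ej_el j (al Ψ i (mon w))
      rw [← al_el hΨ (Ne.symm hji) (one_mem i) (one_mem j) (hB w hw) (fix_one hΨ h1 j)] at h2
      have h3 := low (K := K) i j hw
      rw [← h2, ← add_sub_cancel (mon w) (el j 1 (mon w)),
        al_add hΨ (hB w hw) (sp_mono (fun v hv => hv.1) h3), map_add, hzero w hw hjw,
        hlow _ h3, zero_add, map_sub, ej_el, e1_mon, ej_mem hjw, sub_zero]

theorem al_ab {i : Fin 3} {f : Al K} (hf : f ∈ Bi K i) : ab (al Ψ i f) = ab f := by
  refine sp_induct (P := fun v => i ∉ v) (Q := fun f => ab (al Ψ i f) = ab f) ?_ ?_ ?_ hf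
  · rw [al_zero]
  · intro p q hp hq h2 h3
    rw [al_add hΨ hp hq, map_add, map_add, h2, h3]
  · intro w c hw
    have hB : mon w ∈ Bi K i := mon_mem_sp hw
    rw [al_smul hΨ hB, map_smul, map_smul]
    congr 1
    have h2 := Mh_map (al_Mh hΨ (i := i) (m := fun l => w.count l) (List.count_eq_zero.2 hw)
      (mon_mem_sp fun l => rfl)) ab.toLinearMap (ab (mon w)) (fun v hv => by
        change ab (mon v) = ab (mon w)
        rw [map_mon, map_mon]
        exact List.Perm.prod_eq ((List.perm_iff_count.2 hv).map _))
    rw [al_e1 hΨ h1 i w.length w rfl hw, one_smul] at h2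
    exact h2

end

end

end AFree
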