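import Pool.Agent.AFree.Ab

/-!
# MP_e44b8a_al: affine automorphisms (helper90)
-/

namespace AFree

noncomputable section

variable {K : Type} [Field K]

/-- the linear automorphism of an invertible matrix -/
theorem exists_lin (A : Matrix (Fin 3) (Fin 3) K) (hA : A.det ≠ 0) :
    ∃ g : Gp K, ∀ i, g (X i) = ∑ j, A i j • X j := by
  have hu : IsUnit A.det := isUnit_iff_ne_zero.2 hA
  have h1 : ∀ B C : Matrix (Fin 3) (Fin 3) K, B * C = 1 → ∀ i,
      FreeAlgebra.lift K (fun i => ∑ j, C i j • X (K := K) j) (∑ j, B i j • X j) = X i := by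
    intro B C hBC i
    rw [map_sum]
    have h2 : ∀ j, FreeAlgebra.lift K (fun i => ∑ j, C i j • X (K := K) j) (B i j • X j) =
        ∑ k, (B i j * C j k) • X k := by
      intro j
      rw [map_smul, lift_X, Finset.smul_sum]
      exact Finset.sum_congr rfl fun k _ => smul_smul _ _ _
    rw [Finset.sum_congr rfl fun j _ => h2 j, Finset.sum_comm]
    have h3 : ∀ k, ∑ j, (B i j * C j k) • X (K := K) k = if k = i then X k else 0 := by
      intro k
      rw [← Finset.sum_smul, ← Matrix.mul_apply, hBC, Matrix.one_apply]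
      by_cases h : i = k
      · rw [if_pos h, if_pos h.symm, one_smul]
      · rw [if_neg h, if_neg (Ne.symm h), zero_smul]
    rw [Finset.sum_congr rfl fun k _ => h3 k, Finset.sum_ite_eq' Finset.univ i X,
      if_pos (Finset.mem_univ i)]
  refine ⟨mk (fun i => ∑ j, A i j • X j) (fun i => ∑ j, A⁻¹ i j • X j)
    (h1 A⁻¹ A (Matrix.nonsing_inv_mul A hu)) (h1 A A⁻¹ (Matrix.mul_nonsing_inv A hu)),
    fun i => mk_X _ _ _ _ i⟩

theorem lin_mem {S : Subgroup (Gp K)} (hd : ∀ t, dg t ∈ S)
    (hl : ∀ i j, j ≠ i → ∀ c : K, el i (c • X j) ∈ S) (M : Matrix (Fin 3) (Fin 3) K)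
    (hM : M.det ≠ 0) : ∀ g : Gp K, (∀ i, g (X i) = ∑ j, M i j • X j) → g ∈ S := by
  refine Matrix.diagonal_transvection_induction_of_det_ne_zero
    (fun M => ∀ g : Gp K, (∀ i, g (X i) = ∑ j, M i j • X j) → g ∈ S) M hM ?_ ?_ ?_
  · intro D hD g hg
    rw [Matrix.det_diagonal, Finset.prod_ne_zero_iff] at hD
    have h1 : g = dg fun i => Units.mk0 (D i) (hD i (Finset.mem_univ i)) := by
      apply aut_ext
      intro i
      rw [hg, dg_X, Units.val_mk0, Finset.sum_eq_single i]
      · rw [Matrix.diagonal_apply_eq]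
      · intro j _ hj
        rw [Matrix.diagonal_apply_ne _ (Ne.symm hj), zero_smul]
      · exact fun h => absurd (Finset.mem_univ i) h
    rw [h1]
    exact hd _
  · intro t g hg
    have h1 : g = el t.i (t.c • X t.j) := by
      refine eq_el (Submodule.smul_mem _ _ (X_mem t.hij.symm)) ?_ ?_
      · rw [hg]
        have h2 : ∀ j, t.toMatrix t.i j • X (K := K) j =
            (if j = t.i then X j else 0) + (if j = t.j then t.c • X j else 0) := by
          intro j
          rw [Matrix.TransvectionStruct.toMatrix, Matrix.transvection, Matrix.add_apply,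
            Matrix.one_apply, Matrix.single_apply, add_smul]
          congr 1
          · by_cases h : t.i = j
            · rw [if_pos h, if_pos h.symm, one_smul]
            · rw [if_neg h, if_neg (Ne.symm h), zero_smul]
          · by_cases h : t.j = j
            · rw [if_pos ⟨rfl, h⟩, if_pos h.symm]
            · rw [if_neg (fun h' => h h'.2), if_neg (Ne.symm h), zero_smul]
        rw [Finset.sum_congr rfl fun j _ => h2 j, Finset.sum_add_distrib,
          Finset.sum_ite_eq' Finset.univ t.i X, Finset.sum_ite_eq' Finset.univ t.j,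
          if_pos (Finset.mem_univ _), if_pos (Finset.mem_univ _)]
      · intro k hk
        rw [hg]
        have h2 : ∀ j, t.toMatrix k j • X (K := K) j = if j = k then X j else 0 := by
          intro j
          have h3 : ¬ (t.i = k ∧ t.j = j) := fun h' => hk h'.1.symm
          rw [Matrix.TransvectionStruct.toMatrix, Matrix.transvection, Matrix.add_apply,
            Matrix.one_apply, Matrix.single_apply, if_neg h3, add_zero]
          by_cases h : k = j
          · rw [if_pos h, if_pos h.symm, one_smul]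
          · rw [if_neg h, if_neg (Ne.symm h), zero_smul]
        rw [Finset.sum_congr rfl fun j _ => h2 j, Finset.sum_ite_eq' Finset.univ k X,
          if_pos (Finset.mem_univ _)]
    rw [h1]
    exact hl _ _ t.hij.symm _
  · intro A B hA hB h1 h2 g hg
    obtain ⟨a, ha⟩ := exists_lin A hA
    obtain ⟨b, hb⟩ := exists_lin B hB
    have h3 : g = b * a := by
      apply aut_ext
      intro i
      rw [hg, mul_ap, ha, map_sum]
      have h4 : ∀ j, b (A i j • X j) = ∑ k, (A i j * B j k) • X k := by
        intro j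
        rw [map_smul, hb, Finset.smul_sum]
        exact Finset.sum_congr rfl fun k _ => smul_smul _ _ _
      rw [Finset.sum_congr rfl fun j _ => h4 j, Finset.sum_comm]
      refine Finset.sum_congr rfl fun k _ => ?_
      rw [← Finset.sum_smul, ← Matrix.mul_apply]
    rw [h3]
    exact S.mul_mem (h2 b hb) (h1 a ha)

/-- affine automorphisms -/
def IsAff (g : Gp K) : Prop :=
  ∀ i, ∃ (c : K) (m : Fin 3 → K), g (X i) = c • 1 + ∑ j, m j • X j

theorem aff_mem {S : Subgroup (Gp K)} (hd : ∀ t, dg t ∈ S)
    (hl : ∀ i j, j ≠ i → ∀ c : K, el i (c • X j) ∈ S) (hc : ∀ i (c : K), el i (c • 1) ∈ S)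
    {g : Gp K} (hg : IsAff g) : g ∈ S := by
  choose c m hcm using hg
  have hdet : (Matrix.of m).det ≠ 0 := by
    intro h0
    obtain ⟨v, hv, h1⟩ := Matrix.exists_vecMul_eq_zero_iff.2 h0
    apply hv
    have h2 : g (∑ i, v i • X i) = g ((∑ i, v i * c i) • 1) := by
      rw [map_sum, map_smul, map_one]
      have h3 : ∀ i, g (v i • X i) = (v i * c i) • 1 + ∑ j, (v i * m i j) • X j := by
        intro i
        rw [map_smul, hcm, smul_add, smul_smul, Finset.smul_sum]
        congr 1
        exact Finset.sum_congr rfl fun k _ => smul_smul _ _ _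
      rw [Finset.sum_congr rfl fun i _ => h3 i, Finset.sum_add_distrib, ← Finset.sum_smul,
        Finset.sum_comm]
      have h4 : ∀ j, ∑ i, (v i * m i j) • X (K := K) j = 0 := by
        intro j
        have h5 := congrFun h1 j
        rw [← Finset.sum_smul]
        have h6 : ∑ i, v i * m i j = 0 := h5
        rw [h6, zero_smul]
      rw [Finset.sum_eq_zero fun j _ => h4 j, add_zero]
    have h3 := g.injective h2
    funext i
    have h4 := congrArg (fun p => cf p [i]) h3
    simp only [cf_sum, cf_smul] at h4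
    rw [Finset.sum_eq_single i, ← mon_nil, cf_mon, if_neg (by simp), cf_X, if_pos rfl, mul_one,
      mul_zero] at h4
    · exact h4
    · intro j _ hj
      rw [cf_X, if_neg (fun h => hj (List.cons.inj h).1), mul_zero]
    · exact fun h => absurd (Finset.mem_univ i) h
  -- translations
  have ht : ∀ e : Fin 3 → K, ∃ h ∈ S, ∀ i, h (X i) = X i + e i • 1 := by
    intro e
    refine ⟨el 0 (e 0 • 1) * (el 1 (e 1 • 1) * el 2 (e 2 • 1)),
      S.mul_mem (hc _ _) (S.mul_mem (hc _ _) (hc _ _)), fun i => ?_⟩
    have h1 : ∀ j, e j • (1 : Al K) ∈ Bi K j := fun j => Submodule.smul_mem _ _ (one_mem j)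
    fin_cases i
    · change el 0 (e 0 • 1) (el 1 (e 1 • 1) (el 2 (e 2 • 1) (X 0))) = X 0 + e 0 • 1
      rw [el_ne _ (by decide), el_ne _ (by decide), el_self (h1 0)]
    · change el 0 (e 0 • 1) (el 1 (e 1 • 1) (el 2 (e 2 • 1) (X 1))) = X 1 + e 1 • 1
      rw [el_ne _ (by decide), el_self (h1 1), map_add, el_ne _ (by decide), map_smul, map_one]
    · change el 0 (e 0 • 1) (el 1 (e 1 • 1) (el 2 (e 2 • 1) (X 2))) = X 2 + e 2 • 1
      rw [el_self (h1 2), map_add, el_ne _ (by decide), map_smul, map_one, map_add,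
        el_ne _ (by decide), map_smul, map_one]
  obtain ⟨h, hS, hh⟩ := ht fun i => - c i
  have h1 : g * h ∈ S := by
    refine lin_mem hd hl (Matrix.of m) hdet _ fun i => ?_
    rw [mul_ap, hh, map_add, map_smul, map_one, hcm, neg_smul]
    simp only [Matrix.of_apply]
    abel
  have h2 := S.mul_mem h1 (S.inv_mem hS)
  rwa [mul_inv_cancel_right] at h2

end

end AFree
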