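import Pool.Agent.AFree.Step

/-!
# MP_e44b8a_al: elementary automorphisms are mapped to elementary automorphisms, all degrees (helper90)
-/

namespace AFree

noncomputable section

open Polynomial (aeval)

variable {K : Type} [Field K]

theorem cf_aeval (k : Fin 3) (P : Polynomial K) (a : ℕ) :
    cf (aeval (X k) P) (List.replicate a k) = P.coeff a := by
  induction P using Polynomial.induction_on' with
  | add P Q h1 h2 => rw [map_add, cf_add, h1, h2, Polynomial.coeff_add]
  | monomial n c =>
    rw [Polynomial.aeval_monomial, ← Algebra.smul_def, cf_smul, ← mon_replicate, cf_mon,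
      Polynomial.coeff_monomial]
    by_cases h : n = a
    · rw [h, if_pos rfl, if_pos rfl, mul_one]
    · rw [if_neg h, if_neg, mul_zero]
      intro h1
      have h2 := congrArg List.length h1
      rw [List.length_replicate, List.length_replicate] at h2
      exact h h2

theorem aeval_X_inj (k : Fin 3) {P Q : Polynomial K}
    (h : aeval (X (K := K) k) P = aeval (X k) Q) :
    P = Q := by
  ext a
  rw [← cf_aeval k P a, ← cf_aeval k Q a, h]

theorem aeval_mem {i k : Fin 3} (h : k ≠ i) (P : Polynomial K) :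
    aeval (X (K := K) k) P ∈ Bi K i := by
  rw [Polynomial.aeval_eq_sum_range]
  exact Submodule.sum_mem _ fun a _ => Submodule.smul_mem _ _ (Bi_pow (X_mem h) a)

theorem third (i l : Fin 3) : ∃ k : Fin 3, k ≠ i ∧ k ≠ l := by
  revert i l
  decide

section

variable [Infinite K] {Φ : Gp K ≃* Gp K}

theorem step_all (hΦ : ∀ t, Φ (dg t) = dg t) {i : Fin 3} {m : Fin 3 → ℕ} (hi : m i = 0)
    {f : Al K} (hf : f ∈ Mh K m) : ∃ f' ∈ Mh K m, Φ (el i f) = el i f' := by
  have hcw := cw_map hΦ (el_cw hi hf)
  have hcm : ∀ k, k ≠ i → ∀ n, 2 ≤ n → ∀ a, Φ (el i f) (el i (X k ^ n) a) =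
      el i (X k ^ n) (Φ (el i f) a) := by
    intro k hk n hn a
    rw [← mul_ap, comm_pow hΦ hk hn (Mh_le hi hf), mul_ap]
  generalize Φ (el i f) = g at hcw hcm
  -- the other variables
  have h1 : ∀ l, l ≠ i → ∃ β : K, β ≠ 0 ∧ g (X l) = β • X l := by
    intro l hl
    obtain ⟨k, hki, hkl⟩ := third i l
    have h2 : g (X l) ∈ Bi K i := by
      refine inv_B hki (fun w hw => ?_) ?_
      · have h3 := cw_count hcw l hw hki
        rw [count_single, count_single, if_neg (Ne.symm hkl), if_neg hl, mul_zero,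
          add_zero] at h3
        exact List.count_eq_zero.1 (Nat.eq_zero_of_add_eq_zero_right h3)
      · rw [← hcm k hki 2 le_rfl, el_ne _ hl]
    obtain ⟨β, hβ⟩ := cw_other hcw hl h2
    refine ⟨β, fun h0 => ?_, hβ⟩
    rw [h0, zero_smul] at hβ
    exact X_ne_zero l (g.injective (by rw [hβ, map_zero]))
  -- the value at `x_i`
  classical
  let P : Polynomial K := ∑ w ∈ (su (g (X i))).filter (fun w => i ∈ w),
    Polynomial.monomial (w.count i) (cf (g (X i)) w)
  let p0 : Al K := ∑ w ∈ (su (g (X i))).filter (fun w => i ∉ w), cf (g (X i)) w • mon w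
  have hp0 : p0 ∈ Mh K m := by
    refine Submodule.sum_mem _ fun w hw => Submodule.smul_mem _ _ (mon_mem_sp fun j => ?_)
    have h2 := Finset.mem_filter.1 hw
    have h0 : w.count i = 0 := List.count_eq_zero.2 h2.2
    by_cases hj : j = i
    · rw [hj, h0, hi]
    · have h3 := cw_count hcw i (mem_su.1 h2.1) hj
      rw [h0, count_single, count_single, if_neg (Ne.symm hj), if_pos rfl, mul_zero, add_zero,
        mul_one, zero_add] at h3
      exact h3
  have hdec : g (X i) = p0 + aeval (X i) P := by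
    conv_lhs => rw [sum_cf (g (X i))]
    rw [← Finset.sum_filter_add_sum_filter_not (su (g (X i))) (fun w => i ∈ w), add_comm]
    congr 1
    rw [map_sum]
    refine Finset.sum_congr rfl fun w hw => ?_
    have h2 := Finset.mem_filter.1 hw
    rw [Polynomial.aeval_monomial, ← Algebra.smul_def, ← mon_replicate,
      ← cw_rep hcw (mem_su.1 h2.1) h2.2]
  have hP0 : P.coeff 0 = 0 := by
    rw [Polynomial.finsetSum_coeff]
    refine Finset.sum_eq_zero fun w hw => ?_
    have h2 : 1 ≤ w.count i := List.count_pos_iff.2 (Finset.mem_filter.1 hw).2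
    rw [Polynomial.coeff_monomial, if_neg (by omega)]
  have hmain : ∀ k, k ≠ i → ∀ β : K, g (X k) = β • X k → ∀ n, 2 ≤ n →
      P = Polynomial.C (β ^ n) * Polynomial.X := by
    intro k hk β hβ n hn
    have h2 : el i (X k ^ n) (g (X i)) = g (X i) + β ^ n • X k ^ n := by
      rw [← hcm k hk n hn, el_self (Bi_pow (X_mem hk) n), map_add, map_pow, hβ, smul_pow]
    have h3 := congrArg (sf i 0) h2
    rw [sf_el (Bi_pow (X_mem hk) n), hdec, map_add, map_add, map_add, sf_fix _ (Mh_le hi hp0),
      sf_fix _ (Mh_le hi hp0), map_smul, sf_fix _ (Bi_pow (X_mem hk) n),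
      ← Polynomial.aeval_algHom_apply, ← Polynomial.aeval_algHom_apply, sf_self, sf_self,
      ← Polynomial.coeff_zero_eq_aeval_zero', hP0, map_zero, add_zero] at h3
    have h4 := add_left_cancel h3
    apply Polynomial.expand_injective (R := K) (n := n) (by omega)
    apply aeval_X_inj k
    rw [Polynomial.expand_aeval, h4, Polynomial.expand_aeval, map_mul, Polynomial.aeval_C,
      Polynomial.aeval_X, ← Algebra.smul_def]
  have hone : ∀ k, k ≠ i → g (X k) = X k ∧ P = Polynomial.X := by
    intro k hk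
    obtain ⟨β, hβ0, hβ⟩ := h1 k hk
    have h2 := hmain k hk β hβ 2 le_rfl
    have h3 := hmain k hk β hβ 3 (by norm_num)
    have h4 : β ^ 2 = β ^ 3 := by
      rw [h2] at h3
      have h5 := congrArg (fun Q : Polynomial K => Q.coeff 1) h3
      rwa [Polynomial.coeff_C_mul, Polynomial.coeff_C_mul, Polynomial.coeff_X_one, mul_one,
        mul_one] at h5
    have h5 : β = 1 := by
      have h6 : β ^ 2 * β = β ^ 2 * 1 := by
        rw [mul_one, ← pow_succ, h4]
      exact mul_left_cancel₀ (pow_ne_zero 2 hβ0) h6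
    rw [h5, one_smul] at hβ
    rw [h5, one_pow, Polynomial.C_1, one_mul] at h2
    exact ⟨hβ, h2⟩
  obtain ⟨k, hk, -⟩ := third i i
  refine ⟨p0, hp0, eq_el (Mh_le hi hp0) ?_ fun j hj => (hone j hj).1⟩
  rw [hdec, (hone k hk).2, Polynomial.aeval_X, add_comm]

/-- elementary automorphisms are mapped to elementary automorphisms -/
theorem step (hΦ : ∀ t, Φ (dg t) = dg t) {i : Fin 3} {f : Al K} (hf : f ∈ Bi K i) :
    ∃ f' ∈ Bi K i, Φ (el i f) = el i f' := by
  refine sp_induct (P := fun w => i ∉ w) (Q := fun f => ∃ f' ∈ Bi K i, Φ (el i f) = el i f')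
    ?_ ?_ ?_ hf
  · exact ⟨0, Submodule.zero_mem _, by rw [el_zero, map_one]⟩
  · rintro p q hp hq ⟨p', hp', h1⟩ ⟨q', hq', h2⟩
    exact ⟨p' + q', Submodule.add_mem _ hp' hq', by
      rw [el_add hp hq, map_mul, h1, h2, el_add hp' hq']⟩
  · intro w c hw
    have h0 : w.count i = 0 := List.count_eq_zero.2 hw
    obtain ⟨f', hf', h1⟩ := step_all hΦ (i := i) (m := fun j => w.count j) h0 (f := c • mon w)
      (Submodule.smul_mem _ _ (mon_mem_sp fun j => rfl))
    exact ⟨f', Mh_le h0 hf', h1⟩

end

end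

end AFree
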