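import Mathlib

/-!
# MP_e44b8a_al: the free algebra on three generators, monomials, coefficients (helper90)
-/

namespace AFree

noncomputable section

variable {K : Type} [Field K]

/-- the free associative algebra on three generators -/
abbrev Al (K : Type) [Field K] : Type := FreeAlgebra K (Fin 3)

/-- its automorphism group -/
abbrev Gp (K : Type) [Field K] : Type := Al K ≃ₐ[K] Al K

/-- the generators -/
def X (i : Fin 3) : Al K := FreeAlgebra.ι K i

/-- the monomials -/
def mon (w : List (Fin 3)) : Al K := (w.map (X (K := K))).prod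

@[simp] theorem mon_nil : mon (K := K) [] = 1 := rfl

@[simp] theorem mon_cons (i : Fin 3) (w : List (Fin 3)) : mon (K := K) (i :: w) = X i * mon w := by
  simp [mon]

theorem mon_append (v w : List (Fin 3)) : mon (K := K) (v ++ w) = mon v * mon w := by
  simp [mon]

theorem mon_single (i : Fin 3) : mon (K := K) [i] = X i := by simp

/-- the basis of monomials -/
def bl : Module.Basis (List (Fin 3)) K (Al K) :=
  (FreeAlgebra.basisFreeMonoid K (Fin 3)).reindex FreeMonoid.toList

theorem bl_apply (w : List (Fin 3)) : bl (K := K) w = mon w := by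
  unfold bl mon X
  rw [Module.Basis.reindex_apply]
  unfold FreeAlgebra.basisFreeMonoid
  rw [Module.Basis.map_apply]
  simp [FreeAlgebra.equivMonoidAlgebraFreeMonoid]

/-- the coefficients -/
def cf (p : Al K) (w : List (Fin 3)) : K := bl.repr p w

theorem cf_mon (v w : List (Fin 3)) : cf (mon (K := K) v) w = if v = w then 1 else 0 := by
  classical
  unfold cf
  rw [← bl_apply, Module.Basis.repr_self, Finsupp.single_apply]

theorem cf_mon_self (v : List (Fin 3)) : cf (mon (K := K) v) v = 1 := by
  rw [cf_mon, if_pos rfl]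

theorem cf_mon_ne {v w : List (Fin 3)} (h : v ≠ w) : cf (mon (K := K) v) w = 0 := by
  rw [cf_mon, if_neg h]

@[simp] theorem cf_add (p q : Al K) (w : List (Fin 3)) : cf (p + q) w = cf p w + cf q w := by
  simp [cf]

@[simp] theorem cf_sub (p q : Al K) (w : List (Fin 3)) : cf (p - q) w = cf p w - cf q w := by
  simp [cf]

@[simp] theorem cf_neg (p : Al K) (w : List (Fin 3)) : cf (-p) w = - cf p w := by
  simp [cf]

@[simp] theorem cf_smul (c : K) (p : Al K) (w : List (Fin 3)) : cf (c • p) w = c * cf p w := by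
  simp [cf]

@[simp] theorem cf_zero (w : List (Fin 3)) : cf (0 : Al K) w = 0 := by
  simp [cf]

theorem cf_sum {ι : Type} (s : Finset ι) (f : ι → Al K) (w : List (Fin 3)) :
    cf (∑ i ∈ s, f i) w = ∑ i ∈ s, cf (f i) w := by
  classical
  induction s using Finset.induction_on with
  | empty => simp
  | insert a s ha ih => rw [Finset.sum_insert ha, Finset.sum_insert ha, cf_add, ih]

theorem ext_cf {p q : Al K} (h : ∀ w, cf p w = cf q w) : p = q := by
  apply bl.repr.injective
  ext w
  exact h w

/-- the support -/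
def su (p : Al K) : Finset (List (Fin 3)) := (bl.repr p).support

theorem mem_su {p : Al K} {w : List (Fin 3)} : w ∈ su p ↔ cf p w ≠ 0 := by
  unfold su cf
  exact Finsupp.mem_support_iff

theorem sum_cf (p : Al K) : p = ∑ w ∈ su p, cf p w • mon w := by
  conv_lhs => rw [← bl.linearCombination_repr p]
  rw [Finsupp.linearCombination_apply, Finsupp.sum]
  refine Finset.sum_congr rfl fun w _ => ?_
  rw [bl_apply]
  rfl

/-- the span of the monomials with a property -/
def sp (K : Type) [Field K] (P : List (Fin 3) → Prop) : Submodule K (Al K) :=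
  Submodule.span K (mon '' {w | P w})

theorem mem_sp {P : List (Fin 3) → Prop} {p : Al K} : p ∈ sp K P ↔ ∀ w, cf p w ≠ 0 → P w := by
  unfold sp
  have h1 : (mon (K := K)) = fun w => bl w := by
    funext w
    exact (bl_apply w).symm
  rw [h1, Module.Basis.mem_span_image]
  constructor
  · intro h w hw
    exact h (Finset.mem_coe.2 (Finsupp.mem_support_iff.2 hw))
  · intro h w hw
    exact h w (Finsupp.mem_support_iff.1 (Finset.mem_coe.1 hw))

theorem mon_mem_sp {P : List (Fin 3) → Prop} {w : List (Fin 3)} (h : P w) : mon w ∈ sp K P :=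
  Submodule.subset_span ⟨w, h, rfl⟩

theorem sp_mono {P Q : List (Fin 3) → Prop} (h : ∀ w, P w → Q w) : sp K P ≤ sp K Q := by
  intro p hp
  rw [mem_sp] at hp ⊢
  exact fun w hw => h w (hp w hw)

theorem sp_mul {P Q R : List (Fin 3) → Prop} (h : ∀ v w, P v → Q w → R (v ++ w)) {p q : Al K}
    (hp : p ∈ sp K P) (hq : q ∈ sp K Q) : p * q ∈ sp K R := by
  unfold sp at hp hq
  refine Submodule.span_induction₂ (p := fun x y _ _ => x * y ∈ sp K R) ?_ ?_ ?_ ?_ ?_ ?_ ?_ hp hq
  · rintro x y ⟨v, hv, rfl⟩ ⟨w, hw, rfl⟩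
    rw [← mon_append]
    exact mon_mem_sp (h v w hv hw)
  · intro y _
    rw [zero_mul]
    exact Submodule.zero_mem _
  · intro y _
    rw [mul_zero]
    exact Submodule.zero_mem _
  · intro x y z _ _ _ h1 h2
    rw [add_mul]
    exact Submodule.add_mem _ h1 h2
  · intro x y z _ _ _ h1 h2
    rw [mul_add]
    exact Submodule.add_mem _ h1 h2
  · intro r x y _ _ h1
    rw [smul_mul_assoc]
    exact Submodule.smul_mem _ _ h1
  · intro r x y _ _ h1
    rw [mul_smul_comm]
    exact Submodule.smul_mem _ _ h1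

/-- linear maps agree on `sp P` if they agree on the monomials -/
theorem sp_induct {P : List (Fin 3) → Prop} {Q : Al K → Prop} (h0 : Q 0)
    (hadd : ∀ p q, p ∈ sp K P → q ∈ sp K P → Q p → Q q → Q (p + q))
    (hmon : ∀ w (c : K), P w → Q (c • mon w)) {p : Al K} (hp : p ∈ sp K P) : Q p := by
  have h1 : ∀ s : Finset (List (Fin 3)), (∀ w ∈ s, P w) → ∀ c : List (Fin 3) → K,
      Q (∑ w ∈ s, c w • mon w) ∧ ∑ w ∈ s, c w • mon w ∈ sp K P := by
    classical
    intro s
    induction s using Finset.induction_on with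
    | empty =>
      intro _ c
      rw [Finset.sum_empty]
      exact ⟨h0, Submodule.zero_mem _⟩
    | insert a s ha ih =>
      intro hs c
      rw [Finset.sum_insert ha]
      have h2 := ih (fun w hw => hs w (Finset.mem_insert_of_mem hw)) c
      have h3 : c a • mon a ∈ sp K P :=
        Submodule.smul_mem _ _ (mon_mem_sp (hs a (Finset.mem_insert_self a s)))
      exact ⟨hadd _ _ h3 h2.2 (hmon _ _ (hs a (Finset.mem_insert_self a s))) h2.1,
        Submodule.add_mem _ h3 h2.2⟩
  rw [sum_cf p]
  exact (h1 (su p) (fun w hw => mem_sp.1 hp w (mem_su.1 hw)) (cf p)).1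

theorem map_mon {C : Type} [Semiring C] [Algebra K C] (F : Al K →ₐ[K] C) (w : List (Fin 3)) :
    F (mon w) = (w.map (fun i => F (X i))).prod := by
  induction w with
  | nil => simp
  | cons i w ih => simp [ih]

theorem hom_ext_X {C : Type} [Semiring C] [Algebra K C] {F F' : Al K →ₐ[K] C}
    (h : ∀ i, F (X i) = F' (X i)) : F = F' := by
  apply FreeAlgebra.hom_ext
  funext i
  exact h i

theorem aut_ext {g h : Gp K} (H : ∀ i, g (X i) = h (X i)) : g = h := by
  have h1 : (g : Al K →ₐ[K] Al K) = (h : Al K →ₐ[K] Al K) := hom_ext_X H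
  ext a
  exact congrArg (fun F : Al K →ₐ[K] Al K => F a) h1

@[simp] theorem mul_ap (g h : Gp K) (a : Al K) : (g * h) a = g (h a) := rfl

@[simp] theorem one_ap (a : Al K) : (1 : Gp K) a = a := rfl

@[simp] theorem inv_ap (g : Gp K) (a : Al K) : g⁻¹ (g a) = a := g.symm_apply_apply a

@[simp] theorem ap_inv (g : Gp K) (a : Al K) : g (g⁻¹ a) = a := g.apply_symm_apply a

/-- the automorphism with given values -/
def mk (u v : Fin 3 → Al K) (h1 : ∀ i, FreeAlgebra.lift K u (v i) = X i)
    (h2 : ∀ i, FreeAlgebra.lift K v (u i) = X i) : Gp K :=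
  AlgEquiv.ofAlgHom (FreeAlgebra.lift K u) (FreeAlgebra.lift K v)
    (hom_ext_X fun i => by
      change FreeAlgebra.lift K u (FreeAlgebra.lift K v (FreeAlgebra.ι K i)) = X i
      rw [FreeAlgebra.lift_ι_apply]
      exact h1 i)
    (hom_ext_X fun i => by
      change FreeAlgebra.lift K v (FreeAlgebra.lift K u (FreeAlgebra.ι K i)) = X i
      rw [FreeAlgebra.lift_ι_apply]
      exact h2 i)

@[simp] theorem lift_X {C : Type} [Semiring C] [Algebra K C] (u : Fin 3 → C) (i : Fin 3) :
    FreeAlgebra.lift K u (X i) = u i := by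
  unfold X
  rw [FreeAlgebra.lift_ι_apply]

@[simp] theorem mk_X (u v : Fin 3 → Al K) (h1 h2) (i : Fin 3) : mk u v h1 h2 (X i) = u i := by
  change FreeAlgebra.lift K u (X i) = u i
  exact lift_X u i

theorem X_ne_zero (i : Fin 3) : X (K := K) i ≠ 0 := by
  intro h
  have h1 := cf_mon_self (K := K) [i]
  rw [mon_single, h, cf_zero] at h1
  exact zero_ne_one h1

/-! ### diagonal automorphisms -/

/-- diagonal automorphisms -/
def dg (t : Fin 3 → Kˣ) : Gp K :=
  mk (fun i => (t i : K) • X i) (fun i => ((t i)⁻¹ : Kˣ).val • X i)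
    (fun i => by rw [map_smul, lift_X, smul_smul, Units.inv_mul, one_smul])
    (fun i => by rw [map_smul, lift_X, smul_smul, Units.mul_inv, one_smul])

@[simp] theorem dg_X (t : Fin 3 → Kˣ) (i : Fin 3) : dg t (X i) = (t i : K) • X i := by
  unfold dg
  rw [mk_X]

theorem dg_mul (s t : Fin 3 → Kˣ) : dg s * dg t = dg (s * t) := by
  apply aut_ext
  intro i
  rw [mul_ap, dg_X, map_smul, dg_X, dg_X, smul_smul, Pi.mul_apply, Units.val_mul, mul_comm]

theorem dg_one : dg (K := K) 1 = 1 := by
  apply aut_ext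
  intro i
  rw [dg_X, Pi.one_apply, Units.val_one, one_smul]
  rfl

theorem dg_inv (t : Fin 3 → Kˣ) : (dg t)⁻¹ = dg t⁻¹ := by
  rw [inv_eq_iff_mul_eq_one, dg_mul, mul_inv_cancel, dg_one]

theorem dg_comm (s t : Fin 3 → Kˣ) : dg s * dg t = dg t * dg s := by
  rw [dg_mul, dg_mul, mul_comm]

/-- the value of a character on a monomial -/
def tw (t : Fin 3 → Kˣ) (w : List (Fin 3)) : K := (w.map (fun i => (t i : K))).prod

theorem dg_mon (t : Fin 3 → Kˣ) (w : List (Fin 3)) : dg t (mon w) = tw t w • mon w := by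
  unfold tw
  induction w with
  | nil => simp
  | cons i w ih =>
    rw [mon_cons, map_mul, ih, dg_X, List.map_cons, List.prod_cons, smul_mul_smul_comm]

theorem cf_dg (t : Fin 3 → Kˣ) (p : Al K) (w : List (Fin 3)) :
    cf (dg t p) w = tw t w * cf p w := by
  conv_lhs => rw [sum_cf p]
  rw [map_sum, cf_sum]
  have h1 : ∀ v ∈ su p, cf (dg t (cf p v • mon v)) w =
      if v = w then tw t w * cf p w else 0 := by
    intro v _
    rw [map_smul, dg_mon, cf_smul, cf_smul, cf_mon]
    by_cases h : v = w
    · subst h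
      rw [if_pos rfl, if_pos rfl]
      ring
    · rw [if_neg h, if_neg h]
      ring
  rw [Finset.sum_congr rfl h1, Finset.sum_ite_eq' (su p) w]
  split_ifs with h
  · rfl
  · have h2 : cf p w = 0 := by
      by_contra h3
      exact h (mem_su.2 h3)
    rw [h2, mul_zero]

theorem tw_append (t : Fin 3 → Kˣ) (v w : List (Fin 3)) : tw t (v ++ w) = tw t v * tw t w := by
  simp [tw]

theorem tw_single (t : Fin 3 → Kˣ) (i : Fin 3) : tw t [i] = t i := by
  simp [tw]

/-- the weights of an automorphism which commutes with a diagonal one -/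
theorem weight {g : Gp K} {t : Fin 3 → Kˣ} (h : g * dg t = dg t * g) (j : Fin 3)
    {w : List (Fin 3)} (hw : cf (g (X j)) w ≠ 0) : tw t w = t j := by
  have h1 : g (dg t (X j)) = dg t (g (X j)) := by
    rw [← mul_ap, h, mul_ap]
  rw [dg_X, map_smul] at h1
  have h2 := congrArg (fun p => cf p w) h1
  rw [cf_smul, cf_dg] at h2
  exact (mul_right_cancel₀ hw h2).symm

end

end AFree
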