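import Pool.Agent.AFree.Perm

/-!
# MP_e44b8a_al: symmetric automorphisms of the group of the diagonal automorphisms (helper90)
-/

namespace AFree

noncomputable section

variable {K : Type} [Field K]

theorem ti_mul (k : Fin 3) (u v : Kˣ) : ti k (u * v) = ti k u * ti k v := by
  funext l
  rw [Pi.mul_apply]
  unfold ti
  split_ifs
  · rfl
  · rw [mul_one]

theorem ti_one (k : Fin 3) : ti k (1 : Kˣ) = 1 := by
  funext l
  unfold ti
  split_ifs <;> rfl

theorem ti_tr (j k : Fin 3) (u : Kˣ) : (fun m => ti k u (tr j m)) = ti (tr j k) u := by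
  funext m
  unfold ti
  have h : tr j m = k ↔ m = tr j k := by
    constructor
    · intro h
      rw [← h, tr_tr]
    · intro h
      rw [h, tr_tr]
  by_cases hm : m = tr j k
  · rw [if_pos hm, if_pos (h.2 hm)]
  · rw [if_neg hm, if_neg (fun h' => hm (h.1 h'))]

theorem ti_prod (t : Fin 3 → Kˣ) : t = ti 0 (t 0) * ti 1 (t 1) * ti 2 (t 2) := by
  funext l
  rw [Pi.mul_apply, Pi.mul_apply]
  unfold ti
  fin_cases l <;> simp

theorem char_form {a : (Fin 3 → Kˣ) → (Fin 3 → Kˣ)} (hmul : ∀ s t, a (s * t) = a s * a t)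
    (hsur : Function.Surjective a) (hinj : Function.Injective a)
    (hsym : ∀ k t l, a (fun m => t (tr k m)) l = a t (tr k l)) :
    ∃ ψ : Kˣ ≃* Kˣ, ∃ η : Kˣ →* Kˣ, ∀ t l, a t l = ψ (t l) * η (t 0 * t 1 * t 2) := by
  have ha1 : a 1 = 1 := by
    have h := hmul 1 1
    rw [mul_one] at h
    exact (mul_eq_left.1 h.symm)
  let η : Kˣ →* Kˣ :=
    { toFun := fun u => a (ti 0 u) 1
      map_one' := by rw [ti_one, ha1]; rfl
      map_mul' := fun u v => by rw [ti_mul, hmul]; rfl }
  let lam : Kˣ →* Kˣ :=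
    { toFun := fun u => a (ti 0 u) 0
      map_one' := by rw [ti_one, ha1]; rfl
      map_mul' := fun u v => by rw [ti_mul, hmul]; rfl }
  have hη : ∀ u, a (ti 0 u) 1 = η u := fun _ => rfl
  have hlam : ∀ u, a (ti 0 u) 0 = lam u := fun _ => rfl
  have h2 : ∀ u, a (ti 0 u) 2 = η u := by
    intro u
    have h := hsym 0 (ti 0 u) 2
    rw [ti_tr, show tr 0 0 = 0 by decide, show tr 0 2 = 1 by decide] at h
    exact h
  have hs1 : ∀ u l, a (ti 1 u) l = a (ti 0 u) (tr 2 l) := by
    intro u l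
    have h := hsym 2 (ti 0 u) l
    rw [ti_tr, show tr 2 0 = 1 by decide] at h
    exact h
  have hs2 : ∀ u l, a (ti 2 u) l = a (ti 0 u) (tr 1 l) := by
    intro u l
    have h := hsym 1 (ti 0 u) l
    rw [ti_tr, show tr 1 0 = 2 by decide] at h
    exact h
  let ψ0 : Kˣ →* Kˣ := lam / η
  have hψ0 : ∀ u, ψ0 u = lam u / η u := fun _ => rfl
  have hform : ∀ t l, a t l = ψ0 (t l) * η (t 0 * t 1 * t 2) := by
    intro t l
    conv_lhs => rw [ti_prod t]
    rw [hmul, hmul, Pi.mul_apply, Pi.mul_apply, hs1, hs2, map_mul, map_mul, hψ0]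
    fin_cases l
    · change a (ti 0 (t 0)) 0 * a (ti 0 (t 1)) (tr 2 0) * a (ti 0 (t 2)) (tr 1 0) =
        lam (t 0) / η (t 0) * (η (t 0) * η (t 1) * η (t 2))
      rw [show tr 2 0 = 1 by decide, show tr 1 0 = 2 by decide, hlam, hη, h2, mul_assoc,
        mul_assoc, ← mul_assoc (lam (t 0) / η (t 0)), div_mul_cancel]
    · change a (ti 0 (t 0)) 1 * a (ti 0 (t 1)) (tr 2 1) * a (ti 0 (t 2)) (tr 1 1) =
        lam (t 1) / η (t 1) * (η (t 0) * η (t 1) * η (t 2))
      rw [show tr 2 1 = 0 by decide, show tr 1 1 = 1 by decide, hlam, hη, hη,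
        mul_comm (η (t 0)) (η (t 1)), mul_assoc (η (t 1)), ← mul_assoc (lam (t 1) / η (t 1)),
        div_mul_cancel, mul_comm (η (t 0)) (lam (t 1)), mul_assoc]
    · change a (ti 0 (t 0)) 2 * a (ti 0 (t 1)) (tr 2 2) * a (ti 0 (t 2)) (tr 1 2) =
        lam (t 2) / η (t 2) * (η (t 0) * η (t 1) * η (t 2))
      rw [show tr 2 2 = 2 by decide, show tr 1 2 = 0 by decide, hlam, h2, h2,
        mul_comm (η (t 0) * η (t 1)) (η (t 2)), ← mul_assoc (lam (t 2) / η (t 2)),
        div_mul_cancel, mul_comm]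
  have hinj' : Function.Injective ψ0 := by
    rw [injective_iff_map_eq_one]
    intro u hu
    have h1 : a (ti 0 u * ti 1 u⁻¹) = 1 := by
      funext l
      rw [hform]
      have h3 : (ti 0 u * ti 1 u⁻¹) 0 * (ti 0 u * ti 1 u⁻¹) 1 * (ti 0 u * ti 1 u⁻¹) 2 = 1 := by
        simp [ti]
      rw [h3, map_one, mul_one]
      fin_cases l
      · simp [ti, hu]
      · simp [ti, hu]
      · simp [ti]
    have h4 : ti 0 u * ti 1 u⁻¹ = 1 := hinj (h1.trans ha1.symm)
    have h5 := congrFun h4 0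
    simpa [ti] using h5
  have hsur' : Function.Surjective ψ0 := by
    intro v
    obtain ⟨t, ht⟩ := hsur (ti 0 v)
    refine ⟨t 0 / t 1, ?_⟩
    have h0 := hform t 0
    have h1 := hform t 1
    rw [ht] at h0 h1
    have e0 : ti 0 v 0 = v := by simp [ti]
    have e1 : ti 0 v 1 = 1 := by simp [ti]
    rw [e0] at h0
    rw [e1] at h1
    rw [map_div]
    have h6 : v = v / 1 := by rw [div_one]
    rw [h6]
    conv_rhs => rw [h0, h1]
    rw [mul_div_mul_right_eq_div]
  refine ⟨MulEquiv.ofBijective ψ0 ⟨hinj', hsur'⟩, η, fun t l => ?_⟩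
  exact hform t l

/-- additive automorphisms of the multiplicative group are field automorphisms -/
theorem exists_field (ψ : Kˣ ≃* Kˣ)
    (h : ∀ u v w : Kˣ, (u : K) + v = w → (ψ u : K) + ψ v = ψ w) :
    ∃ θ : K ≃+* K, ∀ u : Kˣ, θ u = ψ u := by
  classical
  have hneg : ψ (-1) = -1 := by
    have h1 : ψ (-1) * ψ (-1) = 1 := by
      rw [← map_mul]
      simp
    have h2 : ((ψ (-1) : Kˣ) : K) * ((ψ (-1) : Kˣ) : K) = 1 := by
      rw [← Units.val_mul, h1, Units.val_one]
    rcases mul_self_eq_one_iff.1 h2 with h3 | h3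
    · have h4 : ψ (-1) = 1 := Units.ext h3
      have h5 : (-1 : Kˣ) = 1 := ψ.injective (h4.trans (map_one ψ).symm)
      rw [h5, map_one]
    · apply Units.ext
      rw [h3, Units.val_neg, Units.val_one]
  let f : K → K := fun x => if hx : x = 0 then 0 else (ψ (Units.mk0 x hx) : K)
  have f0 : f 0 = 0 := dif_pos rfl
  have fne : ∀ x (hx : x ≠ 0), f x = (ψ (Units.mk0 x hx) : K) := fun x hx => dif_neg hx
  have fu : ∀ u : Kˣ, f u = ψ u := by
    intro u
    rw [fne u u.ne_zero, Units.mk0_val]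
  have fmul : ∀ x y, f (x * y) = f x * f y := by
    intro x y
    by_cases hx : x = 0
    · rw [hx, zero_mul, f0, zero_mul]
    · by_cases hy : y = 0
      · rw [hy, mul_zero, f0, mul_zero]
      · rw [fne x hx, fne y hy, fne _ (mul_ne_zero hx hy), ← Units.val_mul, ← map_mul]
        congr 2
        exact Units.ext rfl
  have f1 : f 1 = 1 := by
    have h1 := fu 1
    rw [Units.val_one, map_one, Units.val_one] at h1
    exact h1
  have fneg : ∀ x, f (-x) = - f x := by
    intro x
    have h1 := fu (-1)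
    rw [hneg, Units.val_neg, Units.val_one] at h1
    rw [← neg_one_mul, fmul, h1, neg_one_mul]
  have fadd : ∀ x y, f (x + y) = f x + f y := by
    intro x y
    by_cases hx : x = 0
    · rw [hx, zero_add, f0, zero_add]
    · by_cases hy : y = 0
      · rw [hy, add_zero, f0, add_zero]
      · by_cases hxy : x + y = 0
        · have h1 : y = -x := by linear_combination hxy
          rw [hxy, f0, h1, fneg, add_neg_cancel]
        · rw [fne x hx, fne y hy, fne _ hxy]
          exact (h _ _ (Units.mk0 _ hxy) rfl).symm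
  let F : K →+* K :=
    { toFun := f
      map_one' := f1
      map_mul' := fmul
      map_zero' := f0
      map_add' := fadd }
  have hF : Function.Bijective F := by
    refine ⟨F.injective, fun y => ?_⟩
    by_cases hy : y = 0
    · exact ⟨0, by rw [hy]; exact f0⟩
    · refine ⟨(ψ.symm (Units.mk0 y hy) : Kˣ), ?_⟩
      change f _ = _
      rw [fu, MulEquiv.apply_symm_apply, Units.val_mk0]
  exact ⟨RingEquiv.ofBijective F hF, fun u => fu u⟩

end

end AFree
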