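import Pool.Agent.AFree.Ab

/-!
# MP_e44b8a_al: automorphisms which are linear in two of the variables (helper90)
-/

namespace AFree

noncomputable section

open Polynomial (aeval)

variable {K : Type} [Field K]

/-- the number of the letters different from `k` -/
def ct (k : Fin 3) (w : List (Fin 3)) : ℕ := w.countP (fun x => x ≠ k)

theorem ct_nil (k : Fin 3) : ct k [] = 0 := rfl

theorem ct_cons (k x : Fin 3) (w : List (Fin 3)) :
    ct k (x :: w) = ct k w + if x = k then 0 else 1 := by
  unfold ct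
  rw [List.countP_cons]
  by_cases h : x = k
  · simp [h]
  · simp [h]

theorem ct_append (k : Fin 3) (v w : List (Fin 3)) : ct k (v ++ w) = ct k v + ct k w := by
  unfold ct
  rw [List.countP_append]

/-- the span of the monomials with `n` letters different from `k` -/
abbrev Lk (K : Type) [Field K] (k : Fin 3) (n : ℕ) : Submodule K (Al K) :=
  sp K (fun w => ct k w = n)

theorem Lk_mul {k : Fin 3} {a b : ℕ} {p q : Al K} (hp : p ∈ Lk K k a) (hq : q ∈ Lk K k b) :
    p * q ∈ Lk K k (a + b) :=
  sp_mul (P := fun w => ct k w = a) (Q := fun w => ct k w = b) (R := fun w => ct k w = a + b)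
    (fun v w hv hw => by rw [ct_append, hv, hw]) hp hq

theorem X_Lk0 (k : Fin 3) : X k ∈ Lk K k 0 := by
  rw [← mon_single]
  exact mon_mem_sp (P := fun w => ct k w = 0) (by rw [ct_cons, ct_nil, if_pos rfl])

theorem one_Lk0 (k : Fin 3) : (1 : Al K) ∈ Lk K k 0 := by
  rw [← mon_nil]
  exact mon_mem_sp (P := fun w => ct k w = 0) (ct_nil k)

/-- the torus -/
def tk (k : Fin 3) (u : Kˣ) : Fin 3 → Kˣ := fun l => if l = k then 1 else u

theorem tw_tk (k : Fin 3) (u : Kˣ) (w : List (Fin 3)) : tw (tk k u) w = (u : K) ^ ct k w := by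
  induction w with
  | nil => simp [tw, ct_nil]
  | cons l w ih =>
    have h1 : tw (tk k u) (l :: w) = (tk k u l : K) * tw (tk k u) w := by simp [tw]
    rw [h1, ih, ct_cons]
    by_cases hl : l = k
    · simp [tk, hl]
    · simp [tk, hl, pow_succ']

theorem dg_Lk {k : Fin 3} {n : ℕ} {p : Al K} (hp : p ∈ Lk K k n) (u : Kˣ) :
    dg (tk k u) p = (u : K) ^ n • p := by
  apply ext_cf
  intro w
  rw [cf_dg, cf_smul, tw_tk]
  by_cases h : cf p w = 0
  · rw [h, mul_zero, mul_zero]
  · rw [mem_sp.1 hp w h]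

theorem Lk_of_dg [Infinite K] {k : Fin 3} {n : ℕ} {p : Al K}
    (h : ∀ u, dg (tk k u) p = (u : K) ^ n • p) : p ∈ Lk K k n := by
  rw [mem_sp]
  intro w hw
  apply pow_inj (K := K)
  intro u
  have h1 := congrArg (fun q => cf q w) (h u)
  simp only [cf_dg, cf_smul, tw_tk] at h1
  exact mul_right_cancel₀ hw h1

/-- `g` is linear in the two variables different from `x_k` -/
def Ck (k : Fin 3) (g : Gp K) : Prop :=
  ∀ i, g (X i) ∈ Lk K k (if i = k then 0 else 1)

theorem Ck_iff [Infinite K] {k : Fin 3} {g : Gp K} :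
    Ck k g ↔ ∀ u, g * dg (tk k u) = dg (tk k u) * g := by
  constructor
  · intro h u
    apply aut_ext
    intro i
    rw [mul_ap, mul_ap, dg_X, map_smul, dg_Lk (h i) u]
    congr 1
    by_cases hi : i = k
    · simp [tk, hi]
    · simp [tk, hi]
  · intro h i
    refine Lk_of_dg fun u => ?_
    rw [← mul_ap, ← h u, mul_ap, dg_X, map_smul]
    congr 1
    by_cases hi : i = k
    · simp [tk, hi]
    · simp [tk, hi]

theorem Ck_inv [Infinite K] {k : Fin 3} {g : Gp K} (h : Ck k g) : Ck k g⁻¹ := by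
  rw [Ck_iff] at h ⊢
  intro u
  have h1 := h u
  calc g⁻¹ * dg (tk k u) = g⁻¹ * (dg (tk k u) * g) * g⁻¹ := by group
    _ = dg (tk k u) * g⁻¹ := by rw [← h1]; group

theorem Ck_mul [Infinite K] {k : Fin 3} {g h : Gp K} (hg : Ck k g) (hh : Ck k h) :
    Ck k (g * h) := by
  rw [Ck_iff] at hg hh ⊢
  intro u
  rw [mul_assoc, hh u, ← mul_assoc, hg u, mul_assoc]

theorem Ck_maps [Infinite K] {k : Fin 3} {g : Gp K} (h : Ck k g) {n : ℕ} {p : Al K}
    (hp : p ∈ Lk K k n) : g p ∈ Lk K k n := by
  refine Lk_of_dg fun u => ?_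
  rw [← mul_ap, ← (Ck_iff.1 h) u, mul_ap, dg_Lk hp, map_smul]

theorem Lk0_le {i k : Fin 3} (h : i ≠ k) : Lk K k 0 ≤ Bi K i := by
  refine sp_mono fun w hw hmem => ?_
  have h1 : 0 < w.countP (fun x => x ≠ k) :=
    List.countP_pos_iff.2 ⟨i, hmem, by simpa using h⟩
  unfold ct at hw
  omega

theorem Lk0_poly {k : Fin 3} {p : Al K} (hp : p ∈ Lk K k 0) : ∃ P : Polynomial K,
    p = aeval (X k) P := by
  refine sp_induct (P := fun w => ct k w = 0) (Q := fun p => ∃ P : Polynomial K,
    p = aeval (X k) P) ?_ ?_ ?_ hp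
  · exact ⟨0, by rw [map_zero]⟩
  · rintro p q _ _ ⟨P, rfl⟩ ⟨Q, rfl⟩
    exact ⟨P + Q, by rw [map_add]⟩
  · intro w c hw
    have h1 : w = List.replicate w.length k := by
      rw [List.eq_replicate_iff]
      refine ⟨rfl, fun b hb => ?_⟩
      by_contra hbk
      have h2 : 0 < w.countP (fun x => x ≠ k) :=
        List.countP_pos_iff.2 ⟨b, hb, by simpa using hbk⟩
      unfold ct at hw
      omega
    rw [h1, mon_replicate]
    exact ⟨Polynomial.monomial w.length c, by
      rw [Polynomial.aeval_monomial, Algebra.smul_def]⟩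

/-- the elementary automorphisms `x_j ↦ x_j + f(x_k)` on the linear part -/
theorem el_sub {j k : Fin 3} (hjk : j ≠ k) {f : Al K} (hf : f ∈ Lk K k 0) {v : Al K}
    (hv : v ∈ Lk K k 1) : el j f v - v ∈ Lk K k 0 := by
  refine sp_induct (P := fun w => ct k w = 1) (Q := fun v => el j f v - v ∈ Lk K k 0)
    ?_ ?_ ?_ hv
  · rw [map_zero, sub_zero]
    exact Submodule.zero_mem _
  · intro p q _ _ h1 h2
    rw [map_add, add_sub_add_comm]
    exact Submodule.add_mem _ h1 h2
  · intro w c hw
    rw [map_smul, ← smul_sub]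
    refine Submodule.smul_mem _ _ ?_
    induction w with
    | nil => rw [ct_nil] at hw; exact absurd hw (by norm_num)
    | cons x w ih =>
      rw [ct_cons] at hw
      rw [mon_cons, map_mul]
      by_cases hx : x = k
      · rw [if_pos hx, add_zero] at hw
        have h1 := ih hw
        rw [hx, el_ne _ (Ne.symm hjk), ← mul_sub]
        exact Lk_mul (a := 0) (b := 0) (X_Lk0 k) h1
      · rw [if_neg hx] at hw
        have hw0 : ct k w = 0 := by omega
        have h1 : mon w ∈ Lk K k 0 := mon_mem_sp hw0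
        rw [el_fix f (Lk0_le hjk h1)]
        by_cases hxj : x = j
        · rw [hxj, el_self (Lk0_le hjk hf), add_mul, add_sub_cancel_left]
          exact Lk_mul (a := 0) (b := 0) hf h1
        · rw [el_ne _ hxj, sub_self]
          exact Submodule.zero_mem _

/-- the part of an element of `Lk k 1` in the direction of `x_j`, modulo commutators -/
theorem ab_dir {k : Fin 3} {v : Al K} (hv : v ∈ Lk K k 1) :
    ab v = ∑ j, (if j = k then 0 else ab (el j 1 v - v) * MvPolynomial.X j) := by
  refine sp_induct (P := fun w => ct k w = 1) (Q := fun v => ab v = ∑ j, (if j = k then 0 else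
    ab (el j 1 v - v) * MvPolynomial.X j)) ?_ ?_ ?_ hv
  · rw [map_zero]
    refine (Finset.sum_eq_zero fun j _ => ?_).symm
    rw [map_zero, sub_zero, map_zero, zero_mul, ite_self]
  · intro p q _ _ h1 h2
    rw [map_add, h1, h2, ← Finset.sum_add_distrib]
    refine Finset.sum_congr rfl fun j _ => ?_
    by_cases hj : j = k
    · rw [if_pos hj, if_pos hj, if_pos hj, add_zero]
    · rw [if_neg hj, if_neg hj, if_neg hj, map_add, add_sub_add_comm, map_add, add_mul]
  · intro w c hw
    have hmain : ab (mon (K := K) w) = ∑ j, (if j = k then 0 else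
        ab (el j 1 (mon w) - mon w) * MvPolynomial.X j) := by
      induction w with
      | nil => rw [ct_nil] at hw; exact absurd hw (by norm_num)
      | cons x w ih =>
        rw [ct_cons] at hw
        rw [mon_cons, map_mul, ab_X]
        by_cases hx : x = k
        · rw [if_pos hx, add_zero] at hw
          rw [ih hw, Finset.mul_sum]
          refine Finset.sum_congr rfl fun j _ => ?_
          by_cases hj : j = k
          · rw [if_pos hj, if_pos hj, mul_zero]
          · rw [if_neg hj, if_neg hj, map_mul, el_ne _ (fun h => hj (h.symm.trans hx)),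
              ← mul_sub, map_mul, ab_X, mul_assoc]
        · rw [if_neg hx] at hw
          have hw0 : ct k w = 0 := by omega
          have h1 : mon w ∈ Lk K k 0 := mon_mem_sp hw0
          rw [Finset.sum_eq_single x]
          · rw [if_neg hx, map_mul, el_self (one_mem x), el_fix 1 (Lk0_le hx h1), add_mul,
              one_mul, add_sub_cancel_left, mul_comm]
          · intro j _ hj
            by_cases hjk : j = k
            · rw [if_pos hjk]
            · rw [if_neg hjk, map_mul, el_ne _ (Ne.symm hj), el_fix 1 (Lk0_le hjk h1), sub_self,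
                map_zero, zero_mul]
          · exact fun h => absurd (Finset.mem_univ x) h
    rw [map_smul, hmain, Finset.smul_sum]
    refine Finset.sum_congr rfl fun j _ => ?_
    by_cases hj : j = k
    · rw [if_pos hj, if_pos hj, smul_zero]
    · rw [if_neg hj, if_neg hj, map_smul, ← smul_sub, map_smul, smul_mul_assoc]

theorem ab_Xk {j k : Fin 3} (hjk : j ≠ k) {v : Al K} (hv : v ∈ Lk K k 1) :
    ab (el j (X k) v - v) = ab (el j 1 v - v) * MvPolynomial.X k := by
  have hk0 : X k ∈ Bi K j := Lk0_le hjk (X_Lk0 k)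
  refine sp_induct (P := fun w => ct k w = 1) (Q := fun v => ab (el j (X k) v - v) =
    ab (el j 1 v - v) * MvPolynomial.X k) ?_ ?_ ?_ hv
  · rw [map_zero, map_zero, sub_zero, map_zero, zero_mul]
  · intro p q _ _ h1 h2
    rw [map_add, map_add, add_sub_add_comm, add_sub_add_comm, map_add, map_add, h1, h2, add_mul]
  · intro w c hw
    have hmain : ab (el j (X k) (mon w) - mon w) =
        ab (el j 1 (mon (K := K) w) - mon w) * MvPolynomial.X k := by
      induction w with
      | nil => rw [ct_nil] at hw; exact absurd hw (by norm_num)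
      | cons x w ih =>
        rw [ct_cons] at hw
        rw [mon_cons, map_mul, map_mul]
        by_cases hx : x = k
        · rw [if_pos hx, add_zero] at hw
          rw [hx, el_ne _ (Ne.symm hjk), el_ne _ (Ne.symm hjk), ← mul_sub, ← mul_sub, map_mul,
            map_mul, ih hw, mul_assoc]
        · rw [if_neg hx] at hw
          have hw0 : ct k w = 0 := by omega
          have h1 : mon w ∈ Lk K k 0 := mon_mem_sp hw0
          rw [el_fix _ (Lk0_le hjk h1), el_fix _ (Lk0_le hjk h1)]
          by_cases hxj : x = j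
          · rw [hxj, el_self hk0, el_self (one_mem j), add_mul, add_mul, add_sub_cancel_left,
              add_sub_cancel_left, one_mul, map_mul, ab_X, mul_comm]
          · rw [el_ne _ hxj, el_ne _ hxj, sub_self, map_zero, zero_mul]
    rw [map_smul, map_smul, ← smul_sub, ← smul_sub, map_smul, map_smul, hmain, smul_mul_assoc]

/-- automorphisms which commute with the `x_j ↦ x_j + f(x_k)` -/
theorem ab_triv {k : Fin 3} {γ : Gp K} (hγ : Ck k γ)
    (hc : ∀ j, j ≠ k → ∀ f ∈ Lk K k 0, γ * el j f = el j f * γ) (a : Al K) : ab (γ a) = ab a := by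
  have hL : ∀ i, i ≠ k → γ (X i) ∈ Lk K k 1 := fun i hi => by
    have h1 := hγ i
    rwa [if_neg hi] at h1
  have hsub : ∀ i, i ≠ k → ∀ j, j ≠ k → ∀ f ∈ Lk K k 0,
      el j f (γ (X i)) - γ (X i) = if j = i then γ f else 0 := by
    intro i hi j hj f hf
    rw [← mul_ap, ← hc j hj f hf, mul_ap]
    by_cases hji : j = i
    · rw [if_pos hji, hji, el_self (Lk0_le hi hf), map_add, add_sub_cancel_left]
    · rw [if_neg hji, el_ne _ (Ne.symm hji), sub_self]
  have h1 : ∀ i, ab (γ (X i)) = ab (X i) := by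
    intro i
    by_cases hi : i = k
    · obtain ⟨j, hj, -⟩ := third k k
      have h2 := ab_Xk hj (hL j hj)
      rw [hsub j hj j hj _ (X_Lk0 k), hsub j hj j hj _ (one_Lk0 k), if_pos rfl, if_pos rfl,
        map_one, map_one, one_mul] at h2
      rw [hi, h2, ab_X]
    · rw [ab_dir (hL i hi), Finset.sum_eq_single i]
      · rw [if_neg hi, hsub i hi i hi _ (one_Lk0 k), if_pos rfl, map_one, map_one, one_mul, ab_X]
      · intro j _ hj
        by_cases hjk : j = k
        · rw [if_pos hjk]
        · rw [if_neg hjk, hsub i hi j hjk _ (one_Lk0 k), if_neg hj, map_zero, zero_mul]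
      · exact fun h => absurd (Finset.mem_univ i) h
  have h2 : ab.comp (γ : Al K →ₐ[K] Al K) = ab := hom_ext_X h1
  exact congrArg (fun F : Al K →ₐ[K] MvPolynomial (Fin 3) K => F a) h2

/-- the other two variables -/
theorem two_others (k : Fin 3) : ∃ i j : Fin 3, i ≠ k ∧ j ≠ k ∧ i ≠ j ∧
    ∀ l, l ≠ k → l = i ∨ l = j := by
  revert k
  decide

section

variable [Infinite K] {Ψ : Gp K ≃* Gp K} (hΨ : ∀ t, Ψ (dg t) = dg t) (h1 : ∀ i, al Ψ i 1 = 1)

include hΨ h1

theorem fix_Lk0 {j k : Fin 3} (hjk : j ≠ k) {f : Al K} (hf : f ∈ Lk K k 0) :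
    Ψ (el j f) = el j f := by
  obtain ⟨P, rfl⟩ := Lk0_poly hf
  exact fix_aeval hΨ h1 (Ne.symm hjk) P

theorem two_ab {k : Fin 3} {g : Gp K} (hg : Ck k g) (a : Al K) : ab (Ψ g a) = ab (g a) := by
  have hΨg : Ck k (Ψ g) := by
    rw [Ck_iff] at hg ⊢
    intro u
    rw [← hΨ, ← map_mul, hg u, map_mul]
  -- conjugates of the elementary automorphisms are fixed
  have hconj : ∀ m, m ≠ k → ∀ f ∈ Lk K k 0, Ψ (g * el m f * g⁻¹) = g * el m f * g⁻¹ := by
    intro m hm f hf
    obtain ⟨i, j, hi, hj, hij, hall⟩ := two_others k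
    have h2 : ∀ l, l ≠ k → ∃ φ ∈ Lk K k 0, (g * el m f * g⁻¹) (X l) = X l + φ := by
      intro l hl
      have h3 : g⁻¹ (X l) ∈ Lk K k 1 := by
        have := Ck_inv hg l
        rwa [if_neg hl] at this
      refine ⟨g (el m f (g⁻¹ (X l)) - g⁻¹ (X l)), Ck_maps hg (el_sub hm hf h3), ?_⟩
      rw [mul_ap, mul_ap, map_sub, ap_inv, add_sub_cancel]
    have h3 : (g * el m f * g⁻¹) (X k) = X k := by
      have h4 : g⁻¹ (X k) ∈ Lk K k 0 := by
        have := Ck_inv hg k
        rwa [if_pos rfl] at this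
      rw [mul_ap, mul_ap, el_fix f (Lk0_le hm h4), ap_inv]
    obtain ⟨φi, hφi, hi1⟩ := h2 i hi
    obtain ⟨φj, hφj, hj1⟩ := h2 j hj
    have h4 : g * el m f * g⁻¹ = el i φi * el j φj := by
      apply aut_ext
      intro l
      by_cases hlk : l = k
      · rw [hlk, h3, mul_ap, el_ne _ (Ne.symm hj), el_ne _ (Ne.symm hi)]
      · rcases hall l hlk with h | h
        · rw [h, hi1, mul_ap, el_ne _ hij, el_self (Lk0_le hi hφi)]
        · rw [h, hj1, mul_ap, el_self (Lk0_le hj hφj), map_add, el_ne _ (Ne.symm hij),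
            el_fix _ (Lk0_le hi hφj)]
    rw [h4, map_mul, fix_Lk0 hΨ h1 hi hφi, fix_Lk0 hΨ h1 hj hφj]
  have h2 : ∀ j, j ≠ k → ∀ f ∈ Lk K k 0,
      (g⁻¹ * Ψ g) * el j f = el j f * (g⁻¹ * Ψ g) := by
    intro j hj f hf
    have h3 := hconj j hj f hf
    rw [map_mul, map_mul, map_inv, fix_Lk0 hΨ h1 hj hf] at h3
    have h4 : Ψ g * el j f = g * el j f * g⁻¹ * Ψ g := by
      rw [← h3]
      group
    rw [mul_assoc, h4]
    group
  have h3 := ab_triv (Ck_mul (Ck_inv hg) hΨg) h2
  -- factor through the abelianization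
  have h4 : ∀ p q : Al K, ab p = ab q → ab (g p) = ab (g q) := by
    intro p q hpq
    have h5 : ab.comp (g : Al K →ₐ[K] Al K) =
        (MvPolynomial.aeval fun i => ab (g (X i))).comp ab := by
      apply hom_ext_X
      intro i
      change ab (g (X i)) = (MvPolynomial.aeval fun i => ab (g (X i))) (ab (X i))
      rw [ab_X, MvPolynomial.aeval_X]
    have h6 : ∀ r, ab (g r) = (MvPolynomial.aeval fun i => ab (g (X i))) (ab r) := fun r =>
      congrArg (fun F : Al K →ₐ[K] MvPolynomial (Fin 3) K => F r) h5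
    rw [h6, h6, hpq]
  have h5 := h4 _ _ (h3 a)
  rw [← mul_ap, mul_inv_cancel_left] at h5
  exact h5

end

end

end AFree
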