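import Pool.Agent.AFree.Poles
import Pool.Agent.AFree.Affine
import Pool.Agent.AFree.Two

/-!
# MP_e44b8a_al: automorphisms which preserve the diagonal automorphisms (helper90)
-/

namespace AFree

noncomputable section

open Polynomial (aeval)

variable {K : Type} [Field K]

/-- the group generated by the affine automorphisms and the elementary automorphisms with a polynomial in one
variable -/
def Pa (K : Type) [Field K] : Subgroup (Gp K) :=
  Subgroup.closure {g | IsAff g ∨ ∃ i j, j ≠ i ∧ ∃ P : Polynomial K, g = el i (aeval (X j) P)}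

/-- the tame automorphisms -/
def Tm' (K : Type) [Field K] : Subgroup (Gp K) :=
  Subgroup.closure {g | IsAff g ∨ ∃ i, ∃ f ∈ Bi K i, g = el i f}

/-- the group generated by the tame automorphisms and the automorphisms which are linear in two variables -/
def Pb (K : Type) [Field K] : Subgroup (Gp K) :=
  Subgroup.closure {g | IsAff g ∨ (∃ i, ∃ f ∈ Bi K i, g = el i f) ∨ ∃ k, Ck k g}

/-- the conclusion -/
def Concl (Φ : Gp K ≃* Gp K) : Prop :=
  ∃ (σ : Al K ≃+* Al K) (τ : K ≃+* K) (_ : IsSl σ τ),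
    (∀ g ∈ Pa K, ∀ a, Φ g a = σ (g (σ.symm a))) ∧
    (∀ g ∈ Pb K, ∀ a, ab (Φ g a) = ab (σ (g (σ.symm a)))) ∧
    (∃ α : Fin 3 → Al K → Al K, (∀ i, ∀ f ∈ Bi K i, α i f ∈ Bi K i ∧ ab (α i f) = ab f ∧
      ∀ a, Φ (el i f) a = σ (el i (α i f) (σ.symm a))) ∧
      (∀ i, ∀ f ∈ Bi K i, ∀ f' ∈ Bi K i, α i (f + f') = α i f + α i f') ∧
      (∀ i, ∀ f ∈ Bi K i, ∀ c : K, α i (c • f) = c • α i f) ∧
      ∀ i j, ∀ γ ∈ Pa K, γ (X i) = X j → (∀ f ∈ Bi K i, γ f ∈ Bi K j) →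
        ∀ f ∈ Bi K i, α j (γ f) = γ (α i f)) ∧
    ∀ g g' : Gp K, (∀ a, Φ g a = σ (g' (σ.symm a))) → (g ∈ Tm' K ↔ g' ∈ Tm' K)

theorem ab_ap (g : Gp K) {p q : Al K} (h : ab p = ab q) : ab (g p) = ab (g q) :=
  ab_sl (isSl_rg g) h

/-- the elements on which `Ψ` is the identity modulo commutators -/
def Sab (Ψ : Gp K ≃* Gp K) : Subgroup (Gp K) where
  carrier := {g | ∀ a, ab (Ψ g a) = ab (g a)}
  mul_mem' := by
    intro g h hg hh a
    rw [map_mul, mul_ap, mul_ap, hg, ab_ap g (hh a)]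
  one_mem' := by
    intro a
    rw [map_one]
  inv_mem' := by
    intro g hg a
    have h1 := hg ((Ψ g)⁻¹ a)
    rw [ap_inv] at h1
    have h2 := ab_ap g⁻¹ h1
    rw [inv_ap] at h2
    rw [map_inv]
    exact h2.symm

section

variable [Infinite K] {Ψ : Gp K ≃* Gp K} (hΨ : ∀ t, Ψ (dg t) = dg t) (h1 : ∀ i, al Ψ i 1 = 1)

include hΨ h1

theorem fix_lin {i j : Fin 3} (hj : j ≠ i) (c : K) : Ψ (el i (c • X j)) = el i (c • X j) := by
  have h := fix_aeval hΨ h1 hj (Polynomial.C c * Polynomial.X)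
  rw [map_mul, Polynomial.aeval_C, Polynomial.aeval_X, ← Algebra.smul_def] at h
  exact h

theorem fix_aff {g : Gp K} (hg : IsAff g) : Ψ g = g := by
  have h : g ∈ (Ψ.toMonoidHom.eqLocus (MonoidHom.id (Gp K))) :=
    aff_mem (S := Ψ.toMonoidHom.eqLocus (MonoidHom.id (Gp K))) (fun t => hΨ t)
      (fun i j hj c => fix_lin hΨ h1 hj c) (fun i c => fix_const hΨ h1 i c) hg
  exact h

theorem core_a {g : Gp K} (hg : g ∈ Pa K) : Ψ g = g := by
  have h : Pa K ≤ Ψ.toMonoidHom.eqLocus (MonoidHom.id (Gp K)) := by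
    unfold Pa
    rw [Subgroup.closure_le]
    rintro g (hg | ⟨i, j, hj, P, rfl⟩)
    · exact fix_aff hΨ h1 hg
    · exact fix_aeval hΨ h1 hj P
  exact h hg

theorem core_b {g : Gp K} (hg : g ∈ Pb K) (a : Al K) : ab (Ψ g a) = ab (g a) := by
  have h : Pb K ≤ Sab Ψ := by
    unfold Pb
    rw [Subgroup.closure_le]
    rintro g (hg | ⟨i, f, hf, rfl⟩ | ⟨k, hk⟩)
    · intro a
      rw [fix_aff hΨ h1 hg]
    · intro a
      rw [(al_spec hΨ hf).1]
      have h2 : ab.comp ((el i (al Ψ i f) : Gp K) : Al K →ₐ[K] Al K) =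
          ab.comp ((el i f : Gp K) : Al K →ₐ[K] Al K) := by
        apply hom_ext_X
        intro j
        change ab (el i (al Ψ i f) (X j)) = ab (el i f (X j))
        by_cases hj : j = i
        · rw [hj, el_self (al_spec hΨ hf).2, el_self hf, map_add, map_add, al_ab hΨ h1 hf]
        · rw [el_ne _ hj, el_ne _ hj]
      exact congrArg (fun F : Al K →ₐ[K] MvPolynomial (Fin 3) K => F a) h2
    · exact fun a => two_ab hΨ h1 hk a
  exact h hg a

omit [Infinite K] h1 in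
theorem symm_dg (t : Fin 3 → Kˣ) : Ψ.symm (dg t) = dg t := by
  rw [MulEquiv.symm_apply_eq, hΨ]

theorem symm_al (i : Fin 3) : al Ψ.symm i 1 = 1 := by
  unfold al
  have h : Ψ.symm (el i 1) = el i 1 := by
    rw [MulEquiv.symm_apply_eq, fix_one hΨ h1]
  rw [h, el_self (one_mem i), add_sub_cancel_left]

theorem tame_map {g : Gp K} (hg : g ∈ Tm' K) : Ψ g ∈ Tm' K := by
  have h : Tm' K ≤ (Tm' K).comap Ψ.toMonoidHom := by
    conv_lhs => unfold Tm'
    rw [Subgroup.closure_le]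
    rintro g (hg | ⟨i, f, hf, rfl⟩)
    · change Ψ g ∈ Tm' K
      rw [fix_aff hΨ h1 hg]
      exact Subgroup.subset_closure (Or.inl hg)
    · change Ψ (el i f) ∈ Tm' K
      rw [(al_spec hΨ hf).1]
      exact Subgroup.subset_closure (Or.inr ⟨i, _, (al_spec hΨ hf).2, rfl⟩)
  exact h hg

theorem concl_core : Concl Ψ := by
  refine ⟨RingEquiv.refl _, RingEquiv.refl _, fun c a => rfl, ?_, ?_, ?_, ?_⟩
  · intro g hg a
    rw [core_a hΨ h1 hg]
    rfl
  · intro g hg a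
    exact core_b hΨ h1 hg a
  · refine ⟨al Ψ, fun i f hf => ⟨(al_spec hΨ hf).2, al_ab hΨ h1 hf, fun a => ?_⟩,
      fun i f hf f' hf' => al_add hΨ hf hf', fun i f hf c => al_smul hΨ hf c,
      fun i j γ hγ hγX hγB f hf => ?_⟩
    · rw [(al_spec hΨ hf).1]
      rfl
    · have h2 : ∀ f ∈ Bi K i, γ * el i f = el j (γ f) * γ := by
        intro f hf
        apply aut_ext
        intro l
        rw [mul_ap, mul_ap]
        by_cases hl : l = i
        · rw [hl, el_self hf, map_add, hγX, el_self (hγB f hf)]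
        · rw [el_ne _ hl, el_fix _ (hγB _ (X_mem hl))]
      have h3 := congrArg Ψ (h2 f hf)
      rw [map_mul, map_mul, core_a hΨ h1 hγ, (al_spec hΨ hf).1, (al_spec hΨ (hγB f hf)).1,
        h2 _ (al_spec hΨ hf).2] at h3
      exact (el_inj (hγB _ (al_spec hΨ hf).2) (al_spec hΨ (hγB f hf)).2
        (mul_right_cancel h3)).symm
  · intro g g' h
    have h2 : Ψ g = g' := by
      ext a
      exact h a
    subst h2
    constructor
    · exact tame_map hΨ h1
    · intro h3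
      have h4 := tame_map (symm_dg hΨ) (symm_al hΨ h1) h3
      rwa [MulEquiv.symm_apply_apply] at h4

end

/-- the conclusion is preserved by semi-inner automorphisms -/
theorem Concl.trans {Φ Ψ : Gp K ≃* Gp K} {σ₀ : Al K ≃+* Al K} {τ₀ : K ≃+* K} (h₀ : IsSl σ₀ τ₀)
    (h : ∀ g, Φ g = cj σ₀ τ₀ h₀ (Ψ g)) (hΨ : Concl Ψ) : Concl Φ := by
  obtain ⟨σ, τ, hσ, h1, h2, h3, h4⟩ := hΨ
  have key : ∀ g a, Φ g a = σ₀ (Ψ g (σ₀.symm a)) := fun g a => by rw [h, cj_ap]
  refine ⟨σ.trans σ₀, τ.trans τ₀, hσ.trans h₀, ?_, ?_, ?_, ?_⟩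
  · intro g hg a
    rw [key, h1 g hg]
    rfl
  · intro g hg a
    rw [key]
    exact ab_sl h₀ (h2 g hg _)
  · obtain ⟨α, hα, hα'⟩ := h3
    refine ⟨α, fun i f hf => ⟨(hα i f hf).1, (hα i f hf).2.1, fun a => ?_⟩, hα'⟩
    rw [key, (hα i f hf).2.2]
    rfl
  · intro g g' hg
    refine h4 g g' fun a => ?_
    have h5 := hg (σ₀ a)
    rw [key, RingEquiv.symm_apply_apply] at h5
    have h6 := σ₀.injective h5
    rw [h6]
    change σ (g' (σ.symm (σ₀.symm (σ₀ a)))) = _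
    rw [RingEquiv.symm_apply_apply]

/-- conjugation by an automorphism -/
theorem Concl.conj {Φ : Gp K ≃* Gp K} (η : Gp K)
    (h : Concl (Φ.trans (MulAut.conj η⁻¹))) : Concl Φ := by
  refine Concl.trans (isSl_rg η) (fun g => ?_) h
  ext a
  rw [cj_ap]
  change Φ g a = η ((η⁻¹ * Φ g * η⁻¹⁻¹) (η⁻¹ a))
  rw [mul_ap, mul_ap, inv_inv, ap_inv, ap_inv]

theorem concl_fix [Infinite K] {Φ : Gp K ≃* Gp K} (hΦ : ∀ t, Φ (dg t) = dg t) : Concl Φ := by
  choose c hc0 hc using fun i => al_one_const hΦ i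
  let s : Fin 3 → Kˣ := fun i => Units.mk0 (c i) (hc0 i)
  apply Concl.conj (dg s)⁻¹
  rw [inv_inv]
  refine concl_core (fun t => ?_) fun i => ?_
  · change dg s * Φ (dg t) * (dg s)⁻¹ = dg t
    rw [hΦ, dg_comm, mul_inv_cancel_right]
  · unfold al
    change (dg s * Φ (el i 1) * (dg s)⁻¹) (X i) - X i = 1
    rw [(al_spec hΦ (one_mem i)).1, dg_el s (al_spec hΦ (one_mem i)).2, hc, map_smul, map_one,
      smul_smul]
    have h1 : (((s i)⁻¹ : Kˣ) : K) * c i = 1 := Units.inv_mul (s i)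
    rw [h1, one_smul, el_self (one_mem i), add_sub_cancel_left]

theorem Tm_dg (θ : K ≃+* K) (t : Fin 3 → Kˣ) :
    (cj (Tm θ) θ (Tm_sl θ)).symm (dg t) = dg (fun l => Units.map θ.symm.toMonoidHom (t l)) := by
  apply aut_ext
  intro l
  rw [cj_symm_ap, Tm_X, dg_X, (Tm_sl θ).symm, dg_X]
  have h1 : (Tm θ).symm (X l) = X l := by
    rw [RingEquiv.symm_apply_eq, Tm_X]
  rw [h1]
  rfl

theorem concl_bt [Infinite K] {Φ : Gp K ≃* Gp K} {ε : ℤ} (hε : ε = 1 ∨ ε = -1) {f : Kˣ →* Kˣ}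
    (hΦ : ∀ t, Φ (dg t) = dg (bt ε f t)) : Concl Φ := by
  rcases hε with hε | hε
  · subst hε
    refine concl_fix fun t => ?_
    rw [hΦ]
    congr 1
    funext l
    unfold bt
    rw [pos_case hΦ, mul_one, zpow_one]
  · subst hε
    exact (neg_case hΦ).elim

theorem concl_char [Infinite K] {Φ : Gp K ≃* Gp K} {a : (Fin 3 → Kˣ) → (Fin 3 → Kˣ)}
    (hΦ : ∀ t, Φ (dg t) = dg (a t)) (hsur : Function.Surjective a)
    (hsym : ∀ k t l, a (fun m => t (tr k m)) l = a t (tr k l)) : Concl Φ := by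
  have hmul : ∀ s t, a (s * t) = a s * a t := by
    intro s t
    apply dg_inj
    rw [← hΦ, ← dg_mul, map_mul, hΦ, hΦ, dg_mul]
  have hinj : Function.Injective a := by
    intro s t h
    apply dg_inj
    apply Φ.injective
    rw [hΦ, hΦ, h]
  obtain ⟨ψ, η, ha⟩ := char_form hmul hsur hinj hsym
  obtain ⟨θ, hθ⟩ := root ha hsur hΦ
  have key : ∀ ε : ℤ, (ε = 1 ∨ ε = -1) →
      (∀ u : Kˣ, Units.map θ.symm.toMonoidHom (ψ u) = u ^ ε) → Concl Φ := by
    intro ε hε hψ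
    refine Concl.trans (Tm_sl θ) (Ψ := Φ.trans (cj (Tm θ) θ (Tm_sl θ)).symm) (fun g => ?_)
      (concl_bt hε (f := (Units.map θ.symm.toMonoidHom).comp η) fun t => ?_)
    · rw [MulEquiv.trans_apply, MulEquiv.apply_symm_apply]
    · rw [MulEquiv.trans_apply, hΦ, Tm_dg]
      congr 1
      funext l
      rw [ha, map_mul, hψ]
      rfl
  rcases hθ with hθ | hθ
  · refine key 1 (Or.inl rfl) fun u => ?_
    apply Units.ext
    rw [zpow_one]
    change θ.symm ((ψ u : Kˣ) : K) = u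
    rw [← hθ, RingEquiv.symm_apply_apply]
  · refine key (-1) (Or.inr rfl) fun u => ?_
    have h1 : Units.map θ.symm.toMonoidHom (ψ u)⁻¹ = u := by
      apply Units.ext
      change θ.symm (((ψ u)⁻¹ : Kˣ) : K) = u
      rw [← hθ, RingEquiv.symm_apply_apply]
    rw [map_inv, inv_eq_iff_eq_inv] at h1
    rw [h1, zpow_neg, zpow_one]

/-- automorphisms which preserve the group of the diagonal automorphisms -/
theorem concl_T [Infinite K] {Φ : Gp K ≃* Gp K} (hΦ : ∀ t, ∃ s, Φ (dg t) = dg s)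
    (hΦ' : ∀ s, ∃ t, Φ (dg t) = dg s) : Concl Φ := by
  choose a ha using hΦ
  have hsur : Function.Surjective a := by
    intro s
    obtain ⟨t, ht⟩ := hΦ' s
    refine ⟨t, ?_⟩
    apply dg_inj
    rw [← ha, ht]
  obtain ⟨ρ, hρ⟩ := sym3 ha hsur
  apply Concl.conj (pm ρ)
  refine concl_char (a := fun t l => a t (ρ l)) (fun t => ?_) (fun s => ?_) fun k t l => ?_
  · change (pm ρ)⁻¹ * Φ (dg t) * (pm ρ)⁻¹⁻¹ = _
    have h1 := pm_dg (K := K) ρ⁻¹ (a t)
    rw [← pm_inv] at h1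
    rw [ha, h1]
    rfl
  · obtain ⟨t, ht⟩ := hsur (fun l => s (ρ.symm l))
    refine ⟨t, ?_⟩
    funext l
    change a t (ρ l) = s l
    rw [ht]
    change s (ρ.symm (ρ l)) = s l
    rw [Equiv.symm_apply_apply]
  · exact hρ k t l

end

end AFree
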