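import Pool.Agent.AFree.Basic

/-!
# MP_e44b8a_al: elementary automorphisms (helper90)
-/

namespace AFree

noncomputable section

variable {K : Type} [Field K]

/-- the polynomials without `x_i` -/
abbrev Bi (K : Type) [Field K] (i : Fin 3) : Submodule K (Al K) := sp K (fun w => i ∉ w)

/-- the multihomogeneous polynomials of multidegree `m` -/
abbrev Mh (K : Type) [Field K] (m : Fin 3 → ℕ) : Submodule K (Al K) :=
  sp K (fun w => ∀ j, w.count j = m j)

theorem lift_fix {i : Fin 3} {u : Fin 3 → Al K} (hu : ∀ j, j ≠ i → u j = X j) {p : Al K}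
    (hp : p ∈ Bi K i) : FreeAlgebra.lift K u p = p := by
  refine sp_induct (P := fun w => i ∉ w) (Q := fun p => FreeAlgebra.lift K u p = p) ?_ ?_ ?_ hp
  · exact map_zero _
  · intro p q _ _ h1 h2
    rw [map_add, h1, h2]
  · intro w c hw
    rw [map_smul, map_mon]
    congr 1
    unfold mon
    congr 1
    refine List.map_congr_left fun j hj => ?_
    rw [lift_X]
    exact hu j fun h => hw (h ▸ hj)

theorem X_mem {i j : Fin 3} (h : j ≠ i) : X j ∈ Bi K i := by
  rw [← mon_single]
  exact mon_mem_sp (by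
    rw [List.mem_singleton]
    exact fun h' => h h'.symm)

theorem one_mem (i : Fin 3) : (1 : Al K) ∈ Bi K i := by
  rw [← mon_nil]
  exact mon_mem_sp (P := fun w => i ∉ w) (by simp)

theorem Bi_mul {i : Fin 3} {p q : Al K} (hp : p ∈ Bi K i) (hq : q ∈ Bi K i) : p * q ∈ Bi K i :=
  sp_mul (P := fun w => i ∉ w) (Q := fun w => i ∉ w) (R := fun w => i ∉ w) (fun v w hv hw => by
    rw [List.mem_append]
    exact fun h => h.elim hv hw) hp hq

theorem Bi_pow {i : Fin 3} {p : Al K} (hp : p ∈ Bi K i) (n : ℕ) : p ^ n ∈ Bi K i := by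
  induction n with
  | zero => rw [pow_zero]; exact one_mem i
  | succ n ih => rw [pow_succ]; exact Bi_mul ih hp

open Classical in
/-- elementary automorphisms -/
def el (i : Fin 3) (f : Al K) : Gp K :=
  if h : f ∈ Bi K i then
    mk (fun j => if j = i then X i + f else X j) (fun j => if j = i then X i - f else X j)
      (fun j => by
        by_cases hj : j = i
        · subst hj
          rw [if_pos rfl, map_sub, lift_X, if_pos rfl,
            lift_fix (i := j) (fun k hk => if_neg hk) h, add_sub_cancel_right]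
        · rw [if_neg hj, lift_X, if_neg hj])
      (fun j => by
        by_cases hj : j = i
        · subst hj
          rw [if_pos rfl, map_add, lift_X, if_pos rfl,
            lift_fix (i := j) (fun k hk => if_neg hk) h, sub_add_cancel]
        · rw [if_neg hj, lift_X, if_neg hj])
  else 1

theorem el_self {i : Fin 3} {f : Al K} (h : f ∈ Bi K i) : el i f (X i) = X i + f := by
  unfold el
  rw [dif_pos h, mk_X, if_pos rfl]

theorem el_ne {i j : Fin 3} (f : Al K) (hj : j ≠ i) : el i f (X j) = X j := by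
  unfold el
  split_ifs with h
  · rw [mk_X, if_neg hj]
  · rfl

theorem aut_fix {i : Fin 3} {g : Gp K} (hg : ∀ j, j ≠ i → g (X j) = X j) {p : Al K}
    (hp : p ∈ Bi K i) : g p = p := by
  have h1 : (g : Al K →ₐ[K] Al K) = FreeAlgebra.lift K (fun j => g (X j)) := by
    apply hom_ext_X
    intro j
    rw [lift_X]
    rfl
  have h2 := lift_fix (i := i) (u := fun k => g (X k)) hg hp
  rw [← h1] at h2
  exact h2

theorem el_fix {i : Fin 3} (f : Al K) {p : Al K} (hp : p ∈ Bi K i) : el i f p = p :=
  aut_fix (fun _ hj => el_ne f hj) hp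

theorem el_zero (i : Fin 3) : el (K := K) i 0 = 1 := by
  apply aut_ext
  intro j
  by_cases hj : j = i
  · subst hj
    rw [el_self (Submodule.zero_mem _), add_zero]
    rfl
  · rw [el_ne _ hj]
    rfl

theorem el_add {i : Fin 3} {f g : Al K} (hf : f ∈ Bi K i) (hg : g ∈ Bi K i) :
    el i (f + g) = el i f * el i g := by
  apply aut_ext
  intro j
  by_cases hj : j = i
  · subst hj
    rw [el_self (Submodule.add_mem _ hf hg), mul_ap, el_self hg, map_add, el_self hf,
      el_fix f hg, add_assoc]
  · rw [el_ne _ hj, mul_ap, el_ne _ hj, el_ne _ hj]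

theorem el_inv {i : Fin 3} {f : Al K} (hf : f ∈ Bi K i) : (el i f)⁻¹ = el i (-f) := by
  rw [inv_eq_iff_mul_eq_one, ← el_add hf (Submodule.neg_mem _ hf), add_neg_cancel, el_zero]

theorem el_comm {i : Fin 3} {f g : Al K} (hf : f ∈ Bi K i) (hg : g ∈ Bi K i) :
    el i f * el i g = el i g * el i f := by
  rw [← el_add hf hg, ← el_add hg hf, add_comm]

theorem el_inj {i : Fin 3} {f g : Al K} (hf : f ∈ Bi K i) (hg : g ∈ Bi K i)
    (h : el i f = el i g) : f = g := by
  have h1 : el i f (X i) = el i g (X i) := by rw [h]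
  rw [el_self hf, el_self hg] at h1
  exact add_left_cancel h1

/-- an automorphism which moves only `x_i`, by an element without `x_i` -/
theorem eq_el {i : Fin 3} {g : Gp K} {f : Al K} (hf : f ∈ Bi K i) (h1 : g (X i) = X i + f)
    (h2 : ∀ j, j ≠ i → g (X j) = X j) : g = el i f := by
  apply aut_ext
  intro j
  by_cases hj : j = i
  · subst hj
    rw [h1, el_self hf]
  · rw [h2 j hj, el_ne _ hj]

/-! ### diagonal automorphisms and elementary ones -/

theorem dg_mem {P : List (Fin 3) → Prop} (t : Fin 3 → Kˣ) {p : Al K} (hp : p ∈ sp K P) :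
    dg t p ∈ sp K P := by
  rw [mem_sp] at hp ⊢
  intro w hw
  rw [cf_dg] at hw
  exact hp w (right_ne_zero_of_mul hw)

theorem dg_el (t : Fin 3 → Kˣ) {i : Fin 3} {f : Al K} (hf : f ∈ Bi K i) :
    dg t * el i f * (dg t)⁻¹ = el i (((t i)⁻¹ : Kˣ).val • dg t f) := by
  have hf' : ((t i)⁻¹ : Kˣ).val • dg t f ∈ Bi K i := Submodule.smul_mem _ _ (dg_mem t hf)
  refine eq_el hf' ?_ ?_
  · rw [dg_inv, mul_ap, mul_ap, dg_X, map_smul, el_self hf, map_smul, map_add, dg_X, smul_add,
      smul_smul]
    congr 1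
    rw [Pi.inv_apply, Units.inv_mul, one_smul]
  · intro j hj
    rw [dg_inv, mul_ap, mul_ap, dg_X, map_smul, el_ne _ hj, map_smul, dg_X, smul_smul,
      Pi.inv_apply, Units.inv_mul, one_smul]

theorem tw_count (t : Fin 3 → Kˣ) (w : List (Fin 3)) :
    tw t w = ∏ j, (t j : K) ^ w.count j := by
  induction w with
  | nil => simp [tw]
  | cons i w ih =>
    have h1 : tw t (i :: w) = (t i : K) * tw t w := by simp [tw]
    rw [h1, ih]
    have h2 : ∀ j, (t j : K) ^ (i :: w).count j = (if j = i then (t i : K) else 1) *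
        (t j : K) ^ w.count j := by
      intro j
      by_cases hj : j = i
      · subst hj
        rw [List.count_cons_self, if_pos rfl, pow_succ, mul_comm]
      · rw [List.count_cons_of_ne (fun h => hj h.symm), if_neg hj, one_mul]
    rw [Finset.prod_congr rfl fun j _ => h2 j, Finset.prod_mul_distrib,
      Finset.prod_ite_eq' Finset.univ i (fun _ => (t i : K)), if_pos (Finset.mem_univ _)]

theorem dg_Mh (t : Fin 3 → Kˣ) {m : Fin 3 → ℕ} {f : Al K} (hf : f ∈ Mh K m) :
    dg t f = (∏ j, (t j : K) ^ m j) • f := by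
  apply ext_cf
  intro w
  rw [cf_dg, cf_smul]
  by_cases h : cf f w = 0
  · rw [h, mul_zero, mul_zero]
  · rw [tw_count]
    congr 1
    refine Finset.prod_congr rfl fun j _ => ?_
    rw [mem_sp.1 hf w h j]

theorem Mh_le {m : Fin 3 → ℕ} {i : Fin 3} (hi : m i = 0) : Mh K m ≤ Bi K i := by
  refine sp_mono fun w hw => ?_
  have h1 := hw i
  rw [hi] at h1
  exact List.count_eq_zero.1 h1

/-! ### relations -/

theorem el_maps {i j : Fin 3} (hij : i ≠ j) {f g : Al K} (hgi : g ∈ Bi K i) (hgj : g ∈ Bi K j)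
    (hf : f ∈ Bi K i) : el j g f ∈ Bi K i := by
  refine sp_induct (P := fun w => i ∉ w) (Q := fun p => el j g p ∈ Bi K i) ?_ ?_ ?_ hf
  · rw [map_zero]
    exact Submodule.zero_mem _
  · intro p q _ _ h1 h2
    rw [map_add]
    exact Submodule.add_mem _ h1 h2
  · intro w c hw
    rw [map_smul]
    refine Submodule.smul_mem _ _ ?_
    induction w with
    | nil =>
      rw [mon_nil, map_one]
      exact one_mem i
    | cons k w ih =>
      rw [mon_cons, map_mul]
      have hk : k ≠ i := fun h => hw (h ▸ List.mem_cons_self)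
      refine Bi_mul ?_ (ih fun h => hw (List.mem_cons_of_mem _ h))
      by_cases hkj : k = j
      · subst hkj
        rw [el_self hgj]
        exact Submodule.add_mem _ (X_mem hk) hgi
      · rw [el_ne _ hkj]
        exact X_mem hk

theorem el_conj {i j : Fin 3} (hij : i ≠ j) {f g : Al K} (hgi : g ∈ Bi K i) (hgj : g ∈ Bi K j)
    (hf : f ∈ Bi K i) : el j g * el i f * (el j g)⁻¹ = el i (el j g f) := by
  refine eq_el (el_maps hij hgi hgj hf) ?_ ?_
  · rw [el_inv hgj, mul_ap, mul_ap, el_ne _ hij, el_self hf, map_add, el_ne _ hij]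
  · intro k hk
    rw [el_inv hgj, mul_ap, mul_ap]
    by_cases hkj : k = j
    · subst hkj
      rw [el_self (Submodule.neg_mem _ hgj), map_add, map_neg, el_ne _ hk, el_fix _ hgi, map_add,
        map_neg, el_self hgj, el_fix _ hgj, add_neg_cancel_right]
    · rw [el_ne _ hkj, el_ne _ hk, el_ne _ hkj]

end

end AFree
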