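import Pool.Agent.AFree.Core

/-!
# MP_e44b8a_al: diagonalizable and linearizable images (helper90)
-/

namespace AFree

noncomputable section

variable {K : Type} [Field K]

/-- only the diagonal automorphisms commute with all `dg t`, `t ∈ S` (no resonances) -/
def Sep (S : Set (Fin 3 → Kˣ)) : Prop :=
  ∀ (l : Fin 3) (n : Fin 3 → ℕ), (∀ t ∈ S, ∏ j, (t j : K) ^ n j = t l) →
    ∀ j, n j = if l = j then 1 else 0

/-- only linear automorphisms commute with all `dg t`, `t ∈ S` (no non-linear resonances) -/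
def LSep (S : Set (Fin 3 → Kˣ)) : Prop :=
  ∀ (l : Fin 3) (n : Fin 3 → ℕ), (∀ t ∈ S, ∏ j, (t j : K) ^ n j = t l) → ∑ j, n j = 1

/-- diagonal automorphisms -/
def IsDg (g : Gp K) : Prop := ∃ s, g = dg s

/-- linear automorphisms -/
def IsLn (g : Gp K) : Prop := ∀ l w, cf (g (X l)) w ≠ 0 → w.length = 1

theorem IsDg.ln {g : Gp K} (h : IsDg g) : IsLn g := by
  obtain ⟨s, rfl⟩ := h
  intro l w hw
  rw [dg_X, cf_smul, cf_X] at hw
  by_cases h1 : [l] = w
  · rw [← h1, List.length_singleton]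
  · rw [if_neg h1, mul_zero] at hw
    exact absurd rfl hw

theorem Sep.lsep {S : Set (Fin 3 → Kˣ)} (h : Sep S) : LSep S := by
  intro l n hn
  rw [Finset.sum_congr rfl fun j _ => h l n hn j, Finset.sum_ite_eq, if_pos (Finset.mem_univ _)]

theorem diag_of {g : Gp K} (h : ∀ l w, cf (g (X l)) w ≠ 0 → w = [l]) : IsDg g := by
  have h0 : ∀ l, cf (g (X l)) [l] ≠ 0 := by
    intro l h1
    apply gX_ne_zero g l
    rw [smul_X_of (h l), h1, zero_smul]
  refine ⟨fun l => Units.mk0 _ (h0 l), ?_⟩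
  apply aut_ext
  intro l
  rw [dg_X]
  exact smul_X_of (h l)

theorem Sep.comm {S : Set (Fin 3 → Kˣ)} (h : Sep S) {g : Gp K}
    (hg : ∀ t ∈ S, g * dg t = dg t * g) : IsDg g := by
  refine diag_of fun l w hw => eq_single fun j => ?_
  rw [count_single]
  refine h l (fun j => w.count j) (fun t ht => ?_) j
  rw [← tw_count]
  exact weight (hg t ht) l hw

theorem LSep.comm {S : Set (Fin 3 → Kˣ)} (h : LSep S) {g : Gp K}
    (hg : ∀ t ∈ S, g * dg t = dg t * g) : IsLn g := by
  intro l w hw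
  rw [← sum_count w]
  refine h l (fun j => w.count j) fun t ht => ?_
  rw [← tw_count]
  exact weight (hg t ht) l hw

theorem sep_univ [Infinite K] : Sep (Set.univ : Set (Fin 3 → Kˣ)) := by
  intro l n hn j
  apply pow_inj (K := K)
  intro u
  have h1 := hn (ti j u) (Set.mem_univ _)
  have h2 : ∏ m, ((ti j u m : Kˣ) : K) ^ n m = (u : K) ^ n j := by
    rw [Finset.prod_eq_single j]
    · unfold ti
      rw [if_pos rfl]
    · intro b _ hb
      unfold ti
      rw [if_neg hb, Units.val_one, one_pow]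
    · exact fun h => absurd (Finset.mem_univ j) h
  rw [← h2, h1]
  unfold ti
  by_cases h : l = j
  · rw [if_pos h, if_pos h, pow_one]
  · rw [if_neg h, if_neg h, Units.val_one, pow_zero]

theorem sep_const_lsep {c : Kˣ} (hc : ∀ n : ℕ, c ^ n = c → n = 1) :
    LSep ({fun _ => c} : Set (Fin 3 → Kˣ)) := by
  intro l n hn
  have h1 := hn _ (Set.mem_singleton _)
  apply hc
  apply Units.ext
  rw [Units.val_pow_eq_pow_val, ← Finset.prod_pow_eq_pow_sum]
  exact h1

/-- if the diagonal automorphisms are mapped into a conjugate of the diagonal group then onto it -/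
theorem concl_diag [Infinite K] {Φ : Gp K ≃* Gp K} (η : Gp K)
    (h : ∀ t, IsDg (η⁻¹ * Φ (dg t) * η)) : Concl Φ := by
  apply Concl.conj η
  have h1 : ∀ t, ∃ s, (Φ.trans (MulAut.conj η⁻¹)) (dg t) = dg s := by
    intro t
    obtain ⟨s, hs⟩ := h t
    refine ⟨s, ?_⟩
    rw [← hs]
    change η⁻¹ * Φ (dg t) * η⁻¹⁻¹ = _
    rw [inv_inv]
  refine concl_T h1 fun s => ?_
  obtain ⟨g, hg⟩ := (Φ.trans (MulAut.conj η⁻¹)).surjective (dg s)
  have h2 : IsDg g := by
    refine sep_univ.comm fun t _ => ?_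
    apply (Φ.trans (MulAut.conj η⁻¹)).injective
    obtain ⟨s', hs'⟩ := h1 t
    rw [map_mul, map_mul, hg, hs', dg_comm]
  obtain ⟨t, rfl⟩ := h2
  exact ⟨t, hg⟩

/-- (iii) -/
theorem concl_dd [Infinite K] {Φ : Gp K ≃* Gp K} {S : Set (Fin 3 → Kˣ)}
    (hS : ∀ g : Gp K, (∀ t ∈ S, g * dg t = dg t * g) → IsDg g) (η : Gp K)
    (h : ∀ t ∈ S, IsDg (η⁻¹ * Φ (dg t) * η)) : Concl Φ := by
  -- the inverse maps the conjugate of the diagonal group into the diagonal group
  have h1 : ∀ s, IsDg (Φ.symm (η * dg s * η⁻¹)) := by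
    intro s
    refine hS _ fun t ht => ?_
    apply Φ.injective
    obtain ⟨s', hs'⟩ := h t ht
    have h2 : Φ (dg t) = η * dg s' * η⁻¹ := by
      rw [← hs']
      group
    rw [map_mul Φ, map_mul Φ, MulEquiv.apply_symm_apply, h2]
    calc η * dg s * η⁻¹ * (η * dg s' * η⁻¹) = η * (dg s * dg s') * η⁻¹ := by group
      _ = η * (dg s' * dg s) * η⁻¹ := by rw [dg_comm]
      _ = _ := by group
  refine concl_diag η fun t => ?_
  refine sep_univ.comm fun s _ => ?_
  obtain ⟨s', hs'⟩ := h1 s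
  have h2 : dg s = η⁻¹ * Φ (dg s') * η := by
    rw [← hs', MulEquiv.apply_symm_apply]
    group
  rw [h2]
  calc η⁻¹ * Φ (dg t) * η * (η⁻¹ * Φ (dg s') * η) = η⁻¹ * (Φ (dg t) * Φ (dg s')) * η := by group
    _ = η⁻¹ * (Φ (dg s') * Φ (dg t)) * η := by rw [← map_mul, dg_comm, map_mul]
    _ = _ := by group

end

end AFree
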