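import Pool.Agent.AFree.All

/-!
# MP_e44b8a_al: leading words and codes (helper90)
-/

namespace AFree

noncomputable section

variable {K : Type} [Field K]

/-- the position of a word in the degree-lexicographic order -/
def nu : List (Fin 3) → ℕ
  | [] => 0
  | x :: w => (x.val + 1) * 3 ^ w.length + nu w

theorem nu_append (v w : List (Fin 3)) : nu (v ++ w) = nu v * 3 ^ w.length + nu w := by
  induction v with
  | nil => simp [nu]
  | cons x v ih =>
    rw [List.cons_append, nu, nu, ih, List.length_append, pow_add]
    ring

theorem nu_bd (w : List (Fin 3)) : 3 ^ w.length ≤ 2 * nu w + 1 ∧ 2 * nu w + 3 ≤ 3 * 3 ^ w.length := by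
  induction w with
  | nil => simp [nu]
  | cons x w ih =>
    rw [nu, List.length_cons, pow_succ]
    have hx : x.val ≤ 2 := by omega
    have h1 : 1 * 3 ^ w.length ≤ (x.val + 1) * 3 ^ w.length :=
      Nat.mul_le_mul_right _ (by omega)
    have h2 : (x.val + 1) * 3 ^ w.length ≤ 3 * 3 ^ w.length :=
      Nat.mul_le_mul_right _ (by omega)
    constructor
    · omega
    · omega

theorem nu_length {v w : List (Fin 3)} (h : nu v ≤ nu w) : v.length ≤ w.length := by
  by_contra hlt
  have h1 : 3 ^ (w.length + 1) ≤ 3 ^ v.length := Nat.pow_le_pow_right (by norm_num) (by omega)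
  rw [pow_succ] at h1
  have h2 := (nu_bd v).1
  have h3 := (nu_bd w).2
  omega

theorem nu_inj : ∀ v w : List (Fin 3), nu v = nu w → v = w := by
  intro v
  induction v with
  | nil =>
    intro w h
    cases w with
    | nil => rfl
    | cons y w =>
      have h1 := (nu_bd (y :: w)).1
      have h2 := nu_length h.symm.le
      simp at h2
  | cons x v ih =>
    intro w h
    have hlen : (x :: v).length = w.length := le_antisymm (nu_length h.le) (nu_length h.symm.le)
    cases w with
    | nil => simp at hlen
    | cons y w =>
      rw [List.length_cons, List.length_cons, add_left_inj] at hlen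
      rw [nu, nu, hlen] at h
      have h1 := nu_bd v
      have h2 := nu_bd w
      rw [hlen] at h1
      have hxy : x.val = y.val := by
        rcases lt_trichotomy x.val y.val with hlt | heq | hgt
        · have h3 : (x.val + 1 + 1) * 3 ^ w.length ≤ (y.val + 1) * 3 ^ w.length :=
            Nat.mul_le_mul_right _ (by omega)
          rw [add_mul (x.val + 1) 1, one_mul] at h3
          omega
        · exact heq
        · have h3 : (y.val + 1 + 1) * 3 ^ w.length ≤ (x.val + 1) * 3 ^ w.length :=
            Nat.mul_le_mul_right _ (by omega)
          rw [add_mul (y.val + 1) 1, one_mul] at h3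
          omega
      have hx : x = y := Fin.ext hxy
      rw [hx] at h
      rw [hx, ih w (by omega)]

theorem nu_mono {v v' w w' : List (Fin 3)} (h1 : nu v ≤ nu v') (h2 : nu w ≤ nu w') :
    nu (v ++ w) ≤ nu (v' ++ w') := by
  rw [nu_append, nu_append]
  have h3 : 3 ^ w.length ≤ 3 ^ w'.length := Nat.pow_le_pow_right (by norm_num) (nu_length h2)
  exact Nat.add_le_add (Nat.mul_le_mul h1 h3) h2

theorem nu_eq {v v' w w' : List (Fin 3)} (h1 : nu v ≤ nu v') (h2 : nu w ≤ nu w')
    (h : v ++ w = v' ++ w') : v = v' ∧ w = w' := by
  have h0 := congrArg nu h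
  rw [nu_append, nu_append] at h0
  have h3 : 3 ^ w.length ≤ 3 ^ w'.length := Nat.pow_le_pow_right (by norm_num) (nu_length h2)
  have h4 := Nat.mul_le_mul h1 h3
  have h5 : nu w = nu w' := by omega
  have h6 : w = w' := nu_inj _ _ h5
  subst h6
  exact ⟨List.append_cancel_right h, rfl⟩

/-- `w` is the leading word of `p` -/
def IsLd (p : Al K) (w : List (Fin 3)) : Prop := cf p w ≠ 0 ∧ ∀ u, cf p u ≠ 0 → nu u ≤ nu w

theorem exists_ld {p : Al K} (h : p ≠ 0) : ∃ w, IsLd p w := by
  have hne : (su p).Nonempty := by
    rw [Finset.nonempty_iff_ne_empty]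
    intro h0
    apply h
    rw [sum_cf p, h0, Finset.sum_empty]
  obtain ⟨w, hw, hmax⟩ := Finset.exists_max_image (su p) nu hne
  exact ⟨w, mem_su.1 hw, fun u hu => hmax u (mem_su.2 hu)⟩

theorem cf_mul (p q : Al K) (w : List (Fin 3)) :
    cf (p * q) w = ∑ u ∈ su p, ∑ v ∈ su q, cf p u * cf q v * (if u ++ v = w then 1 else 0) := by
  conv_lhs => rw [sum_cf p, sum_cf q]
  rw [Finset.sum_mul, cf_sum]
  refine Finset.sum_congr rfl fun u _ => ?_
  rw [Finset.mul_sum, cf_sum]
  refine Finset.sum_congr rfl fun v _ => ?_
  rw [smul_mul_smul_comm, ← mon_append, cf_smul, cf_mon]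

theorem ld_mul {p q : Al K} {v w : List (Fin 3)} (hp : IsLd p v) (hq : IsLd q w) :
    IsLd (p * q) (v ++ w) := by
  constructor
  · rw [cf_mul, Finset.sum_eq_single v, Finset.sum_eq_single w]
    · rw [if_pos rfl, mul_one]
      exact mul_ne_zero hp.1 hq.1
    · intro b hb hbw
      rw [if_neg, mul_zero]
      intro h
      exact hbw (List.append_cancel_left h)
    · intro h
      exact absurd (mem_su.2 hq.1) h
    · intro b hb hbv
      refine Finset.sum_eq_zero fun c hc => ?_
      rw [if_neg, mul_zero]
      intro h
      exact hbv (nu_eq (hp.2 b (mem_su.1 hb)) (hq.2 c (mem_su.1 hc)) h).1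
    · intro h
      exact absurd (mem_su.2 hp.1) h
  · intro u hu
    by_contra hlt
    apply hu
    rw [cf_mul]
    refine Finset.sum_eq_zero fun b hb => Finset.sum_eq_zero fun c hc => ?_
    rw [if_neg, mul_zero]
    intro h
    apply hlt
    rw [← h]
    exact nu_mono (hp.2 b (mem_su.1 hb)) (hq.2 c (mem_su.1 hc))

theorem ld_one : IsLd (1 : Al K) [] := by
  constructor
  · rw [← mon_nil, cf_mon_self]
    exact one_ne_zero
  · intro u hu
    by_cases h : [] = u
    · rw [← h]
    · rw [← mon_nil, cf_mon_ne h] at hu
      exact absurd rfl hu

theorem ld_mon {φ : Al K →ₐ[K] Al K} {L : Fin 3 → List (Fin 3)} (h : ∀ l, IsLd (φ (X l)) (L l))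
    (v : List (Fin 3)) : IsLd (φ (mon v)) (v.flatMap L) := by
  induction v with
  | nil =>
    rw [mon_nil, map_one]
    exact ld_one
  | cons x v ih =>
    rw [mon_cons, map_mul, List.flatMap_cons]
    exact ld_mul (h x) ih

/-- the leading word of the image of an element -/
theorem ld_map {φ : Al K →ₐ[K] Al K} {L : Fin 3 → List (Fin 3)} (h : ∀ l, IsLd (φ (X l)) (L l))
    (hL : ∀ u v : List (Fin 3), u.flatMap L = v.flatMap L → u = v) {a : Al K} (ha : a ≠ 0) :
    ∃ v ∈ su a, IsLd (φ a) (v.flatMap L) := by
  have hne : (su a).Nonempty := by
    rw [Finset.nonempty_iff_ne_empty]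
    intro h0
    apply ha
    rw [sum_cf a, h0, Finset.sum_empty]
  obtain ⟨v, hv, hmax⟩ := Finset.exists_max_image (su a)
    (fun v : List (Fin 3) => nu (v.flatMap L)) hne
  have hexp : ∀ w, cf (φ a) w = ∑ u ∈ su a, cf a u * cf (φ (mon u)) w := by
    intro w
    conv_lhs => rw [sum_cf a]
    rw [map_sum, cf_sum]
    refine Finset.sum_congr rfl fun u _ => ?_
    rw [map_smul, cf_smul]
  refine ⟨v, hv, ?_, ?_⟩
  · rw [hexp, Finset.sum_eq_single v]
    · exact mul_ne_zero (mem_su.1 hv) (ld_mon h v).1
    · intro u hu huv
      by_contra hne'
      have h1 := (ld_mon h u).2 _ (right_ne_zero_of_mul hne')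
      have h2 := hmax u hu
      exact huv (hL u v (nu_inj _ _ (le_antisymm h2 h1)))
    · intro h'
      exact absurd hv h'
  · intro w hw
    rw [hexp] at hw
    obtain ⟨u, hu, hne'⟩ := Finset.exists_ne_zero_of_sum_ne_zero hw
    exact ((ld_mon h u).2 _ (right_ne_zero_of_mul hne')).trans (hmax u hu)

/-! ### codes -/

/-- the contents are linearly independent -/
def LI (L : Fin 3 → List (Fin 3)) : Prop :=
  ∀ n : Fin 3 → ℤ, (∀ j, ∑ l, n l * ((L l).count j : ℤ) = 0) → ∀ l, n l = 0

theorem LI_ne {L : Fin 3 → List (Fin 3)} (h : LI L) (l : Fin 3) : L l ≠ [] := by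
  intro h0
  have h1 := h (fun m => if m = l then 1 else 0) (fun j => by
    rw [Finset.sum_eq_single l]
    · rw [h0, if_pos rfl, List.count_nil]
      norm_num
    · intro b _ hb
      rw [if_neg hb, zero_mul]
    · exact fun h' => absurd (Finset.mem_univ l) h') l
  rw [if_pos rfl] at h1
  exact one_ne_zero h1

theorem code_aux : ∀ M : ℕ, ∀ L : Fin 3 → List (Fin 3), ∑ l, (L l).length ≤ M → LI L →
    ∀ u v : List (Fin 3), u.flatMap L = v.flatMap L → u = v := by
  intro M
  induction M with
  | zero =>
    intro L hM hL
    have h1 : (L 0).length = 0 := by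
      have h2 : (L 0).length ≤ ∑ l, (L l).length :=
        Finset.single_le_sum (f := fun l => (L l).length) (fun _ _ => Nat.zero_le _)
          (Finset.mem_univ 0)
      omega
    exact absurd (List.length_eq_zero_iff.1 h1) (LI_ne hL 0)
  | succ M ih =>
    intro L hM hL
    -- the case that one word is a prefix of another one
    have hpre : ∀ a b : Fin 3, a ≠ b → ∀ s : List (Fin 3), L b = L a ++ s →
        ∀ u v : List (Fin 3), L a ++ u.flatMap L = L b ++ v.flatMap L → False := by
      intro a b hab s hs u v huv
      let L' : Fin 3 → List (Fin 3) := Function.update L b s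
      have hLa : L' a = L a := Function.update_of_ne hab _ _
      have hLb : L' b = s := Function.update_self _ _ _
      have hLo : ∀ l, l ≠ b → L' l = L l := fun l hl => Function.update_of_ne hl _ _
      have hlen : ∑ l, (L' l).length ≤ M := by
        have h1 : ∑ l, (L l).length = ∑ l, (L' l).length + (L a).length := by
          rw [← Finset.add_sum_erase Finset.univ (fun l => (L l).length) (Finset.mem_univ b),
            ← Finset.add_sum_erase Finset.univ (fun l => (L' l).length) (Finset.mem_univ b)]
          have h2 : ∑ l ∈ Finset.univ.erase b, (L l).length =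
              ∑ l ∈ Finset.univ.erase b, (L' l).length :=
            Finset.sum_congr rfl fun l hl => by rw [hLo l (Finset.ne_of_mem_erase hl)]
          rw [h2, hLb, hs, List.length_append]
          omega
        have h2 : 0 < (L a).length := List.length_pos_iff.2 (LI_ne hL a)
        omega
      have hLI : LI L' := by
        intro n hn
        have h1 := hL (fun l => n l - if l = a then n b else 0) (fun j => by
          have h2 := hn j
          have h3 : ∀ l, (n l - if l = a then n b else 0) * ((L l).count j : ℤ) =
              n l * ((L' l).count j : ℤ) + ((if l = b then n b * ((L a).count j : ℤ) else 0) -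
                (if l = a then n b * ((L a).count j : ℤ) else 0)) := by
            intro l
            by_cases hla : l = a
            · subst hla
              rw [if_pos rfl, if_pos rfl, if_neg hab, hLa]
              ring
            · by_cases hlb : l = b
              · subst hlb
                rw [if_neg hla, if_pos rfl, if_neg hla, hLb, hs, List.count_append]
                push_cast
                ring
              · rw [if_neg hla, if_neg hlb, if_neg hla, hLo l hlb]
                ring
          rw [Finset.sum_congr rfl fun l _ => h3 l, Finset.sum_add_distrib, h2,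
            Finset.sum_sub_distrib, Finset.sum_ite_eq' Finset.univ b,
            Finset.sum_ite_eq' Finset.univ a, if_pos (Finset.mem_univ _),
            if_pos (Finset.mem_univ _)]
          ring)
        have hb : n b = 0 := by
          have := h1 b
          rwa [if_neg (Ne.symm hab), sub_zero] at this
        intro l
        have h2 := h1 l
        rw [hb, ite_self, sub_zero] at h2
        exact h2
      let ex : List (Fin 3) → List (Fin 3) := fun w =>
        w.flatMap fun x => if x = b then [a, b] else [x]
      have hex : ∀ w : List (Fin 3), (ex w).flatMap L' = w.flatMap L := by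
        intro w
        induction w with
        | nil => rfl
        | cons x w ih' =>
          change ((x :: w).flatMap fun x => if x = b then [a, b] else [x]).flatMap L' = _
          rw [List.flatMap_cons, List.flatMap_append, List.flatMap_cons]
          change _ ++ (ex w).flatMap L' = _
          rw [ih']
          congr 1
          by_cases hx : x = b
          · rw [if_pos hx, hx, List.flatMap_cons, List.flatMap_cons, List.flatMap_nil, hLa, hLb,
              List.append_nil, ← hs]
          · rw [if_neg hx, List.flatMap_cons, List.flatMap_nil, List.append_nil, hLo x hx]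
      have h1 : (a :: ex u).flatMap L' = (a :: b :: ex v).flatMap L' := by
        rw [List.flatMap_cons, List.flatMap_cons, List.flatMap_cons, hex, hex, hLa, hLb, huv, hs,
          List.append_assoc]
      have h2 := ih L' hlen hLI _ _ h1
      rw [List.cons.injEq] at h2
      have h3 : ex u = b :: ex v := h2.2
      cases u with
      | nil =>
        change ([] : List (Fin 3)) = _ at h3
        exact absurd h3 (by simp)
      | cons x u =>
        change ((x :: u).flatMap fun x => if x = b then [a, b] else [x]) = _ at h3
        rw [List.flatMap_cons] at h3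
        by_cases hx : x = b
        · rw [if_pos hx, List.cons_append] at h3
          exact hab (List.cons.inj h3).1
        · rw [if_neg hx, List.cons_append] at h3
          exact hx (List.cons.inj h3).1
    intro u
    induction u with
    | nil =>
      intro v h
      cases v with
      | nil => rfl
      | cons b v =>
        rw [List.flatMap_nil, List.flatMap_cons] at h
        exact absurd (List.append_eq_nil_iff.1 h.symm).1 (LI_ne hL b)
    | cons a u ihu =>
      intro v h
      cases v with
      | nil =>
        rw [List.flatMap_nil, List.flatMap_cons] at h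
        exact absurd (List.append_eq_nil_iff.1 h).1 (LI_ne hL a)
      | cons b v =>
        rw [List.flatMap_cons, List.flatMap_cons] at h
        by_cases hab : a = b
        · rw [hab] at h ⊢
          rw [ihu v (List.append_cancel_left h)]
        · exfalso
          rcases List.append_eq_append_iff.1 h with ⟨s, hs, -⟩ | ⟨s, hs, -⟩
          · exact hpre a b hab s hs u v h
          · exact hpre b a (Ne.symm hab) s hs v u h.symm

/-- words with linearly independent contents form a code -/
theorem code {L : Fin 3 → List (Fin 3)} (h : LI L) {u v : List (Fin 3)}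
    (huv : u.flatMap L = v.flatMap L) : u = v :=
  code_aux _ L le_rfl h u v huv

end

end AFree
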