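import Pool.Agent.AFree.Hyp

/-!
# MP_e44b8a_al: commuting involutions of a space of dimension three (helper90)
-/

namespace AFree

noncomputable section

variable {K : Type} [Field K]

/-- signs -/
def sK (K : Type) [Field K] (b : Bool) : K := if b then -1 else 1

theorem sK_sq (b : Bool) : sK K b * sK K b = 1 := by
  cases b <;> simp [sK]

theorem sK_ne (h2 : (2 : K) ≠ 0) {b c : Bool} (h : b ≠ c) : sK K b - sK K c ≠ 0 := by
  cases b <;> cases c
  · exact absurd rfl h
  · simp only [sK]
    intro h3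
    apply h2
    simp at h3
    linear_combination h3
  · simp only [sK]
    intro h3
    apply h2
    simp at h3
    linear_combination -h3
  · exact absurd rfl h

/-- the parity -/
def par (n c : Fin 3 → Bool) : Bool := xor (n 0 && c 0) (xor (n 1 && c 1) (n 2 && c 2))

theorem exists_par : ∀ a0 a1 a2 b0 b1 b2 : Bool, ∃ n0 n1 n2 : Bool, (n0 || n1 || n2) = true ∧
    xor (n0 && a0) (xor (n1 && a1) (n2 && a2)) = false ∧
    xor (n0 && b0) (xor (n1 && b1) (n2 && b2)) = false := by decide

variable {V : Type} [AddCommGroup V] [Module K V]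

/-- powers of the involutions -/
def pw (J : Fin 3 → Module.End K V) (n : Fin 3 → Bool) (k : Fin 3) : Module.End K V :=
  if n k then J k else 1

theorem span_ind (h2 : (2 : K) ≠ 0) {J : Fin 3 → Module.End K V}
    (hc : ∀ a b, J a * J b = J b * J a) (hsq : ∀ a, J a * J a = 1) {P : V → Prop}
    (hadd : ∀ v w, P v → P w → P (v + w))
    (h : ∀ (χ : Fin 3 → Bool) (v : V), (∀ k, J k v = sK K (χ k) • v) → P v) (v : V) : P v := by
  have hJJ : ∀ k v, J k (J k v) = v := by
    intro k v
    rw [← Module.End.mul_apply, hsq, Module.End.one_apply]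
  have hJc : ∀ j k v, J j (J k v) = J k (J j v) := by
    intro j k v
    rw [← Module.End.mul_apply, hc, Module.End.mul_apply]
  -- the parts
  have hp : ∀ (k : Fin 3) (b : Bool) (v : V),
      J k ((2 : K)⁻¹ • (v + sK K b • J k v)) = sK K b • ((2 : K)⁻¹ • (v + sK K b • J k v)) := by
    intro k b v
    rw [map_smul, map_add, map_smul, hJJ, smul_comm (sK K b)]
    congr 1
    rw [smul_add, smul_smul, sK_sq, one_smul, add_comm]
  have hk : ∀ (j k : Fin 3) (b : Bool) (c : K) (v : V), J j v = c • v →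
      J j ((2 : K)⁻¹ • (v + sK K b • J k v)) = c • ((2 : K)⁻¹ • (v + sK K b • J k v)) := by
    intro j k b c v hv
    rw [map_smul, map_add, map_smul, hJc, hv, map_smul, smul_comm c]
    congr 1
    rw [smul_add, smul_comm c]
  have hs : ∀ (k : Fin 3) (v : V), v = (2 : K)⁻¹ • (v + sK K false • J k v) +
      (2 : K)⁻¹ • (v + sK K true • J k v) := by
    intro k v
    have h3 : v = (2 : K)⁻¹ • ((2 : K) • v) := by
      rw [smul_smul, inv_mul_cancel₀ h2, one_smul]
    conv_lhs => rw [h3]
    simp only [sK]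
    simp only [Bool.false_eq_true, if_false, if_true, one_smul]
    module
  have hA : ∀ (c0 c1 : Bool) (v : V), J 0 v = sK K c0 • v → J 1 v = sK K c1 • v → P v := by
    intro c0 c1 v h0 h1
    rw [hs 2 v]
    apply hadd
    · refine h ![c0, c1, false] _ fun k => ?_
      fin_cases k
      · exact hk 0 2 false _ v h0
      · exact hk 1 2 false _ v h1
      · exact hp 2 false v
    · refine h ![c0, c1, true] _ fun k => ?_
      fin_cases k
      · exact hk 0 2 true _ v h0
      · exact hk 1 2 true _ v h1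
      · exact hp 2 true v
  have hB : ∀ (c0 : Bool) (v : V), J 0 v = sK K c0 • v → P v := by
    intro c0 v h0
    rw [hs 1 v]
    apply hadd
    · exact hA c0 false _ (hk 0 1 false _ v h0) (hp 1 false v)
    · exact hA c0 true _ (hk 0 1 true _ v h0) (hp 1 true v)
  rw [hs 0 v]
  exact hadd _ _ (hB false _ (hp 0 false v)) (hB true _ (hp 0 true v))

theorem exists_char (h2 : (2 : K) ≠ 0) {J : Fin 3 → Module.End K V}
    (hc : ∀ a b, J a * J b = J b * J a) (hsq : ∀ a, J a * J a = 1)
    (hn : ∀ n : Fin 3 → Bool, (∃ k, n k = true) → pw J n 0 * pw J n 1 * pw J n 2 ≠ 1)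
    (c1 c2 : Fin 3 → Bool) :
    ∃ χ : Fin 3 → Bool, χ ≠ c1 ∧ χ ≠ c2 ∧ ∃ v : V, v ≠ 0 ∧ ∀ k, J k v = sK K (χ k) • v := by
  by_contra hcon
  push Not at hcon
  obtain ⟨n0, n1, n2, hnn, hp1, hp2⟩ := exists_par (c1 0) (c1 1) (c1 2) (c2 0) (c2 1) (c2 2)
  let n : Fin 3 → Bool := ![n0, n1, n2]
  have hk : ∃ k, n k = true := by
    by_contra hcon2
    have h0 : n0 = false := Bool.eq_false_iff.2 fun h => hcon2 ⟨0, h⟩
    have h1 : n1 = false := Bool.eq_false_iff.2 fun h => hcon2 ⟨1, h⟩
    have h2' : n2 = false := Bool.eq_false_iff.2 fun h => hcon2 ⟨2, h⟩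
    rw [h0, h1, h2'] at hnn
    exact absurd hnn (by decide)
  apply hn n hk
  ext v
  rw [Module.End.one_apply]
  refine span_ind h2 hc hsq (P := fun v => (pw J n 0 * pw J n 1 * pw J n 2) v = v) ?_ ?_ v
  · intro v w hv hw
    rw [map_add, hv, hw]
  · intro χ v hv
    by_cases hv0 : v = 0
    · rw [hv0, map_zero]
    · have hval : (pw J n 0 * pw J n 1 * pw J n 2) v = sK K (par n χ) • v := by
        have h3 : ∀ (k : Fin 3) (c : K), pw J n k (c • v) = (c * sK K (n k && χ k)) • v := by
          intro k c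
          unfold pw
          cases hnk : n k
          · simp [sK]
          · rw [if_pos rfl, map_smul, hv k, smul_smul, Bool.true_and]
        rw [Module.End.mul_apply, Module.End.mul_apply]
        have h4 : pw J n 2 v = pw J n 2 ((1 : K) • v) := by rw [one_smul]
        rw [h4, h3, h3, h3, one_mul]
        congr 1
        unfold par
        generalize (n 0 && χ 0) = b0
        generalize (n 1 && χ 1) = b1
        generalize (n 2 && χ 2) = b2
        cases b0 <;> cases b1 <;> cases b2 <;> simp [sK]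
      have hpar : par n χ = false := by
        by_cases h5 : χ = c1
        · rw [h5]
          exact hp1
        · by_cases h6 : χ = c2
          · rw [h6]
            exact hp2
          · obtain ⟨k, hk⟩ := hcon χ h5 h6 v hv0
            exact absurd (hv k) hk
      rw [hval, hpar]
      simp [sK]

/-- commuting involutions are diagonalizable -/
theorem simdiag (h2 : (2 : K) ≠ 0) [FiniteDimensional K V] (hV : Module.finrank K V = 3)
    {J : Fin 3 → Module.End K V} (hc : ∀ a b, J a * J b = J b * J a) (hsq : ∀ a, J a * J a = 1)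
    (hn : ∀ n : Fin 3 → Bool, (∃ k, n k = true) → pw J n 0 * pw J n 1 * pw J n 2 ≠ 1) :
    ∃ b : Fin 3 → V, LinearIndependent K b ∧
      ∀ M : Module.End K V, (∀ k, M * J k = J k * M) → ∀ a, ∃ m : K, M (b a) = m • b a := by
  obtain ⟨χ0, -, -, v0, hv0, hJ0⟩ := exists_char h2 hc hsq hn (fun _ => false) (fun _ => false)
  obtain ⟨χ1, h10, -, v1, hv1, hJ1⟩ := exists_char h2 hc hsq hn χ0 χ0
  obtain ⟨χ2, h20, h21, v2, hv2, hJ2⟩ := exists_char h2 hc hsq hn χ0 χ1
  obtain ⟨χ, hχ⟩ : ∃ χ : Fin 3 → Fin 3 → Bool, χ = ![χ0, χ1, χ2] := ⟨_, rfl⟩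
  obtain ⟨b, hb⟩ : ∃ b : Fin 3 → V, b = ![v0, v1, v2] := ⟨_, rfl⟩
  have hχne : ∀ i j, i ≠ j → χ i ≠ χ j := by
    intro i j hij
    rw [hχ]
    fin_cases i <;> fin_cases j
    · exact absurd rfl hij
    · exact Ne.symm h10
    · exact Ne.symm h20
    · exact h10
    · exact absurd rfl hij
    · exact Ne.symm h21
    · exact h20
    · exact h21
    · exact absurd rfl hij
  have hb0 : ∀ i, b i ≠ 0 := by
    intro i
    rw [hb]
    fin_cases i
    · exact hv0
    · exact hv1
    · exact hv2
  have hJ : ∀ i k, J k (b i) = sK K (χ i k) • b i := by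
    intro i k
    rw [hχ, hb]
    fin_cases i
    · exact hJ0 k
    · exact hJ1 k
    · exact hJ2 k
  have hsep : ∀ i j, i ≠ j → ∃ k, sK K (χ i k) - sK K (χ j k) ≠ 0 := by
    intro i j hij
    by_contra hcon
    push Not at hcon
    apply hχne i j hij
    funext k
    by_contra hne
    exact sK_ne h2 hne (hcon k)
  have hR : ∀ (g : Fin 3 → K) (k : Fin 3) (c : K), ∑ i, g i • b i = 0 →
      ∑ i, ((sK K (χ i k) - c) * g i) • b i = 0 := by
    intro g k c hg
    have h3 := congrArg (fun u => J k u - c • u) hg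
    simp only [map_zero, smul_zero, sub_zero] at h3
    rw [map_sum, Finset.smul_sum, ← Finset.sum_sub_distrib] at h3
    rw [← h3]
    refine Finset.sum_congr rfl fun i _ => ?_
    rw [map_smul, hJ]
    module
  have hli : LinearIndependent K b := by
    rw [Fintype.linearIndependent_iff]
    intro g hg a
    have hoth : ∃ p q : Fin 3, p ≠ a ∧ q ≠ a ∧ ∀ l, l = a ∨ l = p ∨ l = q :=
      ⟨a + 1, a + 2, (succ_ne a).1, (succ_ne a).2.1, (succ_ne a).2.2.2⟩
    obtain ⟨p, q, hp, hq, hall⟩ := hoth
    obtain ⟨k, hk⟩ := hsep a p (Ne.symm hp)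
    obtain ⟨k', hk'⟩ := hsep a q (Ne.symm hq)
    have h3 := hR _ k' (sK K (χ q k')) (hR g k (sK K (χ p k)) hg)
    rw [Finset.sum_eq_single a] at h3
    · rcases smul_eq_zero.1 h3 with h4 | h4
      · rcases mul_eq_zero.1 h4 with h5 | h5
        · exact absurd h5 hk'
        · rcases mul_eq_zero.1 h5 with h6 | h6
          · exact absurd h6 hk
          · exact h6
      · exact absurd h4 (hb0 a)
    · intro l _ hl
      rcases hall l with h4 | h4 | h4
      · exact absurd h4 hl
      · rw [h4, sub_self, zero_mul, mul_zero, zero_smul]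
      · rw [h4, sub_self, zero_mul, zero_smul]
    · exact fun h => absurd (Finset.mem_univ a) h
  refine ⟨b, hli, fun M hM a => ?_⟩
  have hspan : Submodule.span K (Set.range b) = ⊤ :=
    hli.span_eq_top_of_card_eq_finrank' (by rw [hV, Fintype.card_fin])
  obtain ⟨g, hg⟩ := (Submodule.mem_span_range_iff_exists_fun K).1
    (show M (b a) ∈ Submodule.span K (Set.range b) by rw [hspan]; trivial)
  refine ⟨g a, ?_⟩
  have h3 : ∀ i, i ≠ a → g i = 0 := by
    intro i hi
    obtain ⟨k, hk⟩ := hsep i a hi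
    have h4 : J k (M (b a)) = sK K (χ a k) • M (b a) := by
      rw [← Module.End.mul_apply, ← hM, Module.End.mul_apply, hJ, map_smul]
    have h5 : ∑ i, ((sK K (χ i k) - sK K (χ a k)) * g i) • b i = 0 := by
      rw [← hg, map_sum, Finset.smul_sum, ← sub_eq_zero, ← Finset.sum_sub_distrib] at h4
      rw [← h4]
      refine Finset.sum_congr rfl fun i _ => ?_
      rw [map_smul, hJ]
      module
    have h6 := (Fintype.linearIndependent_iff.1 hli) _ h5 i
    rcases mul_eq_zero.1 h6 with h7 | h7
    · exact absurd h7 hk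
    · exact h7
  rw [← hg, Finset.sum_eq_single a]
  · intro i _ hi
    rw [h3 i hi, zero_smul]
  · exact fun h => absurd (Finset.mem_univ a) h

end

end AFree
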