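import Pool.Agent.AFree.LinDiag

/-!
# MP_e44b8a_al: linear automorphisms and linearizable images (helper90)
-/

namespace AFree

noncomputable section

variable {K : Type} [Field K]

/-- linear forms -/
def emb : (Fin 3 → K) →ₗ[K] Al K where
  toFun v := ∑ j, v j • X j
  map_add' v w := by
    rw [← Finset.sum_add_distrib]
    exact Finset.sum_congr rfl fun j _ => add_smul _ _ _
  map_smul' c v := by
    rw [RingHom.id_apply, Finset.smul_sum]
    exact Finset.sum_congr rfl fun j _ => mul_smul _ _ _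

theorem emb_ap (v : Fin 3 → K) : emb v = ∑ j, v j • X j := rfl

theorem cf_emb_ne (v : Fin 3 → K) {w : List (Fin 3)} (h : cf (emb v) w ≠ 0) : w.length = 1 := by
  by_contra hw
  apply h
  rw [emb_ap, cf_sum]
  refine Finset.sum_eq_zero fun j _ => ?_
  rw [cf_smul, cf_X, if_neg, mul_zero]
  intro h1
  apply hw
  rw [← h1, List.length_singleton]

theorem cf_emb (v : Fin 3 → K) (j : Fin 3) : cf (emb v) [j] = v j := by
  rw [emb_ap, cf_sum, Finset.sum_eq_single j]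
  · rw [cf_smul, cf_X_self, mul_one]
  · intro i _ hi
    rw [cf_smul, cf_X, if_neg, mul_zero]
    intro h1
    exact hi (List.cons.inj h1).1
  · exact fun h => absurd (Finset.mem_univ j) h

theorem eq_emb {p : Al K} (h : ∀ w, cf p w ≠ 0 → w.length = 1) :
    p = emb (fun j => cf p [j]) := by
  apply ext_cf
  intro w
  by_cases hw : w.length = 1
  · obtain ⟨j, rfl⟩ := List.length_eq_one_iff.1 hw
    rw [cf_emb]
  · have h1 : cf p w = 0 := by
      by_contra h2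
      exact hw (h w h2)
    have h2 : cf (emb fun j => cf p [j]) w = 0 := by
      by_contra h2
      exact hw (cf_emb_ne _ h2)
    rw [h1, h2]

theorem emb_inj {v w : Fin 3 → K} (h : emb v = emb w) : v = w := by
  funext j
  rw [← cf_emb v j, h, cf_emb]

/-- the linear map of an automorphism -/
def Lg (g : Gp K) : Module.End K (Fin 3 → K) where
  toFun v := fun j => cf (g (emb v)) [j]
  map_add' v w := by
    funext j
    change cf (g (emb (v + w))) [j] = cf (g (emb v)) [j] + cf (g (emb w)) [j]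
    rw [map_add, map_add, cf_add]
  map_smul' c v := by
    funext j
    change cf (g (emb (c • v))) [j] = c * cf (g (emb v)) [j]
    rw [map_smul, map_smul, cf_smul]

theorem Lg_ap (g : Gp K) (v : Fin 3 → K) (j : Fin 3) : Lg g v j = cf (g (emb v)) [j] := rfl

theorem IsLn.ap {g : Gp K} (h : IsLn g) (v : Fin 3 → K) : g (emb v) = emb (Lg g v) := by
  apply eq_emb
  intro w hw
  by_contra h1
  apply hw
  rw [emb_ap, map_sum, cf_sum]
  refine Finset.sum_eq_zero fun j _ => ?_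
  rw [map_smul, cf_smul]
  have h2 : cf (g (X j)) w = 0 := by
    by_contra h3
    exact h1 (h j w h3)
  rw [h2, mul_zero]

theorem Lg_mul (g : Gp K) {h : Gp K} (hh : IsLn h) : Lg (g * h) = Lg g * Lg h := by
  apply LinearMap.ext
  intro v
  funext j
  rw [Lg_ap, mul_ap, hh.ap, Module.End.mul_apply, Lg_ap]

theorem Lg_one : Lg (1 : Gp K) = 1 := by
  apply LinearMap.ext
  intro v
  funext j
  rw [Lg_ap, Module.End.one_apply]
  exact cf_emb v j

theorem IsLn.eq_one {g : Gp K} (h : IsLn g) (h1 : Lg g = 1) : g = 1 := by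
  apply aut_ext
  intro i
  have h2 : X (K := K) i = emb (Pi.single i 1) := by
    rw [emb_ap, Finset.sum_eq_single i]
    · rw [Pi.single_eq_same, one_smul]
    · intro j _ hj
      rw [Pi.single_eq_of_ne hj, zero_smul]
    · exact fun h => absurd (Finset.mem_univ i) h
  rw [h2, h.ap, h1]
  rfl

/-- the signs -/
def tsg (n : Fin 3 → Bool) (k : Fin 3) : Fin 3 → Kˣ := if n k then ti k (-1) else 1

theorem tsg_prod (n : Fin 3 → Bool) (k : Fin 3) :
    (tsg n 0 * tsg n 1 * tsg n 2 : Fin 3 → Kˣ) k = if n k then -1 else 1 := by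
  have h : ∀ j, (tsg n j : Fin 3 → Kˣ) k = if k = j then (if n k then -1 else 1) else 1 := by
    intro j
    unfold tsg ti
    by_cases h1 : k = j
    · subst h1
      rw [if_pos rfl]
      by_cases h2 : n k = true
      · rw [if_pos h2, if_pos rfl, if_pos h2]
      · rw [if_neg h2, if_neg h2]
        rfl
    · rw [if_neg h1]
      by_cases h2 : n j = true
      · rw [if_pos h2, if_neg h1]
      · rw [if_neg h2]
        rfl
  rw [Pi.mul_apply, Pi.mul_apply, h, h, h]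
  fin_cases k <;> simp

theorem simlin (h2 : (2 : K) ≠ 0) {Θ : Gp K ≃* Gp K} (h : ∀ t, IsLn (Θ (dg t))) :
    ∃ η : Gp K, ∀ t, IsDg (η⁻¹ * Θ (dg t) * η) := by
  obtain ⟨J, hJ⟩ : ∃ J : Fin 3 → Module.End K (Fin 3 → K), J = fun k => Lg (Θ (dg (ti k (-1)))) :=
    ⟨_, rfl⟩
  have hmul : ∀ s t, Lg (Θ (dg s)) * Lg (Θ (dg t)) = Lg (Θ (dg (s * t))) := by
    intro s t
    rw [← dg_mul, map_mul, Lg_mul _ (h t)]
  have hone : Lg (Θ (dg 1)) = 1 := by
    rw [dg_one, map_one, Lg_one]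
  have hc : ∀ a b, J a * J b = J b * J a := by
    intro a b
    rw [hJ]
    simp only
    rw [hmul, hmul, mul_comm]
  have hsq : ∀ a, J a * J a = 1 := by
    intro a
    rw [hJ]
    simp only
    rw [hmul, ← hone]
    congr 3
    funext k
    rw [Pi.mul_apply, Pi.one_apply]
    unfold ti
    by_cases h1 : k = a
    · rw [if_pos h1, neg_mul_neg, one_mul]
    · rw [if_neg h1, one_mul]
  have hpw : ∀ n k, pw J n k = Lg (Θ (dg (tsg n k))) := by
    intro n k
    unfold pw tsg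
    by_cases h1 : n k = true
    · rw [if_pos h1, if_pos h1, hJ]
    · rw [if_neg h1, if_neg h1, hone]
  have hn : ∀ n : Fin 3 → Bool, (∃ k, n k = true) → pw J n 0 * pw J n 1 * pw J n 2 ≠ 1 := by
    rintro n ⟨k, hk⟩ h1
    rw [hpw, hpw, hpw, hmul, hmul] at h1
    have h3 := (h _).eq_one h1
    rw [← map_one Θ] at h3
    have h4 := Θ.injective h3
    rw [← dg_one] at h4
    have h5 := congrFun (dg_inj h4) k
    rw [tsg_prod, if_pos hk, Pi.one_apply] at h5
    apply h2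
    have h6 := congrArg (fun u : Kˣ => (u : K)) h5
    simp only [Units.val_neg, Units.val_one] at h6
    linear_combination -h6
  obtain ⟨b, hb, hM⟩ := simdiag h2 (by rw [Module.finrank_fintype_fun_eq_card, Fintype.card_fin])
    hc hsq hn
  have hdet : (Matrix.of b).det ≠ 0 := by
    intro h0
    obtain ⟨v, hv, h1⟩ := Matrix.exists_vecMul_eq_zero_iff.2 h0
    apply hv
    funext i
    refine Fintype.linearIndependent_iff.1 hb v ?_ i
    funext j
    rw [Finset.sum_apply]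
    exact congrFun h1 j
  obtain ⟨η, hη⟩ := exists_lin (Matrix.of b) hdet
  refine ⟨η, fun t => ?_⟩
  have hηb : ∀ a, η (X a) = emb (b a) := fun a => hη a
  have hcomm : ∀ k, Lg (Θ (dg t)) * J k = J k * Lg (Θ (dg t)) := by
    intro k
    rw [hJ]
    simp only
    rw [hmul, hmul, mul_comm]
  refine diag_of fun l w hw => ?_
  obtain ⟨m, hm⟩ := hM _ hcomm l
  rw [mul_ap, mul_ap, hηb, (h t).ap, hm, map_smul, map_smul, ← hηb, inv_ap, cf_smul, cf_X] at hw
  by_contra h1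
  apply hw
  rw [if_neg (fun h3 => h1 h3.symm), mul_zero]

/-- homotheties commute with diagonal automorphisms -/
theorem ln_of_comm [Infinite K] {g : Gp K} (h : ∀ c : Kˣ, g * dg (fun _ => c) = dg (fun _ => c) * g) :
    IsLn g := by
  intro l w hw
  rw [← sum_count w]
  apply pow_inj (K := K)
  intro u
  have h1 := weight (h u) l hw
  rw [tw_count, Finset.prod_pow_eq_pow_sum] at h1
  rw [pow_one]
  exact h1

theorem dg_const_comm [Infinite K] {g : Gp K} (hg : IsLn g) (c : Kˣ) :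
    g * dg (fun _ => c) = dg (fun _ => c) * g := by
  apply aut_ext
  intro i
  rw [mul_ap, mul_ap, dg_X, map_smul]
  apply ext_cf
  intro w
  rw [cf_smul, cf_dg]
  by_cases h : cf (g (X i)) w = 0
  · rw [h, mul_zero, mul_zero]
  · rw [tw_count, Finset.prod_pow_eq_pow_sum, sum_count, hg i w h, pow_one]

/-- (i) -/
theorem concl_dl [Infinite K] (h2 : (2 : K) ≠ 0) {Φ : Gp K ≃* Gp K} {S : Set (Fin 3 → Kˣ)}
    (hS : ∀ g : Gp K, (∀ t ∈ S, g * dg t = dg t * g) → IsDg g) (η : Gp K) (h : ∀ t ∈ S, IsLn (η⁻¹ * Φ (dg t) * η)) : Concl Φ := by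
  have hΨ : ∀ g, (Φ.trans (MulAut.conj η⁻¹)) g = η⁻¹ * Φ g * η := by
    intro g
    change η⁻¹ * Φ g * η⁻¹⁻¹ = _
    rw [inv_inv]
  obtain ⟨Ψ, hΨe⟩ : ∃ Ψ : Gp K ≃* Gp K, Ψ = Φ.trans (MulAut.conj η⁻¹) := ⟨_, rfl⟩
  rw [← hΨe] at hΨ
  have h1 : ∀ c : Kˣ, IsDg (Ψ.symm (dg (fun _ => c))) := by
    intro c
    refine hS _ fun t ht => ?_
    apply Ψ.injective
    rw [map_mul Ψ, map_mul Ψ, MulEquiv.apply_symm_apply, hΨ, dg_const_comm (h t ht)]
  have h3 : ∀ t, IsLn (Ψ (dg t)) := by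
    intro t
    refine ln_of_comm fun c => ?_
    obtain ⟨s, hs⟩ := h1 c
    have h4 : dg (fun _ => c) = Ψ (dg s) := by rw [← hs, MulEquiv.apply_symm_apply]
    rw [h4, ← map_mul, dg_comm, map_mul]
  obtain ⟨ζ, hζ⟩ := simlin h2 h3
  refine concl_diag (η * ζ) fun t => ?_
  have h4 := hζ t
  rw [hΨ] at h4
  have h5 : (η * ζ)⁻¹ * Φ (dg t) * (η * ζ) = ζ⁻¹ * (η⁻¹ * Φ (dg t) * η) * ζ := by group
  rw [h5]
  exact h4

/-- (ii) -/
theorem concl_ld [Infinite K] (h2 : (2 : K) ≠ 0) {Φ : Gp K ≃* Gp K} {S : Set (Fin 3 → Kˣ)}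
    (hS : ∀ g : Gp K, (∀ t ∈ S, g * dg t = dg t * g) → IsLn g) (η : Gp K) (h : ∀ t ∈ S, IsDg (η⁻¹ * Φ (dg t) * η)) : Concl Φ := by
  have hΨ : ∀ g, (Φ.trans (MulAut.conj η⁻¹)) g = η⁻¹ * Φ g * η := by
    intro g
    change η⁻¹ * Φ g * η⁻¹⁻¹ = _
    rw [inv_inv]
  obtain ⟨Ψ, hΨe⟩ : ∃ Ψ : Gp K ≃* Gp K, Ψ = Φ.trans (MulAut.conj η⁻¹) := ⟨_, rfl⟩
  rw [← hΨe] at hΨ
  have h1 : ∀ s, IsLn (Ψ.symm (dg s)) := by
    intro s
    refine hS _ fun t ht => ?_
    apply Ψ.injective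
    obtain ⟨s', hs'⟩ := h t ht
    rw [map_mul Ψ, map_mul Ψ, MulEquiv.apply_symm_apply, hΨ, hs', dg_comm]
  obtain ⟨ζ, hζ⟩ := simlin h2 h1
  refine concl_diag (η * (Ψ ζ)⁻¹) fun t => ?_
  refine sep_univ.comm fun s _ => ?_
  obtain ⟨s', hs'⟩ := hζ s
  have h4 : dg s = Ψ (ζ * dg s' * ζ⁻¹) := by
    rw [← hs']
    have h5 : ζ * (ζ⁻¹ * Ψ.symm (dg s) * ζ) * ζ⁻¹ = Ψ.symm (dg s) := by group
    rw [h5, MulEquiv.apply_symm_apply]
  have h6 : (η * (Ψ ζ)⁻¹)⁻¹ * Φ (dg t) * (η * (Ψ ζ)⁻¹) = Ψ (ζ * dg t * ζ⁻¹) := by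
    rw [map_mul, map_mul, map_inv, hΨ (dg t)]
    group
  rw [h6, h4, ← map_mul, ← map_mul]
  congr 1
  calc ζ * dg t * ζ⁻¹ * (ζ * dg s' * ζ⁻¹) = ζ * (dg t * dg s') * ζ⁻¹ := by group
    _ = ζ * (dg s' * dg t) * ζ⁻¹ := by rw [dg_comm]
    _ = _ := by group

end

end AFree
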