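import Pool.Agent.AFree.Lead

/-!
# MP_e44b8a_al: automorphisms whose words have contents on rays (helper90)
-/

namespace AFree

noncomputable section

variable {K : Type} [Field K]

theorem ld_unique {p : Al K} {v w : List (Fin 3)} (hv : IsLd p v) (hw : IsLd p w) : v = w :=
  nu_inj _ _ (le_antisymm (hw.2 v hv.1) (hv.2 w hw.1))

theorem ld_X (m : Fin 3) : IsLd (X (K := K) m) [m] := by
  constructor
  · rw [cf_X, if_pos rfl]
    exact one_ne_zero
  · intro u hu
    rw [cf_X] at hu
    by_cases h : [m] = u
    · rw [← h]
    · rw [if_neg h] at hu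
      exact absurd rfl hu

theorem gX_ne_zero (g : Gp K) (l : Fin 3) : g (X l) ≠ 0 := by
  intro h
  apply X_ne_zero (K := K) l
  have h1 := inv_ap g (X l)
  rw [h, map_zero] at h1
  exact h1.symm

theorem sum_count (w : List (Fin 3)) : ∑ m, w.count m = w.length := by
  induction w with
  | nil => simp
  | cons x w ih =>
    have h1 : ∀ m, (x :: w).count m = w.count m + (if m = x then 1 else 0) := by
      intro m
      rw [List.count_cons]
      by_cases h : x = m
      · simp [h]
      · have h' : ¬ m = x := fun e => h e.symm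
        simp [h, h']
    rw [Finset.sum_congr rfl fun m _ => h1 m, Finset.sum_add_distrib, ih, Finset.sum_ite_eq',
      if_pos (Finset.mem_univ _), List.length_cons]

/-- if the contents of the words of all `g (X l)` are the content of `X l` plus a multiple of `ω`
then `g` is diagonal -/
theorem noPos (g : Gp K) (ω : Fin 3 → ℕ) {D : ℕ} (hD : 0 < D)
    (h : ∀ l w, cf (g (X l)) w ≠ 0 →
      ∃ n : ℕ, ∀ m, D * w.count m = D * [l].count m + n * ω m) (l : Fin 3) (w : List (Fin 3))
    (hw : cf (g (X l)) w ≠ 0) : w = [l] := by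
  choose L hL using fun l => exists_ld (gX_ne_zero g l)
  choose c hc using fun l => h l (L l) (hL l).1
  have hLI : LI L := by
    intro n hn
    have h1 : ∀ m, (D : ℤ) * n m + (∑ l, n l * c l) * ω m = 0 := by
      intro m
      have h2 : ∀ l, (D : ℤ) * (n l * ((L l).count m : ℤ)) =
          (D : ℤ) * (if l = m then n l else 0) + n l * c l * ω m := by
        intro l
        have h3 : (D : ℤ) * ((L l).count m : ℤ) = D * ([l].count m : ℤ) + c l * ω m := by
          exact_mod_cast hc l m
        rw [count_single] at h3
        by_cases hlm : l = m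
        · rw [if_pos hlm] at h3 ⊢
          push_cast at h3
          linear_combination n l * h3
        · rw [if_neg hlm] at h3 ⊢
          push_cast at h3
          linear_combination n l * h3
      have h4 : (D : ℤ) * ∑ l, n l * ((L l).count m : ℤ) = 0 := by rw [hn m, mul_zero]
      rw [Finset.mul_sum, Finset.sum_congr rfl fun l _ => h2 l, Finset.sum_add_distrib,
        ← Finset.mul_sum, Finset.sum_ite_eq' Finset.univ m, if_pos (Finset.mem_univ _),
        ← Finset.sum_mul] at h4
      exact h4
    have h5 : (∑ l, n l * c l) * ((D : ℤ) + ∑ m, (c m : ℤ) * ω m) = 0 := by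
      have h6 : ∑ m, (c m : ℤ) * ((D : ℤ) * n m + (∑ l, n l * c l) * ω m) = 0 :=
        Finset.sum_eq_zero fun m _ => by rw [h1 m, mul_zero]
      have h7 : ∀ m, (c m : ℤ) * ((D : ℤ) * n m + (∑ l, n l * c l) * ω m) =
          (D : ℤ) * (n m * c m) + (∑ l, n l * c l) * (c m * ω m) := fun m => by ring
      rw [Finset.sum_congr rfl fun m _ => h7 m, Finset.sum_add_distrib, ← Finset.mul_sum,
        ← Finset.mul_sum] at h6
      linear_combination h6
    have h8 : (0 : ℤ) < (D : ℤ) + ∑ m, (c m : ℤ) * ω m := by
      have h9 : (0 : ℤ) ≤ ∑ m, (c m : ℤ) * ω m := Finset.sum_nonneg fun m _ => by positivity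
      have h10 : (0 : ℤ) < D := by exact_mod_cast hD
      omega
    have h11 : ∑ l, n l * (c l : ℤ) = 0 := by
      rcases mul_eq_zero.1 h5 with h12 | h12
      · exact h12
      · exact absurd h12 h8.ne'
    intro l
    have h12 := h1 l
    rw [h11, zero_mul, add_zero] at h12
    rcases mul_eq_zero.1 h12 with h13 | h13
    · exact absurd h13 (by exact_mod_cast hD.ne')
    · exact h13
  -- surjectivity
  have hsur : ∀ m, ∃ l, L l = [m] := by
    intro m
    have hne : g⁻¹ (X m) ≠ 0 := gX_ne_zero g⁻¹ m
    obtain ⟨v, -, hv⟩ := ld_map (φ := (g : Al K →ₐ[K] Al K)) (L := L) (fun l => hL l)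
      (fun u v huv => code hLI huv) hne
    have h1 : IsLd (X (K := K) m) (v.flatMap L) := by
      have h2 : (g : Al K →ₐ[K] Al K) (g⁻¹ (X m)) = X m := ap_inv g (X m)
      rwa [h2] at hv
    have h3 := ld_unique h1 (ld_X m)
    cases v with
    | nil => simp at h3
    | cons x v =>
      rw [List.flatMap_cons] at h3
      refine ⟨x, ?_⟩
      have hx := LI_ne hLI x
      cases hLx : L x with
      | nil => exact absurd hLx hx
      | cons y z =>
        rw [hLx, List.cons_append] at h3
        have h4 := List.cons.inj h3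
        have h5 := List.append_eq_nil_iff.1 h4.2
        rw [h4.1, h5.1]
  choose s hs using hsur
  have hsinj : Function.Injective s := by
    intro a b hab
    have h1 := hs a
    rw [hab, hs b] at h1
    exact (List.cons.inj h1).1.symm
  have hlen : ∀ l, (L l).length = 1 := by
    intro l
    obtain ⟨m, rfl⟩ := (Finite.injective_iff_surjective.1 hsinj) l
    rw [hs m, List.length_singleton]
  obtain ⟨n, hn⟩ := h l w hw
  have hwl : w.length ≤ 1 := by
    rw [← hlen l]
    exact nu_length ((hL l).2 w hw)
  have hsum : D * w.length = D + n * ∑ m, ω m := by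
    rw [← sum_count w, Finset.mul_sum, Finset.sum_congr rfl fun m _ => hn m,
      Finset.sum_add_distrib, ← Finset.mul_sum, sum_count, List.length_singleton, mul_one,
      ← Finset.mul_sum]
  have hnω : n * ∑ m, ω m = 0 := by
    have h1 : D * w.length ≤ D * 1 := Nat.mul_le_mul_left D hwl
    omega
  refine eq_single fun m => ?_
  have h1 : n * ω m = 0 := by
    rcases Nat.mul_eq_zero.1 hnω with h2 | h2
    · rw [h2, zero_mul]
    · have h3 : ω m ≤ ∑ m, ω m := Finset.single_le_sum (fun _ _ => Nat.zero_le _)
        (Finset.mem_univ m)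
      rw [show ω m = 0 by omega, mul_zero]
  have h2 := hn m
  rw [h1, add_zero] at h2
  exact Nat.eq_of_mul_eq_mul_left hD h2

end

end AFree
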