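import Pool.Agent.AFree.All

/-!
# MP_e44b8a_al: the action on the elementary automorphisms (helper90)
-/

namespace AFree

noncomputable section

open Polynomial (aeval)

variable {K : Type} [Field K]

/-- the action of `Φ` on the elementary automorphisms -/
def al (Φ : Gp K ≃* Gp K) (i : Fin 3) (f : Al K) : Al K := Φ (el i f) (X i) - X i

section

variable [Infinite K] {Φ : Gp K ≃* Gp K} (hΦ : ∀ t, Φ (dg t) = dg t)

include hΦ

theorem al_spec {i : Fin 3} {f : Al K} (hf : f ∈ Bi K i) :
    Φ (el i f) = el i (al Φ i f) ∧ al Φ i f ∈ Bi K i := by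
  obtain ⟨f', hf', h1⟩ := step hΦ hf
  have h2 : al Φ i f = f' := by
    unfold al
    rw [h1, el_self hf', add_sub_cancel_left]
  rw [h2]
  exact ⟨h1, hf'⟩

theorem al_Mh {i : Fin 3} {m : Fin 3 → ℕ} (hi : m i = 0) {f : Al K} (hf : f ∈ Mh K m) :
    al Φ i f ∈ Mh K m := by
  obtain ⟨f', hf', h1⟩ := step_all hΦ hi hf
  have h2 : al Φ i f = f' := by
    unfold al
    rw [h1, el_self (Mh_le hi hf'), add_sub_cancel_left]
  rw [h2]
  exact hf'

theorem al_add {i : Fin 3} {f g : Al K} (hf : f ∈ Bi K i) (hg : g ∈ Bi K i) :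
    al Φ i (f + g) = al Φ i f + al Φ i g := by
  refine el_inj (al_spec hΦ (Submodule.add_mem _ hf hg)).2
    (Submodule.add_mem _ (al_spec hΦ hf).2 (al_spec hΦ hg).2) ?_
  rw [← (al_spec hΦ (Submodule.add_mem _ hf hg)).1, el_add hf hg, map_mul, (al_spec hΦ hf).1,
    (al_spec hΦ hg).1, el_add (al_spec hΦ hf).2 (al_spec hΦ hg).2]

omit [Infinite K] hΦ in
theorem al_zero (i : Fin 3) : al Φ i 0 = 0 := by
  unfold al
  rw [el_zero, map_one, one_ap, sub_self]

theorem al_smul {i : Fin 3} {f : Al K} (hf : f ∈ Bi K i) (c : K) :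
    al Φ i (c • f) = c • al Φ i f := by
  by_cases hc : c = 0
  · rw [hc, zero_smul, zero_smul, al_zero]
  · have hs := Submodule.smul_mem (Bi K i) c hf
    refine el_inj (al_spec hΦ hs).2 (Submodule.smul_mem _ _ (al_spec hΦ hf).2) ?_
    have h1 := ti_el (Units.mk0 c hc) hf
    rw [Units.val_mk0] at h1
    have h2 := ti_el (Units.mk0 c hc) (al_spec hΦ hf).2
    rw [Units.val_mk0] at h2
    rw [← (al_spec hΦ hs).1, ← h1, map_mul, map_mul, map_inv, hΦ, (al_spec hΦ hf).1, h2]

theorem al_sum {i : Fin 3} {ι : Type} (s : Finset ι) (c : ι → K) (f : ι → Al K)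
    (hf : ∀ a ∈ s, f a ∈ Bi K i) :
    al Φ i (∑ a ∈ s, c a • f a) = ∑ a ∈ s, c a • al Φ i (f a) := by
  classical
  induction s using Finset.induction_on with
  | empty => rw [Finset.sum_empty, Finset.sum_empty, al_zero]
  | insert b s hb ih =>
    have h1 : ∑ a ∈ s, c a • f a ∈ Bi K i := Submodule.sum_mem _ fun a ha =>
      Submodule.smul_mem _ _ (hf a (Finset.mem_insert_of_mem ha))
    rw [Finset.sum_insert hb, Finset.sum_insert hb,
      al_add hΦ (Submodule.smul_mem _ _ (hf b (Finset.mem_insert_self b s))) h1,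
      al_smul hΦ (hf b (Finset.mem_insert_self b s)),
      ih fun a ha => hf a (Finset.mem_insert_of_mem ha)]

/-- commutation with the fixed elementary automorphisms -/
theorem al_el {i j : Fin 3} (hij : i ≠ j) {f g : Al K} (hgi : g ∈ Bi K i) (hgj : g ∈ Bi K j)
    (hf : f ∈ Bi K i) (hg : Φ (el j g) = el j g) :
    al Φ i (el j g f) = el j g (al Φ i f) := by
  have h1 := el_maps hij hgi hgj hf
  refine el_inj (al_spec hΦ h1).2 (el_maps hij hgi hgj (al_spec hΦ hf).2) ?_
  rw [← (al_spec hΦ h1).1, ← el_conj hij hgi hgj hf, map_mul, map_mul, map_inv, hg,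
    (al_spec hΦ hf).1, el_conj hij hgi hgj (al_spec hΦ hf).2]

theorem al_one_const (i : Fin 3) : ∃ c : K, c ≠ 0 ∧ al Φ i 1 = c • 1 := by
  have h1 : (1 : Al K) ∈ Mh K (fun _ => 0) := by
    rw [← mon_nil]
    exact mon_mem_sp (P := fun w => ∀ j, w.count j = 0) (by simp)
  have h2 := al_Mh hΦ (i := i) (m := fun _ => 0) rfl h1
  have h3 : al Φ i 1 = cf (al Φ i 1) [] • 1 := by
    apply ext_cf
    intro w
    rw [cf_smul, ← mon_nil, cf_mon]
    by_cases hw : [] = w
    · rw [if_pos hw, mul_one, hw]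
    · rw [if_neg hw, mul_zero]
      by_contra h4
      have h5 := mem_sp.1 h2 w h4
      apply hw
      rw [eq_comm, List.eq_nil_iff_forall_not_mem]
      intro a ha
      exact List.count_eq_zero.1 (h5 a) ha
  refine ⟨_, fun h0 => ?_, h3⟩
  rw [h0, zero_smul] at h3
  have h4 := (al_spec hΦ (one_mem i)).1
  rw [h3, el_zero] at h4
  have h5 : el (K := K) i 1 = 1 := Φ.injective (by rw [h4, map_one])
  have h6 : el (K := K) i 1 (X i) = X i := by rw [h5, one_ap]
  rw [el_self (one_mem i)] at h6
  exact one_ne_zero (add_eq_left.1 h6)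

end

section

variable [Infinite K] {Ψ : Gp K ≃* Gp K} (hΨ : ∀ t, Ψ (dg t) = dg t) (h1 : ∀ i, al Ψ i 1 = 1)

include hΨ h1

theorem fix_const (i : Fin 3) (c : K) : Ψ (el i (c • 1)) = el i (c • 1) := by
  rw [(al_spec hΨ (Submodule.smul_mem _ _ (one_mem i))).1, al_smul hΨ (one_mem i), h1]

theorem fix_one (i : Fin 3) : Ψ (el i 1) = el i 1 := by
  have := fix_const hΨ h1 i 1
  rwa [one_smul] at this

omit [Infinite K] hΨ h1 in
theorem el_one_pow (j : Fin 3) (a : ℕ) : el j 1 (X (K := K) j ^ a) =
    ∑ k ∈ Finset.range (a + 1), (a.choose k : K) • X j ^ k := by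
  rw [map_pow, el_self (one_mem j), (Commute.one_right (X j)).add_pow]
  refine Finset.sum_congr rfl fun k _ => ?_
  rw [one_pow, mul_one, Algebra.smul_def, map_natCast]
  exact ((Nat.cast_commute _ _).eq).symm

theorem al_pow {i j : Fin 3} (hj : j ≠ i) (a : ℕ) : al Ψ i (X j ^ a) = X j ^ a := by
  have hi : ∀ n, mp j n i = 0 := fun n => by simp [mp, Ne.symm hj]
  -- scalars
  have h2 : ∀ n, ∃ c : K, al Ψ i (X j ^ n) = c • X j ^ n := by
    intro n
    have h3 := al_Mh hΨ (hi n) (pow_Mh (K := K) j n)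
    refine ⟨cf (al Ψ i (X j ^ n)) (List.replicate n j), ?_⟩
    apply ext_cf
    intro w
    rw [cf_smul]
    nth_rewrite 3 [← mon_replicate]
    rw [cf_mon]
    by_cases hw : List.replicate n j = w
    · rw [if_pos hw, mul_one, hw]
    · rw [if_neg hw, mul_zero]
      by_contra h4
      have h5 := mem_sp.1 h3 w h4
      apply hw
      have h6 : w.Perm (List.replicate n j) := by
        rw [List.perm_iff_count]
        intro l
        rw [h5 l, List.count_replicate]
        unfold mp
        by_cases hl : l = j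
        · simp [hl]
        · have hl' : j ≠ l := fun h => hl h.symm
          simp [hl, hl']
      exact (List.perm_replicate.1 h6).symm
  choose c hc using h2
  have hpB : ∀ n, X (K := K) j ^ n ∈ Bi K i := fun n => Bi_pow (X_mem hj) n
  have h3 : ∀ n k, k ≤ n → (n.choose k : K) * c k = c n * (n.choose k : K) := by
    intro n k hk
    have h4 := al_el hΨ (Ne.symm hj) (one_mem i) (one_mem j) (hpB n) (fix_one hΨ h1 j)
    rw [el_one_pow, al_sum hΨ _ _ _ (fun a _ => hpB a), hc n, map_smul, el_one_pow] at h4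
    have h5 := congrArg (fun p => cf p (List.replicate k j)) h4
    simp only [cf_sum, cf_smul] at h5
    have h6 : ∀ b l : ℕ, cf (X (K := K) j ^ b) (List.replicate l j) = if b = l then 1 else 0 := by
      intro b l
      rw [← mon_replicate, cf_mon]
      by_cases hbl : b = l
      · rw [hbl, if_pos rfl, if_pos rfl]
      · rw [if_neg hbl, if_neg]
        intro h7
        have h8 := congrArg List.length h7
        rw [List.length_replicate, List.length_replicate] at h8
        exact hbl h8
    rw [Finset.sum_eq_single k, Finset.sum_eq_single k] at h5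
    · rw [hc k, cf_smul, h6, if_pos rfl, mul_one, mul_one] at h5
      exact h5
    · intro b _ hb
      rw [h6, if_neg hb, mul_zero]
    · intro hk'
      exact absurd (Finset.mem_range.2 (by omega)) hk'
    · intro b _ hb
      rw [hc b, cf_smul, h6, if_neg hb, mul_zero, mul_zero]
    · intro hk'
      exact absurd (Finset.mem_range.2 (by omega)) hk'
  have h0 : c 0 = 1 := by
    have h4 := hc 0
    rw [pow_zero, h1] at h4
    have h5 := congrArg (fun p => cf p []) h4
    simp only [cf_smul] at h5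
    rw [← mon_nil, cf_mon_self, mul_one] at h5
    exact h5.symm
  have hc1 : c 1 = 1 := by
    have h4 := h3 1 0 (by norm_num)
    rw [h0] at h4
    simpa using h4.symm
  have hne : ∀ n : ℕ, (n : K) ≠ 0 → c n = 1 := by
    intro n hn
    have hn1 : 1 ≤ n := by
      rcases Nat.eq_zero_or_pos n with h | h
      · rw [h, Nat.cast_zero] at hn
        exact absurd rfl hn
      · exact h
    have h4 := h3 n 1 hn1
    rw [Nat.choose_one_right, hc1, mul_one] at h4
    exact mul_right_cancel₀ hn (by rw [one_mul]; exact h4.symm)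
  have hall : c a = 1 := by
    by_cases ha : (a : K) = 0
    · have h4 : ((a + 1 : ℕ) : K) = 1 := by rw [Nat.cast_add, ha, zero_add, Nat.cast_one]
      have h5 := hne (a + 1) (by rw [h4]; exact one_ne_zero)
      have h6 := h3 (a + 1) a (Nat.le_succ a)
      rw [Nat.choose_succ_self_right, h4, h5, one_mul, one_mul] at h6
      exact h6
    · exact hne a ha
  rw [hc a, hall, one_smul]

theorem al_aeval {i j : Fin 3} (hj : j ≠ i) (P : Polynomial K) :
    al Ψ i (aeval (X j) P) = aeval (X j) P := by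
  rw [Polynomial.aeval_eq_sum_range, al_sum hΨ _ _ _ (fun a _ => Bi_pow (X_mem hj) a)]
  exact Finset.sum_congr rfl fun a _ => by rw [al_pow hΨ h1 hj]

theorem fix_aeval {i j : Fin 3} (hj : j ≠ i) (P : Polynomial K) :
    Ψ (el i (aeval (X j) P)) = el i (aeval (X j) P) := by
  rw [(al_spec hΨ (aeval_mem hj P)).1, al_aeval hΨ h1 hj]

end

end

end AFree
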