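import Pool.Agent.AFree.Ab

/-!
# MP_e44b8a_al: semilinear ring automorphisms of the free algebra (helper90)
-/

namespace AFree

noncomputable section

variable {K : Type} [Field K]

/-- `σ` is a ring automorphism of the free algebra which is semilinear with respect to `τ` -/
def IsSl (σ : Al K ≃+* Al K) (τ : K ≃+* K) : Prop :=
  ∀ (c : K) (a : Al K), σ (c • a) = τ c • σ a

theorem IsSl.symm {σ : Al K ≃+* Al K} {τ : K ≃+* K} (h : IsSl σ τ) : IsSl σ.symm τ.symm := by
  intro c a
  apply σ.injective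
  rw [RingEquiv.apply_symm_apply, h, RingEquiv.apply_symm_apply, RingEquiv.apply_symm_apply]

theorem IsSl.trans {σ σ' : Al K ≃+* Al K} {τ τ' : K ≃+* K} (h : IsSl σ τ) (h' : IsSl σ' τ') :
    IsSl (σ.trans σ') (τ.trans τ') := by
  intro c a
  rw [RingEquiv.trans_apply, RingEquiv.trans_apply, RingEquiv.trans_apply, h, h']

/-- automorphisms over `K` as ring automorphisms -/
def rg (g : Gp K) : Al K ≃+* Al K := (g : Al K ≃+* Al K)

theorem rg_ap (g : Gp K) (a : Al K) : rg g a = g a := rfl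

theorem rg_symm_ap (g : Gp K) (a : Al K) : (rg g).symm a = g⁻¹ a := rfl

theorem isSl_rg (g : Gp K) : IsSl (rg g) (RingEquiv.refl K) := by
  intro c a
  rw [rg_ap, rg_ap, map_smul]
  rfl

theorem am (c : K) : algebraMap K (Al K) c = c • 1 := Algebra.algebraMap_eq_smul_one c

theorem cj_aux {σ : Al K ≃+* Al K} {τ : K ≃+* K} (h : IsSl σ τ) (g : Gp K) (c : K) :
    σ (g (σ.symm (algebraMap K (Al K) c))) = algebraMap K (Al K) c := by
  rw [am, h.symm, map_one, map_smul, map_one, h, map_one, RingEquiv.apply_symm_apply]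

/-- conjugation by a semilinear ring automorphism -/
def cj (σ : Al K ≃+* Al K) (τ : K ≃+* K) (h : IsSl σ τ) : Gp K ≃* Gp K where
  toFun g := AlgEquiv.ofRingEquiv (f := (σ.symm.trans (rg g)).trans σ) (cj_aux h g)
  invFun g := AlgEquiv.ofRingEquiv (f := (σ.trans (rg g)).trans σ.symm) (cj_aux h.symm g)
  left_inv g := by
    ext a
    change σ.symm (σ (g (σ.symm (σ a)))) = g a
    rw [RingEquiv.symm_apply_apply, RingEquiv.symm_apply_apply]
  right_inv g := by
    ext a
    change σ (σ.symm (g (σ (σ.symm a)))) = g a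
    rw [RingEquiv.apply_symm_apply, RingEquiv.apply_symm_apply]
  map_mul' g k := by
    ext a
    change σ (g (k (σ.symm a))) = σ (g (σ.symm (σ (k (σ.symm a)))))
    rw [RingEquiv.symm_apply_apply]

theorem cj_ap {σ : Al K ≃+* Al K} {τ : K ≃+* K} (h : IsSl σ τ) (g : Gp K) (a : Al K) :
    cj σ τ h g a = σ (g (σ.symm a)) := rfl

theorem cj_symm_ap {σ : Al K ≃+* Al K} {τ : K ≃+* K} (h : IsSl σ τ) (g : Gp K) (a : Al K) :
    (cj σ τ h).symm g a = σ.symm (g (σ a)) := rfl

/-- application of a field automorphism to the coefficients -/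
def Tm (θ : K ≃+* K) : Al K ≃+* Al K :=
  ((FreeAlgebra.equivMonoidAlgebraFreeMonoid (R := K) (X := Fin 3)).toRingEquiv.trans
    (MonoidAlgebra.mapRingEquiv (FreeMonoid (Fin 3)) θ)).trans
    (FreeAlgebra.equivMonoidAlgebraFreeMonoid (R := K) (X := Fin 3)).symm.toRingEquiv

theorem Tm_ap (θ : K ≃+* K) (a : Al K) : Tm θ a =
    (FreeAlgebra.equivMonoidAlgebraFreeMonoid (R := K) (X := Fin 3)).symm
      (MonoidAlgebra.mapRingEquiv (FreeMonoid (Fin 3)) θ
        (FreeAlgebra.equivMonoidAlgebraFreeMonoid (R := K) (X := Fin 3) a)) := rfl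

theorem Tm_X (θ : K ≃+* K) (i : Fin 3) : Tm θ (X i) = X i := by
  rw [Tm_ap, AlgEquiv.symm_apply_eq]
  have h1 : FreeAlgebra.equivMonoidAlgebraFreeMonoid (R := K) (X := Fin 3) (X i) =
      MonoidAlgebra.single (FreeMonoid.of i) 1 := by
    unfold X
    simp [FreeAlgebra.equivMonoidAlgebraFreeMonoid]
  rw [h1]
  classical
  ext m
  rw [MonoidAlgebra.coeff_mapRingEquiv, MonoidAlgebra.coeff_single,
    Finsupp.single_apply]
  split_ifs
  · exact map_one θ
  · exact map_zero θ

theorem Tm_sl (θ : K ≃+* K) : IsSl (Tm θ) θ := by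
  intro c a
  rw [Tm_ap, Tm_ap, map_smul]
  have h1 : ∀ x : MonoidAlgebra K (FreeMonoid (Fin 3)),
      MonoidAlgebra.mapRingEquiv (FreeMonoid (Fin 3)) θ (c • x) =
        θ c • MonoidAlgebra.mapRingEquiv (FreeMonoid (Fin 3)) θ x := by
    intro x
    ext m
    rw [MonoidAlgebra.coeff_mapRingEquiv, MonoidAlgebra.coeff_smul, MonoidAlgebra.coeff_smul,
      Finsupp.smul_apply, Finsupp.smul_apply, MonoidAlgebra.coeff_mapRingEquiv, smul_eq_mul,
      smul_eq_mul, map_mul]
  rw [h1, map_smul]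

/-- semilinear automorphisms preserve the congruence modulo commutators -/
theorem ab_sl {σ : Al K ≃+* Al K} {τ : K ≃+* K} (h : IsSl σ τ) {a b : Al K} (hab : ab a = ab b) :
    ab (σ a) = ab (σ b) := by
  let φ : Al K →ₐ[K] MvPolynomial (Fin 3) K :=
    { toRingHom := (MvPolynomial.map (τ.symm : K →+* K)).comp
        ((ab (K := K) : Al K →+* MvPolynomial (Fin 3) K).comp (σ : Al K →+* Al K))
      commutes' := by
        intro c
        change MvPolynomial.map (τ.symm : K →+* K) (ab (σ (algebraMap K (Al K) c))) = _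
        rw [am, h, map_one, map_smul, map_one, MvPolynomial.smul_eq_C_mul, mul_one,
          MvPolynomial.map_C]
        change MvPolynomial.C (τ.symm (τ c)) = MvPolynomial.C c
        rw [RingEquiv.symm_apply_apply] }
  have h1 : φ = (MvPolynomial.aeval (fun i => φ (X i))).comp (ab (K := K)) := by
    apply hom_ext_X
    intro i
    rw [AlgHom.comp_apply, ab_X, MvPolynomial.aeval_X]
  have h2 : φ a = φ b := by
    rw [h1, AlgHom.comp_apply, AlgHom.comp_apply, hab]
  have h3 : MvPolynomial.map (τ.symm : K →+* K) (ab (σ a)) =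
      MvPolynomial.map (τ.symm : K →+* K) (ab (σ b)) := h2
  exact MvPolynomial.map_injective (τ.symm : K →+* K) τ.symm.injective h3

end

end AFree
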