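import Pool.Agent.AFree.NoPos
import Pool.Agent.AFree.Semi

/-!
# MP_e44b8a_al: permutations of the variables and the normalizer of the diagonal automorphisms (helper90)
-/

namespace AFree

noncomputable section

variable {K : Type} [Field K]

/-- permutations of the variables -/
def pm (π : Equiv.Perm (Fin 3)) : Gp K :=
  mk (fun i => X (π i)) (fun i => X (π.symm i))
    (fun i => by rw [lift_X, Equiv.apply_symm_apply])
    (fun i => by rw [lift_X, Equiv.symm_apply_apply])

@[simp] theorem pm_X (π : Equiv.Perm (Fin 3)) (i : Fin 3) : pm π (X (K := K) i) = X (π i) := by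
  unfold pm
  rw [mk_X]

theorem pm_mul (π ρ : Equiv.Perm (Fin 3)) : pm (K := K) π * pm ρ = pm (π * ρ) := by
  apply aut_ext
  intro i
  rw [mul_ap, pm_X, pm_X, pm_X, Equiv.Perm.mul_apply]

theorem pm_one : pm (K := K) 1 = 1 := by
  apply aut_ext
  intro i
  rw [pm_X, Equiv.Perm.one_apply, one_ap]

theorem pm_inv (π : Equiv.Perm (Fin 3)) : (pm (K := K) π)⁻¹ = pm π⁻¹ := by
  rw [inv_eq_iff_mul_eq_one, pm_mul, mul_inv_cancel, pm_one]

theorem pm_dg (π : Equiv.Perm (Fin 3)) (t : Fin 3 → Kˣ) :
    pm π * dg t * (pm π)⁻¹ = dg (fun l => t (π.symm l)) := by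
  apply aut_ext
  intro i
  rw [pm_inv, mul_ap, mul_ap, pm_X, dg_X, map_smul, pm_X, dg_X]
  change ((t (π.symm i) : Kˣ) : K) • X (π (π.symm i)) = _
  rw [Equiv.apply_symm_apply]

/-- the transposition which fixes `k` -/
def tr (k l : Fin 3) : Fin 3 := -(k + l)

theorem tr_tr (k l : Fin 3) : tr k (tr k l) = l := by
  revert k l
  decide

/-- the same as a permutation -/
def trp (k : Fin 3) : Equiv.Perm (Fin 3) := ⟨tr k, tr k, tr_tr k, tr_tr k⟩

theorem trp_sq (k : Fin 3) : trp k * trp k = 1 := by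
  ext l
  rw [Equiv.Perm.mul_apply, Equiv.Perm.one_apply]
  exact congrArg Fin.val (tr_tr k l)

theorem pm_trp_dg (k : Fin 3) (t : Fin 3 → Kˣ) :
    pm (trp k) * dg t = dg (fun l => t (tr k l)) * pm (trp k) := by
  have h := pm_dg (trp k) t
  rw [mul_inv_eq_iff_eq_mul] at h
  exact h

theorem tr_of_inv : ∀ π : Fin 3 → Fin 3, (∀ l, π (π l) = l) → (∃ l, π l ≠ l) →
    ∃ q, ∀ l, π l = tr q l := by decide

theorem tr_inj_conj : ∀ q : Fin 3 → Fin 3, (∀ a b, q a = q b → a = b) →
    ∀ k l, tr (q k) (q l) = q (tr k l) := by decide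

theorem tr_succ_ne : ∀ k : Fin 3, tr k (k + 1) ≠ k + 1 := by decide

theorem tr_zero_inj : ∀ k k' : Fin 3, tr k' 0 = tr k 0 → k = k' := by decide

theorem cf_X_self (l : Fin 3) : cf (X (K := K) l) [l] = 1 := by
  rw [cf_X, if_pos rfl]

theorem dg_inj {s t : Fin 3 → Kˣ} (h : dg s = dg t) : s = t := by
  funext l
  have h1 := congrArg (fun g : Gp K => cf (g (X l)) [l]) h
  simp only [dg_X, cf_smul, cf_X_self, mul_one] at h1
  exact Units.ext h1

theorem tw_ti (j : Fin 3) (u : Kˣ) (w : List (Fin 3)) : tw (ti j u) w = (u : K) ^ w.count j := by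
  rw [tw_count, Finset.prod_eq_single j]
  · unfold ti
    rw [if_pos rfl]
  · intro b _ hb
    unfold ti
    rw [if_neg hb, Units.val_one, one_pow]
  · exact fun h => absurd (Finset.mem_univ j) h

theorem count_of_tw [Infinite K] {v w : List (Fin 3)} (h : ∀ t : Fin 3 → Kˣ, tw t v = tw t w)
    (j : Fin 3) : v.count j = w.count j := by
  apply pow_inj (K := K)
  intro u
  rw [← tw_ti, ← tw_ti, h]

/-- automorphisms without constant terms do not lower the degree -/
theorem len_map {n : Gp K} (hn : ∀ l, cf (n (X l)) [] = 0) (v : List (Fin 3)) :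
    n (mon v) ∈ sp K (fun w => v.length ≤ w.length) := by
  induction v with
  | nil =>
    rw [mon_nil, map_one, mem_sp]
    intro w _
    exact Nat.zero_le _
  | cons x v ih =>
    rw [mon_cons, map_mul]
    refine sp_mul (P := fun w => 1 ≤ w.length) (Q := fun w => v.length ≤ w.length)
      (R := fun w => (x :: v).length ≤ w.length) ?_ ?_ ih
    · intro a b ha hb
      rw [List.length_append, List.length_cons]
      omega
    · rw [mem_sp]
      intro w hw
      rw [Nat.one_le_iff_ne_zero, Ne, List.length_eq_zero_iff]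
      intro h0
      rw [h0] at hw
      exact hw (hn x)

theorem len_map' {n : Gp K} (hn : ∀ l, cf (n (X l)) [] = 0) {d : ℕ} {a : Al K}
    (ha : ∀ w, cf a w ≠ 0 → d ≤ w.length) {w : List (Fin 3)} (hw : cf (n a) w ≠ 0) :
    d ≤ w.length := by
  have h1 : n a ∈ sp K (fun w => d ≤ w.length) := by
    rw [sum_cf a, map_sum]
    refine Submodule.sum_mem _ fun v hv => ?_
    rw [map_smul]
    refine Submodule.smul_mem _ _ ?_
    exact sp_mono (fun w hw => (ha v (mem_su.1 hv)).trans hw) (len_map hn v)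
  exact mem_sp.1 h1 w hw

/-- involutions which normalize the diagonal automorphisms -/
theorem nrm [Infinite K] {n : Gp K} (hn : n * n = 1) (a a' : (Fin 3 → Kˣ) → (Fin 3 → Kˣ))
    (ha' : Function.Surjective a') (h : ∀ t, n * dg (a t) = dg (a' t) * n) :
    ∃ π : Fin 3 → Fin 3, (∀ l, π (π l) = l) ∧ ∀ t l, a' t (π l) = a t l := by
  have hnn : ∀ p, n (n p) = p := by
    intro p
    rw [← mul_ap, hn, one_ap]
  have hwt : ∀ t l w, cf (n (X l)) w ≠ 0 → tw (a' t) w = a t l := by
    intro t l w hw
    have h1 := congrArg (fun g : Gp K => cf (g (X l)) w) (h t)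
    simp only [mul_ap, dg_X, map_smul, cf_smul, cf_dg] at h1
    exact (mul_right_cancel₀ hw h1).symm
  have hct : ∀ l w w', cf (n (X l)) w ≠ 0 → cf (n (X l)) w' ≠ 0 → ∀ j, w.count j = w'.count j := by
    intro l w w' hw hw'
    apply count_of_tw (K := K)
    intro s
    obtain ⟨t, rfl⟩ := ha' s
    rw [hwt t l w hw, hwt t l w' hw']
  have hlen : ∀ l w w', cf (n (X l)) w ≠ 0 → cf (n (X l)) w' ≠ 0 → w.length = w'.length := by
    intro l w w' hw hw'
    rw [← sum_count w, ← sum_count w']
    exact Finset.sum_congr rfl fun j _ => hct l w w' hw hw' j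
  have hne : ∀ l, ∃ w, cf (n (X l)) w ≠ 0 := by
    intro l
    obtain ⟨w, hw⟩ := exists_ld (gX_ne_zero n l)
    exact ⟨w, hw.1⟩
  have hconst : ∀ l, cf (n (X l)) [] = 0 := by
    intro l
    by_contra h0
    have h1 : n (X l) = cf (n (X l)) [] • 1 := by
      apply ext_cf
      intro w
      rw [cf_smul, ← mon_nil, cf_mon]
      by_cases hw : [] = w
      · rw [if_pos hw, mul_one, ← hw]
      · rw [if_neg hw, mul_zero]
        by_contra hw0
        have h2 := hlen l [] w h0 hw0
        exact hw (List.length_eq_zero_iff.1 h2.symm).symm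
    have h2 := hnn (X l)
    rw [h1, map_smul, map_one] at h2
    have h3 := congrArg (fun p => cf p [l]) h2
    simp only [cf_smul, cf_X_self] at h3
    rw [← mon_nil, cf_mon_ne (by simp), mul_zero] at h3
    exact zero_ne_one h3
  have hone : ∀ l w, cf (n (X l)) w ≠ 0 → w.length = 1 := by
    intro l w hw
    by_contra hne1
    have h0 : w.length ≠ 0 := by
      intro h0
      rw [List.length_eq_zero_iff] at h0
      rw [h0] at hw
      exact hw (hconst l)
    have h2 : cf (n (n (X l))) [l] ≠ 0 := by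
      rw [hnn, cf_X, if_pos rfl]
      exact one_ne_zero
    have h3 := len_map' hconst (d := 2) (a := n (X l)) (fun v hv => by
      rw [hlen l v w hv hw]
      omega) h2
    rw [List.length_singleton] at h3
    omega
  have hX : ∀ l, ∃ m : Fin 3, ∃ c : K, c ≠ 0 ∧ n (X l) = c • X m := by
    intro l
    obtain ⟨w, hw⟩ := hne l
    obtain ⟨m, rfl⟩ := List.length_eq_one_iff.1 (hone l w hw)
    refine ⟨m, cf (n (X l)) [m], hw, smul_X_of fun v hv => ?_⟩
    exact eq_single fun j => hct l v [m] hv hw j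
  choose π c hc using hX
  refine ⟨π, fun l => ?_, fun t l => ?_⟩
  · have h1 := hnn (X l)
    rw [(hc l).2, map_smul, (hc (π l)).2] at h1
    have h2 := congrArg (fun p => cf p [l]) h1
    simp only [cf_smul, cf_X_self] at h2
    by_contra h3
    rw [cf_X, if_neg (fun h4 => h3 (List.cons.inj h4).1), mul_zero, mul_zero] at h2
    exact zero_ne_one h2
  · have h1 : cf (n (X l)) [π l] ≠ 0 := by
      rw [(hc l).2, cf_smul, cf_X, if_pos rfl, mul_one]
      exact (hc l).1
    have h2 := hwt t l _ h1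
    rw [tw_single] at h2
    exact Units.ext h2

/-- after a permutation the action on the characters is symmetric -/
theorem sym3 [Infinite K] {Φ : Gp K ≃* Gp K} {a : (Fin 3 → Kˣ) → (Fin 3 → Kˣ)}
    (hΦ : ∀ t, Φ (dg t) = dg (a t)) (ha : Function.Surjective a) :
    ∃ ρ : Equiv.Perm (Fin 3), ∀ k t l, a (fun m => t (tr k m)) (ρ l) = a t (ρ (tr k l)) := by
  have hinj : Function.Injective a := by
    intro s t h
    apply dg_inj
    apply Φ.injective
    rw [hΦ, hΦ, h]
  have h1 : ∀ k, ∃ q : Fin 3, ∀ t l, a (fun m => t (tr k m)) l = a t (tr q l) := by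
    intro k
    have hn : Φ (pm (trp k)) * Φ (pm (trp k)) = 1 := by
      rw [← map_mul, pm_mul, trp_sq, pm_one, map_one]
    have hs : Function.Surjective (fun t : Fin 3 → Kˣ => a (fun m => t (tr k m))) := by
      intro s
      obtain ⟨t, rfl⟩ := ha s
      refine ⟨fun m => t (tr k m), ?_⟩
      simp only [tr_tr]
    obtain ⟨π, hπ, hπ'⟩ := nrm hn a (fun t => a (fun m => t (tr k m))) hs (fun t => by
      rw [← hΦ, ← hΦ, ← map_mul, ← map_mul, pm_trp_dg])
    have hne : ∃ l, π l ≠ l := by
      by_contra hcon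
      push Not at hcon
      obtain ⟨u, hu⟩ := exists_unit (K := K)
      have h2 : a (fun m => ti (k + 1) u (tr k m)) = a (ti (k + 1) u) := by
        funext l
        have := hπ' (ti (k + 1) u) l
        rw [hcon l] at this
        exact this
      have h3 := congrFun (hinj h2) (k + 1)
      have h4 := tr_succ_ne k
      unfold ti at h3
      rw [if_neg h4, if_pos rfl] at h3
      exact hu (by rw [← h3]; rfl)
    obtain ⟨q, hq⟩ := tr_of_inv π hπ hne
    refine ⟨q, fun t l => ?_⟩
    rw [← hq l, ← hπ' t (π l), hπ l]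
  choose q hq using h1
  have hqinj : ∀ k k', q k = q k' → k = k' := by
    intro k k' h
    by_contra hne
    obtain ⟨u, hu⟩ := exists_unit (K := K)
    have h2 : a (fun m => ti (tr k 0) u (tr k m)) = a (fun m => ti (tr k 0) u (tr k' m)) := by
      funext l
      rw [hq, hq, h]
    have h3 := congrFun (hinj h2) 0
    unfold ti at h3
    have h4 : tr k' 0 ≠ tr k 0 := fun h5 => hne (tr_zero_inj k k' h5)
    rw [if_pos rfl, if_neg h4] at h3
    exact hu (by rw [h3]; rfl)
  have hb : Function.Bijective q :=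
    ⟨fun k k' h => hqinj k k' h, Finite.injective_iff_surjective.1 (fun k k' h => hqinj k k' h)⟩
  refine ⟨Equiv.ofBijective q hb, fun k t l => ?_⟩
  change a (fun m => t (tr k m)) (q l) = a t (q (tr k l))
  rw [hq, tr_inj_conj q hqinj]

end

end AFree
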