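import Pool.Agent.AFree.Trans

/-!
# MP_e44b8a_al: the diagonal automorphisms are fixed up to a field automorphism (helper90)
-/

namespace AFree

noncomputable section

variable {K : Type} [Field K]

theorem cf_expand (g : Gp K) (p : Al K) (w : List (Fin 3)) :
    cf (g p) w = ∑ v ∈ su p, cf p v * cf (g (mon v)) w := by
  conv_lhs => rw [sum_cf p]
  rw [map_sum, cf_sum]
  refine Finset.sum_congr rfl fun u _ => ?_
  rw [map_smul, cf_smul]

variable [Infinite K] {Φ : Gp K ≃* Gp K} {ε : ℤ} {f : Kˣ →* Kˣ}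

theorem kk_nonneg (hΦ : ∀ t, Φ (dg t) = dg (bt ε f t)) (i : Fin 3) {v w : List (Fin 3)}
    (h : cf (gt Φ i 1 (mon v)) w ≠ 0) : 0 ≤ kk ε i v w := by
  by_contra hneg
  push Not at hneg
  apply h
  refine laurent1 (su (gt Φ i 1 (mon v)))
    (fun v' => cf (gt Φ i 1 (mon v)) v' * cf (gt Φ i 1 (mon v')) w) (fun v' => kk ε i v' w) _ hneg
    fun u w' hw' => ?_
  have h1 := rel2 hΦ i 1 v w w'
  rw [mul_one] at h1
  rw [← h1, hw', add_comm, gt_add, mul_ap, cf_expand]
  refine Finset.sum_congr rfl fun v' _ => ?_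
  have h2 := rel2 hΦ i 1 v' w u
  rw [mul_one] at h2
  rw [h2]
  ring

theorem kk_zero (hΦ : ∀ t, Φ (dg t) = dg (bt ε f t)) (i l : Fin 3) {w : List (Fin 3)}
    (h : kk ε i [l] w = 0) : cf (gt Φ i 1 (X l)) w = cf (X l) w := by
  obtain ⟨a, ha⟩ : ∃ a, gt Φ i 1 a = X l := ⟨(gt Φ i 1)⁻¹ (X l), ap_inv _ _⟩
  have h1 := laurent2 (su a) (fun v => cf a v * cf (gt Φ i 1 (mon v)) w) (fun v => kk ε i v w)
    (fun v _ hv => kk_nonneg hΦ i (right_ne_zero_of_mul hv)) (cf (gt Φ i 1 (X l)) w)
    (fun u w' hw' => by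
      have h2 : ∀ v ∈ su a, cf a v * cf (gt Φ i 1 (mon v)) w * ((w' ^ kk ε i v w : Kˣ) : K) =
          cf a v * cf (gt Φ i (w' : K) (mon v)) w := by
        intro v _
        have h3 := rel2 hΦ i 1 v w w'
        rw [mul_one] at h3
        rw [h3]
        ring
      rw [Finset.sum_congr rfl h2, ← cf_expand, hw', add_comm, gt_add, mul_ap, ha]
      have h4 := rel2 hΦ i 1 [l] w u
      rw [h, zpow_zero, Units.val_one, one_mul, mul_one, mon_single] at h4
      exact h4)
  rw [← h1, ← cf_expand, ha]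

omit [Infinite K] in
theorem dd_self (l j : Fin 3) : dd [l] [l] j = 0 := by
  unfold dd
  rw [sub_self]

theorem cf_self (hΦ : ∀ t, Φ (dg t) = dg (bt ε f t)) (i l : Fin 3) :
    cf (gt Φ i 1 (X l)) [l] = 1 := by
  rw [kk_zero hΦ i l (by unfold kk; rw [dd_self, dd_self, sub_self, mul_zero]), cf_X_self]

/-- the shape of the words in the images of the translations -/
theorem word_data (hε : ε = 1 ∨ ε = -1) (hΦ : ∀ t, Φ (dg t) = dg (bt ε f t)) (i l : Fin 3)
    {w : List (Fin 3)} (h : cf (gt Φ i 1 (X l)) w ≠ 0) :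
    ∃ s r : ℤ, 0 ≤ r ∧ (w.count i : ℤ) = [l].count i + s ∧
      (∀ m, m ≠ i → (w.count m : ℤ) = [l].count m + r) ∧
      (∀ u : Kˣ, u ^ (ε * r) * f u ^ (s + 2 * r) = 1) ∧ (w ≠ [l] → 1 ≤ ε * (r - s)) := by
  obtain ⟨hn1, hn2, hn3, hn4⟩ := succ_ne i
  rw [← mon_single] at h
  have h1 : dd [l] w (i + 1) = dd [l] w (i + 2) := by
    have h2 : ε * dd [l] w (i + 1) = ε * dd [l] w (i + 2) := by
      apply zpow_inj (K := K)
      intro u
      have h3 := rel1 hΦ h hn1 u
      have h4 := rel1 hΦ h hn2 u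
      rw [← h4] at h3
      exact mul_right_cancel h3
    rcases hε with hε | hε
    · rw [hε] at h2
      omega
    · rw [hε] at h2
      omega
  have h5 : (w.length : ℤ) - ([l].length : ℤ) = dd [l] w i + 2 * dd [l] w (i + 1) := by
    rw [← sum_count w, ← sum_count [l]]
    have h6 : ∀ v : List (Fin 3), ∑ m, v.count m = v.count i + v.count (i + 1) + v.count (i + 2) := by
      intro v
      rw [Fin.sum_univ_three]
      fin_cases i
      · rfl
      · change v.count 0 + v.count 1 + v.count 2 = v.count 1 + v.count 2 + v.count 0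
        omega
      · change v.count 0 + v.count 1 + v.count 2 = v.count 2 + v.count 0 + v.count 1
        omega
    rw [h6, h6]
    unfold dd at h1 ⊢
    push_cast
    omega
  refine ⟨dd [l] w i, dd [l] w (i + 1), ?_, ?_, ?_, ?_, ?_⟩
  · by_cases hl : l = i + 1
    · rw [h1]
      unfold dd
      rw [hl, count_single, if_neg hn3]
      push_cast
      omega
    · unfold dd
      rw [count_single, if_neg hl]
      push_cast
      omega
  · unfold dd
    omega
  · intro m hm
    rcases hn4 m with h7 | h7 | h7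
    · exact absurd h7 hm
    · rw [h7]
      unfold dd
      omega
    · rw [h1, h7]
      unfold dd
      omega
  · intro u
    have h8 := rel1 hΦ h hn1 u
    rw [h5] at h8
    exact h8
  · intro hw
    have h9 := kk_nonneg hΦ i h
    have h10 : kk ε i [l] w ≠ 0 := by
      intro h0
      rw [mon_single, kk_zero hΦ i l h0, cf_X] at h
      by_cases h11 : [l] = w
      · exact hw h11.symm
      · exact h (if_neg h11)
    unfold kk at h9 h10
    omega

omit [Infinite K] in
theorem propor [Infinite K] (hε : ε = 1 ∨ ε = -1) {s r s' r' : ℤ}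
    (h : ∀ u : Kˣ, u ^ (ε * r) * f u ^ (s + 2 * r) = 1)
    (h' : ∀ u : Kˣ, u ^ (ε * r') * f u ^ (s' + 2 * r') = 1) : r * s' = r' * s := by
  have h1 : ε * r * (s' + 2 * r') = ε * r' * (s + 2 * r) := by
    apply zpow_inj (K := K)
    intro u
    have h2 : (u ^ (ε * r)) = (f u ^ (s + 2 * r))⁻¹ := eq_inv_of_mul_eq_one_left (h u)
    have h3 : (u ^ (ε * r')) = (f u ^ (s' + 2 * r'))⁻¹ := eq_inv_of_mul_eq_one_left (h' u)
    rw [zpow_mul, h2, zpow_mul, h3, inv_zpow, inv_zpow, ← zpow_mul, ← zpow_mul,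
      mul_comm (s + 2 * r)]
  rcases hε with hε | hε
  · rw [hε] at h1
    linarith
  · rw [hε] at h1
    linarith

theorem exists_nontriv (hΦ : ∀ t, Φ (dg t) = dg (bt ε f t)) (i : Fin 3) :
    ∃ l w, cf (gt Φ i 1 (X l)) w ≠ 0 ∧ w ≠ [l] := by
  by_contra hcon
  push Not at hcon
  have h1 : gt Φ i 1 = 1 := by
    apply aut_ext
    intro l
    rw [smul_X_of (hcon l), cf_self hΦ, one_smul, one_ap]
  unfold gt at h1
  rw [one_smul, ← map_one Φ] at h1
  have h2 := Φ.injective h1
  have h3 := congrArg (fun g : Gp K => g (X i)) h2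
  simp only [el_self (one_mem i), one_ap] at h3
  have h4 : (1 : Al K) = 0 := by
    have h5 : X i + (1 : Al K) = X i + 0 := by rw [h3, add_zero]
    exact add_left_cancel h5
  exact one_ne_zero h4

/-- the ray argument -/
theorem ray (hε : ε = 1 ∨ ε = -1) (hΦ : ∀ t, Φ (dg t) = dg (bt ε f t)) (i : Fin 3)
    {s0 r0 : ℤ} (hs0 : 0 ≤ s0) (hr0 : 0 ≤ r0)
    (h0 : ∀ u : Kˣ, u ^ (ε * r0) * f u ^ (s0 + 2 * r0) = 1) {l : Fin 3} {w : List (Fin 3)}
    (hw : cf (gt Φ i 1 (X l)) w ≠ 0)
    (hpos : (ε = -1 ∧ 1 ≤ s0) ∨ (1 ≤ r0 ∧ ∀ l w, cf (gt Φ i 1 (X l)) w ≠ 0 →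
      ∀ s r : ℤ, (w.count i : ℤ) = [l].count i + s →
        (∀ m, m ≠ i → (w.count m : ℤ) = [l].count m + r) → w ≠ [l] → 1 ≤ r)) : w = [l] := by
  obtain ⟨S, hS⟩ := Int.eq_ofNat_of_zero_le hs0
  obtain ⟨R, hR⟩ := Int.eq_ofNat_of_zero_le hr0
  rcases hpos with ⟨he, hs⟩ | ⟨hr, hall⟩
  · refine noPos (gt Φ i 1) (fun m => if m = i then S else R) (D := S) (by omega) ?_ l w hw
    intro l w hw
    by_cases hwl : w = [l]
    · exact ⟨0, fun m => by rw [hwl, zero_mul, add_zero]⟩
    · obtain ⟨s, r, h1, h2, h3, h4, h5⟩ := word_data hε hΦ i l hw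
      have h6 := propor hε h0 h4
      have h7 := h5 hwl
      rw [he] at h7
      have h8 : 0 ≤ s := by omega
      obtain ⟨n, hn⟩ := Int.eq_ofNat_of_zero_le h8
      refine ⟨n, fun m => ?_⟩
      by_cases hm : m = i
      · rw [if_pos hm, hm]
        have h9 : (S : ℤ) * w.count i = S * [l].count i + n * S := by
          rw [h2, hn]
          ring
        exact_mod_cast h9
      · rw [if_neg hm]
        have h9 : (S : ℤ) * w.count m = S * [l].count m + n * R := by
          rw [h3 m hm]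
          have h10 : (S : ℤ) * r = n * R := by
            rw [hS, hR, hn] at h6
            linarith
          linear_combination h10
        exact_mod_cast h9
  · refine noPos (gt Φ i 1) (fun m => if m = i then S else R) (D := R) (by omega) ?_ l w hw
    intro l w hw
    by_cases hwl : w = [l]
    · exact ⟨0, fun m => by rw [hwl, zero_mul, add_zero]⟩
    · obtain ⟨s, r, h1, h2, h3, h4, h5⟩ := word_data hε hΦ i l hw
      have h6 := propor hε h0 h4
      obtain ⟨n, hn⟩ := Int.eq_ofNat_of_zero_le h1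
      refine ⟨n, fun m => ?_⟩
      by_cases hm : m = i
      · rw [if_pos hm, hm]
        have h9 : (R : ℤ) * w.count i = R * [l].count i + n * S := by
          rw [h2]
          have h10 : (R : ℤ) * s = n * S := by
            rw [hS, hR, hn] at h6
            linarith
          linear_combination h10
        exact_mod_cast h9
      · rw [if_neg hm]
        have h9 : (R : ℤ) * w.count m = R * [l].count m + n * R := by
          rw [h3 m hm, hn]
          ring
        exact_mod_cast h9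

theorem neg_case (hΦ : ∀ t, Φ (dg t) = dg (bt (-1) f t)) : False := by
  obtain ⟨l0, w0, hw0, hne⟩ := exists_nontriv hΦ 0
  obtain ⟨s0, r0, h1, h2, h3, h4, h5⟩ := word_data (Or.inr rfl) hΦ 0 l0 hw0
  have h6 := h5 hne
  exact hne (ray (Or.inr rfl) hΦ 0 (by omega) h1 h4 hw0 (Or.inl ⟨rfl, by omega⟩))

/-- the remaining shape of the images of the translations -/
theorem pos_shape (hΦ : ∀ t, Φ (dg t) = dg (bt 1 f t)) (hf : ∃ u, f u ≠ 1) (i : Fin 3) :
    ∃ R : ℕ, 1 ≤ R ∧ (∀ u : Kˣ, u ^ (1 * (R : ℤ)) * f u ^ (-1 + 2 * (R : ℤ)) = 1) ∧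
      ∃ F ∈ sp K (fun w => w.count i = 0 ∧ ∀ m, m ≠ i → w.count m = R), F ≠ 0 ∧
        gt Φ i 1 = el i F := by
  have hr : ∀ l w, cf (gt Φ i 1 (X l)) w ≠ 0 → ∀ s r : ℤ, (w.count i : ℤ) = [l].count i + s →
      (∀ m, m ≠ i → (w.count m : ℤ) = [l].count m + r) → w ≠ [l] → 1 ≤ r := by
    intro l w hw s r hs hr hne
    obtain ⟨s', r', h1, h2, h3, h4, h5⟩ := word_data (Or.inl rfl) hΦ i l hw
    have hs' : s' = s := by omega
    have hr' : r' = r := by
      have h6 := h3 (i + 1) (succ_ne i).1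
      have h7 := hr (i + 1) (succ_ne i).1
      omega
    subst hs' hr'
    by_contra hcon
    have h0 : r' = 0 := by omega
    have h6 := h5 hne
    have h7 : ([l].count i : ℤ) ≤ 1 := by
      have : [l].count i ≤ 1 := by
        rw [count_single]
        split_ifs <;> omega
      exact_mod_cast this
    have h8 : s' = -1 := by omega
    obtain ⟨u, hu⟩ := hf
    have h9 := h4 u
    rw [h0, h8, mul_zero, zpow_zero, one_mul, mul_zero, add_zero, zpow_neg, zpow_one,
      inv_eq_one] at h9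
    exact hu h9
  obtain ⟨l0, w0, hw0, hne0⟩ := exists_nontriv hΦ i
  have hneg : ∀ l w, cf (gt Φ i 1 (X l)) w ≠ 0 → ∀ s r : ℤ, (w.count i : ℤ) = [l].count i + s →
      (∀ m, m ≠ i → (w.count m : ℤ) = [l].count m + r) → w ≠ [l] → s < 0 := by
    intro l w hw s r hs hr1 hne
    by_contra hcon
    push Not at hcon
    obtain ⟨s', r', h1, h2, h3, h4, h5⟩ := word_data (Or.inl rfl) hΦ i l hw
    have hs' : s' = s := by omega
    subst hs'
    exact hne (ray (Or.inl rfl) hΦ i hcon h1 h4 hw
      (Or.inr ⟨hr l w hw s' r' h2 h3 hne, hr⟩))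
  have hdat : ∀ l w, cf (gt Φ i 1 (X l)) w ≠ 0 → w ≠ [l] → l = i ∧ w.count i = 0 ∧
      ∃ r : ℤ, 1 ≤ r ∧ (∀ m, m ≠ i → (w.count m : ℤ) = r) ∧
      ∀ u : Kˣ, u ^ (1 * r) * f u ^ (-1 + 2 * r) = 1 := by
    intro l w hw hne
    obtain ⟨s, r, h1, h2, h3, h4, h5⟩ := word_data (Or.inl rfl) hΦ i l hw
    have h6 := hneg l w hw s r h2 h3 hne
    have h7 := hr l w hw s r h2 h3 hne
    have hl : l = i := by
      by_contra hli
      rw [count_single, if_neg hli] at h2
      push_cast at h2
      omega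
    rw [hl, count_single, if_pos rfl] at h2
    push_cast at h2
    have hs : s = -1 := by omega
    refine ⟨hl, by omega, r, h7, fun m hm => ?_, fun u => ?_⟩
    · rw [h3 m hm, hl, count_single, if_neg (Ne.symm hm)]
      push_cast
      ring
    · rw [← hs]
      exact h4 u
  obtain ⟨hl0, hw00, r0, hr0, hr0', hr0''⟩ := hdat l0 w0 hw0 hne0
  obtain ⟨R, hR⟩ : ∃ R : ℕ, r0 = (R : ℤ) := ⟨r0.toNat, by omega⟩
  refine ⟨R, by omega, fun u => by rw [← hR]; exact hr0'' u, gt Φ i 1 (X i) - X i, ?_, ?_, ?_⟩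
  · rw [mem_sp]
    intro w hw
    have hwi : w ≠ [i] := by
      intro h
      rw [h, cf_sub, cf_self hΦ, cf_X_self, sub_self] at hw
      exact hw rfl
    have hw' : cf (gt Φ i 1 (X i)) w ≠ 0 := by
      rw [cf_sub, cf_X, if_neg (fun h => hwi h.symm), sub_zero] at hw
      exact hw
    obtain ⟨-, h1, r, h2, h3, h4⟩ := hdat i w hw' hwi
    have h5 := propor (Or.inl rfl) hr0'' h4
    refine ⟨h1, fun m hm => ?_⟩
    have h6 := h3 m hm
    omega
  · intro h0
    have h1 : gt Φ i 1 (X i) = X i := sub_eq_zero.1 h0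
    rw [hl0, h1, cf_X] at hw0
    rw [hl0] at hne0
    by_cases h2 : [i] = w0
    · exact hne0 h2.symm
    · exact hw0 (if_neg h2)
  · have hF : gt Φ i 1 (X i) - X i ∈ Bi K i := by
      rw [mem_sp]
      intro w hw hiw
      have hwi : w ≠ [i] := by
        intro h
        rw [h, cf_sub, cf_self hΦ, cf_X_self, sub_self] at hw
        exact hw rfl
      have hw' : cf (gt Φ i 1 (X i)) w ≠ 0 := by
        rw [cf_sub, cf_X, if_neg (fun h => hwi h.symm), sub_zero] at hw
        exact hw
      obtain ⟨-, h1, -⟩ := hdat i w hw' hwi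
      exact (List.count_eq_zero.1 h1) hiw
    refine eq_el hF (by abel) fun l hl => ?_
    have h1 : ∀ w, cf (gt Φ i 1 (X l)) w ≠ 0 → w = [l] := by
      intro w hw
      by_contra hne
      exact hl (hdat l w hw hne).1
    rw [smul_X_of h1, cf_self hΦ, one_smul]

omit [Infinite K] in
theorem hom_eq_on {C : Type} [Semiring C] [Algebra K C] {φ φ' : Al K →ₐ[K] C} {i : Fin 3}
    (h : ∀ j, j ≠ i → φ (X j) = φ' (X j)) {p : Al K} (hp : p ∈ Bi K i) : φ p = φ' p := by
  rw [sum_cf p, map_sum, map_sum]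
  refine Finset.sum_congr rfl fun w hw => ?_
  rw [map_smul, map_smul, map_mon, map_mon]
  congr 2
  refine List.map_congr_left fun x hx => h x ?_
  rintro rfl
  exact mem_sp.1 hp w (mem_su.1 hw) hx

theorem length_flatMap' (L : Fin 3 → List (Fin 3)) (v : List (Fin 3)) :
    (v.flatMap L).length = ∑ l, v.count l * (L l).length := by
  induction v with
  | nil => simp
  | cons x v ih =>
    have h1 : ∀ l, (x :: v).count l * (L l).length =
        v.count l * (L l).length + (if l = x then (L l).length else 0) := by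
      intro l
      rw [List.count_cons]
      by_cases h : x = l
      · subst h
        simp only [beq_self_eq_true, if_true]
        ring
      · have h' : ¬ l = x := fun e => h e.symm
        simp [h, h']
    rw [List.flatMap_cons, List.length_append, ih, Finset.sum_congr rfl fun l _ => h1 l,
      Finset.sum_add_distrib, Finset.sum_ite_eq', if_pos (Finset.mem_univ _)]
    ring

theorem pos_case (hΦ : ∀ t, Φ (dg t) = dg (bt 1 f t)) (u : Kˣ) : f u = 1 := by
  by_contra hu
  obtain ⟨R, hR, hR', F, hF, hF0, hgF⟩ := pos_shape hΦ ⟨u, hu⟩ 0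
  obtain ⟨R', hR1, hR1', F', hF', hF0', hgF'⟩ := pos_shape hΦ ⟨u, hu⟩ 1
  have hRR : R = R' := by
    have h1 := propor (Or.inl rfl) hR' hR1'
    omega
  subst hRR
  have hFB : F ∈ Bi K 0 := sp_mono (fun w hw => List.count_eq_zero.1 hw.1) hF
  have hFB' : F' ∈ Bi K 1 := sp_mono (fun w hw => List.count_eq_zero.1 hw.1) hF'
  -- they commute
  have hc : el 0 F * el 1 F' = el 1 F' * el 0 F := by
    rw [← hgF, ← hgF']
    unfold gt
    rw [← map_mul, ← map_mul, one_smul]
    congr 1
    have h1 := el_conj (i := 1) (j := 0) (by decide) (f := (1 : Al K)) (g := (1 : Al K))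
      (one_mem 1) (one_mem 0) (one_mem 1)
    rw [map_one, mul_inv_eq_iff_eq_mul] at h1
    exact h1
  have hfix : el 0 F F' = F' := by
    have h1 := congrArg (fun g : Gp K => g (X 1)) hc
    simp only [mul_ap] at h1
    rw [el_self hFB', map_add, el_ne F (by decide : (1 : Fin 3) ≠ 0), el_self hFB'] at h1
    exact add_left_cancel h1
  -- the leading words
  have hXF : X 0 + F ≠ 0 := by
    rw [← el_self hFB]
    exact gX_ne_zero _ _
  obtain ⟨w0, hw0⟩ := exists_ld hXF
  have hcount : w0.count 0 = 0 ∧ ∀ m, m ≠ 0 → w0.count m = R := by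
    have hne : w0 ≠ [0] := by
      intro h
      obtain ⟨w, hw⟩ : ∃ w, cf F w ≠ 0 := by
        obtain ⟨w, hw⟩ := exists_ld hF0
        exact ⟨w, hw.1⟩
      have h1 := mem_sp.1 hF w hw
      have h2 : w ≠ [0] := by
        intro h3
        rw [h3] at h1
        simp at h1
      have h3 := hw0.2 w (by rwa [cf_add, cf_X, if_neg (fun h => h2 h.symm), zero_add])
      rw [h] at h3
      have h4 := nu_length h3
      rw [List.length_singleton] at h4
      have h5 := sum_count w
      rw [Fin.sum_univ_three, h1.2 1 (by decide), h1.2 2 (by decide)] at h5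
      omega
    have h1 := hw0.1
    rw [cf_add, cf_X, if_neg (fun h => hne h.symm), zero_add] at h1
    exact mem_sp.1 hF w0 h1
  let u' : Fin 3 → Al K := fun l => if l = 0 then X 0 + F else if l = 1 then X 0 else X 2
  let L : Fin 3 → List (Fin 3) := fun l => if l = 0 then w0 else if l = 1 then [0] else [2]
  let φ : Al K →ₐ[K] Al K := FreeAlgebra.lift K u'
  have hφ : ∀ l, IsLd (φ (X l)) (L l) := by
    intro l
    change IsLd (FreeAlgebra.lift K u' (X l)) (L l)
    rw [lift_X]
    fin_cases l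
    · exact hw0
    · exact ld_X 0
    · exact ld_X 2
  have hLI : LI L := by
    intro n hn
    have e0 := hn 0
    have e1 := hn 1
    have e2 := hn 2
    rw [Fin.sum_univ_three] at e0 e1 e2
    have L0 : L 0 = w0 := rfl
    have L1 : L 1 = [0] := rfl
    have L2 : L 2 = [2] := rfl
    rw [L0, L1, L2] at e0 e1 e2
    rw [hcount.1, show [(0 : Fin 3)].count 0 = 1 by decide,
      show [(2 : Fin 3)].count 0 = 0 by decide] at e0
    rw [hcount.2 1 (by decide), show [(0 : Fin 3)].count 1 = 0 by decide,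
      show [(2 : Fin 3)].count 1 = 0 by decide] at e1
    rw [hcount.2 2 (by decide), show [(0 : Fin 3)].count 2 = 0 by decide,
      show [(2 : Fin 3)].count 2 = 1 by decide] at e2
    push_cast at e0 e1 e2
    have hn0 : n 0 = 0 := by
      have h1 : n 0 * (R : ℤ) = 0 := by linarith
      rcases mul_eq_zero.1 h1 with h2 | h2
      · exact h2
      · omega
    have hn1 : n 1 = 0 := by linarith
    have hn2 : n 2 = 0 := by
      rw [hn0] at e2
      linarith
    intro l
    fin_cases l
    · exact hn0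
    · exact hn1
    · exact hn2
  obtain ⟨v, hv, hld⟩ := ld_map hφ (fun a b hab => code hLI hab) hF0'
  have hφF : φ F' = F' := by
    have h1 : φ F' = (el 0 F : Al K →ₐ[K] Al K) F' := by
      refine hom_eq_on (i := 1) (fun j hj => ?_) hFB'
      change FreeAlgebra.lift K u' (X j) = el 0 F (X j)
      rw [lift_X]
      fin_cases j
      · exact (el_self hFB).symm
      · exact absurd rfl hj
      · exact (el_ne F (by decide : (2 : Fin 3) ≠ 0)).symm
    rw [h1]
    exact hfix
  rw [hφF] at hld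
  have h1 := mem_sp.1 hF' _ hld.1
  have h2 := mem_sp.1 hF' v (mem_su.1 hv)
  have h3 := sum_count (v.flatMap L)
  rw [Fin.sum_univ_three, h1.2 0 (by decide), h1.1, h1.2 2 (by decide), length_flatMap',
    Fin.sum_univ_three, h2.2 0 (by decide), h2.1, h2.2 2 (by decide)] at h3
  have L0 : (L 0).length = 2 * R := by
    change w0.length = _
    rw [← sum_count w0, Fin.sum_univ_three, hcount.1, hcount.2 1 (by decide),
      hcount.2 2 (by decide)]
    ring
  have L2 : (L 2).length = 1 := rfl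
  rw [L0, L2] at h3
  have h4 : 1 ≤ R * R := Nat.mul_le_mul hR hR
  nlinarith

end

end AFree
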