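import Pool.Agent.AFree.Char

/-!
# MP_e44b8a_al: the characters are twisted by a field automorphism (helper90)
-/

namespace AFree

noncomputable section

variable {K : Type} [Field K]

theorem tw_mul (s t : Fin 3 → Kˣ) (w : List (Fin 3)) : tw (s * t) w = tw s w * tw t w := by
  induction w with
  | nil => simp [tw]
  | cons x w ih =>
    unfold tw at ih ⊢
    rw [List.map_cons, List.prod_cons, ih, List.map_cons, List.prod_cons, List.map_cons,
      List.prod_cons, Pi.mul_apply, Units.val_mul]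
    ring

theorem cf_conj (s : Fin 3 → Kˣ) (g : Gp K) (l : Fin 3) (w : List (Fin 3)) :
    cf ((dg s * g * (dg s)⁻¹) (X l)) w = ((s l)⁻¹ : Kˣ).val * (tw s w * cf (g (X l)) w) := by
  rw [dg_inv, mul_ap, mul_ap, dg_X, map_smul, map_smul, cf_smul, cf_dg]
  rfl

theorem two_form {p : Al K} (h : ∀ w, cf p w ≠ 0 → w = [0] ∨ w = [1]) :
    p = cf p [0] • X 0 + cf p [1] • X 1 := by
  apply ext_cf
  intro w
  rw [cf_add, cf_smul, cf_smul, cf_X, cf_X]
  by_cases h0 : [0] = w
  · rw [if_pos h0, if_neg (by rw [← h0]; decide), ← h0]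
    ring
  · by_cases h1 : [1] = w
    · rw [if_neg h0, if_pos h1, ← h1]
      ring
    · rw [if_neg h0, if_neg h1, mul_zero, mul_zero, add_zero]
      by_contra hne
      rcases h w hne with h2 | h2
      · exact h0 h2.symm
      · exact h1 h2.symm

theorem cnt01 : ∀ l : Fin 3, l ≠ 2 → [l].count 0 + [l].count 1 = 1 ∧ [l].count 2 = 0 := by
  decide

variable [Infinite K] {Φ : Gp K ≃* Gp K} {a : (Fin 3 → Kˣ) → (Fin 3 → Kˣ)} {ψ : Kˣ ≃* Kˣ}
  {η : Kˣ →* Kˣ}

omit [Infinite K] in
theorem X1_mem : X (K := K) 1 ∈ Bi K 0 := X_mem (by decide)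

omit [Infinite K] in
theorem root_comm (ha : ∀ t l, a t l = ψ (t l) * η (t 0 * t 1 * t 2))
    (hsur : Function.Surjective a) (hΦ : ∀ t, Φ (dg t) = dg (a t)) (c : K) {s : Fin 3 → Kˣ}
    (hs : s 0 = s 1) :
    Φ (el 0 (c • X 1)) * dg s = dg s * Φ (el 0 (c • X 1)) := by
  obtain ⟨t, rfl⟩ := hsur s
  rw [ha, ha, mul_left_inj] at hs
  have ht : t 0 = t 1 := ψ.injective hs
  have hm : c • X (K := K) 1 ∈ Bi K 0 := Submodule.smul_mem _ _ X1_mem
  have h1 := dg_el t hm
  rw [map_smul, dg_X, smul_comm c, smul_smul, ht, Units.inv_mul, one_smul,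
    mul_inv_eq_iff_eq_mul] at h1
  rw [← hΦ, ← map_mul, ← map_mul, h1]

omit [Infinite K] in
theorem root_torus
    (hΦ : ∀ t, Φ (dg t) = dg (a t)) (c : K) (u : Kˣ) (l : Fin 3) (w : List (Fin 3)) :
    cf (Φ (el 0 (((u : K) * c) • X 1)) (X l)) w =
      ((a (ti 1 u) l)⁻¹ : Kˣ).val * (tw (a (ti 1 u)) w * cf (Φ (el 0 (c • X 1)) (X l)) w) := by
  have hm : c • X (K := K) 1 ∈ Bi K 0 := Submodule.smul_mem _ _ X1_mem
  have h1 := dg_el (ti 1 u) hm
  have e0 : ti (1 : Fin 3) u 0 = 1 := by simp [ti]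
  have e1 : ti (1 : Fin 3) u 1 = u := by simp [ti]
  rw [map_smul, dg_X, e0, e1, inv_one, Units.val_one, one_smul, smul_smul, mul_comm c] at h1
  rw [← h1, map_mul, map_mul, map_inv, hΦ, cf_conj]

/-- the conjugation action on the characters comes from a field automorphism -/
theorem root (ha : ∀ t l, a t l = ψ (t l) * η (t 0 * t 1 * t 2))
    (hsur : Function.Surjective a) (hΦ : ∀ t, Φ (dg t) = dg (a t)) :
    ∃ θ : K ≃+* K, (∀ u : Kˣ, θ u = ψ u) ∨ (∀ u : Kˣ, θ u = ((ψ u)⁻¹ : Kˣ)) := by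
  obtain ⟨g, hg⟩ : ∃ g : K → Gp K, ∀ c, g c = Φ (el 0 (c • X 1)) := ⟨_, fun _ => rfl⟩
  have hcomm : ∀ c s, s 0 = s 1 → g c * dg s = dg s * g c := by
    intro c s hs
    rw [hg]
    exact root_comm ha hsur hΦ c hs
  -- the weights
  have hcnt : ∀ c l w, cf (g c (X l)) w ≠ 0 →
      w.count 0 + w.count 1 = [l].count 0 + [l].count 1 ∧ w.count 2 = [l].count 2 := by
    intro c l w hw
    constructor
    · apply pow_inj (K := K)
      intro u
      have h1 := weight (hcomm c (ti 0 u * ti 1 u) (by simp [ti])) l hw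
      have h2 := tw_single (ti 0 u * ti 1 u) l
      rw [← h2, tw_mul, tw_mul, tw_ti, tw_ti, tw_ti, tw_ti, ← pow_add, ← pow_add] at h1
      exact h1
    · apply pow_inj (K := K)
      intro u
      have h1 := weight (hcomm c (ti 2 u) (by simp [ti])) l hw
      have h2 := tw_single (ti 2 u) l
      rw [← h2, tw_ti, tw_ti] at h1
      exact h1
  have h01 : ∀ c l, l ≠ 2 → ∀ w, cf (g c (X l)) w ≠ 0 → w = [0] ∨ w = [1] := by
    intro c l hl w hw
    obtain ⟨h1, h2⟩ := hcnt c l w hw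
    have h3 := cnt01 l hl
    rw [h3.1] at h1
    rw [h3.2] at h2
    have h4 : w.length = 1 := by
      rw [← sum_count w, Fin.sum_univ_three, h2, h1]
    obtain ⟨m, rfl⟩ := List.length_eq_one_iff.1 h4
    clear hw h4 h3
    revert h2
    revert m
    decide
  have h22 : ∀ c, g c (X 2) = cf (g c (X 2)) [2] • X 2 := by
    intro c
    refine smul_X_of fun w hw => ?_
    obtain ⟨h1, h2⟩ := hcnt c 2 w hw
    have h3 : [(2 : Fin 3)].count 0 + [(2 : Fin 3)].count 1 = 0 ∧ [(2 : Fin 3)].count 2 = 1 := by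
      decide
    rw [h3.1] at h1
    rw [h3.2] at h2
    have h4 : w.length = 1 := by
      rw [← sum_count w, Fin.sum_univ_three, h2, h1]
    obtain ⟨m, rfl⟩ := List.length_eq_one_iff.1 h4
    clear hw h4 h3
    revert h2
    revert m
    decide
  -- the matrix
  obtain ⟨A, hA⟩ : ∃ A : K → K, ∀ c, A c = cf (g c (X 0)) [0] := ⟨_, fun _ => rfl⟩
  obtain ⟨B, hB⟩ : ∃ B : K → K, ∀ c, B c = cf (g c (X 0)) [1] := ⟨_, fun _ => rfl⟩
  obtain ⟨C, hC⟩ : ∃ C : K → K, ∀ c, C c = cf (g c (X 1)) [0] := ⟨_, fun _ => rfl⟩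
  obtain ⟨E, hE⟩ : ∃ E : K → K, ∀ c, E c = cf (g c (X 1)) [1] := ⟨_, fun _ => rfl⟩
  have hX0 : ∀ c, g c (X 0) = A c • X 0 + B c • X 1 := by
    intro c
    rw [hA, hB]
    exact two_form (h01 c 0 (by decide))
  have hX1 : ∀ c, g c (X 1) = C c • X 0 + E c • X 1 := by
    intro c
    rw [hC, hE]
    exact two_form (h01 c 1 (by decide))
  have c00 : cf (X (K := K) 0) [0] = 1 := cf_X_self 0
  have c01 : cf (X (K := K) 0) [1] = 0 := by rw [cf_X, if_neg (by decide)]
  have c10 : cf (X (K := K) 1) [0] = 0 := by rw [cf_X, if_neg (by decide)]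
  have c11 : cf (X (K := K) 1) [1] = 1 := cf_X_self 1
  -- the torus
  have e0 : ∀ u : Kˣ, a (ti 1 u) 0 = η u := by
    intro u
    rw [ha]
    simp [ti]
  have e1 : ∀ u : Kˣ, a (ti 1 u) 1 = ψ u * η u := by
    intro u
    rw [ha]
    simp [ti]
  have tA : ∀ u : Kˣ, A u = A 1 := by
    intro u
    rw [hA, hA, hg, hg]
    have h := root_torus hΦ 1 u 0 [0]
    rw [mul_one, tw_single, ← mul_assoc, Units.inv_mul, one_mul] at h
    exact h
  have tE : ∀ u : Kˣ, E u = E 1 := by
    intro u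
    rw [hE, hE, hg, hg]
    have h := root_torus hΦ 1 u 1 [1]
    rw [mul_one, tw_single, ← mul_assoc, Units.inv_mul, one_mul] at h
    exact h
  have tB : ∀ u : Kˣ, B u = ψ u * B 1 := by
    intro u
    rw [hB, hB, hg, hg]
    have h := root_torus hΦ 1 u 0 [1]
    rw [mul_one, tw_single, e0, e1, ← mul_assoc, ← Units.val_mul, mul_comm (ψ u),
      inv_mul_cancel_left] at h
    exact h
  have tC : ∀ u : Kˣ, C u = ((ψ u)⁻¹ : Kˣ) * C 1 := by
    intro u
    rw [hC, hC, hg, hg]
    have h := root_torus hΦ 1 u 1 [0]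
    rw [mul_one, tw_single, e0, e1, ← mul_assoc, ← Units.val_mul, _root_.mul_inv_rev,
      mul_comm (η u)⁻¹, inv_mul_cancel_right] at h
    exact h
  -- additivity
  have hadd : ∀ c c', g (c + c') = g c * g c' := by
    intro c c'
    rw [hg, hg, hg, ← map_mul, ← el_add (Submodule.smul_mem _ _ X1_mem)
      (Submodule.smul_mem _ _ X1_mem), add_smul]
  have h00 : ∀ c c', g (c + c') (X 0) =
      (A c' * A c + B c' * C c) • X 0 + (A c' * B c + B c' * E c) • X 1 := by
    intro c c'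
    rw [hadd, mul_ap, hX0 c', map_add, map_smul, map_smul, hX0, hX1]
    module
  have h11 : ∀ c c', g (c + c') (X 1) =
      (C c' * A c + E c' * C c) • X 0 + (C c' * B c + E c' * E c) • X 1 := by
    intro c c'
    rw [hadd, mul_ap, hX1 c', map_add, map_smul, map_smul, hX0, hX1]
    module
  have aA : ∀ c c', A (c + c') = A c' * A c + B c' * C c := by
    intro c c'
    rw [hA, h00, cf_add, cf_smul, cf_smul, c00, c10]
    ring
  have aB : ∀ c c', B (c + c') = A c' * B c + B c' * E c := by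
    intro c c'
    rw [hB, h00, cf_add, cf_smul, cf_smul, c01, c11]
    ring
  have aC : ∀ c c', C (c + c') = C c' * A c + E c' * C c := by
    intro c c'
    rw [hC, h11, cf_add, cf_smul, cf_smul, c00, c10]
    ring
  have aE : ∀ c c', E (c + c') = C c' * B c + E c' * E c := by
    intro c c'
    rw [hE, h11, cf_add, cf_smul, cf_smul, c01, c11]
    ring
  have g0 : g 0 = 1 := by
    rw [hg, zero_smul, el_zero, map_one]
  have A0 : A 0 = 1 := by
    rw [hA, g0, one_ap, c00]
  have E0 : E 0 = 1 := by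
    rw [hE, g0, one_ap, c11]
  -- `B C = 0`
  have hBC : B 1 * C 1 = 0 := by
    classical
    obtain ⟨r, hr⟩ := Infinite.exists_notMem_finset ({0, -1} : Finset K)
    obtain ⟨r', hr'⟩ := Infinite.exists_notMem_finset ({0, -1, r} : Finset K)
    simp only [Finset.mem_insert, Finset.mem_singleton, not_or] at hr hr'
    have key : ∀ x : K, ∀ hx : x ≠ 0, x ≠ -1 →
        A 1 - A 1 * A 1 = (ψ (Units.mk0 x hx) : K) * (B 1 * C 1) := by
      intro x hx hx'
      have hx1 : 1 + x ≠ 0 := fun h => hx' (by linear_combination h)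
      have h1 := aA 1 x
      have h2 := tA (Units.mk0 (1 + x) hx1)
      have h3 := tA (Units.mk0 x hx)
      have h4 := tB (Units.mk0 x hx)
      rw [Units.val_mk0] at h2 h3 h4
      rw [h2, h3, h4] at h1
      linear_combination h1
    have k1 := key r hr.1 hr.2
    have k2 := key r' hr'.1 hr'.2.1
    have k3 : ((ψ (Units.mk0 r hr.1) : K) - (ψ (Units.mk0 r' hr'.1) : K)) * (B 1 * C 1) = 0 := by
      linear_combination k2 - k1
    rcases mul_eq_zero.1 k3 with k4 | k4
    · exfalso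
      have k5 : ψ (Units.mk0 r hr.1) = ψ (Units.mk0 r' hr'.1) := Units.ext (sub_eq_zero.1 k4)
      have k6 := congrArg Units.val (ψ.injective k5)
      rw [Units.val_mk0, Units.val_mk0] at k6
      exact hr'.2.2 k6.symm
    · exact k4
  have tA' : A (-1) = A 1 := by
    have h := tA (-1)
    rwa [Units.val_neg, Units.val_one] at h
  have tE' : E (-1) = E 1 := by
    have h := tE (-1)
    rwa [Units.val_neg, Units.val_one] at h
  have tB' : B (-1) = ψ (-1) * B 1 := by
    have h := tB (-1)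
    rwa [Units.val_neg, Units.val_one] at h
  have tC' : C (-1) = ((ψ (-1))⁻¹ : Kˣ) * C 1 := by
    have h := tC (-1)
    rwa [Units.val_neg, Units.val_one] at h
  obtain ⟨r, hr⟩ : ∃ r : K, r ≠ 0 ∧ r ≠ -1 := by
    classical
    obtain ⟨r, hr⟩ := Infinite.exists_notMem_finset ({0, -1} : Finset K)
    simp only [Finset.mem_insert, Finset.mem_singleton, not_or] at hr
    exact ⟨r, hr⟩
  have hr1 : 1 + r ≠ 0 := fun h => hr.2 (by linear_combination h)
  have hA1 : A 1 = 1 := by
    have h1 := aA 1 r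
    have h2 := tA (Units.mk0 (1 + r) hr1)
    have h3 := tA (Units.mk0 r hr.1)
    have h4 := tB (Units.mk0 r hr.1)
    rw [Units.val_mk0] at h2 h3 h4
    rw [h2, h3, h4] at h1
    have h5 := aA 1 (-1)
    rw [add_neg_cancel, A0, tA', tB'] at h5
    linear_combination h1 - h5 +
      (((ψ (Units.mk0 r hr.1) : Kˣ) : K) - ((ψ (-1) : Kˣ) : K)) * hBC
  have hE1 : E 1 = 1 := by
    have h1 := aE 1 r
    have h2 := tE (Units.mk0 (1 + r) hr1)
    have h3 := tE (Units.mk0 r hr.1)
    have h4 := tC (Units.mk0 r hr.1)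
    rw [Units.val_mk0] at h2 h3 h4
    rw [h2, h3, h4] at h1
    have h5 := aE 1 (-1)
    rw [add_neg_cancel, E0, tE', tC'] at h5
    linear_combination h1 - h5 +
      ((((ψ (Units.mk0 r hr.1))⁻¹ : Kˣ) : K) - (((ψ (-1))⁻¹ : Kˣ) : K)) * hBC
  by_cases hB1 : B 1 = 0
  · by_cases hC1 : C 1 = 0
    · -- contradiction
      exfalso
      have hD : cf (g 1 (X 2)) [2] ≠ 0 := by
        intro h0
        apply gX_ne_zero (g 1) 2
        rw [h22 1, h0, zero_smul]
      have h1 : g 1 = dg (ti 2 (Units.mk0 _ hD)) := by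
        apply aut_ext
        intro l
        rw [dg_X]
        fin_cases l
        · change g 1 (X 0) = _
          rw [hX0, hA1, hB1]
          simp [ti]
        · change g 1 (X 1) = _
          rw [hX1, hE1, hC1]
          simp [ti]
        · change g 1 (X 2) = _
          conv_lhs => rw [h22 1]
          simp [ti]
      obtain ⟨t, ht⟩ := hsur (ti 2 (Units.mk0 _ hD))
      rw [← ht, ← hΦ, hg, one_smul] at h1
      have h2 := Φ.injective h1
      have h3 := congrArg (fun p : Gp K => cf (p (X 0)) [1]) h2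
      simp only [el_self X1_mem, dg_X, cf_add, cf_smul, c01, c11] at h3
      rw [zero_add, mul_zero] at h3
      exact one_ne_zero h3
    · -- the inverse
      have h1 : ∀ u v w : Kˣ, (u : K) + v = w →
          ((ψ.trans (MulEquiv.inv Kˣ) u : Kˣ) : K) + (ψ.trans (MulEquiv.inv Kˣ) v : Kˣ) =
            (ψ.trans (MulEquiv.inv Kˣ) w : Kˣ) := by
        intro u v w huv
        change (((ψ u)⁻¹ : Kˣ) : K) + ((ψ v)⁻¹ : Kˣ) = ((ψ w)⁻¹ : Kˣ)
        have h2 := aC u v
        rw [huv, tC, tC, tC, tA, tE, hA1, hE1] at h2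
        apply mul_right_cancel₀ hC1
        linear_combination -h2
      obtain ⟨θ, hθ⟩ := exists_field (ψ.trans (MulEquiv.inv Kˣ)) h1
      exact ⟨θ, Or.inr fun u => hθ u⟩
  · have h1 : ∀ u v w : Kˣ, (u : K) + v = w → (ψ u : K) + ψ v = ψ w := by
      intro u v w huv
      have h2 := aB u v
      rw [huv, tB, tB, tB, tA, tE, hA1, hE1] at h2
      apply mul_right_cancel₀ hB1
      linear_combination -h2
    obtain ⟨θ, hθ⟩ := exists_field ψ h1
    exact ⟨θ, Or.inl hθ⟩

end

end AFree
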