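import Pool.Agent.AFree.Weight

/-!
# MP_e44b8a_al: elementary automorphisms are mapped to elementary automorphisms (helper90)
-/

namespace AFree

noncomputable section

variable {K : Type} [Field K]

theorem aut_range {i : Fin 3} {g : Gp K} (h : ∀ l, g (X l) ∈ Bi K i) (a : Al K) :
    g a ∈ Bi K i := by
  rw [sum_cf a, map_sum]
  refine Submodule.sum_mem _ fun w _ => ?_
  rw [map_smul]
  refine Submodule.smul_mem _ _ ?_
  clear * - h
  induction w with
  | nil =>
    rw [mon_nil, map_one]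
    exact one_mem i
  | cons k w ih =>
    rw [mon_cons, map_mul]
    exact Bi_mul (h k) ih

theorem X_notMem (i : Fin 3) : X i ∉ Bi K i := by
  intro h
  have h1 := mem_sp.1 h [i] (by rw [cf_X, if_pos rfl]; exact one_ne_zero)
  exact h1 List.mem_cons_self

theorem cw_rep [Infinite K] {i : Fin 3} {m : Fin 3 → ℕ} {g : Gp K} (h : CW i m g)
    {w : List (Fin 3)} (hw : cf (g (X i)) w ≠ 0) (hmem : i ∈ w) :
    w = List.replicate (w.count i) i := by
  have hpos : 1 ≤ w.count i := List.count_pos_iff.2 hmem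
  have h3 : ∀ j, j ≠ i → w.count j = 0 := by
    intro j hj
    have h4 := cw_count h i hw hj
    rw [count_single, count_single, if_neg (Ne.symm hj), if_pos rfl] at h4
    nlinarith [Nat.zero_le (w.count j), Nat.zero_le (m j)]
  rw [List.eq_replicate_iff]
  have h6 : ∀ b ∈ w, b = i := by
    intro b hb
    by_contra hbi
    exact List.count_eq_zero.1 (h3 b hbi) hb
  exact ⟨(List.count_eq_length.2 fun b hb => (h6 b hb).symm).symm, h6⟩

theorem cw_form [Infinite K] {i : Fin 3} {m : Fin 3 → ℕ} {g : Gp K} (h : CW i m g)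
    (hi : m i = 0) (hm : 2 ≤ ∑ j, m j) :
    ∃ d : Fin 3 → Kˣ, ∃ f ∈ Mh K m, g = el i f * dg d := by
  have h1 : ∀ l, l ≠ i → ∃ β : K, g (X l) = β • X l := fun l hl =>
    cw_other h hl (cw_big_B h hi hm hl)
  have hq : ∀ a, 2 ≤ a → cf (g (X i)) (List.replicate a i) = 0 := by
    intro a ha
    by_contra hne
    have h2 : ∀ j, j ≠ i → m j = 0 := by
      intro j hj
      have h4 := cw_count h i hne hj
      rw [count_single, count_single, if_neg (Ne.symm hj), if_pos rfl, List.count_replicate_self,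
        List.count_replicate] at h4
      nlinarith [Nat.zero_le (m j), Nat.zero_le (if (i == j) = true then a else 0)]
    have h3 : ∑ j, m j = 0 := by
      refine Finset.sum_eq_zero fun j _ => ?_
      by_cases hj : j = i
      · rw [hj, hi]
      · exact h2 j hj
    omega
  have h2 := cw_self h hi hq
  have h3 : ∀ l, cf (g (X l)) [l] ≠ 0 := by
    intro l
    by_cases hl : l = i
    · subst hl
      intro h0
      rw [h0, zero_smul, sub_zero] at h2
      have h4 : ∀ k, g (X k) ∈ Bi K l := by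
        intro k
        by_cases hk : k = l
        · rw [hk]
          exact Mh_le hi h2
        · exact cw_big_B h hi hm hk
      have h5 := aut_range h4 (g⁻¹ (X l))
      rw [ap_inv] at h5
      exact X_notMem l h5
    · obtain ⟨β, hβ⟩ := h1 l hl
      intro h0
      rw [hβ, cf_smul, cf_X, if_pos rfl, mul_one] at h0
      rw [h0, zero_smul] at hβ
      exact X_ne_zero l (g.injective (by rw [hβ, map_zero]))
  have h4 : ((Units.mk0 _ (h3 i))⁻¹ : Kˣ).val • (g (X i) - cf (g (X i)) [i] • X i) ∈ Mh K m :=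
    Submodule.smul_mem _ _ h2
  refine ⟨fun l => Units.mk0 _ (h3 l), _, h4, ?_⟩
  apply aut_ext
  intro l
  rw [mul_ap, dg_X, map_smul]
  by_cases hl : l = i
  · subst hl
    rw [el_self (Mh_le hi h4), smul_add, smul_smul, Units.mul_inv, one_smul, Units.val_mk0]
    abel
  · obtain ⟨β, hβ⟩ := h1 l hl
    rw [el_ne _ hl, Units.val_mk0, hβ, cf_smul, cf_X, if_pos rfl, mul_one]

section

variable [Infinite K] {Φ : Gp K ≃* Gp K}

omit [Infinite K] in
theorem cw_map (hΦ : ∀ t, Φ (dg t) = dg t) {i : Fin 3} {m : Fin 3 → ℕ} {g : Gp K}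
    (h : CW i m g) : CW i m (Φ g) := by
  intro j hj u
  rw [← hΦ, ← map_mul, h j hj u, map_mul]

theorem exists_unit : ∃ u : Kˣ, (u : K) ≠ 1 := by
  classical
  obtain ⟨x, hx⟩ := Infinite.exists_notMem_finset ({0, 1} : Finset K)
  rw [Finset.mem_insert, Finset.mem_singleton, not_or] at hx
  exact ⟨Units.mk0 x hx.1, hx.2⟩

/-- the one-parameter group of the i-th coordinate -/
def ti (i : Fin 3) (u : Kˣ) : Fin 3 → Kˣ := fun l => if l = i then u else 1

omit [Infinite K] in
theorem dg_ti_fix {i : Fin 3} (u : Kˣ) {f : Al K} (hf : f ∈ Bi K i) : dg (ti i u) f = f := by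
  refine aut_fix (i := i) (fun j hj => ?_) hf
  rw [dg_X]
  have : ti i u j = 1 := by simp [ti, hj]
  rw [this, Units.val_one, one_smul]

omit [Infinite K] in
theorem ti_el {i : Fin 3} (u : Kˣ) {f : Al K} (hf : f ∈ Bi K i) :
    dg (ti i u⁻¹) * el i f * (dg (ti i u⁻¹))⁻¹ = el i ((u : K) • f) := by
  rw [dg_el _ hf, dg_ti_fix _ hf]
  have : ti i u⁻¹ i = u⁻¹ := by simp [ti]
  rw [this, inv_inv]

theorem step_big (hΦ : ∀ t, Φ (dg t) = dg t) {i : Fin 3} {m : Fin 3 → ℕ} (hi : m i = 0)
    (hm : 2 ≤ ∑ j, m j) {f : Al K} (hf : f ∈ Mh K m) :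
    ∃ f' ∈ Mh K m, Φ (el i f) = el i f' := by
  obtain ⟨u, hu⟩ := exists_unit (K := K)
  have hu1 : (u : K) - 1 ≠ 0 := sub_ne_zero.2 hu
  have hg0 : ((u : K) - 1)⁻¹ • f ∈ Mh K m := Submodule.smul_mem _ _ hf
  have hB := Mh_le hi hg0
  have h1 : el i f = dg (ti i u⁻¹) * el i (((u : K) - 1)⁻¹ • f) * (dg (ti i u⁻¹))⁻¹ *
      (el i (((u : K) - 1)⁻¹ • f))⁻¹ := by
    rw [ti_el _ hB, el_inv hB, ← el_add (Submodule.smul_mem _ _ hB) (Submodule.neg_mem _ hB)]
    congr 1
    rw [← sub_eq_add_neg]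
    nth_rewrite 2 [← one_smul K (((u : K) - 1)⁻¹ • f)]
    rw [← sub_smul, smul_smul, mul_inv_cancel₀ hu1, one_smul]
  obtain ⟨d, h, hh, hd⟩ := cw_form (cw_map hΦ (el_cw hi hg0)) hi hm
  have hhB := Mh_le hi hh
  refine ⟨(u : K) • h + -h, Submodule.add_mem _ (Submodule.smul_mem _ _ hh)
    (Submodule.neg_mem _ hh), ?_⟩
  rw [h1, map_mul, map_mul, map_mul, map_inv, map_inv, hΦ, hd]
  have h2 : dg (ti i u⁻¹) * (el i h * dg d) * (dg (ti i u⁻¹))⁻¹ * (el i h * dg d)⁻¹ =
      (dg (ti i u⁻¹) * el i h * (dg (ti i u⁻¹))⁻¹) * (el i h)⁻¹ := by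
    have h3 : dg d * (dg (ti i u⁻¹))⁻¹ = (dg (ti i u⁻¹))⁻¹ * dg d := by
      rw [dg_inv, dg_comm]
    calc dg (ti i u⁻¹) * (el i h * dg d) * (dg (ti i u⁻¹))⁻¹ * (el i h * dg d)⁻¹
        = dg (ti i u⁻¹) * el i h * (dg d * (dg (ti i u⁻¹))⁻¹) * (dg d)⁻¹ * (el i h)⁻¹ := by group
      _ = _ := by rw [h3]; group
  rw [h2, ti_el _ hhB, el_inv hhB, ← el_add (Submodule.smul_mem _ _ hhB)
    (Submodule.neg_mem _ hhB)]

/-- multidegree of a power -/
def mp (k : Fin 3) (n : ℕ) : Fin 3 → ℕ := fun j => if j = k then n else 0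

omit [Infinite K] in
theorem mon_replicate (k : Fin 3) (n : ℕ) : mon (K := K) (List.replicate n k) = X k ^ n := by
  induction n with
  | zero => simp
  | succ n ih => rw [List.replicate_succ, mon_cons, ih, pow_succ']

omit [Infinite K] in
theorem pow_Mh (k : Fin 3) (n : ℕ) : X (K := K) k ^ n ∈ Mh K (mp k n) := by
  rw [← mon_replicate]
  refine mon_mem_sp fun j => ?_
  rw [List.count_replicate]
  unfold mp
  by_cases h : j = k
  · simp [h]
  · have h' : k ≠ j := fun h' => h h'.symm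
    simp [h, h']

theorem sum_mp (k : Fin 3) (n : ℕ) : ∑ j, mp k n j = n := by
  unfold mp
  simp

/-- the images commute with the elementary automorphisms of the powers -/
theorem comm_pow (hΦ : ∀ t, Φ (dg t) = dg t) {i k : Fin 3} (hk : k ≠ i) {n : ℕ} (hn : 2 ≤ n)
    {f : Al K} (hf : f ∈ Bi K i) : Φ (el i f) * el i (X k ^ n) = el i (X k ^ n) * Φ (el i f) := by
  have hΦ' : ∀ t, Φ.symm (dg t) = dg t := fun t => by
    rw [MulEquiv.symm_apply_eq, hΦ]
  have hi : mp k n i = 0 := by simp [mp, Ne.symm hk]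
  obtain ⟨f', hf', h1⟩ := step_big hΦ' hi (by rw [sum_mp]; exact hn) (pow_Mh (K := K) k n)
  have h2 : el i (X k ^ n) = Φ (el i f') := by
    rw [← h1, MulEquiv.apply_symm_apply]
  rw [h2, ← map_mul, ← map_mul, el_comm hf (Mh_le hi hf')]

end

/-! ### substitutions -/

/-- the substitution of words -/
def sb (i k : Fin 3) (w : List (Fin 3)) : List (Fin 3) :=
  w.flatMap fun x => if x = i then [k, k] else [x]

theorem sb_cons (i k x : Fin 3) (w : List (Fin 3)) :
    sb i k (x :: w) = (if x = i then [k, k] else [x]) ++ sb i k w := by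
  simp [sb, List.flatMap_cons]

theorem sb_inj {i k : Fin 3} : ∀ v w : List (Fin 3), k ∉ v → k ∉ w → sb i k v = sb i k w →
    v = w := by
  intro v
  induction v with
  | nil =>
    intro w _ _ h
    cases w with
    | nil => rfl
    | cons x w =>
      rw [sb_cons] at h
      split_ifs at h <;> simp [sb] at h
  | cons x v ih =>
    intro w hv hw h
    cases w with
    | nil =>
      rw [sb_cons] at h
      split_ifs at h <;> simp [sb] at h
    | cons y w =>
      rw [List.mem_cons, not_or] at hv hw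
      rw [sb_cons, sb_cons] at h
      by_cases hx : x = i
      · by_cases hy : y = i
        · rw [if_pos hx, if_pos hy] at h
          rw [hx, hy, ih w hv.2 hw.2 (List.append_cancel_left h)]
        · rw [if_pos hx, if_neg hy, List.cons_append, List.cons_append] at h
          exact absurd (List.cons.inj h).1 hw.1
      · by_cases hy : y = i
        · rw [if_neg hx, if_pos hy, List.cons_append, List.cons_append] at h
          exact absurd (List.cons.inj h).1.symm hv.1
        · rw [if_neg hx, if_neg hy, List.cons_append, List.cons_append] at h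
          rw [(List.cons.inj h).1, ih w hv.2 hw.2 (List.cons.inj h).2]

theorem mem_sb {i k : Fin 3} {w : List (Fin 3)} (h : i ∈ w) : k ∈ sb i k w := by
  unfold sb
  rw [List.mem_flatMap]
  exact ⟨i, h, by simp⟩

/-- the homomorphism `x_i ↦ f` -/
def sf (i : Fin 3) (f : Al K) : Al K →ₐ[K] Al K :=
  FreeAlgebra.lift K (fun j => if j = i then f else X j)

theorem sf_fix {i : Fin 3} (f : Al K) {p : Al K} (hp : p ∈ Bi K i) : sf i f p = p :=
  lift_fix (fun _ hj => if_neg hj) hp

theorem sf_self (i : Fin 3) (f : Al K) : sf i f (X i) = f := by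
  unfold sf
  rw [lift_X, if_pos rfl]

theorem sf_ne {i j : Fin 3} (f : Al K) (h : j ≠ i) : sf i f (X j) = X j := by
  unfold sf
  rw [lift_X, if_neg h]

theorem sf_mon_sq (i k : Fin 3) (w : List (Fin 3)) : sf i (X k ^ 2) (mon (K := K) w) =
    mon (sb i k w) := by
  induction w with
  | nil => simp [sb]
  | cons x w ih =>
    rw [mon_cons, map_mul, ih, sb_cons]
    by_cases hx : x = i
    · rw [if_pos hx, hx, sf_self, mon_append]
      congr 1
      simp [pow_two]
    · rw [if_neg hx, sf_ne _ hx, mon_append, mon_single]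

theorem sf_zero_mem {i : Fin 3} {w : List (Fin 3)} (h : i ∈ w) : sf i 0 (mon (K := K) w) = 0 := by
  rw [map_mon]
  exact List.prod_eq_zero (List.mem_map.2 ⟨i, h, sf_self i 0⟩)

theorem sf_zero_ne {i : Fin 3} {w : List (Fin 3)} (h : i ∉ w) :
    sf i 0 (mon (K := K) w) = mon w :=
  sf_fix 0 (mon_mem_sp h)

/-- `ε ∘ (x_i ↦ x_i + f) = (x_i ↦ f)` -/
theorem sf_el {i : Fin 3} {f : Al K} (hf : f ∈ Bi K i) (p : Al K) :
    sf i 0 (el i f p) = sf i f p := by
  have h1 : (sf i 0).comp (el i f : Al K →ₐ[K] Al K) = sf i f := by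
    apply hom_ext_X
    intro j
    change sf i 0 (el i f (X j)) = sf i f (X j)
    by_cases hj : j = i
    · rw [hj, el_self hf, map_add, sf_self, sf_self, sf_fix _ hf, zero_add]
    · rw [el_ne _ hj, sf_ne _ hj, sf_ne _ hj]
  exact congrArg (fun F : Al K →ₐ[K] Al K => F p) h1

/-- an invariant element without `x_k` does not contain `x_i` -/
theorem inv_B {i k : Fin 3} {p : Al K} (hk : k ≠ i) (hp : ∀ w, cf p w ≠ 0 → k ∉ w)
    (h : el i (X k ^ 2) p = p) : p ∈ Bi K i := by
  have h1 : sf i (X k ^ 2) p = sf i 0 p := by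
    rw [← sf_el (Bi_pow (X_mem hk) 2), h]
  rw [mem_sp]
  intro w hw hmem
  apply hw
  have h2 := congrArg (fun q => cf q (sb i k w)) h1
  rw [sum_cf p, map_sum, map_sum] at h2
  rw [cf_sum, cf_sum] at h2
  rw [Finset.sum_eq_single w, Finset.sum_eq_zero] at h2
  · rw [map_smul, sf_mon_sq, cf_smul, cf_mon_self, mul_one] at h2
    exact h2
  · intro v hv
    rw [map_smul, cf_smul]
    by_cases hi : i ∈ v
    · rw [sf_zero_mem hi, cf_zero, mul_zero]
    · rw [sf_zero_ne hi, cf_mon_ne, mul_zero]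
      intro h3
      exact hp v (mem_su.1 hv) (h3 ▸ mem_sb hmem)
  · intro v hv hvw
    rw [map_smul, cf_smul, sf_mon_sq, cf_mon_ne, mul_zero]
    intro h3
    exact hvw (sb_inj v w (hp v (mem_su.1 hv)) (hp w hw) h3)
  · intro h3
    exact absurd (mem_su.2 hw) h3

end

end AFree
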