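import Pool.Agent.AFree.Root

/-!
# MP_e44b8a_al: the images of the translations (helper90)
-/

namespace AFree

noncomputable section

variable {K : Type} [Field K]

/-- the value of a character on a word, as a unit -/
def twu (t : Fin 3 → Kˣ) (w : List (Fin 3)) : Kˣ := (w.map t).prod

theorem twu_val (t : Fin 3 → Kˣ) (w : List (Fin 3)) : (twu t w : K) = tw t w := by
  unfold twu tw
  induction w with
  | nil => simp
  | cons x w ih => rw [List.map_cons, List.prod_cons, Units.val_mul, ih, List.map_cons,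
      List.prod_cons]

theorem twu_cons (t : Fin 3 → Kˣ) (x : Fin 3) (w : List (Fin 3)) :
    twu t (x :: w) = t x * twu t w := by
  unfold twu
  rw [List.map_cons, List.prod_cons]

theorem twu_ti (j : Fin 3) (u : Kˣ) (w : List (Fin 3)) : twu (ti j u) w = u ^ w.count j := by
  apply Units.ext
  rw [twu_val, tw_ti, Units.val_pow_eq_pow_val]

/-- the action on the characters -/
def bt (ε : ℤ) (f : Kˣ →* Kˣ) (t : Fin 3 → Kˣ) : Fin 3 → Kˣ :=
  fun l => t l ^ ε * f (t 0 * t 1 * t 2)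

theorem twu_bt (ε : ℤ) (f : Kˣ →* Kˣ) (t : Fin 3 → Kˣ) (w : List (Fin 3)) :
    twu (bt ε f t) w = twu t w ^ ε * f (t 0 * t 1 * t 2) ^ w.length := by
  induction w with
  | nil => simp [twu]
  | cons x w ih =>
    rw [twu_cons, ih, twu_cons, mul_zpow, List.length_cons, pow_succ]
    unfold bt
    rw [mul_comm (f _ ^ _) (f _), mul_mul_mul_comm]

theorem prod_ti (j : Fin 3) (u : Kˣ) : ti j u 0 * ti j u 1 * ti j u 2 = u := by
  unfold ti
  fin_cases j <;> simp

theorem cf_conj_mon (s : Fin 3 → Kˣ) (g : Gp K) (v w : List (Fin 3)) :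
    cf ((dg s * g * (dg s)⁻¹) (mon v)) w =
      (((twu s v)⁻¹ * twu s w : Kˣ) : K) * cf (g (mon v)) w := by
  have h1 : (dg s)⁻¹ (mon v) = (((twu s v)⁻¹ : Kˣ) : K) • mon v := by
    apply (dg s).injective
    rw [ap_inv, map_smul, dg_mon, smul_smul, ← twu_val, Units.inv_mul, one_smul]
  rw [mul_ap, mul_ap, h1, map_smul, map_smul, cf_smul, cf_dg, ← twu_val, Units.val_mul]
  ring

theorem zpow_inj [Infinite K] {a b : ℤ} (h : ∀ u : Kˣ, u ^ a = u ^ b) : a = b := by
  have key : ∀ c : ℤ, (∀ u : Kˣ, u ^ c = 1) → c = 0 := by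
    intro c hc
    have h1 : ∀ n : ℕ, (∀ u : Kˣ, u ^ n = 1) → n = 0 := by
      intro n hn
      apply pow_inj (K := K)
      intro u
      rw [← Units.val_pow_eq_pow_val, hn, pow_zero, Units.val_one]
    have h2 := h1 c.natAbs (fun u => by
      rcases Int.natAbs_eq c with h3 | h3
      · have h4 := hc u
        rw [h3, zpow_natCast] at h4
        exact h4
      · have h4 := hc u
        rw [h3, zpow_neg, zpow_natCast, inv_eq_one] at h4
        exact h4)
    omega
  have h3 := key (a - b) (fun u => by rw [zpow_sub, h, mul_inv_cancel])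
  omega

theorem vanish [Infinite K] {P : Polynomial K}
    (h : ∀ u w : Kˣ, (w : K) = 1 + u → P.eval (u : K) = 0) : P = 0 := by
  apply Polynomial.eq_zero_of_infinite_isRoot
  have h2 : (({0, -1} : Set K)ᶜ).Infinite := Set.Finite.infinite_compl (Set.toFinite _)
  refine h2.mono fun x hx => ?_
  rw [Set.mem_compl_iff, Set.mem_insert_iff, Set.mem_singleton_iff, not_or] at hx
  have h1 : 1 + x ≠ 0 := fun h0 => hx.2 (by linear_combination h0)
  exact h (Units.mk0 x hx.1) (Units.mk0 (1 + x) h1) rfl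

theorem laurent1 [Infinite K] {ι : Type} (S : Finset ι) (α : ι → K) (e : ι → ℤ) (κ : K) {N : ℤ}
    (hN : N < 0) (h : ∀ u w : Kˣ, (w : K) = 1 + u →
      ((w ^ N : Kˣ) : K) * κ = ∑ s ∈ S, α s * ((u ^ e s : Kˣ) : K)) : κ = 0 := by
  obtain ⟨n, hn⟩ : ∃ n : ℕ, ∀ s ∈ S, 0 ≤ (n : ℤ) + e s := by
    refine ⟨∑ s ∈ S, (e s).natAbs, fun s hs => ?_⟩
    have h1 : (e s).natAbs ≤ ∑ s ∈ S, (e s).natAbs :=
      Finset.single_le_sum (f := fun s => (e s).natAbs) (fun _ _ => Nat.zero_le _) hs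
    omega
  obtain ⟨M, hM, hM0⟩ : ∃ M : ℕ, N = -(M : ℤ) ∧ M ≠ 0 := ⟨N.natAbs, by omega, by omega⟩
  have hP : (Polynomial.C κ * Polynomial.X ^ n - (1 + Polynomial.X) ^ M *
      ∑ s ∈ S, Polynomial.C (α s) * Polynomial.X ^ ((n : ℤ) + e s).toNat : Polynomial K) = 0 := by
    refine vanish fun u w huw => ?_
    rw [Polynomial.eval_sub, Polynomial.eval_mul, Polynomial.eval_mul, Polynomial.eval_C,
      Polynomial.eval_pow, Polynomial.eval_pow, Polynomial.eval_add, Polynomial.eval_one,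
      Polynomial.eval_X, Polynomial.eval_finsetSum, ← huw]
    have h1 : ∀ s ∈ S, (Polynomial.C (α s) * Polynomial.X ^ ((n : ℤ) + e s).toNat).eval (u : K) =
        (u : K) ^ n * (α s * ((u ^ e s : Kˣ) : K)) := by
      intro s hs
      rw [Polynomial.eval_mul, Polynomial.eval_C, Polynomial.eval_pow, Polynomial.eval_X,
        ← Units.val_pow_eq_pow_val, ← zpow_natCast, Int.toNat_of_nonneg (hn s hs), zpow_add,
        Units.val_mul, zpow_natCast, Units.val_pow_eq_pow_val]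
      ring
    rw [Finset.sum_congr rfl h1, ← Finset.mul_sum, ← h u w huw, hM, zpow_neg, zpow_natCast,
      ← Units.val_pow_eq_pow_val w]
    have h2 : ((w ^ M : Kˣ) : K) * (((w ^ M)⁻¹ : Kˣ) : K) = 1 := Units.mul_inv _
    linear_combination -((u : K) ^ n * κ) * h2
  have h3 := congrArg (Polynomial.eval (-1)) hP
  rw [Polynomial.eval_sub, Polynomial.eval_mul, Polynomial.eval_mul, Polynomial.eval_C,
    Polynomial.eval_pow, Polynomial.eval_pow, Polynomial.eval_add, Polynomial.eval_one,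
    Polynomial.eval_X, add_neg_cancel, zero_pow hM0, zero_mul, sub_zero, Polynomial.eval_zero] at h3
  rcases mul_eq_zero.1 h3 with h4 | h4
  · exact h4
  · exact absurd h4 (pow_ne_zero _ (neg_ne_zero.2 one_ne_zero))

theorem laurent2 [Infinite K] {ι : Type} (S : Finset ι) (β : ι → K) (n : ι → ℤ)
    (hn : ∀ s ∈ S, β s ≠ 0 → 0 ≤ n s) (κ : K) (h : ∀ u w : Kˣ, (w : K) = 1 + u →
      ∑ s ∈ S, β s * ((w ^ n s : Kˣ) : K) = κ) : ∑ s ∈ S, β s = κ := by
  have hP : (∑ s ∈ S, Polynomial.C (β s) * (1 + Polynomial.X) ^ (n s).toNat -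
      Polynomial.C κ : Polynomial K) = 0 := by
    refine vanish fun u w huw => ?_
    rw [Polynomial.eval_sub, Polynomial.eval_C, Polynomial.eval_finsetSum, ← h u w huw,
      sub_eq_zero]
    refine Finset.sum_congr rfl fun s hs => ?_
    rw [Polynomial.eval_mul, Polynomial.eval_C, Polynomial.eval_pow, Polynomial.eval_add,
      Polynomial.eval_one, Polynomial.eval_X, ← huw]
    by_cases hβ : β s = 0
    · rw [hβ, zero_mul, zero_mul]
    · rw [← Units.val_pow_eq_pow_val, ← zpow_natCast, Int.toNat_of_nonneg (hn s hs hβ)]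
  have h3 := congrArg (Polynomial.eval 0) hP
  rw [Polynomial.eval_sub, Polynomial.eval_C, Polynomial.eval_finsetSum, Polynomial.eval_zero,
    sub_eq_zero] at h3
  rw [← h3]
  refine Finset.sum_congr rfl fun s _ => ?_
  rw [Polynomial.eval_mul, Polynomial.eval_C, Polynomial.eval_pow, Polynomial.eval_add,
    Polynomial.eval_one, Polynomial.eval_X, add_zero, one_pow, mul_one]

/-! ### the images of the translations -/

/-- the image of a translation -/
def gt (Φ : Gp K ≃* Gp K) (i : Fin 3) (c : K) : Gp K := Φ (el i (c • 1))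

/-- the difference of the contents -/
def dd (v w : List (Fin 3)) (j : Fin 3) : ℤ := (w.count j : ℤ) - (v.count j : ℤ)

/-- the exponents -/
def kk (ε : ℤ) (i : Fin 3) (v w : List (Fin 3)) : ℤ := ε * (dd v w (i + 1) - dd v w i)

theorem succ_ne : ∀ i : Fin 3, i + 1 ≠ i ∧ i + 2 ≠ i ∧ i + 1 ≠ i + 2 ∧
    ∀ l, l = i ∨ l = i + 1 ∨ l = i + 2 := by decide

theorem gt_add (Φ : Gp K ≃* Gp K) (i : Fin 3) (c c' : K) :
    gt Φ i (c + c') = gt Φ i c * gt Φ i c' := by
  unfold gt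
  rw [← map_mul, ← el_add (Submodule.smul_mem _ _ (one_mem i)) (Submodule.smul_mem _ _ (one_mem i)),
    add_smul]

variable {Φ : Gp K ≃* Gp K} {ε : ℤ} {f : Kˣ →* Kˣ}

theorem gt_conj (hΦ : ∀ t, Φ (dg t) = dg (bt ε f t)) (i : Fin 3) (c : K) (t : Fin 3 → Kˣ) :
    gt Φ i (((t i)⁻¹ : Kˣ).val * c) = dg (bt ε f t) * gt Φ i c * (dg (bt ε f t))⁻¹ := by
  have h1 := dg_el t (Submodule.smul_mem (Bi K i) c (one_mem i))
  rw [map_smul, map_one, smul_smul] at h1
  unfold gt
  rw [← hΦ, ← map_inv, ← map_mul, ← map_mul, h1]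

theorem rel1 (hΦ : ∀ t, Φ (dg t) = dg (bt ε f t)) {i : Fin 3} {c : K} {v w : List (Fin 3)}
    (h : cf (gt Φ i c (mon v)) w ≠ 0) {j : Fin 3} (hj : j ≠ i) (u : Kˣ) :
    u ^ (ε * dd v w j) * f u ^ ((w.length : ℤ) - (v.length : ℤ)) = 1 := by
  have h1 := gt_conj hΦ i c (ti j u)
  have h2 : ti j u i = 1 := by
    unfold ti
    rw [if_neg (Ne.symm hj)]
  rw [h2, inv_one, Units.val_one, one_mul] at h1
  have h3 := congrArg (fun g : Gp K => cf (g (mon v)) w) h1
  simp only [cf_conj_mon] at h3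
  have h4 : (((twu (bt ε f (ti j u)) v)⁻¹ * twu (bt ε f (ti j u)) w : Kˣ) : K) = 1 := by
    apply mul_right_cancel₀ h
    rw [one_mul]
    exact h3.symm
  have h5 : (twu (bt ε f (ti j u)) v)⁻¹ * twu (bt ε f (ti j u)) w = 1 := Units.ext h4
  rw [inv_mul_eq_one, twu_bt, twu_bt, prod_ti, twu_ti, twu_ti] at h5
  have h6 : u ^ (ε * (w.count j : ℤ)) * f u ^ (w.length : ℤ) =
      u ^ (ε * (v.count j : ℤ)) * f u ^ (v.length : ℤ) := by
    rw [zpow_natCast, zpow_natCast, mul_comm ε, mul_comm ε, zpow_mul, zpow_mul, zpow_natCast,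
      zpow_natCast]
    exact h5.symm
  unfold dd
  rw [mul_sub, zpow_sub, zpow_sub, mul_mul_mul_comm, h6, ← mul_inv, mul_inv_cancel]

theorem rel2 (hΦ : ∀ t, Φ (dg t) = dg (bt ε f t)) (i : Fin 3) (c : K) (v w : List (Fin 3))
    (u : Kˣ) : cf (gt Φ i ((u : K) * c) (mon v)) w =
      ((u ^ kk ε i v w : Kˣ) : K) * cf (gt Φ i c (mon v)) w := by
  have h1 := gt_conj hΦ i c (ti i u⁻¹)
  have h2 : ti i u⁻¹ i = u⁻¹ := by
    unfold ti
    rw [if_pos rfl]
  rw [h2, inv_inv] at h1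
  rw [h1, cf_conj_mon]
  by_cases h : cf (gt Φ i c (mon v)) w = 0
  · rw [h, mul_zero, mul_zero]
  · congr 2
    have h3 := rel1 hΦ h (j := i + 1) (succ_ne i).1 u
    rw [twu_bt, twu_bt, prod_ti, twu_ti, twu_ti]
    unfold kk
    have h4 : f u ^ ((w.length : ℤ) - (v.length : ℤ)) = (u ^ (ε * dd v w (i + 1)))⁻¹ :=
      eq_inv_of_mul_eq_one_right h3
    have h5 : ((u⁻¹ ^ List.count i v) ^ ε * f u⁻¹ ^ v.length)⁻¹ *
        ((u⁻¹ ^ List.count i w) ^ ε * f u⁻¹ ^ w.length) =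
        u ^ (-(ε * dd v w i)) * (f u ^ ((w.length : ℤ) - (v.length : ℤ)))⁻¹ := by
      unfold dd
      rw [map_inv, zpow_sub, ← zpow_natCast (u⁻¹), ← zpow_natCast (u⁻¹), ← zpow_natCast ((f u)⁻¹),
        ← zpow_natCast ((f u)⁻¹), ← zpow_mul, ← zpow_mul, inv_zpow', inv_zpow', inv_zpow',
        inv_zpow', mul_inv, ← zpow_neg, ← zpow_neg, neg_neg, neg_neg, mul_mul_mul_comm, ← zpow_add,
        mul_inv, inv_inv, ← zpow_neg, mul_comm (f u ^ (-(w.length : ℤ)))]
      congr 2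
      ring
    rw [h5, h4, inv_inv, ← zpow_add]
    congr 1
    ring

end

end AFree
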