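import Pool.Agent.AFree.LinIm

/-!
# MP_e44b8a_al: the filtration by the order, coefficients of products (helper90)
-/

namespace AFree

noncomputable section

variable {K : Type} [Field K]

/-- the elements of order at least `n` -/
abbrev Fl (K : Type) [Field K] (n : ℕ) : Submodule K (Al K) := sp K (fun w => n ≤ w.length)

theorem mem_Fl {n : ℕ} {p : Al K} : p ∈ Fl K n ↔ ∀ w, w.length < n → cf p w = 0 := by
  rw [mem_sp]
  constructor
  · intro h w hw
    by_contra h1
    exact absurd (h w h1) (by omega)
  · intro h w hw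
    by_contra h1
    exact hw (h w (by omega))

theorem Fl_mul {a b : ℕ} {p q : Al K} (hp : p ∈ Fl K a) (hq : q ∈ Fl K b) : p * q ∈ Fl K (a + b) :=
  sp_mul (P := fun w => a ≤ w.length) (Q := fun w => b ≤ w.length)
    (R := fun w => a + b ≤ w.length) (fun v w hv hw => by
      rw [List.length_append]
      omega) hp hq

theorem Fl_anti {a b : ℕ} (h : a ≤ b) : Fl K b ≤ Fl K a :=
  sp_mono fun _ hw => h.trans hw

theorem mon_Fl (w : List (Fin 3)) : mon w ∈ Fl K w.length :=
  mon_mem_sp (P := fun v => w.length ≤ v.length) le_rfl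

theorem Fl_zero (p : Al K) : p ∈ Fl K 0 := by
  rw [mem_Fl]
  intro w hw
  exact absurd hw (Nat.not_lt_zero _)

theorem X_Fl (i : Fin 3) : X i ∈ Fl K 1 := by
  rw [← mon_single]
  exact mon_Fl [i]

theorem mem_Fl_one {p : Al K} : p ∈ Fl K 1 ↔ cf p [] = 0 := by
  rw [mem_Fl]
  constructor
  · intro h
    exact h [] (by simp)
  · intro h w hw
    have h1 : w = [] := List.length_eq_zero_iff.1 (by omega)
    rw [h1, h]

/-- induction over all elements -/
theorem al_induct {Q : Al K → Prop} (hadd : ∀ p q, Q p → Q q → Q (p + q))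
    (hmon : ∀ w (c : K), Q (c • mon w)) (p : Al K) : Q p := by
  refine sp_induct (P := fun _ => True) (Q := Q) ?_ (fun p q _ _ => hadd p q)
    (fun w c _ => hmon w c) (mem_sp.2 fun _ _ => trivial)
  have h := hmon [] 0
  rwa [zero_smul] at h

/-- the coefficients of a product -/
theorem cf_prod (p q : Al K) (v : List (Fin 3)) :
    cf (p * q) v = ∑ k ∈ Finset.range (v.length + 1), cf p (v.take k) * cf q (v.drop k) := by
  induction p using al_induct with
  | hadd p p' h1 h2 =>
    rw [add_mul, cf_add, h1, h2, ← Finset.sum_add_distrib]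
    refine Finset.sum_congr rfl fun k _ => ?_
    rw [cf_add, add_mul]
  | hmon a c =>
    induction q using al_induct with
    | hadd q q' h1 h2 =>
      rw [mul_add, cf_add, h1, h2, ← Finset.sum_add_distrib]
      refine Finset.sum_congr rfl fun k _ => ?_
      rw [cf_add, mul_add]
    | hmon b d =>
      rw [smul_mul_smul_comm, ← mon_append, cf_smul, cf_mon]
      by_cases h : a ++ b = v
      · subst h
        rw [if_pos rfl, Finset.sum_eq_single a.length]
        · rw [List.take_left, List.drop_left, cf_smul, cf_smul, cf_mon_self, cf_mon_self]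
          ring
        · intro k hk hne
          rw [cf_smul, cf_mon_ne, mul_zero, zero_mul]
          intro h1
          apply hne
          have h2 := congrArg List.length h1
          rw [List.length_take] at h2
          have h3 := Finset.mem_range.1 hk
          omega
        · intro h1
          exact absurd (Finset.mem_range.2 (by rw [List.length_append]; omega)) h1
      · rw [if_neg h, mul_zero, Finset.sum_eq_zero]
        intro k _
        rw [cf_smul, cf_smul, cf_mon, cf_mon]
        by_cases h1 : a = v.take k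
        · by_cases h2 : b = v.drop k
          · exact absurd (by rw [h1, h2, List.take_append_drop]) h
          · rw [if_neg h2, mul_zero, mul_zero]
        · rw [if_neg h1, mul_zero, zero_mul]

/-- the words of length less than `n` -/
def Wd (n : ℕ) : Finset (List (Fin 3)) := (List.finite_length_lt (Fin 3) n).toFinset

theorem mem_Wd {n : ℕ} {w : List (Fin 3)} : w ∈ Wd n ↔ w.length < n := by
  unfold Wd
  rw [Set.Finite.mem_toFinset, Set.mem_ofPred_eq]

theorem cf_sum_mon (s : Finset (List (Fin 3))) (c : List (Fin 3) → K) (v : List (Fin 3)) :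
    cf (∑ w ∈ s, c w • mon w) v = if v ∈ s then c v else 0 := by
  rw [cf_sum]
  by_cases h : v ∈ s
  · rw [if_pos h, Finset.sum_eq_single v]
    · rw [cf_smul, cf_mon_self, mul_one]
    · intro w _ hw
      rw [cf_smul, cf_mon_ne hw, mul_zero]
    · exact fun h1 => absurd h h1
  · rw [if_neg h]
    refine Finset.sum_eq_zero fun w hw => ?_
    rw [cf_smul, cf_mon_ne, mul_zero]
    rintro rfl
    exact h hw

theorem trunc (p : Al K) (n : ℕ) : p - ∑ w ∈ Wd n, cf p w • mon w ∈ Fl K n := by
  rw [mem_Fl]
  intro w hw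
  rw [cf_sub, cf_sum_mon, if_pos (mem_Wd.2 hw), sub_self]

/-- endomorphisms which fix the origin -/
def F0 (F : Al K →ₐ[K] Al K) : Prop := ∀ i, cf (F (X i)) [] = 0

theorem F0.map_mon {F : Al K →ₐ[K] Al K} (h : F0 F) (w : List (Fin 3)) :
    F (mon w) ∈ Fl K w.length := by
  induction w with
  | nil => exact Fl_zero _
  | cons i w ih =>
    rw [mon_cons, map_mul, List.length_cons, add_comm]
    exact Fl_mul (mem_Fl_one.2 (h i)) ih

theorem F0.map {F : Al K →ₐ[K] Al K} (h : F0 F) {n : ℕ} {p : Al K} (hp : p ∈ Fl K n) :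
    F p ∈ Fl K n := by
  refine sp_induct (P := fun w => n ≤ w.length) (Q := fun p => F p ∈ Fl K n) ?_ ?_ ?_ hp
  · rw [map_zero]
    exact Submodule.zero_mem _
  · intro p q _ _ h1 h2
    rw [map_add]
    exact Submodule.add_mem _ h1 h2
  · intro w c hw
    rw [map_smul]
    exact Submodule.smul_mem _ _ (Fl_anti hw (h.map_mon w))

theorem F0.comp {F F' : Al K →ₐ[K] Al K} (h : F0 F) (h' : F0 F') : F0 (F.comp F') := by
  intro i
  rw [← mem_Fl_one]
  exact h.map (mem_Fl_one.2 (h' i))

theorem F0.id : F0 (AlgHom.id K (Al K)) := by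
  intro i
  rw [← mem_Fl_one]
  exact X_Fl i

/-- two endomorphisms which agree on the generators modulo the order `n` -/
theorem cong_mon {F F' : Al K →ₐ[K] Al K} (h : F0 F) (h' : F0 F') {n : ℕ}
    (H : ∀ i, F (X i) - F' (X i) ∈ Fl K n) (w : List (Fin 3)) :
    F (mon w) - F' (mon w) ∈ Fl K (n + w.length - 1) := by
  induction w with
  | nil =>
    rw [mon_nil, map_one, map_one, sub_self]
    exact Submodule.zero_mem _
  | cons i w ih =>
    rw [mon_cons, map_mul, map_mul]
    have h1 : F (X i) * F (mon w) - F' (X i) * F' (mon w) =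
        (F (X i) - F' (X i)) * F (mon w) + F' (X i) * (F (mon w) - F' (mon w)) := by
      rw [sub_mul, mul_sub]
      abel
    rw [h1, List.length_cons]
    refine Submodule.add_mem _ ?_ ?_
    · exact Fl_anti (by omega) (Fl_mul (H i) (h.map_mon w))
    · cases w with
      | nil =>
        rw [mon_nil, map_one, map_one, sub_self, mul_zero]
        exact Submodule.zero_mem _
      | cons j w =>
        refine Fl_anti ?_ (Fl_mul (mem_Fl_one.2 (h' i)) ih)
        rw [List.length_cons]
        omega

theorem cong {F F' : Al K →ₐ[K] Al K} (h : F0 F) (h' : F0 F') {n : ℕ}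
    (H : ∀ i, F (X i) - F' (X i) ∈ Fl K n) {m : ℕ} (hm : 1 ≤ m) {p : Al K} (hp : p ∈ Fl K m) :
    F p - F' p ∈ Fl K (n + m - 1) := by
  refine sp_induct (P := fun w => m ≤ w.length) (Q := fun p => F p - F' p ∈ Fl K (n + m - 1))
    ?_ ?_ ?_ hp
  · rw [map_zero, map_zero, sub_self]
    exact Submodule.zero_mem _
  · intro p q _ _ h1 h2
    rw [map_add, map_add, add_sub_add_comm]
    exact Submodule.add_mem _ h1 h2
  · intro w c hw
    rw [map_smul, map_smul, ← smul_sub]
    exact Submodule.smul_mem _ _ (Fl_anti (by omega) (cong_mon h h' H w))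

theorem cong' {F F' : Al K →ₐ[K] Al K} (h : F0 F) (h' : F0 F') {n : ℕ}
    (H : ∀ i, F (X i) - F' (X i) ∈ Fl K n) (p : Al K) : F p - F' p ∈ Fl K n := by
  induction p using al_induct with
  | hadd p q h1 h2 =>
    rw [map_add, map_add, add_sub_add_comm]
    exact Submodule.add_mem _ h1 h2
  | hmon w c =>
    rw [map_smul, map_smul, ← smul_sub]
    refine Submodule.smul_mem _ _ ?_
    cases w with
    | nil =>
      rw [mon_nil, map_one, map_one, sub_self]
      exact Submodule.zero_mem _
    | cons i w =>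
      refine Fl_anti ?_ (cong_mon h h' H (i :: w))
      rw [List.length_cons]
      omega

/-- the augmentation -/
def ep : Al K →ₐ[K] K := FreeAlgebra.lift K (fun _ => 0)

theorem ep_eq (p : Al K) : ep p = cf p [] := by
  induction p using al_induct with
  | hadd p q h1 h2 => rw [map_add, cf_add, h1, h2]
  | hmon w c =>
    rw [map_smul, cf_smul, cf_mon, smul_eq_mul]
    congr 1
    cases w with
    | nil => rw [mon_nil, map_one, if_pos rfl]
    | cons i w =>
      rw [mon_cons, map_mul, if_neg (by simp)]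
      unfold ep
      rw [lift_X, zero_mul]

/-- automorphisms which fix the origin -/
def G0 (g : Gp K) : Prop := ∀ i, cf (g (X i)) [] = 0

theorem G0.f0 {g : Gp K} (h : G0 g) : F0 (g : Al K →ₐ[K] Al K) := h

theorem G0.map {g : Gp K} (h : G0 g) {n : ℕ} {p : Al K} (hp : p ∈ Fl K n) : g p ∈ Fl K n :=
  h.f0.map hp

theorem G0.mul {g h : Gp K} (hg : G0 g) (hh : G0 h) : G0 (g * h) := by
  intro i
  rw [mul_ap, ← mem_Fl_one]
  exact hg.map (mem_Fl_one.2 (hh i))

theorem G0.one : G0 (1 : Gp K) := by
  intro i
  rw [one_ap, ← mem_Fl_one]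
  exact X_Fl i

theorem G0.ep {g : Gp K} (h : G0 g) (a : Al K) : cf (g a) [] = cf a [] := by
  have h1 : (AFree.ep (K := K)).comp (g : Al K →ₐ[K] Al K) = AFree.ep := by
    apply hom_ext_X
    intro i
    change AFree.ep (g (X i)) = AFree.ep (X i)
    rw [ep_eq, ep_eq, h, mem_Fl_one.1 (X_Fl i)]
  rw [← ep_eq, ← ep_eq]
  exact congrArg (fun F : Al K →ₐ[K] K => F a) h1

theorem G0.inv {g : Gp K} (h : G0 g) : G0 g⁻¹ := by
  intro i
  have h1 := h.ep (g⁻¹ (X i))
  rw [ap_inv] at h1
  rw [← h1]
  exact mem_Fl_one.1 (X_Fl i)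

theorem dg_G0 (t : Fin 3 → Kˣ) : G0 (dg t) := by
  intro i
  rw [dg_X, ← mem_Fl_one]
  exact Submodule.smul_mem _ _ (X_Fl i)

/-- the linear part is multiplicative on automorphisms which fix the origin -/
theorem Lg_mul' {g : Gp K} (hg : G0 g) (h : Gp K) : Lg (g * h) = Lg g * Lg h := by
  apply LinearMap.ext
  intro v
  funext j
  rw [Lg_ap, mul_ap, Module.End.mul_apply, Lg_ap]
  have h1 : h (emb v) - emb (Lg h v) - cf (h (emb v)) [] • 1 ∈ Fl K 2 := by
    rw [mem_Fl]
    intro w hw
    rw [cf_sub, cf_sub, cf_smul, ← mon_nil, cf_mon]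
    cases w with
    | nil =>
      have h2 : cf (emb (Lg h v)) [] = 0 := by
        by_contra h3
        exact absurd (cf_emb_ne _ h3) (by simp)
      rw [h2, if_pos rfl]
      ring
    | cons i w =>
      have h2 : w = [] := List.length_eq_zero_iff.1 (by
        rw [List.length_cons] at hw
        omega)
      rw [h2, cf_emb, if_neg (by simp), Lg_ap]
      ring
  have h2 := mem_Fl.1 (hg.map h1) [j] (by simp)
  rw [map_sub, map_sub, map_smul, map_one, cf_sub, cf_sub, cf_smul, ← mon_nil, cf_mon,
    if_neg (by simp), mul_zero, sub_zero, sub_eq_zero] at h2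
  exact h2

end

end AFree
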