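import Pool.Agent.AFree.UBase

/-!
# MP_e44b8a_al: definitions for the theorem over uncountable algebraically closed fields (helper90)
-/

namespace AFree

noncomputable section

open MvPolynomial (constantCoeff)

/-- the commutative polynomial ring -/
abbrev Po (K : Type) [Field K] : Type := MvPolynomial (Fin 3) K

variable {K : Type} [Field K]

/-- evaluation at a triple of units -/
def ev (t : Fin 3 → Kˣ) (P : Po K) : K := MvPolynomial.eval (fun i => (t i : K)) P

/-- the closure of a set of triples of units in the Zariski topology -/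
def Cl (A : Set (Fin 3 → Kˣ)) : Set (Fin 3 → Kˣ) :=
  {t | ∀ P : Po K, (∀ a ∈ A, ev a P = 0) → ev t P = 0}

/-- irreducible sets -/
def Irr (A : Set (Fin 3 → Kˣ)) : Prop :=
  A.Nonempty ∧ ∀ P Q : Po K, (∀ a ∈ A, ev a P * ev a Q = 0) →
    (∀ a ∈ A, ev a P = 0) ∨ (∀ a ∈ A, ev a Q = 0)

/-- the diagonal coefficients of the linear part -/
def ch (g : Gp K) (i : Fin 3) : K := cf (g (X i)) [i]

/-- the setup: a commutative group of automorphisms which fix the origin with diagonal linear parts, which is its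
own centralizer, whose linear parts are dense, and whose coefficients are polynomials `P i v` in the linear parts -/
structure Setup (K : Type) [Field K] where
  S : Subgroup (Gp K)
  comm : ∀ g ∈ S, ∀ h ∈ S, g * h = h * g
  fix0 : ∀ g ∈ S, G0 g
  lin : ∀ g ∈ S, ∀ i j, j ≠ i → cf (g (X i)) [j] = 0
  cent : ∀ g : Gp K, (∀ s ∈ S, g * s = s * g) → g ∈ S
  dense : ∀ Q : Po K, (∀ s ∈ S, MvPolynomial.eval (ch s) Q = 0) → Q = 0
  P : Fin 3 → List (Fin 3) → Po K
  deg : ∀ i v, (P i v).totalDegree ≤ v.length
  cst : ∀ i v, constantCoeff (P i v) = 0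
  spec : ∀ s ∈ S, ∀ i v, cf (s (X i)) v = MvPolynomial.eval (ch s) (P i v)

/-- the triples for which the degree is at most `d` -/
def Setup.HH (E : Setup K) (d : ℕ) : Set (Fin 3 → Kˣ) :=
  {t | ∀ i v, d < v.length → ev t (E.P i v) = 0}

/-- the automorphism of the commutative polynomial ring -/
def pa (g : Gp K) : Po K →ₐ[K] Po K := MvPolynomial.aeval (fun i => ab (g (X i)))

theorem pa_ab (g : Gp K) (a : Al K) : pa g (ab a) = ab (g a) := by
  have h : (pa g).comp ab = ab.comp (g : Al K →ₐ[K] Al K) := by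
    apply hom_ext_X
    intro i
    change pa g (ab (X i)) = ab (g (X i))
    rw [ab_X]
    unfold pa
    rw [MvPolynomial.aeval_X]
  exact congrArg (fun F : Al K →ₐ[K] Po K => F a) h

theorem pa_X (g : Gp K) (i : Fin 3) : pa g (MvPolynomial.X i) = ab (g (X i)) := by
  rw [← ab_X, pa_ab]

theorem pa_mul (g h : Gp K) (P : Po K) : pa (g * h) P = pa g (pa h P) := by
  have h1 : pa (g * h) = (pa g).comp (pa h) := by
    apply MvPolynomial.algHom_ext
    intro i
    rw [AlgHom.comp_apply, pa_X, pa_X, pa_ab, mul_ap]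
  rw [h1, AlgHom.comp_apply]

theorem pa_one (P : Po K) : pa (1 : Gp K) P = P := by
  have h1 : pa (1 : Gp K) = AlgHom.id K (Po K) := by
    apply MvPolynomial.algHom_ext
    intro i
    rw [pa_X, one_ap, ab_X, AlgHom.id_apply]
  rw [h1, AlgHom.id_apply]

/-- the constant coefficient -/
theorem cc_ab (a : Al K) : constantCoeff (ab a) = cf a [] := by
  have h : (MvPolynomial.aeval (R := K) (fun _ : Fin 3 => (0 : K))).comp ab = ep := by
    apply hom_ext_X
    intro i
    change MvPolynomial.aeval (R := K) (fun _ : Fin 3 => (0 : K)) (ab (X i)) = ep (X i)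
    rw [ab_X, MvPolynomial.aeval_X, ep_eq, mem_Fl_one.1 (X_Fl i)]
  rw [← ep_eq, ← h, AlgHom.comp_apply]
  have h2 := MvPolynomial.aeval_zero (R := K) (S₁ := K) (σ := Fin 3) (ab a)
  rw [Algebra.algebraMap_self_apply] at h2
  exact h2.symm

end

end AFree
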