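import Pool.Agent.AFree.UDefs

/-!
# MP_e44b8a_al: finite `p`-groups of polynomial maps of the affine space have fixed points (Serre)
-/

namespace AFree

open MvPolynomial (eval bind₁)

theorem u01_eval_bind {F : Type} [Field F] (a : Fin 3 → F) (g : Fin 3 → MvPolynomial (Fin 3) F)
    (Q : MvPolynomial (Fin 3) F) : eval a (bind₁ g Q) = eval (fun j => eval a (g j)) Q := by
  have h : (eval a).comp (bind₁ g : MvPolynomial (Fin 3) F →ₐ[F] MvPolynomial (Fin 3) F).toRingHom =
      eval (fun j => eval a (g j)) := by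
    apply MvPolynomial.ringHom_ext
    · intro r
      show eval a (bind₁ g (MvPolynomial.C r)) = _
      rw [MvPolynomial.bind₁_C_right, MvPolynomial.eval_C, MvPolynomial.eval_C]
    · intro i
      show eval a (bind₁ g (MvPolynomial.X i)) = _
      rw [MvPolynomial.bind₁_X_right, MvPolynomial.eval_X]
  exact RingHom.congr_fun h Q

/-- finite fields. Let `M` act on `Fin 3 → F` by `(g • a) i = eval a (f g⁻¹ i)` (`eval a (bind₁ (f g) Q) = eval (fun i => eval a (f g i)) Q`,
`MvPolynomial.eval₂Hom_bind₁`, or `aeval`), and use `IsPGroup.nonempty_fixed_point_of_prime_not_dvd_card`: the cardinality is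
`(Nat.card F) ^ 3`, and `p` does not divide `Nat.card F`, because otherwise there is an element of additive order `p` (Cauchy:
`exists_prime_addOrderOf_dvd_card'`), so `(p : F) * x = 0` with `x ≠ 0`, or because `Nat.card F` is a power of the
characteristic. -/
theorem fix_finite {F : Type} [Field F] [Finite F] {p : ℕ} [Fact p.Prime] (hp : (p : F) ≠ 0)
    {M : Type} [Group M] [Finite M] (hM : IsPGroup p M) (f : M → Fin 3 → MvPolynomial (Fin 3) F)
    (h1 : ∀ i, f 1 i = MvPolynomial.X i) (hmul : ∀ g h i, f (g * h) i = bind₁ (f g) (f h i)) :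
    ∃ a : Fin 3 → F, ∀ g i, eval a (f g i) = a i := by
  let act : MulAction M (Fin 3 → F) :=
    { smul := fun g a i => eval a (f g⁻¹ i)
      one_smul := by
        intro a
        funext i
        show eval a (f (1 : M)⁻¹ i) = a i
        rw [inv_one, h1, MvPolynomial.eval_X]
      mul_smul := by
        intro g h a
        funext i
        show eval a (f (g * h)⁻¹ i) = eval (fun j => eval a (f h⁻¹ j)) (f g⁻¹ i)
        rw [mul_inv_rev, hmul]
        exact u01_eval_bind a (f h⁻¹) (f g⁻¹ i) }
  have hcard : ¬ p ∣ Nat.card (Fin 3 → F) := by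
    intro h
    have h2 : p ∣ Nat.card F := by
      rw [Nat.card_fun, Nat.card_fin] at h
      exact (Fact.out : p.Prime).dvd_of_dvd_pow h
    obtain ⟨x, hx⟩ := exists_prime_addOrderOf_dvd_card' p h2
    have h3 : p • x = 0 := by
      rw [← hx]
      exact addOrderOf_nsmul_eq_zero x
    rw [nsmul_eq_mul] at h3
    rcases mul_eq_zero.1 h3 with h4 | h4
    · exact hp h4
    · rw [h4, addOrderOf_zero] at hx
      exact (Fact.out : p.Prime).one_lt.ne hx
  obtain ⟨a, ha⟩ := hM.nonempty_fixed_point_of_prime_not_dvd_card (Fin 3 → F) hcard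
  refine ⟨a, fun g i => ?_⟩
  have h5 : g⁻¹ • a = a := ha g⁻¹
  have h6 : eval a (f (g⁻¹)⁻¹ i) = a i := congrFun h5 i
  rw [inv_inv] at h6
  exact h6

private theorem jacobson_int : IsJacobsonRing ℤ := by
  rw [isJacobsonRing_iff_prime_eq]
  intro P hP
  by_cases h : P = ⊥
  · subst h
    rw [eq_bot_iff]
    intro x hx
    rw [Ideal.mem_jacobson_bot] at hx
    have h1 := Int.isUnit_iff.1 (hx x)
    rw [Ideal.mem_bot]
    rcases h1 with h1 | h1
    · nlinarith
    · nlinarith
  · have hm : P.IsMaximal := IsPrime.to_maximal_ideal h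
    exact Ideal.jacobson_eq_self_of_isMaximal

/-- a field which is a finitely generated abelian group is finite -/
private theorem finite_of_int {F : Type} [Field F] [Module.Finite ℤ F] : Finite F := by
  apply Module.finite_of_fg_torsion
  obtain ⟨l, hl⟩ := CharP.exists F
  have hl0 : l ≠ 0 := by
    rintro rfl
    have : CharZero F := CharP.charP_to_charZero F
    have : Algebra.IsIntegral ℤ F := Algebra.IsIntegral.of_finite ℤ F
    have h1 : IsField ℤ := isField_of_isIntegral_of_isField
      (FaithfulSMul.algebraMap_injective ℤ F) (Field.toIsField F)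
    exact Int.not_isField h1
  intro x
  refine ⟨⟨(l : ℤ), mem_nonZeroDivisors_of_ne_zero (by exact_mod_cast hl0)⟩, ?_⟩
  change (l : ℤ) • x = 0
  rw [zsmul_eq_mul]
  have : ((l : ℤ) : F) = 0 := by
    rw [Int.cast_natCast]
    exact CharP.cast_eq_zero F l
  rw [this, zero_mul]

/-- algebraically closed fields. Otherwise the polynomials `f g i - X i` have no common zero, so they generate the unit ideal
(Nullstellensatz: `MvPolynomial.vanishingIdeal_zeroLocus_eq_radical`, `MvPolynomial.zeroLocus_span`), say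
`1 = ∑ h g i * (f g i - X i)` (`Ideal.mem_span_range_iff_exists_fun` over the finite type `M × Fin 3`). Let `R ⊆ K` be the `ℤ`-subalgebra
(`Algebra.adjoin ℤ`) generated by the finitely many coefficients of all `f g i`, `h g i`, and by `(p : K)⁻¹`; it is a `ℤ`-algebra of finite
type. Let `m` be a maximal ideal of `R`; `R ⧸ m` is a field, finite as a `ℤ`-module by
`finite_of_finite_type_of_isJacobsonRing ℤ (R ⧸ m)`, so it is a finite field (a field which is a finitely generated abelian group is
finite: it has positive characteristic, otherwise `ℤ → R ⧸ m` is injective and integral, so `ℤ` would be a field). Lift all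
polynomials to `R` (`MvPolynomial.mem_range_map_iff_coeffs_subset`; the identities hold over `R` because `MvPolynomial.map` of the
injective `algebraMap R K` is injective), reduce them to `F = R ⧸ m` (`(p : F) ≠ 0` because `p` is a unit in `R`), take a fixed point
`a` there by `fix_finite`, and evaluate the identity `1 = ∑ h g i * (f g i - X i)` at `a`: `1 = 0`. -/
theorem fix_point {K : Type} [Field K] [IsAlgClosed K] {p : ℕ} [Fact p.Prime] (hp : (p : K) ≠ 0)
    {M : Type} [Group M] [Finite M] (hM : IsPGroup p M) (f : M → Fin 3 → MvPolynomial (Fin 3) K)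
    (h1 : ∀ i, f 1 i = MvPolynomial.X i) (hmul : ∀ g h i, f (g * h) i = bind₁ (f g) (f h i)) :
    ∃ a : Fin 3 → K, ∀ g i, eval a (f g i) = a i := by
  classical
  have : Fintype M := Fintype.ofFinite M
  by_contra hcon
  set P : M × Fin 3 → MvPolynomial (Fin 3) K := fun q => f q.1 q.2 - MvPolynomial.X q.2 with hP
  have htop : Ideal.span (Set.range P) = ⊤ := by
    by_contra hne
    obtain ⟨m, hm, hle⟩ := Ideal.exists_le_maximal _ hne
    obtain ⟨a, ha⟩ := MvPolynomial.isMaximal_iff_eq_vanishingIdeal_singleton.1 hm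
    apply hcon
    refine ⟨a, fun g i => ?_⟩
    have h2 : P (g, i) ∈ m := hle (Ideal.subset_span ⟨(g, i), rfl⟩)
    rw [ha, MvPolynomial.mem_vanishingIdeal_singleton_iff] at h2
    have h3 : eval a (f g i - MvPolynomial.X i) = 0 := h2
    rw [map_sub, MvPolynomial.eval_X, sub_eq_zero] at h3
    exact h3
  have h1m : (1 : MvPolynomial (Fin 3) K) ∈ Ideal.span (Set.range P) := by
    rw [htop]; exact Submodule.mem_top
  obtain ⟨h, hh⟩ := Ideal.mem_span_range_iff_exists_fun.1 h1m
  set S : Set K := (⋃ q : M × Fin 3, ((f q.1 q.2).coeffs : Set K)) ∪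
    (⋃ q : M × Fin 3, ((h q).coeffs : Set K)) ∪ {(p : K)⁻¹} with hS
  have hSf : S.Finite := by
    refine Set.Finite.union (Set.Finite.union ?_ ?_) (Set.finite_singleton _)
    · exact Set.finite_iUnion fun q => Finset.finite_toSet _
    · exact Set.finite_iUnion fun q => Finset.finite_toSet _
  set R : Subalgebra ℤ K := Algebra.adjoin ℤ S with hR
  have hSR : S ⊆ R := Algebra.subset_adjoin
  have : Algebra.FiniteType ℤ R := by
    have h2 : R.FG := Subalgebra.fg_def.2 ⟨S, hSf, rfl⟩
    exact (Subalgebra.fg_iff_finiteType R).1 h2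
  set φ : R →+* K := algebraMap R K with hφ
  have hφi : Function.Injective φ := Subtype.val_injective
  have hrange : ∀ x ∈ S, x ∈ Set.range φ := fun x hx => ⟨⟨x, hSR hx⟩, rfl⟩
  have hlift : ∀ Q : MvPolynomial (Fin 3) K, (Q.coeffs : Set K) ⊆ S →
      ∃ Q' : MvPolynomial (Fin 3) R, MvPolynomial.map φ Q' = Q := by
    intro Q hQ
    have h2 : Q ∈ Set.range (MvPolynomial.map (σ := Fin 3) φ) := by
      rw [MvPolynomial.mem_range_map_iff_coeffs_subset]
      exact fun x hx => hrange x (hQ hx)
    exact h2
  have hf1 : ∀ g i, ∃ Q' : MvPolynomial (Fin 3) R, MvPolynomial.map φ Q' = f g i := fun g i =>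
    hlift _ fun x hx => Or.inl (Or.inl (Set.mem_iUnion.2 ⟨(g, i), hx⟩))
  have hf2 : ∀ q, ∃ Q' : MvPolynomial (Fin 3) R, MvPolynomial.map φ Q' = h q := fun q =>
    hlift _ fun x hx => Or.inl (Or.inr (Set.mem_iUnion.2 ⟨q, hx⟩))
  choose f' hf' using hf1
  choose h' hh' using hf2
  have hinj : Function.Injective (MvPolynomial.map (σ := Fin 3) φ) :=
    MvPolynomial.map_injective φ hφi
  have e1 : ∀ i, f' 1 i = MvPolynomial.X i := fun i => hinj (by
    rw [hf', h1, MvPolynomial.map_X])
  have e2 : ∀ g k i, f' (g * k) i = bind₁ (f' g) (f' k i) := fun g k i => hinj (by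
    rw [hf', hmul, MvPolynomial.map_bind₁, hf']
    congr 2
    funext j
    exact (hf' g j).symm)
  have e3 : ∑ q, h' q * (f' q.1 q.2 - MvPolynomial.X q.2) = 1 := hinj (by
    rw [map_sum, map_one, ← hh]
    refine Finset.sum_congr rfl fun q _ => ?_
    rw [map_mul, map_sub, hh', hf', MvPolynomial.map_X])
  obtain ⟨m, hm⟩ := Ideal.exists_maximal R
  letI : Field (R ⧸ m) := Ideal.Quotient.field m
  have : Algebra.FiniteType ℤ (R ⧸ m) :=
    Algebra.FiniteType.of_surjective (Ideal.Quotient.mkₐ ℤ m) Ideal.Quotient.mk_surjective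
  have : IsJacobsonRing ℤ := jacobson_int
  have : Module.Finite ℤ (R ⧸ m) := finite_of_finite_type_of_isJacobsonRing ℤ (R ⧸ m)
  have : Finite (R ⧸ m) := finite_of_int
  set π : R →+* R ⧸ m := Ideal.Quotient.mk m with hπ
  have hpF : (p : R ⧸ m) ≠ 0 := by
    intro h0
    have hpR : (p : R) * ⟨(p : K)⁻¹, hSR (Or.inr rfl)⟩ = 1 := by
      apply hφi
      rw [map_mul, map_natCast, map_one]
      exact mul_inv_cancel₀ hp
    have h2 := congrArg π hpR
    rw [map_mul, map_natCast, h0, zero_mul, map_one] at h2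
    exact zero_ne_one h2
  obtain ⟨a, ha⟩ := fix_finite (F := R ⧸ m) hpF hM (fun g i => MvPolynomial.map π (f' g i))
    (fun i => by rw [e1, MvPolynomial.map_X])
    (fun g k i => by rw [e2, MvPolynomial.map_bind₁])
  have h4 := congrArg (fun Q => eval a (MvPolynomial.map π Q)) e3
  simp only [map_sum, map_mul, map_sub, MvPolynomial.map_X, MvPolynomial.eval_X, map_one, ha,
    sub_self, mul_zero, Finset.sum_const_zero] at h4
  exact zero_ne_one h4

end AFree
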