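import Pool.Agent.AFree.UDefs

/-!
# MP_e44b8a_al: a divisible group fixes the isolated fixed points
-/

namespace AFree

open MvPolynomial (constantCoeff)

/-- the maximal ideal of the origin -/
noncomputable abbrev u02m (K : Type) [Field K] : Ideal (MvPolynomial (Fin 3) K) :=
  RingHom.ker (constantCoeff (R := K) (σ := Fin 3))

/-- the maximal ideal of the origin is generated by the variables -/
theorem u02_mem_span {K : Type} [Field K] (P : MvPolynomial (Fin 3) K) :
    P - MvPolynomial.C (constantCoeff P) ∈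
      Ideal.span (Set.range (MvPolynomial.X : Fin 3 → MvPolynomial (Fin 3) K)) := by
  induction P using MvPolynomial.induction_on with
  | C a =>
    rw [MvPolynomial.constantCoeff_C, sub_self]
    exact Ideal.zero_mem _
  | add p q hp hq =>
    have h : p + q - MvPolynomial.C (constantCoeff (p + q)) =
        (p - MvPolynomial.C (constantCoeff p)) + (q - MvPolynomial.C (constantCoeff q)) := by
      rw [map_add, map_add]
      ring
    rw [h]
    exact Ideal.add_mem _ hp hq
  | mul_X p i hp =>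
    rw [map_mul, MvPolynomial.constantCoeff_X, mul_zero, map_zero, sub_zero]
    exact Ideal.mul_mem_left _ _ (Ideal.subset_span ⟨i, rfl⟩)

/-- the ideal of the origin is a prime ideal -/
theorem u02_prime {K : Type} [Field K] : (u02m K).IsPrime :=
  RingHom.ker_isPrime _

/-- the ideal of the origin is a minimal prime over `J` -/
theorem u02_min {K : Type} [Field K] (J : Ideal (MvPolynomial (Fin 3) K))
    (hJ : ∀ P ∈ J, constantCoeff P = 0)
    (hcot : ∀ i, ∃ P ∈ J, ∃ Q ∈ (u02m K) ^ 2, MvPolynomial.X i = P + Q) :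
    u02m K ∈ J.minimalPrimes := by
  refine ⟨⟨u02_prime, fun P hP => hJ P hP⟩, ?_⟩
  rintro q ⟨hq, hJq⟩ hqm
  have h1 : u02m K ≤ q ⊔ (u02m K) • (u02m K) := by
    intro P hP
    have h2 := u02_mem_span P
    have h3 : constantCoeff P = 0 := hP
    rw [h3, map_zero, sub_zero] at h2
    refine (Ideal.span_le.2 ?_ : Ideal.span (Set.range
      (MvPolynomial.X : Fin 3 → MvPolynomial (Fin 3) K)) ≤ _) h2
    rintro _ ⟨i, rfl⟩
    obtain ⟨A, hA, B, hB, h4⟩ := hcot i
    change MvPolynomial.X i ∈ q ⊔ (u02m K) • (u02m K)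
    rw [h4]
    refine Submodule.add_mem_sup (hJq hA) ?_
    rw [pow_two] at hB
    exact hB
  obtain ⟨r, hr1, hr2⟩ := Submodule.exists_sub_one_mem_and_smul_le_of_fg_of_le_sup
    (I := u02m K) (N := q) (N' := u02m K) (P := u02m K) (IsNoetherian.noetherian _) le_rfl h1
  have hr : r ∉ q := by
    intro h
    have h2 : constantCoeff r = 0 := hqm h
    have h3 : constantCoeff (r - 1) = 0 := hr1
    rw [map_sub, h2, map_one] at h3
    simp at h3
  intro P hP
  have h2 : r * P ∈ q := hr2 (Submodule.smul_mem_pointwise_smul P r _ hP)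
  exact (hq.mem_or_mem h2).resolve_left hr

/-- Let `m` be the ideal of the polynomials with constant coefficient `0` (a maximal ideal, `RingHom.ker constantCoeff`, generated by
the `X i`). By `hcot`, `m ≤ J ⊔ m ^ 2`. If `q` is a prime ideal with `J ≤ q ≤ m` then `q = m`: in the domain `R ⧸ q` the image
`I` of `m` satisfies `I ^ 2 = I`, it is finitely generated and not `⊤`, so `I = ⊥`
(`Ideal.isIdempotentElem_iff_eq_bot_or_top`), so `m ≤ q`. Hence `m` is a minimal prime over `J`. The set `J.minimalPrimes`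
is finite (`Ideal.finite_minimalPrimes_of_isNoetherianRing`). Let `n = (number of permutations of it)`, or its factorial, and
`ρ ^ n = σ` as in `hdiv`. As `ρ` maps `J` onto `J`, `Ideal.comap ρ` permutes the minimal primes over `J`, so `Ideal.comap σ`
(the `n`-th power of this permutation) fixes each of them, in particular `m`. So `constantCoeff (σ (X i)) = 0`. -/
theorem krull_fix {K : Type} [Field K] (J : Ideal (MvPolynomial (Fin 3) K))
    (hJ : ∀ P ∈ J, constantCoeff P = 0)
    (hcot : ∀ i, ∃ P ∈ J, ∃ Q ∈ (RingHom.ker (constantCoeff (R := K) (σ := Fin 3))) ^ 2,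
      MvPolynomial.X i = P + Q)
    (σ : MvPolynomial (Fin 3) K ≃ₐ[K] MvPolynomial (Fin 3) K)
    (hdiv : ∀ n : ℕ, 0 < n → ∃ ρ : MvPolynomial (Fin 3) K ≃ₐ[K] MvPolynomial (Fin 3) K,
      ρ ^ n = σ ∧ ∀ P, P ∈ J ↔ ρ P ∈ J) (i : Fin 3) :
    constantCoeff (σ (MvPolynomial.X i)) = 0 := by
  have hm := u02_min J hJ hcot
  have hfin : Finite (J.minimalPrimes) :=
    (Ideal.finite_minimalPrimes_of_isNoetherianRing _ J).to_subtype
  obtain ⟨ρ, hρ, hρJ⟩ := hdiv (Nat.card (Equiv.Perm J.minimalPrimes)) Nat.card_pos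
  -- an automorphism which preserves `J` maps minimal primes to minimal primes
  have key : ∀ τ : MvPolynomial (Fin 3) K ≃ₐ[K] MvPolynomial (Fin 3) K, (∀ P, P ∈ J ↔ τ P ∈ J) →
      ∀ q ∈ J.minimalPrimes, Ideal.comap τ q ∈ J.minimalPrimes := by
    rintro τ hτ q ⟨⟨hq, hJq⟩, hmin⟩
    refine ⟨⟨Ideal.comap_isPrime _ _, fun P hP => hJq ((hτ P).1 hP)⟩, ?_⟩
    rintro p ⟨hp, hJp⟩ hpq P hP
    have h1 : q ≤ Ideal.comap τ.symm p := by
      refine hmin ⟨Ideal.comap_isPrime _ _, ?_⟩ ?_
      · intro A hA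
        refine hJp ((hτ _).2 ?_)
        rw [AlgEquiv.apply_symm_apply]
        exact hA
      · intro A hA
        have h2 : τ (τ.symm A) ∈ q := hpq hA
        rw [AlgEquiv.apply_symm_apply] at h2
        exact h2
    have h2 : τ.symm (τ P) ∈ p := h1 hP
    rw [AlgEquiv.symm_apply_apply] at h2
    exact h2
  have hρJ' : ∀ P, P ∈ J ↔ ρ.symm P ∈ J := by
    intro P
    rw [hρJ (ρ.symm P), AlgEquiv.apply_symm_apply]
  let e : Equiv.Perm J.minimalPrimes :=
    { toFun := fun q => ⟨Ideal.comap ρ q.1, key ρ hρJ q.1 q.2⟩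
      invFun := fun q => ⟨Ideal.comap ρ.symm q.1, key ρ.symm hρJ' q.1 q.2⟩
      left_inv := by
        intro q
        apply Subtype.ext
        ext P
        simp
      right_inv := by
        intro q
        apply Subtype.ext
        ext P
        simp }
  have he : e ^ Nat.card (Equiv.Perm J.minimalPrimes) = 1 := pow_card_eq_one'
  have hpow : ∀ (n : ℕ) (q : J.minimalPrimes) (P : MvPolynomial (Fin 3) K),
      P ∈ ((e ^ n) q).1 ↔ (ρ ^ n) P ∈ q.1 := by
    intro n
    induction n with
    | zero =>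
      intro q P
      simp
    | succ n ih =>
      intro q P
      rw [pow_succ, Equiv.Perm.mul_apply, ih, pow_succ', AlgEquiv.mul_apply]
      exact Iff.rfl
  have h1 := hpow (Nat.card (Equiv.Perm J.minimalPrimes)) ⟨u02m K, hm⟩ (MvPolynomial.X i)
  rw [he, hρ, Equiv.Perm.one_apply] at h1
  exact h1.1 (MvPolynomial.constantCoeff_X K i)

end AFree
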