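import Pool.Agent.AFree.UDefs

/-!
# MP_e44b8a_al: three commuting operators of order `p` on a space of dimension three (helper90)
-/

namespace AFree

section

variable {K : Type} [Field K] {p : ℕ} [Fact p.Prime]

/-- the `p`-th roots of unity -/
def u03_W (ω : K) (c : ZMod p) : K := ω ^ c.val

variable {ω : K} (hω : IsPrimitiveRoot ω p)

include hω

theorem u03_cast (m : ℕ) : u03_W ω (m : ZMod p) = ω ^ m := by
  unfold u03_W
  rw [ZMod.val_natCast]
  exact (pow_eq_pow_mod m hω.pow_eq_one).symm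

theorem u03_add (a b : ZMod p) : u03_W ω (a + b) = u03_W ω a * u03_W ω b := by
  unfold u03_W
  rw [ZMod.val_add, ← pow_add]
  exact (pow_eq_pow_mod _ hω.pow_eq_one).symm

theorem u03_mul (n c : ZMod p) : u03_W ω (n * c) = u03_W ω c ^ n.val := by
  unfold u03_W
  rw [ZMod.val_mul, ← pow_mul, mul_comm n.val]
  exact (pow_eq_pow_mod _ hω.pow_eq_one).symm

omit hω in
theorem u03_zero : u03_W ω (0 : ZMod p) = 1 := by
  unfold u03_W
  rw [ZMod.val_zero, pow_zero]

theorem u03_inj {a b : ZMod p} (h : u03_W ω a = u03_W ω b) : a = b := by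
  unfold u03_W at h
  exact ZMod.val_injective p (hω.pow_inj a.val_lt b.val_lt h)

variable {V : Type} [AddCommGroup V] [Module K V]

omit [Fact p.Prime] hω in
/-- the projections onto the eigenspaces -/
theorem u03_pr_eig {J : Module.End K V} (hJ : J ^ p = 1) {w : K} (hw : w ≠ 0) (hwp : w ^ p = 1)
    (v : V) : J (∑ j ∈ Finset.range p, (w⁻¹ ^ j) • (J ^ j) v) =
      w • ∑ j ∈ Finset.range p, (w⁻¹ ^ j) • (J ^ j) v := by
  rw [map_sum, Finset.smul_sum]
  have h1 : ∀ j, J ((w⁻¹ ^ j) • (J ^ j) v) = w • ((w⁻¹ ^ (j + 1)) • (J ^ (j + 1)) v) := by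
    intro j
    rw [map_smul, smul_smul, pow_succ w⁻¹, mul_comm (w⁻¹ ^ j), ← mul_assoc, mul_inv_cancel₀ hw,
      one_mul, pow_succ' J, Module.End.mul_apply]
  rw [Finset.sum_congr rfl fun j _ => h1 j, ← Finset.smul_sum, ← Finset.smul_sum]
  congr 1
  have h2 := Finset.sum_range_succ (fun j => (w⁻¹ ^ j) • (J ^ j) v) p
  have h3 := Finset.sum_range_succ' (fun j => (w⁻¹ ^ j) • (J ^ j) v) p
  rw [h2, inv_pow, hwp, hJ, pow_zero, pow_zero, inv_one] at h3
  exact (add_right_cancel h3).symm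

theorem u03_split (hp : (p : K) ≠ 0) (J : Module.End K V) (v : V) :
    v = ∑ m ∈ Finset.range p,
      (p : K)⁻¹ • ∑ j ∈ Finset.range p, ((ω ^ m)⁻¹ ^ j) • (J ^ j) v := by
  have hpp : 0 < p := (Fact.out (p := p.Prime)).pos
  have hω0 : ω ≠ 0 := hω.ne_zero hpp.ne'
  have h1 : ∀ j ∈ Finset.range p, ∑ m ∈ Finset.range p, ((ω ^ m)⁻¹ ^ j) • (J ^ j) v =
      if j = 0 then (p : K) • v else 0 := by
    intro j hj
    rw [← Finset.sum_smul]
    by_cases h0 : j = 0
    · subst h0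
      rw [if_pos rfl]
      simp only [pow_zero]
      rw [Finset.sum_const, Finset.card_range, nsmul_one]
      rfl
    · rw [if_neg h0]
      have h2 : ∀ m, ((ω ^ m)⁻¹ ^ j) = ((ω ^ j)⁻¹) ^ m := by
        intro m
        rw [inv_pow, inv_pow, ← pow_mul, ← pow_mul, mul_comm]
      rw [Finset.sum_congr rfl fun m _ => h2 m]
      have h3 : (ω ^ j)⁻¹ ≠ 1 := by
        intro h4
        rw [inv_eq_one] at h4
        have h5 := Nat.le_of_dvd (Nat.pos_of_ne_zero h0) (hω.dvd_of_pow_eq_one j h4)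
        exact absurd (Finset.mem_range.1 hj) (by omega)
      rw [geom_sum_eq h3, inv_pow, ← pow_mul, mul_comm j p, pow_mul, hω.pow_eq_one, one_pow,
        inv_one, sub_self, zero_div, zero_smul]
  rw [← Finset.smul_sum, Finset.sum_comm, Finset.sum_congr rfl h1, Finset.sum_ite_eq',
    if_pos (Finset.mem_range.2 hpp), smul_smul, inv_mul_cancel₀ hp, one_smul]

theorem u03_ind (hp : (p : K) ≠ 0) {J : Fin 3 → Module.End K V}
    (hc : ∀ a b, J a * J b = J b * J a) (hJ : ∀ a, J a ^ p = 1) {P : V → Prop}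
    (h0 : P 0) (hadd : ∀ v w, P v → P w → P (v + w))
    (h : ∀ (χ : Fin 3 → ZMod p) (v : V), (∀ k, J k v = u03_W ω (χ k) • v) → P v) (v : V) :
    P v := by
  have hpp : 0 < p := (Fact.out (p := p.Prime)).pos
  have hω0 : ω ≠ 0 := hω.ne_zero hpp.ne'
  have hsum : ∀ (s : Finset ℕ) (F : ℕ → V), (∀ m ∈ s, P (F m)) → P (∑ m ∈ s, F m) := by
    classical
    intro s F
    induction s using Finset.induction_on with
    | empty =>
      intro _
      rw [Finset.sum_empty]
      exact h0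
    | insert a s ha ih =>
      intro hs
      rw [Finset.sum_insert ha]
      exact hadd _ _ (hs a (Finset.mem_insert_self a s))
        (ih fun m hm => hs m (Finset.mem_insert_of_mem hm))
  obtain ⟨pr, hpr⟩ : ∃ pr : Fin 3 → ℕ → V → V, pr = fun k m v =>
      (p : K)⁻¹ • ∑ j ∈ Finset.range p, ((ω ^ m)⁻¹ ^ j) • (J k ^ j) v := ⟨_, rfl⟩
  have hwp : ∀ m, (ω ^ m) ^ p = 1 := by
    intro m
    rw [← pow_mul, mul_comm, pow_mul, hω.pow_eq_one, one_pow]
  have he : ∀ k m v, J k (pr k m v) = ω ^ m • pr k m v := by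
    intro k m v
    rw [hpr]
    simp only
    rw [map_smul, u03_pr_eig (hJ k) (pow_ne_zero m hω0) (hwp m), smul_comm]
  have hpow : ∀ (l k : Fin 3) (j : ℕ) (v : V), J l ((J k ^ j) v) = (J k ^ j) (J l v) := by
    intro l k j v
    have h1 : J l * J k ^ j = J k ^ j * J l :=
      Commute.pow_right (show Commute (J l) (J k) from hc l k) j
    rw [← Module.End.mul_apply, h1, Module.End.mul_apply]
  have hk : ∀ (l k : Fin 3) (m : ℕ) (c : K) (v : V), J l v = c • v →
      J l (pr k m v) = c • pr k m v := by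
    intro l k m c v hv
    rw [hpr]
    simp only
    rw [map_smul, map_sum, smul_comm c]
    congr 1
    rw [Finset.smul_sum]
    refine Finset.sum_congr rfl fun j _ => ?_
    rw [map_smul, hpow, hv, map_smul, smul_comm c]
  have hs : ∀ (k : Fin 3) (v : V), v = ∑ m ∈ Finset.range p, pr k m v := by
    intro k v
    rw [hpr]
    exact u03_split hω hp (J k) v
  rw [hs 0 v]
  refine hsum _ _ fun m0 _ => ?_
  rw [hs 1 (pr 0 m0 v)]
  refine hsum _ _ fun m1 _ => ?_
  rw [hs 2 (pr 1 m1 (pr 0 m0 v))]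
  refine hsum _ _ fun m2 _ => ?_
  refine h ![(m0 : ZMod p), (m1 : ZMod p), (m2 : ZMod p)] _ fun k => ?_
  fin_cases k
  · change J 0 _ = u03_W ω (m0 : ZMod p) • _
    rw [u03_cast hω]
    exact hk 0 2 m2 _ _ (hk 0 1 m1 _ _ (he 0 m0 v))
  · change J 1 _ = u03_W ω (m1 : ZMod p) • _
    rw [u03_cast hω]
    exact hk 1 2 m2 _ _ (he 1 m1 _)
  · change J 2 _ = u03_W ω (m2 : ZMod p) • _
    rw [u03_cast hω]
    exact he 2 m2 _

omit hω in
theorem u03_lin (c1 c2 : Fin 3 → ZMod p) : ∃ n : Fin 3 → ZMod p, n ≠ 0 ∧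
    ∑ k, n k * c1 k = 0 ∧ ∑ k, n k * c2 k = 0 := by
  obtain ⟨M, hM⟩ : ∃ M : Matrix (Fin 3) (Fin 3) (ZMod p), M = Matrix.of ![c1, c2, 0] := ⟨_, rfl⟩
  have hdet : M.det = 0 := by
    refine Matrix.det_eq_zero_of_row_eq_zero 2 fun j => ?_
    rw [hM]
    rfl
  obtain ⟨n, hn, h1⟩ := Matrix.exists_mulVec_eq_zero_iff.2 hdet
  refine ⟨n, hn, ?_, ?_⟩
  · have h2 := congrFun h1 0
    rw [hM] at h2
    rw [Finset.sum_congr rfl fun k _ => mul_comm (n k) (c1 k)]
    exact h2
  · have h2 := congrFun h1 1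
    rw [hM] at h2
    rw [Finset.sum_congr rfl fun k _ => mul_comm (n k) (c2 k)]
    exact h2

theorem u03_char (hp : (p : K) ≠ 0) {J : Fin 3 → Module.End K V}
    (hc : ∀ a b, J a * J b = J b * J a) (hJ : ∀ a, J a ^ p = 1)
    (hn : ∀ n : Fin 3 → Fin p, (∃ k, (n k : ℕ) ≠ 0) →
      J 0 ^ (n 0 : ℕ) * J 1 ^ (n 1 : ℕ) * J 2 ^ (n 2 : ℕ) ≠ 1)
    (c1 c2 : Fin 3 → ZMod p) :
    ∃ χ : Fin 3 → ZMod p, χ ≠ 0 ∧ χ ≠ c1 ∧ χ ≠ c2 ∧
      ∃ v : V, v ≠ 0 ∧ ∀ k, J k v = u03_W ω (χ k) • v := by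
  by_contra hcon
  push Not at hcon
  obtain ⟨n, hn0, hn1, hn2⟩ := u03_lin c1 c2
  have hpos : NeZero p := ⟨(Fact.out (p := p.Prime)).ne_zero⟩
  refine hn (fun k => ⟨(n k).val, (n k).val_lt⟩) ?_ ?_
  · by_contra hcon2
    push Not at hcon2
    apply hn0
    funext k
    exact (ZMod.val_eq_zero (n k)).1 (hcon2 k)
  · apply LinearMap.ext
    intro v
    rw [Module.End.one_apply]
    refine u03_ind hω hp hc hJ (P := fun v =>
      (J 0 ^ (n 0).val * J 1 ^ (n 1).val * J 2 ^ (n 2).val) v = v) ?_ ?_ ?_ v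
    · rw [map_zero]
    · intro v w hv hw
      rw [map_add, hv, hw]
    · intro χ v hv
      by_cases hv0 : v = 0
      · rw [hv0, map_zero]
      have hpw : ∀ (k : Fin 3) (m : ℕ), (J k ^ m) v = (u03_W ω (χ k) ^ m) • v := by
        intro k m
        induction m with
        | zero => rw [pow_zero, pow_zero, one_smul, Module.End.one_apply]
        | succ m ih =>
          rw [pow_succ', Module.End.mul_apply, ih, map_smul, hv, smul_smul, pow_succ]
      have h1 : (J 0 ^ (n 0).val * J 1 ^ (n 1).val * J 2 ^ (n 2).val) v =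
          u03_W ω (∑ k, n k * χ k) • v := by
        rw [Module.End.mul_apply, Module.End.mul_apply, hpw, map_smul, hpw, smul_smul, map_smul,
          hpw, smul_smul, Fin.sum_univ_three, u03_add hω, u03_add hω, u03_mul hω, u03_mul hω,
          u03_mul hω]
        congr 1
        ring
      have h2 : ∑ k, n k * χ k = 0 := by
        by_cases h3 : χ = 0
        · rw [h3]
          exact Finset.sum_eq_zero fun k _ => mul_zero _
        · by_cases h4 : χ = c1
          · rw [h4, hn1]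
          · by_cases h5 : χ = c2
            · rw [h5, hn2]
            · obtain ⟨k, hk⟩ := hcon χ h3 h4 h5 v hv0
              exact absurd (hv k) hk
      rw [h1, h2, u03_zero, one_smul]

end

theorem simdiag_p {K : Type} [Field K] [IsAlgClosed K] {p : ℕ} [Fact p.Prime] (hp : (p : K) ≠ 0)
    {V : Type} [AddCommGroup V] [Module K V] [FiniteDimensional K V]
    (hV : Module.finrank K V = 3) {J : Fin 3 → Module.End K V} (hc : ∀ a b, J a * J b = J b * J a)
    (hJ : ∀ a, J a ^ p = 1)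
    (hn : ∀ n : Fin 3 → Fin p, (∃ k, (n k : ℕ) ≠ 0) →
      J 0 ^ (n 0 : ℕ) * J 1 ^ (n 1 : ℕ) * J 2 ^ (n 2 : ℕ) ≠ 1) :
    ∃ b : Fin 3 → V, LinearIndependent K b ∧
      (∀ a, ∃ k, ∃ c : K, c ≠ 1 ∧ J k (b a) = c • b a) ∧
      ∀ M : Module.End K V, (∀ k, M * J k = J k * M) → ∀ a, ∃ m : K, M (b a) = m • b a := by
  have : NeZero (p : K) := ⟨hp⟩
  obtain ⟨ω, hω⟩ := HasEnoughRootsOfUnity.exists_primitiveRoot K p
  obtain ⟨χ0, h00, -, -, v0, hv0, hJ0⟩ := u03_char hω hp hc hJ hn 0 0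
  obtain ⟨χ1, h01, h10, -, v1, hv1, hJ1⟩ := u03_char hω hp hc hJ hn χ0 χ0
  obtain ⟨χ2, h02, h20, h21, v2, hv2, hJ2⟩ := u03_char hω hp hc hJ hn χ0 χ1
  obtain ⟨χ, hχ⟩ : ∃ χ : Fin 3 → Fin 3 → ZMod p, χ = ![χ0, χ1, χ2] := ⟨_, rfl⟩
  obtain ⟨b, hb⟩ : ∃ b : Fin 3 → V, b = ![v0, v1, v2] := ⟨_, rfl⟩
  have hχ0 : ∀ i, χ i ≠ 0 := by
    intro i
    rw [hχ]
    fin_cases i
    · exact h00
    · exact h01
    · exact h02
  have hχne : ∀ i j, i ≠ j → χ i ≠ χ j := by
    intro i j hij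
    rw [hχ]
    fin_cases i <;> fin_cases j
    · exact absurd rfl hij
    · exact Ne.symm h10
    · exact Ne.symm h20
    · exact h10
    · exact absurd rfl hij
    · exact Ne.symm h21
    · exact h20
    · exact h21
    · exact absurd rfl hij
  have hb0 : ∀ i, b i ≠ 0 := by
    intro i
    rw [hb]
    fin_cases i
    · exact hv0
    · exact hv1
    · exact hv2
  have hJe : ∀ i k, J k (b i) = u03_W ω (χ i k) • b i := by
    intro i k
    rw [hχ, hb]
    fin_cases i
    · exact hJ0 k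
    · exact hJ1 k
    · exact hJ2 k
  have hsep : ∀ i j, i ≠ j → ∃ k, u03_W ω (χ i k) - u03_W ω (χ j k) ≠ 0 := by
    intro i j hij
    by_contra hcon
    push Not at hcon
    apply hχne i j hij
    funext k
    exact u03_inj hω (sub_eq_zero.1 (hcon k))
  have hR : ∀ (g : Fin 3 → K) (k : Fin 3) (c : K), ∑ i, g i • b i = 0 →
      ∑ i, ((u03_W ω (χ i k) - c) * g i) • b i = 0 := by
    intro g k c hg
    have h3 := congrArg (fun u => J k u - c • u) hg
    simp only [map_zero, smul_zero, sub_zero] at h3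
    rw [map_sum, Finset.smul_sum, ← Finset.sum_sub_distrib] at h3
    rw [← h3]
    refine Finset.sum_congr rfl fun i _ => ?_
    rw [map_smul, hJe]
    module
  have hli : LinearIndependent K b := by
    rw [Fintype.linearIndependent_iff]
    intro g hg a
    have hoth : ∃ p q : Fin 3, p ≠ a ∧ q ≠ a ∧ ∀ l, l = a ∨ l = p ∨ l = q :=
      ⟨a + 1, a + 2, (succ_ne a).1, (succ_ne a).2.1, (succ_ne a).2.2.2⟩
    obtain ⟨p, q, hp, hq, hall⟩ := hoth
    obtain ⟨k, hk⟩ := hsep a p (Ne.symm hp)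
    obtain ⟨k', hk'⟩ := hsep a q (Ne.symm hq)
    have h3 := hR _ k' (u03_W ω (χ q k')) (hR g k (u03_W ω (χ p k)) hg)
    rw [Finset.sum_eq_single a] at h3
    · rcases smul_eq_zero.1 h3 with h4 | h4
      · rcases mul_eq_zero.1 h4 with h5 | h5
        · exact absurd h5 hk'
        · rcases mul_eq_zero.1 h5 with h6 | h6
          · exact absurd h6 hk
          · exact h6
      · exact absurd h4 (hb0 a)
    · intro l _ hl
      rcases hall l with h4 | h4 | h4
      · exact absurd h4 hl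
      · rw [h4, sub_self, zero_mul, mul_zero, zero_smul]
      · rw [h4, sub_self, zero_mul, zero_smul]
    · exact fun h => absurd (Finset.mem_univ a) h
  refine ⟨b, hli, fun a => ?_, fun M hM a => ?_⟩
  · have h3 : ∃ k, χ a k ≠ 0 := by
      by_contra hcon
      push Not at hcon
      exact hχ0 a (funext hcon)
    obtain ⟨k, hk⟩ := h3
    refine ⟨k, u03_W ω (χ a k), fun h4 => hk ?_, hJe a k⟩
    rw [← u03_zero (p := p) (ω := ω)] at h4
    exact u03_inj hω h4
  · have hspan : Submodule.span K (Set.range b) = ⊤ :=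
      hli.span_eq_top_of_card_eq_finrank' (by rw [hV, Fintype.card_fin])
    obtain ⟨g, hg⟩ := (Submodule.mem_span_range_iff_exists_fun K).1
      (show M (b a) ∈ Submodule.span K (Set.range b) by rw [hspan]; trivial)
    refine ⟨g a, ?_⟩
    have h3 : ∀ i, i ≠ a → g i = 0 := by
      intro i hi
      obtain ⟨k, hk⟩ := hsep i a hi
      have h4 : J k (M (b a)) = u03_W ω (χ a k) • M (b a) := by
        rw [← Module.End.mul_apply, ← hM, Module.End.mul_apply, hJe, map_smul]
      have h5 : ∑ i, ((u03_W ω (χ i k) - u03_W ω (χ a k)) * g i) • b i = 0 := by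
        rw [← hg, map_sum, Finset.smul_sum, ← sub_eq_zero, ← Finset.sum_sub_distrib] at h4
        rw [← h4]
        refine Finset.sum_congr rfl fun i _ => ?_
        rw [map_smul, hJe]
        module
      have h6 := (Fintype.linearIndependent_iff.1 hli) _ h5 i
      rcases mul_eq_zero.1 h6 with h7 | h7
      · exact absurd h7 hk
      · exact h7
    rw [← hg, Finset.sum_eq_single a]
    · intro i _ hi
      rw [h3 i hi, zero_smul]
    · exact fun h => absurd (Finset.mem_univ a) h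

end AFree
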