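import Pool.Agent.AFree.UDefs

/-!
# MP_e44b8a_al: closed subgroups of a torus of dimension three
-/

namespace AFree

variable {K : Type} [Field K]

/-- the character of a monomial on a subgroup -/
private noncomputable def u04_ch (V : Subgroup (Fin 3 → Kˣ)) (n : Fin 3 →₀ ℕ) : V →* K where
  toFun v := ∏ i, ((v : Fin 3 → Kˣ) i : K) ^ n i
  map_one' := by
    refine Finset.prod_eq_one fun i _ => ?_
    show ((1 : Kˣ) : K) ^ n i = 1
    rw [Units.val_one, one_pow]
  map_mul' v w := by
    rw [← Finset.prod_mul_distrib]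
    refine Finset.prod_congr rfl fun i _ => ?_
    show (((v : Fin 3 → Kˣ) i * (w : Fin 3 → Kˣ) i : Kˣ) : K) ^ n i = _
    rw [Units.val_mul, mul_pow]

private theorem u04_ch_eq {V : Subgroup (Fin 3 → Kˣ)} {t : Fin 3 → Kˣ}
    (ht : ∀ a : Fin 3 → ℤ, (∀ v ∈ V, ∏ i, v i ^ a i = 1) → ∏ i, t i ^ a i = 1)
    {n m : Fin 3 →₀ ℕ} (h : u04_ch V n = u04_ch V m) :
    ∏ i, (t i : K) ^ n i = ∏ i, (t i : K) ^ m i := by
  have key : ∀ v : Fin 3 → Kˣ, (∏ i, v i ^ ((n i : ℤ) - (m i : ℤ)) = 1) ↔
      ∏ i, (v i : K) ^ n i = ∏ i, (v i : K) ^ m i := by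
    intro v
    have h1 : ∏ i, v i ^ ((n i : ℤ) - (m i : ℤ)) = (∏ i, v i ^ n i) * (∏ i, v i ^ m i)⁻¹ := by
      rw [← Finset.prod_inv_distrib, ← Finset.prod_mul_distrib]
      refine Finset.prod_congr rfl fun i _ => ?_
      rw [zpow_sub, zpow_natCast, zpow_natCast]
    rw [h1, mul_inv_eq_one, ← Units.val_inj, Units.coe_prod, Units.coe_prod]
    simp only [Units.val_pow_eq_pow_val]
  refine (key t).1 (ht _ fun v hv => (key v).2 ?_)
  exact DFunLike.congr_fun h (⟨v, hv⟩ : V)

private theorem u04_mem {V : Subgroup (Fin 3 → Kˣ)} (hc : Cl (V : Set (Fin 3 → Kˣ)) ⊆ V) {t : Fin 3 → Kˣ}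
    (ht : ∀ a : Fin 3 → ℤ, (∀ v ∈ V, ∏ i, v i ^ a i = 1) → ∏ i, t i ^ a i = 1) : t ∈ V := by
  classical
  refine hc ?_
  intro P hP
  have hev : ∀ v : Fin 3 → Kˣ, ev v P = ∑ n ∈ P.support, P.coeff n * ∏ i, (v i : K) ^ n i := by
    intro v
    unfold ev
    rw [MvPolynomial.eval_eq']
  have h0 : ∑ χ ∈ P.support.image (u04_ch V), (∑ n ∈ P.support with u04_ch V n = χ, P.coeff n) •
      (χ : V → K) = 0 := by
    funext v
    rw [Finset.sum_apply, Pi.zero_apply]
    have h1 := hP (v : Fin 3 → Kˣ) v.2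
    rw [hev] at h1
    rw [← h1, ← Finset.sum_fiberwise_of_maps_to (s := P.support) (t := P.support.image (u04_ch V))
      (g := u04_ch V) (fun n hn => Finset.mem_image_of_mem _ hn)]
    refine Finset.sum_congr rfl fun χ _ => ?_
    rw [Pi.smul_apply, smul_eq_mul, Finset.sum_mul]
    refine Finset.sum_congr rfl fun n hn => ?_
    rw [← (Finset.mem_filter.1 hn).2]
    rfl
  have hli := linearIndependent_iff'.1 (linearIndependent_monoidHom V K) _ _ h0
  rw [hev, ← Finset.sum_fiberwise_of_maps_to (s := P.support) (t := P.support.image (u04_ch V))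
      (g := u04_ch V) (fun n hn => Finset.mem_image_of_mem _ hn)]
  refine Finset.sum_eq_zero fun χ hχ => ?_
  obtain ⟨m, -, hm⟩ := Finset.mem_image.1 hχ
  have h2 : ∑ n ∈ P.support with u04_ch V n = χ, P.coeff n * ∏ i, (t i : K) ^ n i =
      (∑ n ∈ P.support with u04_ch V n = χ, P.coeff n) * ∏ i, (t i : K) ^ m i := by
    rw [Finset.sum_mul]
    refine Finset.sum_congr rfl fun n hn => ?_
    rw [u04_ch_eq ht ((Finset.mem_filter.1 hn).2.trans hm.symm)]
  rw [h2, hli χ hχ, zero_mul]

/-- clearing denominators in the span of integral vectors -/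
private theorem u04_span {L : AddSubgroup (Fin 3 → ℤ)} {x : Fin 3 → ℚ}
    (hx : x ∈ Submodule.span ℚ ((fun a : Fin 3 → ℤ => fun i => (a i : ℚ)) '' (L : Set (Fin 3 → ℤ)))) :
    ∃ m : ℕ, 0 < m ∧ ∃ a ∈ L, ∀ i, (m : ℚ) * x i = a i := by
  induction hx using Submodule.span_induction with
  | mem x hx =>
    obtain ⟨a, ha, rfl⟩ := hx
    exact ⟨1, Nat.one_pos, a, ha, fun i => by rw [Nat.cast_one, one_mul]⟩
  | zero => exact ⟨1, Nat.one_pos, 0, L.zero_mem, fun i => by simp⟩
  | add x y _ _ ihx ihy =>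
    obtain ⟨m, hm, a, ha, h1⟩ := ihx
    obtain ⟨m', hm', a', ha', h1'⟩ := ihy
    refine ⟨m * m', Nat.mul_pos hm hm', m' • a + m • a',
      L.add_mem (L.nsmul_mem ha _) (L.nsmul_mem ha' _), fun i => ?_⟩
    rw [Pi.add_apply, Pi.add_apply, Pi.smul_apply, Pi.smul_apply, nsmul_eq_mul, nsmul_eq_mul]
    push_cast
    rw [← h1, ← h1']
    ring
  | smul q x _ ih =>
    obtain ⟨m, hm, a, ha, h1⟩ := ih
    refine ⟨m * q.den, Nat.mul_pos hm q.den_pos, q.num • a, L.zsmul_mem ha _, fun i => ?_⟩
    rw [Pi.smul_apply, Pi.smul_apply, smul_eq_mul, smul_eq_mul]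
    push_cast
    rw [← h1]
    have h2 := Rat.mul_den_eq_num q
    rw [← h2]
    ring

private theorem u04_fin {V : Subgroup (Fin 3 → Kˣ)} (m : Fin 3 → ℕ) (hm : ∀ i, 0 < m i)
    (h : ∀ v ∈ V, ∀ i, v i ^ m i = 1) : (V : Set (Fin 3 → Kˣ)).Finite := by
  have h1 : ∀ i, ((rootsOfUnity (m i) K : Subgroup Kˣ) : Set Kˣ).Finite := by
    intro i
    have : NeZero (m i) := ⟨(hm i).ne'⟩
    exact Set.finite_coe_iff.1 (inferInstance : Finite (rootsOfUnity (m i) K))
  refine (Set.Finite.pi' h1).subset fun v hv i => ?_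
  exact (mem_rootsOfUnity _ _).2 (h v hv i)

/-- An infinite closed subgroup contains a one-parameter subgroup. Let `Λ` be the additive subgroup of the `a : Fin 3 → ℤ` with
`∏ i, v i ^ a i = 1` for all `v ∈ V`. (1) If `t` satisfies `∏ i, t i ^ a i = 1` for all `a ∈ Λ` then `t ∈ V`: let `P` vanish on
`V`; group the monomials `n` of `P` by the restriction of the character `v ↦ ∏ v i ^ n i` to `V`; distinct restrictions are linearly independent
(`linearIndependent_monoidHom V K`), so for each class the sum of the coefficients is `0`; and `∏ t i ^ n i` depends on the class only,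
so `ev t P = 0`; use `hc`. (2) There is `b : Fin 3 → ℤ`, `b ≠ 0`, with `∑ i, a i * b i = 0` for all `a ∈ Λ`: otherwise the `ℚ`-span of `Λ` is
everything (if it is not, some nonzero linear functional on `Fin 3 → ℚ` vanishes on it: `Submodule.exists_le_ker_of_lt_top`;
clear the denominators), so for each `i` some positive multiple `m i` of the unit vector `e i` lies in `Λ` (every element of the `ℚ`-span
has a positive multiple in `Λ`), so `v i ^ m i = 1` for all `v ∈ V`, and `V` is finite. (3) `fun i => u ^ b i` is in `V` by (1), as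
`∏ i, (u ^ b i) ^ a i = u ^ (∑ b i * a i) = 1`. -/
theorem exists_ops (V : Subgroup (Fin 3 → Kˣ)) (hV : (V : Set (Fin 3 → Kˣ)).Infinite)
    (hc : Cl (V : Set (Fin 3 → Kˣ)) ⊆ V) :
    ∃ b : Fin 3 → ℤ, b ≠ 0 ∧ ∀ u : Kˣ, (fun i => u ^ b i) ∈ V := by
  classical
  -- the lattice of the trivial characters
  let L : AddSubgroup (Fin 3 → ℤ) :=
    { carrier := {a | ∀ v ∈ V, ∏ i, v i ^ a i = 1}
      add_mem' := by
        intro a b ha hb v hv
        simp only [Pi.add_apply, zpow_add, Finset.prod_mul_distrib]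
        rw [ha v hv, hb v hv, mul_one]
      zero_mem' := by
        intro v _
        simp only [Pi.zero_apply, zpow_zero, Finset.prod_const_one]
      neg_mem' := by
        intro a ha v hv
        simp only [Pi.neg_apply, zpow_neg, Finset.prod_inv_distrib]
        rw [ha v hv, inv_one] }
  have hL : ∀ a : Fin 3 → ℤ, a ∈ L ↔ ∀ v ∈ V, ∏ i, v i ^ a i = 1 := fun a => Iff.rfl
  have hb : ∃ b : Fin 3 → ℤ, b ≠ 0 ∧ ∀ a ∈ L, ∑ i, b i * a i = 0 := by
    let W : Submodule ℚ (Fin 3 → ℚ) :=
      Submodule.span ℚ ((fun a : Fin 3 → ℤ => fun i => (a i : ℚ)) '' (L : Set (Fin 3 → ℤ)))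
    by_cases hW : W = ⊤
    · exfalso
      have h1 : ∀ i : Fin 3, ∃ m : ℕ, 0 < m ∧ ∃ a ∈ L, ∀ j, (m : ℚ) * (Pi.single i 1 : Fin 3 → ℚ) j = a j := by
        intro i
        refine u04_span (x := Pi.single i 1) ?_
        show _ ∈ W
        rw [hW]
        exact Submodule.mem_top
      choose m hm a ha ha' using h1
      refine hV (u04_fin m hm fun v hv i => ?_)
      have h2 := (hL _).1 (ha i) v hv
      have h3 : ∀ j, a i j = if j = i then (m i : ℤ) else 0 := by
        intro j
        have h4 := ha' i j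
        by_cases hj : j = i
        · rw [if_pos hj]
          rw [hj, Pi.single_eq_same, mul_one] at h4
          rw [hj]
          exact_mod_cast h4.symm
        · rw [if_neg hj]
          rw [Pi.single_eq_of_ne hj, mul_zero] at h4
          exact_mod_cast h4.symm
      rw [Finset.prod_eq_single i] at h2
      · rw [h3, if_pos rfl, zpow_natCast] at h2
        exact h2
      · intro j _ hj
        rw [h3, if_neg hj, zpow_zero]
      · intro h5
        exact absurd (Finset.mem_univ _) h5
    · obtain ⟨f, hf, hker⟩ := Submodule.exists_le_ker_of_lt_top W (lt_top_iff_ne_top.2 hW)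
      have hfx : ∀ x : Fin 3 → ℚ, f x = ∑ i, f (Pi.single i 1) * x i := by
        intro x
        conv_lhs => rw [pi_eq_sum_univ' x]
        rw [map_sum]
        refine Finset.sum_congr rfl fun i _ => ?_
        rw [map_smul, smul_eq_mul, mul_comm]
      let D : ℕ := ∏ j, (f (Pi.single j 1)).den
      have hD : 0 < D := Finset.prod_pos fun j _ => Rat.den_pos _
      have h1 : ∀ i, ∃ z : ℤ, (z : ℚ) = D * f (Pi.single i 1) := by
        intro i
        obtain ⟨k, hk⟩ : (f (Pi.single i 1)).den ∣ D := Finset.dvd_prod_of_mem _ (Finset.mem_univ i)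
        refine ⟨k * (f (Pi.single i 1)).num, ?_⟩
        rw [hk]
        push_cast
        rw [← Rat.mul_den_eq_num (f (Pi.single i 1))]
        ring
      choose b hb using h1
      refine ⟨b, ?_, ?_⟩
      · intro h0
        apply hf
        apply LinearMap.ext
        intro x
        rw [hfx, LinearMap.zero_apply]
        refine Finset.sum_eq_zero fun i _ => ?_
        have h2 := hb i
        rw [h0, Pi.zero_apply, Int.cast_zero] at h2
        rw [(mul_eq_zero.1 h2.symm).resolve_left (Nat.cast_ne_zero.2 hD.ne'), zero_mul]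
      · intro a ha
        have h2 : f (fun i => (a i : ℚ)) = 0 := hker (Submodule.subset_span ⟨a, ha, rfl⟩)
        rw [hfx] at h2
        have h3 : ((∑ i, b i * a i : ℤ) : ℚ) = 0 := by
          push_cast
          have h4 : (D : ℚ) * ∑ i, f (Pi.single i 1) * (a i : ℚ) = 0 := by rw [h2, mul_zero]
          rw [Finset.mul_sum] at h4
          rw [← h4]
          refine Finset.sum_congr rfl fun i _ => ?_
          rw [hb i, mul_assoc]
        exact_mod_cast h3
  obtain ⟨b, hb0, hb⟩ := hb
  refine ⟨b, hb0, fun u => u04_mem hc fun a ha => ?_⟩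
  have h1 := hb a ((hL a).2 ha)
  simp only [← zpow_mul]
  have h2 : ∀ s : Finset (Fin 3), ∏ i ∈ s, u ^ (b i * a i) = u ^ (∑ i ∈ s, b i * a i) := by
    intro s
    induction s using Finset.induction_on with
    | empty => rw [Finset.prod_empty, Finset.sum_empty, zpow_zero]
    | insert i s hi ih => rw [Finset.prod_insert hi, Finset.sum_insert hi, zpow_add, ih]
  rw [h2, h1, zpow_zero]

end AFree
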