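import Pool.Agent.AFree.UDefs

/-!
# MP_e44b8a_al: independent one-parameter subgroups are dense
-/

namespace AFree

variable {K : Type} [Field K]

theorem u05_pow [Infinite K] {k : ℤ} (h : ∀ x : Kˣ, x ^ k = 1) : k = 0 := by
  by_contra hk
  obtain ⟨n, hn⟩ : ∃ n, n = k.natAbs := ⟨_, rfl⟩
  have hn0 : n ≠ 0 := by
    rw [hn]
    exact Int.natAbs_ne_zero.2 hk
  have h1 : ∀ x : Kˣ, x ^ n = 1 := by
    intro x
    have h2 := h x
    rcases Int.natAbs_eq k with h3 | h3
    · rw [h3, zpow_natCast] at h2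
      rw [hn]
      exact h2
    · rw [h3, zpow_neg, zpow_natCast, inv_eq_one] at h2
      rw [hn]
      exact h2
  have h2 : (Polynomial.X ^ (n + 1) : Polynomial K) = Polynomial.X := by
    apply Polynomial.funext
    intro x
    rw [Polynomial.eval_pow, Polynomial.eval_X]
    by_cases hx : x = 0
    · rw [hx, zero_pow (Nat.succ_ne_zero n)]
    · have h3 := congrArg (fun y : Kˣ => (y : K)) (h1 (Units.mk0 x hx))
      simp only [Units.val_pow_eq_pow_val, Units.val_mk0, Units.val_one] at h3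
      rw [pow_succ, h3, one_mul]
  have h3 := congrArg Polynomial.natDegree h2
  rw [Polynomial.natDegree_X_pow, Polynomial.natDegree_X] at h3
  omega

/-- the character -/
def u05_chi (K : Type) [Field K] (b : Fin 3 → Fin 3 → ℤ) (m : Fin 3 →₀ ℕ) : (Fin 3 → Kˣ) →* K where
  toFun u := ((∏ j, u j ^ (∑ i, (m i : ℤ) * b j i) : Kˣ) : K)
  map_one' := by
    simp only [Pi.one_apply, one_zpow, Finset.prod_const_one, Units.val_one]
  map_mul' u v := by
    simp only [Pi.mul_apply, mul_zpow, Finset.prod_mul_distrib, Units.val_mul]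

theorem u05_ev (b : Fin 3 → Fin 3 → ℤ) (P : Po K) (u : Fin 3 → Kˣ) :
    ev (fun i => ∏ j, u j ^ b j i) P = ∑ m ∈ P.support, P.coeff m * u05_chi K b m u := by
  unfold ev
  rw [MvPolynomial.eval_eq']
  refine Finset.sum_congr rfl fun m _ => ?_
  congr 1
  have h1 : (∏ i, (∏ j, u j ^ b j i) ^ m i) = ∏ j, u j ^ (∑ i, (m i : ℤ) * b j i) := by
    simp only [← Finset.prod_pow]
    rw [Finset.prod_comm]
    refine Finset.prod_congr rfl fun j _ => ?_
    have h2 : ∀ i, (u j ^ b j i) ^ m i = u j ^ ((m i : ℤ) * b j i) := by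
      intro i
      rw [mul_comm, zpow_mul, zpow_natCast]
    simp only [h2]
    rw [Fin.sum_univ_three, Fin.prod_univ_three, zpow_add, zpow_add]
  have h3 := congrArg (fun y : Kˣ => (y : K)) h1
  simp only [Units.coe_prod, Units.val_pow_eq_pow_val] at h3
  show ∏ i, (((∏ j, u j ^ b j i : Kˣ)) : K) ^ m i = ((∏ j, u j ^ (∑ i, (m i : ℤ) * b j i) : Kˣ) : K)
  simp only [Units.coe_prod]
  exact h3

theorem u05_inj [Infinite K] {b : Fin 3 → Fin 3 → ℤ}
    (hb : ∀ n : Fin 3 → ℤ, (∀ i, ∑ j, n j * b j i = 0) → n = 0) : Function.Injective (u05_chi K b) := by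
  intro m m' h
  have h1 : ∀ j, ∑ i, (m i : ℤ) * b j i = ∑ i, (m' i : ℤ) * b j i := by
    intro j
    rw [← sub_eq_zero]
    apply u05_pow (K := K)
    intro x
    have h2 := congrArg (fun f : (Fin 3 → Kˣ) →* K => f (Pi.mulSingle j x)) h
    have h3 : ∀ e : Fin 3 → ℤ, ∏ l, (Pi.mulSingle j x : Fin 3 → Kˣ) l ^ e l = x ^ e j := by
      intro e
      rw [Finset.prod_eq_single j]
      · rw [Pi.mulSingle_eq_same]
      · intro l _ hl
        rw [Pi.mulSingle_eq_of_ne hl, one_zpow]
      · intro h4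
        exact absurd (Finset.mem_univ _) h4
    have h4 : ((x ^ (∑ i, (m i : ℤ) * b j i) : Kˣ) : K) = ((x ^ (∑ i, (m' i : ℤ) * b j i) : Kˣ) : K) := by
      rw [← h3 (fun j => ∑ i, (m i : ℤ) * b j i), ← h3 (fun j => ∑ i, (m' i : ℤ) * b j i)]
      exact h2
    rw [zpow_sub, Units.ext h4, mul_inv_cancel]
  have hdet : (Matrix.of b).det ≠ 0 := by
    intro hd
    obtain ⟨v, hv, hv'⟩ := Matrix.exists_vecMul_eq_zero_iff.2 hd
    apply hv
    apply hb
    intro i
    have h2 := congrFun hv' i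
    exact h2
  have h2 : (fun i => (m i : ℤ) - m' i) = 0 := by
    apply Matrix.eq_zero_of_mulVec_eq_zero hdet
    funext j
    show ∑ i, b j i * ((m i : ℤ) - m' i) = 0
    have h3 := h1 j
    rw [← sub_eq_zero, ← Finset.sum_sub_distrib] at h3
    rw [← h3]
    exact Finset.sum_congr rfl fun i _ => by ring
  ext i
  have h3 := congrFun h2 i
  simp only [Pi.zero_apply] at h3
  omega

/-- `P = ∑ c n t ^ n`, and `t i = ∏ j, u j ^ b j i` gives `∑ c n * ∏ j, u j ^ (∑ i, n i * b j i) = 0` for all `u`. The characters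
`u ↦ ∏ j, u j ^ (m j)`, `m : Fin 3 → ℤ`, of the group `Fin 3 → Kˣ` are distinct for distinct `m` (`K` is infinite, so `u ^ k = 1` for all
`u : Kˣ` only for `k = 0`) and linearly independent (`linearIndependent_monoidHom (Fin 3 → Kˣ) K`), and
`n ↦ (fun j => ∑ i, n i * b j i)` is injective: by `hb` the integer matrix `b` has no nonzero integer vector in its left kernel, so
its determinant is not `0` (`Matrix.exists_vecMul_eq_zero_iff`), so there is none in its right kernel
(`Matrix.exists_mulVec_eq_zero_iff`). So all coefficients are `0`. -/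
theorem dense_of_indep [Infinite K] (b : Fin 3 → Fin 3 → ℤ)
    (hb : ∀ n : Fin 3 → ℤ, (∀ i, ∑ j, n j * b j i = 0) → n = 0) (P : Po K)
    (h : ∀ u : Fin 3 → Kˣ, ev (fun i => ∏ j, u j ^ b j i) P = 0) : P = 0 := by
  have h1 := (linearIndependent_monoidHom (Fin 3 → Kˣ) K).comp _ (u05_inj (K := K) hb)
  rw [linearIndependent_iff'] at h1
  have h2 := h1 P.support (fun m => P.coeff m) (by
    funext u
    have h3 := h u
    rw [u05_ev] at h3
    rw [Finset.sum_apply]
    exact h3)
  ext m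
  rw [MvPolynomial.coeff_zero]
  by_cases hm : m ∈ P.support
  · exact h2 m hm
  · exact MvPolynomial.notMem_support_iff.1 hm

end AFree
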