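import Pool.Agent.AFree.UDefs

/-!
# MP_e44b8a_al: irreducible sets
-/

namespace AFree

open Pointwise

variable {K : Type} [Field K]

/-- the prime ideals of the polynomial ring satisfy the descending chain condition: its Krull dimension is `3`
(`MvPolynomial.ringKrullDim_of_isNoetherianRing`, `ringKrullDim_eq_zero_of_field`), so the heights of prime ideals are natural numbers and
`p < q` gives `height p < height q` (see `Mathlib/RingTheory/Ideal/Height.lean`, `Order.KrullDimension`); or take a minimal height. -/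
theorem prime_min (s : Set (Ideal (Po K))) (hs : ∀ p ∈ s, p.IsPrime) (hne : s.Nonempty) :
    ∃ p ∈ s, ∀ q ∈ s, q ≤ p → q = p := by
  have h1 : (Ideal.height '' s).Nonempty := hne.image _
  obtain ⟨n, ⟨p, hp, rfl⟩, hmin⟩ := WellFounded.has_min (wellFounded_lt (α := ℕ∞)) _ h1
  refine ⟨p, hp, fun q hq hle => ?_⟩
  have hp' := hs p hp
  have hq' := hs q hq
  exact Ideal.eq_of_le_of_height_le q hle (not_lt.1 (hmin _ ⟨q, hq, rfl⟩))

theorem u06_ev_add (t : Fin 3 → Kˣ) (P Q : Po K) : ev t (P + Q) = ev t P + ev t Q := by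
  unfold ev
  rw [map_add]

theorem u06_ev_mul (t : Fin 3 → Kˣ) (P Q : Po K) : ev t (P * Q) = ev t P * ev t Q := by
  unfold ev
  rw [map_mul]

theorem u06_ev_zero (t : Fin 3 → Kˣ) : ev t (0 : Po K) = 0 := by
  unfold ev
  rw [map_zero]

theorem u06_ev_one (t : Fin 3 → Kˣ) : ev t (1 : Po K) = 1 := by
  unfold ev
  rw [map_one]

/-- the vanishing ideal -/
def u06_I (A : Set (Fin 3 → Kˣ)) : Ideal (Po K) where
  carrier := {P | ∀ a ∈ A, ev a P = 0}
  add_mem' := by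
    intro P Q hP hQ a ha
    rw [u06_ev_add, hP a ha, hQ a ha, add_zero]
  zero_mem' := by
    intro a _
    exact u06_ev_zero a
  smul_mem' := by
    intro R P hP a ha
    rw [smul_eq_mul, u06_ev_mul, hP a ha, mul_zero]

theorem u06_mem {A : Set (Fin 3 → Kˣ)} {P : Po K} : P ∈ u06_I A ↔ ∀ a ∈ A, ev a P = 0 := Iff.rfl

theorem u06_mem_Cl {A : Set (Fin 3 → Kˣ)} {t : Fin 3 → Kˣ} :
    t ∈ Cl A ↔ ∀ P ∈ u06_I A, ev t P = 0 := Iff.rfl

theorem u06_prime {A : Set (Fin 3 → Kˣ)} (h : Irr A) : (u06_I A).IsPrime where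
  ne_top' := by
    intro h1
    obtain ⟨a, ha⟩ := h.1
    have h2 : (1 : Po K) ∈ u06_I A := by
      rw [h1]
      exact Submodule.mem_top
    have h3 := h2 a ha
    rw [u06_ev_one] at h3
    exact one_ne_zero h3
  mem_or_mem' := by
    intro P Q hPQ
    refine h.2 P Q fun a ha => ?_
    rw [← u06_ev_mul]
    exact hPQ a ha

theorem u06_anti {A B : Set (Fin 3 → Kˣ)} (h : A ⊆ B) : u06_I B ≤ u06_I A :=
  fun _ hP a ha => hP a (h ha)

theorem u06_sub_Cl (A : Set (Fin 3 → Kˣ)) : A ⊆ Cl A := fun a ha _ hP => hP a ha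

/-- the translation of polynomials -/
noncomputable def u06_tr (a : Fin 3 → Kˣ) : Po K →ₐ[K] Po K :=
  MvPolynomial.aeval (fun i => MvPolynomial.C (a i : K) * MvPolynomial.X i)

theorem u06_ev_tr (a b : Fin 3 → Kˣ) (P : Po K) : ev b (u06_tr a P) = ev (a * b) P := by
  unfold ev u06_tr
  have h1 : (MvPolynomial.eval (fun i => (b i : K))).comp
      ((MvPolynomial.aeval (R := K) (fun i => MvPolynomial.C (a i : K) * MvPolynomial.X i)) :
        Po K →+* Po K) = MvPolynomial.eval (fun i => ((a * b) i : K)) := by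
    apply MvPolynomial.ringHom_ext
    · intro c
      simp
    · intro i
      simp
  exact congrArg (fun F : Po K →+* K => F P) h1

theorem u06_tr_mul (a b : Fin 3 → Kˣ) (P : Po K) :
    u06_tr a (u06_tr b P) = u06_tr (a * b) P := by
  have h1 : (u06_tr a).comp (u06_tr b) = u06_tr (a * b) := by
    apply MvPolynomial.algHom_ext
    intro i
    rw [AlgHom.comp_apply]
    unfold u06_tr
    rw [MvPolynomial.aeval_X, map_mul, MvPolynomial.aeval_X, MvPolynomial.aeval_X,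
      MvPolynomial.aeval_C, MvPolynomial.algebraMap_eq, Pi.mul_apply, Units.val_mul,
      MvPolynomial.C_mul]
    ring
  rw [← h1, AlgHom.comp_apply]

theorem u06_tr_one (P : Po K) : u06_tr 1 P = P := by
  have h1 : u06_tr (K := K) 1 = AlgHom.id K (Po K) := by
    apply MvPolynomial.algHom_ext
    intro i
    unfold u06_tr
    rw [MvPolynomial.aeval_X, Pi.one_apply, Units.val_one, MvPolynomial.C_1, one_mul,
      AlgHom.id_apply]
  rw [h1, AlgHom.id_apply]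

/-- an infinite set has an infinite irreducible subset: among the ideals `I` for which `{a ∈ A | ∀ P ∈ I, ev a P = 0}` is infinite there
is a maximal one (Noetherian; `⊥` is one of them; see `set_has_maximal_iff_noetherian` or `WellFounded.has_min`); take this subset
`B`. If `ev a P * ev a Q = 0` on `B` then one of the sets `{a ∈ B | ev a P = 0}`, `{a ∈ B | ev a Q = 0}` is infinite, it is
`{a ∈ A | ∀ R ∈ I ⊔ span {P}, ev a R = 0}`, so `I ⊔ span {P} = I` and `P` vanishes on `B`. -/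
theorem exists_irr {A : Set (Fin 3 → Kˣ)} (hA : A.Infinite) :
    ∃ B ⊆ A, B.Infinite ∧ Irr B := by
  let T : Set (Ideal (Po K)) := {I | {a ∈ A | ∀ P ∈ I, ev a P = 0}.Infinite}
  have hT : T.Nonempty := by
    refine ⟨⊥, ?_⟩
    change {a ∈ A | ∀ P ∈ (⊥ : Ideal (Po K)), ev a P = 0}.Infinite
    refine hA.mono fun a ha => ⟨ha, fun P hP => ?_⟩
    rw [Ideal.mem_bot] at hP
    rw [hP, u06_ev_zero]
  obtain ⟨I, hI, hmax⟩ := set_has_maximal_iff_noetherian.2 (inferInstance : IsNoetherianRing (Po K)) T hT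
  refine ⟨{a ∈ A | ∀ P ∈ I, ev a P = 0}, fun a ha => ha.1, hI, Set.Infinite.nonempty hI, ?_⟩
  have key : ∀ P : Po K, {a ∈ {a ∈ A | ∀ P ∈ I, ev a P = 0} | ev a P = 0}.Infinite → P ∈ I := by
    intro P hP
    by_contra hPI
    refine hmax (I ⊔ Ideal.span {P}) ?_ ?_
    · change {a ∈ A | ∀ Q ∈ I ⊔ Ideal.span {P}, ev a Q = 0}.Infinite
      refine hP.mono fun a ha => ⟨ha.1.1, fun Q hQ => ?_⟩
      obtain ⟨Q₁, hQ₁, Q₂, hQ₂, rfl⟩ := Submodule.mem_sup.1 hQ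
      obtain ⟨R, rfl⟩ := Ideal.mem_span_singleton'.1 hQ₂
      rw [u06_ev_add, u06_ev_mul, ha.1.2 Q₁ hQ₁, ha.2, mul_zero, add_zero]
    · refine lt_of_le_of_ne le_sup_left fun h => hPI ?_
      rw [h]
      exact Submodule.mem_sup_right (Ideal.mem_span_singleton_self P)
  intro P Q hPQ
  by_contra hcon
  rw [not_or] at hcon
  have h1 : {a ∈ A | ∀ P ∈ I, ev a P = 0} ⊆
      {a ∈ {a ∈ A | ∀ P ∈ I, ev a P = 0} | ev a P = 0} ∪
      {a ∈ {a ∈ A | ∀ P ∈ I, ev a P = 0} | ev a Q = 0} := by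
    intro a ha
    rcases mul_eq_zero.1 (hPQ a ha) with h | h
    · exact Or.inl ⟨ha, h⟩
    · exact Or.inr ⟨ha, h⟩
  rcases Set.infinite_union.1 (Set.Infinite.mono h1 hI) with h | h
  · exact hcon.1 fun a ha => ha.2 P (key P h)
  · exact hcon.2 fun a ha => ha.2 Q (key Q h)

/-- products of irreducible sets are irreducible. Let `ev (a * b) P * ev (a * b) Q = 0` on `A × B`. `ev (a * b) P` is the value at `b` of
a polynomial (substitute `X i ↦ a i * X i`) and also the value at `a` of a polynomial. For each `a ∈ A`, as `B` is irreducible,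
`ev (a * b) P = 0` for all `b ∈ B`, or `ev (a * b) Q = 0` for all `b ∈ B`. If there were `a1, b1` with `ev (a1 * b1) P ≠ 0` and `a2, b2` with
`ev (a2 * b2) Q ≠ 0`, then `ev (a * b1) P * ev (a * b2) Q = 0` for all `a ∈ A`, so one of the factors vanishes on `A`, a
contradiction. -/
theorem irr_mul {A B : Set (Fin 3 → Kˣ)} (hA : Irr A) (hB : Irr B) : Irr (A * B) := by
  refine ⟨hA.1.mul hB.1, fun P Q h => ?_⟩
  by_contra hcon
  rw [not_or] at hcon
  obtain ⟨h1, h2⟩ := hcon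
  push Not at h1 h2
  obtain ⟨_, ⟨a1, ha1, b1, hb1, rfl⟩, h1⟩ := h1
  obtain ⟨_, ⟨a2, ha2, b2, hb2, rfl⟩, h2⟩ := h2
  have h3 : ∀ a ∈ A, ev a (u06_tr b1 P) * ev a (u06_tr b2 Q) = 0 := by
    intro a ha
    rcases hB.2 (u06_tr a P) (u06_tr a Q) (fun b hb => by
      rw [u06_ev_tr, u06_ev_tr]
      exact h _ (Set.mul_mem_mul ha hb)) with h4 | h4
    · have h5 := h4 b1 hb1
      rw [u06_ev_tr, mul_comm] at h5
      rw [u06_ev_tr b1 a, h5, zero_mul]
    · have h5 := h4 b2 hb2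
      rw [u06_ev_tr, mul_comm] at h5
      rw [u06_ev_tr b2 a, h5, mul_zero]
  rcases hA.2 _ _ h3 with h4 | h4
  · have h5 := h4 a1 ha1
    rw [u06_ev_tr, mul_comm] at h5
    exact h1 h5
  · have h5 := h4 a2 ha2
    rw [u06_ev_tr, mul_comm] at h5
    exact h2 h5

theorem u06_single (x : Fin 3 → Kˣ) : Irr ({x} : Set (Fin 3 → Kˣ)) := by
  refine ⟨Set.singleton_nonempty x, fun P Q h => ?_⟩
  rcases mul_eq_zero.1 (h x rfl) with h1 | h1
  · exact Or.inl fun a ha => by rw [Set.mem_singleton_iff.1 ha, h1]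
  · exact Or.inr fun a ha => by rw [Set.mem_singleton_iff.1 ha, h1]

/-- inverses -/
theorem u06_inv {A : Set (Fin 3 → Kˣ)} {v : Fin 3 → Kˣ}
    (hV : ∀ P ∈ u06_I A, u06_tr v P ∈ u06_I A) (h1 : (1 : Fin 3 → Kˣ) ∈ A) : v⁻¹ ∈ Cl A := by
  intro P hP
  have hmono : ∀ n : ℕ, (u06_I A).comap (u06_tr (v ^ n)) ≤ (u06_I A).comap (u06_tr (v ^ (n + 1))) := by
    intro n Q hQ
    rw [Ideal.mem_comap] at hQ ⊢
    rw [pow_succ', ← u06_tr_mul]
    exact hV _ hQ
  obtain ⟨n, hn⟩ := monotone_stabilizes_iff_noetherian.2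
    (inferInstance : IsNoetherian (Po K) (Po K))
    ⟨fun n => (u06_I A).comap (u06_tr (v ^ n)), monotone_nat_of_le_succ hmono⟩
  have h2 : (u06_I A).comap (u06_tr (v ^ n)) = (u06_I A).comap (u06_tr (v ^ (n + 1))) :=
    hn (n + 1) (Nat.le_succ n)
  have h3 : u06_tr ((v ^ (n + 1))⁻¹) P ∈ (u06_I A).comap (u06_tr (v ^ (n + 1))) := by
    rw [Ideal.mem_comap, u06_tr_mul, mul_inv_cancel, u06_tr_one]
    exact hP
  rw [← h2, Ideal.mem_comap, u06_tr_mul] at h3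
  have h4 : v ^ n * (v ^ (n + 1))⁻¹ = v⁻¹ := by
    rw [pow_succ, mul_inv_rev, mul_comm v⁻¹, ← mul_assoc, mul_inv_cancel, one_mul]
  rw [h4] at h3
  have h5 := u06_mem.1 h3 1 h1
  rw [u06_ev_tr, mul_one] at h5
  exact h5

/-- Let `𝒜` be closed under products, subsets and the translations `a⁻¹ A`, `a ∈ A`. Consider the ideals
`I(A) = {P | ∀ a ∈ A, ev a P = 0}` of the irreducible `A ∈ 𝒜` with `1 ∈ A`; they are prime. There is such an `A` (by `hinf`,
`exists_irr` and a translation). By `prime_min` choose `A` with `I(A)` minimal. `V = Cl A`. For every irreducible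
`B ∈ 𝒜` with `1 ∈ B`: `A * B ∈ 𝒜` is irreducible and contains `1` and `A`, so `I(A * B) ≤ I(A)`, so they are equal; as `B ⊆ A * B`, `B ⊆ V`.
So `V` is infinite. For `B = A`: `a * b ∈ V` for `a, b ∈ A`; then (`a` fixed, then `b ∈ V` fixed; translations are polynomial)
`V * V ⊆ V`. Inverses: for `v ∈ V` the map `φ : P ↦ P(v X)` is an automorphism of the polynomial ring with `φ (I(V)) ≤ I(V)`, so
`φ⁻¹ (I(V)) ≥ I(V)`, the chain `φ⁻ⁿ (I(V))` is increasing, so it stabilizes (Noetherian) and `φ (I(V)) = I(V)`; for `P ∈ I(V)`,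
`φ⁻¹ P ∈ I(V)`, so `ev v⁻¹ P = ev 1 (φ⁻¹ P) = 0`. So `v⁻¹ ∈ Cl V = V`. -/
theorem max_irr (𝒜 : Set (Set (Fin 3 → Kˣ))) (hmul : ∀ A ∈ 𝒜, ∀ B ∈ 𝒜, A * B ∈ 𝒜)
    (hsub : ∀ A ∈ 𝒜, ∀ B ⊆ A, B ∈ 𝒜) (htr : ∀ A ∈ 𝒜, ∀ a ∈ A, (fun b => a⁻¹ * b) '' A ∈ 𝒜)
    (hinf : ∃ A ∈ 𝒜, A.Infinite) :
    ∃ V : Subgroup (Fin 3 → Kˣ), (V : Set (Fin 3 → Kˣ)).Infinite ∧
      ∃ A ∈ 𝒜, (V : Set (Fin 3 → Kˣ)) = Cl A := by
  obtain ⟨A₀, hA₀, hinf₀⟩ := hinf
  obtain ⟨B₀, hB₀, hBi, hBI⟩ := exists_irr hinf₀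
  obtain ⟨b₀, hb₀⟩ := hBI.1
  have hB₀' := htr B₀ (hsub A₀ hA₀ B₀ hB₀) b₀ hb₀
  have hB₁ : Irr ((fun b => b₀⁻¹ * b) '' B₀) := by
    have h1 : (fun b => b₀⁻¹ * b) '' B₀ = {b₀⁻¹} * B₀ := (Set.singleton_mul).symm
    rw [h1]
    exact irr_mul (u06_single _) hBI
  have hB₂ : ((fun b => b₀⁻¹ * b) '' B₀).Infinite :=
    hBi.image (fun x _ y _ h => mul_left_cancel h)
  have hB₃ : (1 : Fin 3 → Kˣ) ∈ (fun b => b₀⁻¹ * b) '' B₀ := ⟨b₀, hb₀, inv_mul_cancel b₀⟩
  obtain ⟨_, ⟨A, ⟨hA, hAI, hA1⟩, rfl⟩, hmin⟩ := prime_min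
    (u06_I '' {A | A ∈ 𝒜 ∧ Irr A ∧ (1 : Fin 3 → Kˣ) ∈ A})
    (by
      rintro _ ⟨A, hA, rfl⟩
      exact u06_prime hA.2.1)
    ⟨_, _, ⟨hB₀', hB₁, hB₃⟩, rfl⟩
  -- every such set is in the closure
  have hB : ∀ B ∈ 𝒜, Irr B → (1 : Fin 3 → Kˣ) ∈ B → A * B ⊆ Cl A := by
    intro B hB hBI hB1
    have h1 : A ⊆ A * B := fun a ha => ⟨a, ha, 1, hB1, mul_one a⟩
    have h2 : u06_I (A * B) = u06_I A := by
      refine hmin _ ⟨A * B, ⟨hmul A hA B hB, irr_mul hAI hBI, ⟨1, hA1, 1, hB1, mul_one 1⟩⟩, rfl⟩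
        (u06_anti h1)
    intro t ht
    rw [u06_mem_Cl, ← h2]
    exact fun P hP => hP t ht
  have hV : ∀ v ∈ Cl A, ∀ P ∈ u06_I A, u06_tr v P ∈ u06_I A := by
    intro v hv P hP a ha
    have h1 : u06_tr a P ∈ u06_I A := by
      intro b hb
      rw [u06_ev_tr]
      exact hB A hA hAI hA1 ⟨a, ha, b, hb, rfl⟩ P hP
    have h2 := hv _ h1
    rw [u06_ev_tr] at h2
    rw [u06_ev_tr, mul_comm, h2]
  let V : Subgroup (Fin 3 → Kˣ) :=
    { carrier := Cl A
      mul_mem' := by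
        intro v w hv hw P hP
        rw [← u06_ev_tr]
        exact hw _ (hV v hv P hP)
      one_mem' := u06_sub_Cl A hA1
      inv_mem' := fun {v} hv => u06_inv (hV v hv) hA1 }
  refine ⟨V, ?_, A, hA, rfl⟩
  change (Cl A).Infinite
  refine Set.Infinite.mono ?_ hB₂
  intro b hb
  exact hB _ hB₀' hB₁ hB₃ ⟨1, hA1, b, hb, one_mul b⟩

end AFree
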