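import Pool.Agent.AFree.UDefs

/-!
# MP_e44b8a_al: the coefficients are polynomials in the linear parts (helper90)
-/

namespace AFree

open MvPolynomial (eval constantCoeff)

variable {K : Type} [Field K]

/-- functions on `S` given by polynomials of degree at most `n` without constant coefficient -/
def Gd (S : Subgroup (Gp K)) (n : ℕ) (F : Gp K → K) : Prop :=
  ∃ P : Po K, P.totalDegree ≤ n ∧ constantCoeff P = 0 ∧ ∀ s ∈ S, F s = eval (ch s) P

section

variable {S : Subgroup (Gp K)}

theorem Gd.of_zero {n : ℕ} {F : Gp K → K} (h : ∀ s ∈ S, F s = 0) : Gd S n F :=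
  ⟨0, by rw [MvPolynomial.totalDegree_zero]; exact Nat.zero_le _, map_zero _, fun s hs => by
    rw [h s hs, map_zero]⟩

theorem Gd.add {n : ℕ} {F F' : Gp K → K} (h : Gd S n F) (h' : Gd S n F') :
    Gd S n (fun s => F s + F' s) := by
  obtain ⟨P, h1, h2, h3⟩ := h
  obtain ⟨P', h1', h2', h3'⟩ := h'
  refine ⟨P + P', ?_, by rw [map_add, h2, h2', add_zero], fun s hs => by
    rw [map_add, ← h3 s hs, ← h3' s hs]⟩
  exact (MvPolynomial.totalDegree_add _ _).trans (max_le h1 h1')

theorem Gd.smul {n : ℕ} {F : Gp K → K} (h : Gd S n F) (c : K) : Gd S n (fun s => c * F s) := by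
  obtain ⟨P, h1, h2, h3⟩ := h
  refine ⟨MvPolynomial.C c * P, ?_, by rw [map_mul, h2, mul_zero], fun s hs => by
    rw [map_mul, MvPolynomial.eval_C, ← h3 s hs]⟩
  refine (MvPolynomial.totalDegree_mul _ _).trans ?_
  rw [MvPolynomial.totalDegree_C, zero_add]
  exact h1

theorem Gd.mono {m n : ℕ} (hmn : m ≤ n) {F : Gp K → K} (h : Gd S m F) : Gd S n F := by
  obtain ⟨P, h1, h2, h3⟩ := h
  exact ⟨P, h1.trans hmn, h2, h3⟩

theorem Gd.mul {m n : ℕ} {F F' : Gp K → K} (h : Gd S m F) (h' : Gd S n F') :
    Gd S (m + n) (fun s => F s * F' s) := by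
  obtain ⟨P, h1, h2, h3⟩ := h
  obtain ⟨P', h1', h2', h3'⟩ := h'
  refine ⟨P * P', ?_, by rw [map_mul, h2, zero_mul], fun s hs => by
    rw [map_mul, ← h3 s hs, ← h3' s hs]⟩
  exact (MvPolynomial.totalDegree_mul _ _).trans (Nat.add_le_add h1 h1')

theorem Gd.congr {n : ℕ} {F F' : Gp K → K} (h : Gd S n F) (hF : ∀ s ∈ S, F' s = F s) :
    Gd S n F' := by
  obtain ⟨P, h1, h2, h3⟩ := h
  exact ⟨P, h1, h2, fun s hs => by rw [hF s hs, h3 s hs]⟩

theorem Gd.sum {n : ℕ} {ι : Type} (t : Finset ι) {F : ι → Gp K → K} (h : ∀ i ∈ t, Gd S n (F i)) :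
    Gd S n (fun s => ∑ i ∈ t, F i s) := by
  classical
  induction t using Finset.induction_on with
  | empty => exact Gd.of_zero fun s _ => Finset.sum_empty
  | insert a t ha ih =>
    refine ((h a (Finset.mem_insert_self a t)).add
      (ih fun i hi => h i (Finset.mem_insert_of_mem hi))).congr fun s _ => ?_
    rw [Finset.sum_insert ha]

/-- the statement of the induction -/
def CC (S : Subgroup (Gp K)) (n : ℕ) : Prop :=
  ∀ j z, z.length ≤ n → Gd S z.length (fun s => cf (s (X j)) z)

theorem CC.mon {n : ℕ} (h : CC S n) : ∀ y : List (Fin 3), y ≠ [] → ∀ z : List (Fin 3),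
    z.length ≤ n → Gd S z.length (fun s => cf (s (mon y)) z) := by
  intro y
  induction y with
  | nil => exact fun h1 => absurd rfl h1
  | cons j y ih =>
    intro _ z hz
    by_cases hy : y = []
    · subst hy
      rw [mon_single]
      exact h j z hz
    · refine Gd.congr (F := fun s => ∑ k ∈ Finset.range (z.length + 1),
        cf (s (X j)) (z.take k) * cf (s (AFree.mon y)) (z.drop k)) (Gd.sum _ fun k hk => ?_)
        fun s _ => ?_
      · have h1 : (z.take k).length + (z.drop k).length = z.length := by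
          rw [← List.length_append, List.take_append_drop]
        have h2 := (h j (z.take k) (by omega)).mul (ih hy (z.drop k) (by omega))
        rwa [h1] at h2
      · rw [mon_cons, map_mul, cf_prod]

theorem CC.mon' {n : ℕ} (h : CC S n) (fix0 : ∀ g ∈ S, G0 g) {y : List (Fin 3)}
    (hy : 2 ≤ y.length) {z : List (Fin 3)} (hz : z.length ≤ n + 1) :
    Gd S z.length (fun s => cf (s (AFree.mon y)) z) := by
  cases y with
  | nil => exact absurd hy (by simp)
  | cons j y =>
    have hy' : y ≠ [] := by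
      rintro rfl
      simp at hy
    refine Gd.congr (F := fun s => ∑ k ∈ Finset.range (z.length + 1),
      cf (s (X j)) (z.take k) * cf (s (AFree.mon y)) (z.drop k)) (Gd.sum _ fun k hk => ?_)
      fun s _ => ?_
    · have h1 : (z.take k).length + (z.drop k).length = z.length := by
        rw [← List.length_append, List.take_append_drop]
      by_cases h2 : z.take k = []
      · refine Gd.of_zero fun s hs => ?_
        rw [h2, fix0 s hs j, zero_mul]
      · by_cases h3 : z.drop k = []
        · refine Gd.of_zero fun s hs => ?_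
          have h4 : s (AFree.mon y) ∈ Fl K 1 :=
            (fix0 s hs).map (Fl_anti (List.length_pos_iff.2 hy') (mon_Fl y))
          rw [h3, mem_Fl_one.1 h4, mul_zero]
        · have h4 := List.length_pos_iff.2 h2
          have h5 := List.length_pos_iff.2 h3
          have h6 := (h j (z.take k) (by omega)).mul (h.mon y hy' (z.drop k) (by omega))
          rwa [h1] at h6
    · rw [mon_cons, map_mul, cf_prod]

/-- the leading term of `r` -/
theorem lead_r {r : Gp K} (hr0 : G0 r) {t : Fin 3 → Kˣ} (hr : ∀ i, r (X i) - dg t (X i) ∈ Fl K 2)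
    {n : ℕ} (p : Al K) {v : List (Fin 3)} (hv : v.length = n + 1) :
    cf (r p) v = tw t v * cf p v + ∑ y ∈ Wd (n + 1), cf p y * cf (r (mon y)) v := by
  have h1 := trunc p (n + 1)
  obtain ⟨q, hq⟩ : ∃ q, q = p - ∑ w ∈ Wd (n + 1), cf p w • mon w := ⟨_, rfl⟩
  rw [← hq] at h1
  have h2 := cong hr0.f0 (dg_G0 t).f0 (n := 2) hr (m := n + 1) (by omega) h1
  have h3 := mem_Fl.1 h2 v (by omega)
  rw [cf_sub, sub_eq_zero] at h3
  have h4 : cf (r q) v = tw t v * cf q v := by
    rw [← cf_dg]
    exact h3
  have h5 : cf q v = cf p v := by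
    rw [hq, cf_sub, cf_sum_mon, if_neg, sub_zero]
    rw [mem_Wd]
    omega
  have h6 : p = q + ∑ w ∈ Wd (n + 1), cf p w • mon w := by
    rw [hq]
    abel
  have h7 : cf (r p) v = cf (r q) v + ∑ y ∈ Wd (n + 1), cf p y * cf (r (mon y)) v := by
    conv_lhs => rw [h6]
    rw [map_add, cf_add, map_sum, cf_sum]
    congr 1
    refine Finset.sum_congr rfl fun y _ => ?_
    rw [map_smul, cf_smul]
  rw [h7, h4, h5]

theorem tw_const (u : Kˣ) (w : List (Fin 3)) : tw (fun _ => u) w = (u : K) ^ w.length := by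
  unfold tw
  rw [List.map_const', List.prod_replicate]

end

theorem CC_one {S : Subgroup (Gp K)} (fix0 : ∀ g ∈ S, G0 g)
    (lin : ∀ g ∈ S, ∀ i j, j ≠ i → cf (g (X i)) [j] = 0) : CC S 1 := by
  intro j z hz
  cases z with
  | nil => exact Gd.of_zero fun s hs => fix0 s hs j
  | cons i z =>
    have h1 : z = [] := List.length_eq_zero_iff.1 (by
      rw [List.length_cons] at hz
      omega)
    subst h1
    by_cases hij : i = j
    · subst hij
      refine ⟨MvPolynomial.X i, ?_, MvPolynomial.constantCoeff_X K i, fun s _ => ?_⟩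
      · rw [MvPolynomial.totalDegree_X]
        exact le_rfl
      · rw [MvPolynomial.eval_X]
        rfl
    · exact Gd.of_zero fun s hs => lin s hs j i hij

/-- the coefficients are polynomials in the linear parts -/
theorem exists_P (S : Subgroup (Gp K)) (comm : ∀ g ∈ S, ∀ h ∈ S, g * h = h * g)
    (fix0 : ∀ g ∈ S, G0 g) (lin : ∀ g ∈ S, ∀ i j, j ≠ i → cf (g (X i)) [j] = 0)
    (hr : ∀ N : ℕ, ∃ r ∈ S, ∃ ζ : K, (∀ i, ch r i = ζ) ∧ ∀ k, 1 ≤ k → k ≤ N → ζ ^ k ≠ 1) :
    ∃ P : Fin 3 → List (Fin 3) → Po K, (∀ i v, (P i v).totalDegree ≤ v.length) ∧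
      (∀ i v, constantCoeff (P i v) = 0) ∧
      ∀ s ∈ S, ∀ i v, cf (s (X i)) v = eval (ch s) (P i v) := by
  have hlin2 : ∀ s ∈ S, ∀ i, s (X i) - ch s i • X i ∈ Fl K 2 := by
    intro s hs i
    rw [mem_Fl]
    intro w hw
    rw [cf_sub, cf_smul, cf_X]
    cases w with
    | nil => rw [fix0 s hs i, if_neg (by simp), mul_zero, sub_zero]
    | cons j w =>
      have h1 : w = [] := List.length_eq_zero_iff.1 (by
        rw [List.length_cons] at hw
        omega)
      subst h1
      by_cases hij : j = i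
      · subst hij
        rw [if_pos rfl, mul_one]
        exact sub_self _
      · rw [lin s hs i j hij, if_neg (fun h => hij (List.cons.inj h).1.symm), mul_zero, sub_zero]
  have key : ∀ n, CC S (n + 1) := by
    intro n
    induction n with
    | zero => exact CC_one fix0 lin
    | succ n ih =>
      intro i v hv
      by_cases hvn : v.length ≤ n + 1
      · exact ih i v hvn
      have hvl : v.length = (n + 1) + 1 := by omega
      obtain ⟨r, hrS, ζ, hζ, hζ'⟩ := hr (n + 1)
      have hζ0 : ζ ≠ 0 := by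
        intro h0
        have h1 := hlin2 r hrS 0
        rw [hζ, h0, zero_smul, sub_zero] at h1
        have h2 := (fix0 r hrS).inv.map h1
        rw [inv_ap] at h2
        have h3 := mem_Fl.1 h2 [0] (by simp)
        rw [cf_X_self] at h3
        exact one_ne_zero h3
      obtain ⟨u, hu⟩ : ∃ u : Kˣ, (u : K) = ζ := ⟨Units.mk0 ζ hζ0, rfl⟩
      have hrdg : ∀ i, r (X i) - dg (fun _ => u) (X i) ∈ Fl K 2 := by
        intro i
        rw [dg_X, hu, ← hζ i]
        exact hlin2 r hrS i
      obtain ⟨q, hq⟩ : ∃ q, q = r (X i) - ζ • X i := ⟨_, rfl⟩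
      have hqF : q ∈ Fl K 2 := by
        rw [hq, ← hζ i]
        exact hlin2 r hrS i
      have hrel : ∀ s ∈ S, (ζ ^ v.length - ζ) * cf (s (X i)) v =
          ∑ y ∈ su q, cf q y * cf (s (mon y)) v +
            (-1) * ∑ y ∈ Wd ((n + 1) + 1), cf (s (X i)) y * cf (r (mon y)) v := by
        intro s hs
        have h1 : r (s (X i)) = s (r (X i)) := by
          rw [← mul_ap, comm r hrS s hs, mul_ap]
        have h2 : r (X i) = ζ • X i + q := by
          rw [hq]
          abel
        have h3 : cf (r (s (X i))) v = cf (s (r (X i))) v := by rw [h1]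
        rw [lead_r (fix0 r hrS) hrdg _ hvl, tw_const, hu, h2, map_add, map_smul, cf_add,
          cf_smul] at h3
        have h4 : cf (s q) v = ∑ y ∈ su q, cf q y * cf (s (mon y)) v := by
          conv_lhs => rw [sum_cf q]
          rw [map_sum, cf_sum]
          refine Finset.sum_congr rfl fun y _ => ?_
          rw [map_smul, cf_smul]
        rw [h4] at h3
        linear_combination h3
      have hne : ζ ^ v.length - ζ ≠ 0 := by
        rw [hvl, pow_succ, sub_ne_zero]
        intro h1
        apply hζ' (n + 1) (by omega) le_rfl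
        exact mul_right_cancel₀ hζ0 (by rw [h1, one_mul])
      have hG1 : Gd S v.length (fun s => ∑ y ∈ su q, cf q y * cf (s (mon y)) v) := by
        refine Gd.sum _ fun y hy => ?_
        have hy2 : 2 ≤ y.length := by
          by_contra h1
          exact mem_su.1 hy (mem_Fl.1 hqF y (by omega))
        exact (ih.mon' fix0 hy2 (by omega)).smul _
      have hG2 : Gd S v.length (fun s => ∑ y ∈ Wd ((n + 1) + 1),
          cf (s (X i)) y * cf (r (mon y)) v) := by
        refine Gd.sum _ fun y hy => ?_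
        have hy1 := mem_Wd.1 hy
        refine (((ih i y (by omega)).smul (cf (r (mon y)) v)).mono (by omega)).congr
          fun s _ => mul_comm _ _
      refine ((hG1.add (hG2.smul (-1))).smul (ζ ^ v.length - ζ)⁻¹).congr fun s hs => ?_
      rw [← hrel s hs, ← mul_assoc, inv_mul_cancel₀ hne, one_mul]
  have key' : ∀ i v, Gd S v.length (fun s => cf (s (X i)) v) := fun i v =>
    key v.length i v (Nat.le_succ _)
  choose P h1 h2 h3 using key'
  exact ⟨P, h1, h2, fun s hs i v => h3 i v s hs⟩

end AFree
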