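import Pool.Agent.AFree.UDefs

/-!
# MP_e44b8a_al: composition of the polynomial family, automorphisms of bounded degree, commutation
-/

namespace AFree

open MvPolynomial (eval constantCoeff)

variable {K : Type} [Field K] (E : Setup K)

/-- the endomorphism with the coefficients `P i v` at `w`, truncated at the order `N`; `w : Fin 3 → K` is arbitrary -/
noncomputable def Setup.EE (N : ℕ) (w : Fin 3 → K) : Al K →ₐ[K] Al K :=
  FreeAlgebra.lift K (fun i => ∑ v ∈ Wd N, eval w (E.P i v) • mon v)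

/-! ### polynomial families (auxiliary lemmas for `EE_comp`) -/

/-- polynomial families of elements -/
def u09_Pf (F : (Fin 3 → K) → Al K) : Prop :=
  ∀ v, ∃ Q : Po K, ∀ w, cf (F w) v = eval w Q

theorem u09_const (p : Al K) : u09_Pf (fun _ => p) := by
  intro v
  exact ⟨MvPolynomial.C (cf p v), fun w => (MvPolynomial.eval_C _).symm⟩

theorem u09_add {F F' : (Fin 3 → K) → Al K} (h : u09_Pf F) (h' : u09_Pf F') :
    u09_Pf (fun w => F w + F' w) := by
  intro v
  obtain ⟨Q, hQ⟩ := h v
  obtain ⟨Q', hQ'⟩ := h' v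
  exact ⟨Q + Q', fun w => by rw [cf_add, hQ, hQ', map_add]⟩

theorem u09_smul {F : (Fin 3 → K) → Al K} (h : u09_Pf F) (R : Po K) :
    u09_Pf (fun w => eval w R • F w) := by
  intro v
  obtain ⟨Q, hQ⟩ := h v
  exact ⟨R * Q, fun w => by rw [cf_smul, hQ, map_mul]⟩

theorem u09_csmul {F : (Fin 3 → K) → Al K} (h : u09_Pf F) (c : K) :
    u09_Pf (fun w => c • F w) := by
  intro v
  obtain ⟨Q, hQ⟩ := h v
  exact ⟨MvPolynomial.C c * Q, fun w => by rw [cf_smul, hQ, map_mul, MvPolynomial.eval_C]⟩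

theorem u09_sum {ι : Type} (s : Finset ι) {F : ι → (Fin 3 → K) → Al K} (h : ∀ j ∈ s, u09_Pf (F j)) :
    u09_Pf (fun w => ∑ j ∈ s, F j w) := by
  classical
  induction s using Finset.induction_on with
  | empty =>
    simp only [Finset.sum_empty]
    exact u09_const 0
  | insert a s ha ih =>
    simp only [Finset.sum_insert ha]
    exact u09_add (h a (Finset.mem_insert_self a s))
      (ih fun j hj => h j (Finset.mem_insert_of_mem hj))

theorem u09_mul {F F' : (Fin 3 → K) → Al K} (h : u09_Pf F) (h' : u09_Pf F') :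
    u09_Pf (fun w => F w * F' w) := by
  intro v
  choose Q hQ using h
  choose Q' hQ' using h'
  refine ⟨∑ k ∈ Finset.range (v.length + 1), Q (v.take k) * Q' (v.drop k), fun w => ?_⟩
  rw [cf_prod, map_sum]
  refine Finset.sum_congr rfl fun k _ => ?_
  rw [hQ, hQ', map_mul]

theorem u09_EE (N : ℕ) (p : Al K) : u09_Pf (fun w => E.EE N w p) := by
  induction p using al_induct with
  | hadd p q h1 h2 =>
    simp only [map_add]
    exact u09_add h1 h2
  | hmon v c =>
    simp only [map_smul]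
    refine u09_csmul ?_ c
    induction v with
    | nil =>
      simp only [mon_nil, map_one]
      exact u09_const 1
    | cons i v ih =>
      simp only [mon_cons, map_mul]
      refine u09_mul ?_ ih
      unfold Setup.EE
      simp only [lift_X]
      exact u09_sum _ fun y _ => u09_smul (u09_const _) _

theorem u09_EE_X (N : ℕ) (w : Fin 3 → K) (i : Fin 3) :
    E.EE N w (X i) = ∑ v ∈ Wd N, eval w (E.P i v) • mon v := by
  unfold Setup.EE
  rw [lift_X]

theorem u09_P_nil (i : Fin 3) : E.P i [] = 0 := by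
  have h1 := E.deg i []
  have h2 := E.cst i []
  rw [List.length_nil, Nat.le_zero, MvPolynomial.totalDegree_eq_zero_iff_eq_C] at h1
  rw [h1]
  rw [MvPolynomial.constantCoeff_eq] at h2
  rw [h2, map_zero]

theorem u09_F0 (N : ℕ) (w : Fin 3 → K) : F0 (E.EE N w) := by
  intro i
  rw [u09_EE_X, cf_sum_mon]
  split_ifs
  · rw [u09_P_nil, map_zero]
  · rfl

theorem u09_cong (N : ℕ) {s : Gp K} (hs : s ∈ E.S) (i : Fin 3) :
    E.EE N (ch s) (X i) - (s : Al K →ₐ[K] Al K) (X i) ∈ Fl K N := by
  have h1 := trunc (s (X i)) N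
  have h2 : E.EE N (ch s) (X i) = ∑ w ∈ Wd N, cf (s (X i)) w • mon w := by
    rw [u09_EE_X]
    refine Finset.sum_congr rfl fun v _ => ?_
    rw [E.spec s hs]
  rw [h2, ← Submodule.neg_mem_iff, neg_sub]
  exact h1

theorem u09_ch_mul {s s' : Gp K} (hs : s ∈ E.S) (hs' : s' ∈ E.S) (i : Fin 3) :
    ch (s * s') i = ch s i * ch s' i := by
  unfold ch
  have h1 : s' (X i) - cf (s' (X i)) [i] • X i ∈ Fl K 2 := by
    rw [mem_Fl]
    intro w hw
    rw [cf_sub, cf_smul, ← mon_single, cf_mon]
    rcases w with _ | ⟨j, w⟩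
    · rw [mon_single, E.fix0 s' hs' i, if_neg (by simp), mul_zero, sub_zero]
    · have h2 : w = [] := List.length_eq_zero_iff.1 (by
        rw [List.length_cons] at hw
        omega)
      subst h2
      by_cases hj : j = i
      · subst hj
        rw [if_pos rfl, mul_one, sub_self]
      · rw [mon_single, E.lin s' hs' i j hj, if_neg (by
          intro h
          exact hj (List.cons.inj h).1.symm), mul_zero, sub_zero]
  have h2 := mem_Fl.1 ((E.fix0 s hs).map h1) [i] (by simp)
  rw [map_sub, map_smul, cf_sub, cf_smul, sub_eq_zero] at h2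
  rw [mul_ap, h2, mul_comm]

/-- the identity on the group -/
theorem u09_comp (N : ℕ) {s s' : Gp K} (hs : s ∈ E.S) (hs' : s' ∈ E.S) (i : Fin 3)
    (v : List (Fin 3)) (hv : v.length < N) :
    cf (E.EE N (ch s) (E.EE N (ch s') (X i))) v = eval (ch s * ch s') (E.P i v) := by
  have h1 : E.EE N (ch s) (E.EE N (ch s') (X i)) - s (s' (X i)) ∈ Fl K N := by
    have h2 : E.EE N (ch s) (E.EE N (ch s') (X i)) - s (s' (X i)) =
        E.EE N (ch s) (E.EE N (ch s') (X i) - (s' : Al K →ₐ[K] Al K) (X i)) +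
          (E.EE N (ch s) (s' (X i)) - (s : Al K →ₐ[K] Al K) (s' (X i))) := by
      rw [map_sub]
      change _ = E.EE N (ch s) (E.EE N (ch s') (X i)) - E.EE N (ch s) (s' (X i)) +
        (E.EE N (ch s) (s' (X i)) - s (s' (X i)))
      abel
    rw [h2]
    exact Submodule.add_mem _ ((u09_F0 E N _).map (u09_cong E N hs' i))
      (cong' (u09_F0 E N _) (E.fix0 s hs).f0 (u09_cong E N hs) _)
  have h2 := mem_Fl.1 h1 v hv
  rw [cf_sub, sub_eq_zero] at h2
  have h3 : ch s * ch s' = ch (s * s') := by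
    funext j
    rw [Pi.mul_apply, u09_ch_mul E hs hs']
  rw [h2, h3, ← E.spec _ (E.S.mul_mem hs hs'), mul_ap]

/-- polynomials which agree on the linear parts -/
theorem u09_dense {Q Q' : Po K} (h : ∀ s ∈ E.S, eval (ch s) Q = eval (ch s) Q') : Q = Q' := by
  rw [← sub_eq_zero]
  refine E.dense _ fun s hs => ?_
  rw [map_sub, h s hs, sub_self]

/-- the substitution `X j ↦ w' j * X j` -/
theorem u09_scale (w' : Fin 3 → K) (Q : Po K) : ∃ R : Po K, ∀ w, eval (w * w') Q = eval w R := by
  refine ⟨MvPolynomial.aeval (fun j => MvPolynomial.X j * MvPolynomial.C (w' j)) Q, fun w => ?_⟩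
  induction Q using MvPolynomial.induction_on with
  | C a =>
    rw [MvPolynomial.eval_C, MvPolynomial.algHom_C, MvPolynomial.algebraMap_eq, MvPolynomial.eval_C]
  | add p q hp hq => rw [map_add, map_add, map_add, hp, hq]
  | mul_X p j hp =>
    rw [map_mul, map_mul, map_mul, hp, MvPolynomial.eval_X, MvPolynomial.aeval_X, map_mul,
      MvPolynomial.eval_X, MvPolynomial.eval_C, Pi.mul_apply]

/-- For all `w w'` (as a function of `w`, and as a function of `w'`) the coefficients of `EE N w (EE N w' (X i))` are polynomials: call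
`F : (Fin 3 → K) → Al K` polynomial if for each `v` there is `Q : Po K` with `cf (F w) v = eval w Q` for all `w`; constants, sums, products (`cf_prod`)
and polynomial multiples are polynomial, so `w ↦ EE N w (mon y)` is polynomial. For `w = ch s`, `w' = ch s'`: `s (X i) - EE N w (X i) ∈ Fl K N`
(`trunc`, `E.spec`), `EE N w` fixes the origin (`P i [] = 0` by `deg` and `cst`), so `EE N w (EE N w' (X i)) ≡ s (s' (X i))` modulo `Fl K N`
(`cong'`, `F0.map`), whose coefficients are the `eval (ch (s * s')) (P i v)`, and `ch (s * s') = ch s * ch s'` (linear parts are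
diagonal). So the identity holds for `w, w' ∈ ch S`, hence (`E.dense`, first in `w`, then in `w'`; `w ↦ w * w'` is polynomial) for all `w, w'`. -/
theorem Setup.EE_comp (N : ℕ) (w w' : Fin 3 → K) (i : Fin 3) (v : List (Fin 3)) (hv : v.length < N) :
    cf (E.EE N w (E.EE N w' (X i))) v = eval (w * w') (E.P i v) := by
  have h1 : ∀ s' ∈ E.S, ∀ w : Fin 3 → K,
      cf (E.EE N w (E.EE N (ch s') (X i))) v = eval (w * ch s') (E.P i v) := by
    intro s' hs' w
    obtain ⟨Q, hQ⟩ := u09_EE E N (E.EE N (ch s') (X i)) v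
    obtain ⟨R, hR⟩ := u09_scale (ch s') (E.P i v)
    have h2 : Q = R := u09_dense E fun s hs => by
      rw [← hQ, ← hR]
      exact u09_comp E N hs hs' i v hv
    have h3 := hQ w
    simp only at h3
    rw [h3, hR, h2]
  have h2 : u09_Pf (fun w' => E.EE N w (E.EE N w' (X i))) := by
    simp only [u09_EE_X E N _ i, map_sum, map_smul]
    exact u09_sum _ fun y _ => u09_smul (u09_const _) _
  obtain ⟨Q, hQ⟩ := h2 v
  obtain ⟨R, hR⟩ := u09_scale w (E.P i v)
  have h3 : Q = R := u09_dense E fun s hs => by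
    rw [← hQ, ← hR, mul_comm]
    exact h1 s hs w
  have h4 := hQ w'
  simp only at h4
  rw [h4, h3, mul_comm, hR]

/-- `EE N t = EE (d + 1) t` for `t ∈ HH d`, `N > d` -/
theorem Setup.EE_eq {d N : ℕ} {t : Fin 3 → Kˣ} (ht : t ∈ E.HH d) (hN : d < N) :
    E.EE N (fun i => (t i : K)) = E.EE (d + 1) (fun i => (t i : K)) := by
  apply hom_ext_X
  intro i
  rw [u09_EE_X, u09_EE_X]
  symm
  refine Finset.sum_subset ?_ ?_
  · intro v hv
    rw [mem_Wd] at hv ⊢
    omega
  · intro v _ hv
    rw [mem_Wd] at hv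
    have h1 := ht i v (by omega)
    unfold ev at h1
    rw [h1, zero_smul]

theorem u09_sp_X {d : ℕ} {t : Fin 3 → Kˣ} (ht : t ∈ E.HH d) (N : ℕ) (i : Fin 3) :
    E.EE N (fun i => (t i : K)) (X i) ∈ sp K (fun w => w.length ≤ d) := by
  rw [mem_sp]
  intro v hv
  by_contra h
  apply hv
  rw [u09_EE_X, cf_sum_mon]
  split_ifs
  · exact ht i v (by omega)
  · rfl

theorem u09_sp {d : ℕ} {t : Fin 3 → Kˣ} (ht : t ∈ E.HH d) (N : ℕ) (v : List (Fin 3)) :
    E.EE N (fun i => (t i : K)) (mon v) ∈ sp K (fun w => w.length ≤ d * v.length) := by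
  induction v with
  | nil =>
    rw [mon_nil, map_one, ← mon_nil]
    exact mon_mem_sp (P := fun w => w.length ≤ d * 0) (Nat.zero_le _)
  | cons i v ih =>
    rw [mon_cons, map_mul]
    refine sp_mul (P := fun w => w.length ≤ d) (Q := fun w => w.length ≤ d * v.length) ?_
      (u09_sp_X E ht N i) ih
    intro a b ha hb
    rw [List.length_append, List.length_cons, Nat.mul_add, Nat.mul_one]
    omega

/-- the degree of a composition: for `v.length > d * e` take `N > v.length`, `N > d`, `N > e` in `EE_comp`; `EE N t' (X i)` is a combination of monomials of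
length at most `e`, each `EE N t (X j)` is in the span of the monomials of length at most `d` (`sp K (fun w => w.length ≤ d)`), so
`EE N t (EE N t' (X i))` is in the span of the monomials of length at most `d * e`. -/
theorem Setup.HH_mul {d e : ℕ} {t t' : Fin 3 → Kˣ} (ht : t ∈ E.HH d) (ht' : t' ∈ E.HH e) :
    t * t' ∈ E.HH (d * e) := by
  intro i v hv
  have h1 := E.EE_comp (v.length + 1) (fun i => (t i : K)) (fun i => (t' i : K)) i v (by omega)
  have h2 : ((fun i => (t i : K)) * (fun i => (t' i : K)) : Fin 3 → K) =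
      fun i => ((t * t') i : K) := by
    funext j
    rw [Pi.mul_apply, Pi.mul_apply, Units.val_mul]
  rw [h2] at h1
  unfold ev
  rw [← h1]
  have h3 : E.EE (v.length + 1) (fun i => (t i : K)) (E.EE (v.length + 1) (fun i => (t' i : K)) (X i)) ∈
      sp K (fun w => w.length ≤ d * e) := by
    refine sp_induct (P := fun w => w.length ≤ e)
      (Q := fun p => E.EE (v.length + 1) (fun i => (t i : K)) p ∈ sp K (fun w => w.length ≤ d * e))
      ?_ ?_ ?_ (u09_sp_X E ht' (v.length + 1) i)
    · rw [map_zero]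
      exact Submodule.zero_mem _
    · intro p q _ _ h4 h5
      rw [map_add]
      exact Submodule.add_mem _ h4 h5
    · intro w c hw
      rw [map_smul]
      refine Submodule.smul_mem _ _ ?_
      exact sp_mono (fun y hy => le_trans hy (Nat.mul_le_mul_left d hw)) (u09_sp E ht _ w)
  by_contra h4
  have h5 := mem_sp.1 h3 v h4
  omega

/-- the elements of `S` as members of the polynomial family -/
theorem u09_eq {d : ℕ} {s : Gp K} (hs : s ∈ E.S) {t : Fin 3 → Kˣ} (ht : t ∈ E.HH d)
    (hst : ∀ i, ch s i = t i) : (s : Al K →ₐ[K] Al K) = E.EE (d + 1) (fun i => (t i : K)) := by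
  have h0 : ch s = fun i => (t i : K) := funext hst
  apply hom_ext_X
  intro i
  apply ext_cf
  intro v
  rw [u09_EE_X, cf_sum_mon]
  have h1 : cf ((s : Al K →ₐ[K] Al K) (X i)) v = eval (fun i => (t i : K)) (E.P i v) := by
    rw [← h0]
    exact E.spec s hs i v
  rw [h1]
  split_ifs with h2
  · rfl
  · rw [mem_Wd] at h2
    exact ht i v (by omega)

theorem u09_one (w : Fin 3 → K) (hw : ∀ i, w i = 1) (i : Fin 3) (v : List (Fin 3)) :
    eval w (E.P i v) = cf (X i) v := by
  have h1 := E.spec 1 E.S.one_mem i v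
  rw [one_ap] at h1
  have h2 : ch (1 : Gp K) = w := by
    funext j
    rw [hw]
    unfold ch
    rw [one_ap, cf_X_self]
  rw [h1, h2]

theorem u09_P_X (i : Fin 3) : E.P i [i] = MvPolynomial.X i := by
  refine u09_dense E fun s hs => ?_
  rw [← E.spec s hs, MvPolynomial.eval_X]
  rfl

/-- every element of `S` has bounded degree -/
theorem Setup.exists_HH {s : Gp K} (hs : s ∈ E.S) {t : Fin 3 → Kˣ} (ht : ∀ i, ch s i = t i) :
    ∃ d, t ∈ E.HH d := by
  have h0 : ch s = fun i => (t i : K) := funext ht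
  refine ⟨∑ i, ∑ w ∈ su (s (X i)), w.length, fun i v hv => ?_⟩
  unfold ev
  rw [← h0, ← E.spec s hs]
  by_contra h1
  have h2 : v.length ≤ ∑ w ∈ su (s (X i)), w.length :=
    Finset.single_le_sum (f := fun w : List (Fin 3) => w.length) (fun _ _ => Nat.zero_le _)
      (mem_su.2 h1)
  have h3 : ∑ w ∈ su (s (X i)), w.length ≤ ∑ i, ∑ w ∈ su (s (X i)), w.length :=
    Finset.single_le_sum (f := fun i => ∑ w ∈ su (s (X i)), w.length)
      (fun _ _ => Nat.zero_le _) (Finset.mem_univ i)
  omega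

/-- the linear part determines the element -/
theorem Setup.ch_inj {s s' : Gp K} (hs : s ∈ E.S) (hs' : s' ∈ E.S) (h : ch s = ch s') : s = s' := by
  apply aut_ext
  intro i
  apply ext_cf
  intro v
  rw [E.spec s hs, E.spec s' hs', h]

theorem Setup.ch_mul {s s' : Gp K} (hs : s ∈ E.S) (hs' : s' ∈ E.S) (i : Fin 3) :
    ch (s * s') i = ch s i * ch s' i := u09_ch_mul E hs hs' i

theorem u09_units {s : Gp K} (hs : s ∈ E.S) : ∃ t : Fin 3 → Kˣ, ∀ i, ch s i = t i := by
  have h1 : ∀ i, ch s i * ch s⁻¹ i = 1 := by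
    intro i
    rw [← E.ch_mul hs (E.S.inv_mem hs), mul_inv_cancel]
    unfold ch
    rw [one_ap, cf_X_self]
  exact ⟨fun i => Units.mk0 (ch s i) (left_ne_zero_of_mul_eq_one (h1 i)), fun i => rfl⟩

theorem u09_coef {d e : ℕ} {t t' : Fin 3 → Kˣ} (ht : t ∈ E.HH d) (ht' : t' ∈ E.HH e) (i : Fin 3)
    (v : List (Fin 3)) : cf (E.EE (d + 1) (fun i => (t i : K)) (E.EE (e + 1) (fun i => (t' i : K))
      (X i))) v = eval ((fun i => (t i : K)) * fun i => (t' i : K)) (E.P i v) := by
  rw [← E.EE_eq ht (N := v.length + d + e + 1) (by omega),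
    ← E.EE_eq ht' (N := v.length + d + e + 1) (by omega)]
  exact E.EE_comp _ _ _ i v (by omega)

/-- Let `F = EE (d + 1) t`, `F' = EE (d + 1) t⁻¹`. By `EE_comp` and `EE_eq` all coefficients of `F (F' (X i))` are those at `w = 1 = ch 1`, so by
`E.spec 1` it is `X i`; similarly `F' (F (X i)) = X i`. So `F` is an automorphism `s` (`mk`), with `cf (s (X i)) v = ev t (P i v)` for all `v`. It commutes with
all `s' ∈ E.S` (`s'` is `EE N (ch s')` for large `N` and `EE_comp` is symmetric; `ch s' i ≠ 0`), so `s ∈ E.S` by `E.cent`. The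
coefficient `cf (s (X i)) [i] = ev t (P i [i])`, and `P i [i] = X i` by `E.dense` and `E.spec`. -/
theorem Setup.exists_S {d : ℕ} {t : Fin 3 → Kˣ} (ht : t ∈ E.HH d) (ht' : t⁻¹ ∈ E.HH d) :
    ∃ s ∈ E.S, ∀ i, ch s i = t i := by
  obtain ⟨F, hF⟩ : ∃ F, F = E.EE (d + 1) (fun i => (t i : K)) := ⟨_, rfl⟩
  obtain ⟨F', hF'⟩ : ∃ F', F' = E.EE (d + 1) (fun i => (t⁻¹ i : K)) := ⟨_, rfl⟩
  have h1 : ∀ i, F (F' (X i)) = X i := by
    intro i
    apply ext_cf
    intro v
    rw [hF, hF', u09_coef E ht ht']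
    refine u09_one E _ (fun j => ?_) i v
    rw [Pi.mul_apply, Pi.inv_apply]
    exact Units.mul_inv _
  have h2 : ∀ i, F' (F (X i)) = X i := by
    intro i
    apply ext_cf
    intro v
    rw [hF, hF', u09_coef E ht' ht]
    refine u09_one E _ (fun j => ?_) i v
    rw [Pi.mul_apply, Pi.inv_apply]
    exact Units.inv_mul _
  have hl : ∀ G : Al K →ₐ[K] Al K, FreeAlgebra.lift K (fun i => G (X i)) = G := by
    intro G
    apply hom_ext_X
    intro i
    rw [lift_X]
  obtain ⟨s, hs⟩ : ∃ s : Gp K, ∀ i, s (X i) = F (X i) :=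
    ⟨AFree.mk (fun i => F (X i)) (fun i => F' (X i)) (fun i => by rw [hl, h1]) (fun i => by rw [hl, h2]),
      fun i => AFree.mk_X _ _ _ _ i⟩
  have hsF : ∀ p, s p = F p := by
    have h3 : (s : Al K →ₐ[K] Al K) = F := hom_ext_X hs
    intro p
    exact congrArg (fun G : Al K →ₐ[K] Al K => G p) h3
  have hS : s ∈ E.S := by
    refine E.cent s fun s' hs' => ?_
    obtain ⟨t', ht1⟩ := u09_units E hs'
    obtain ⟨e, he⟩ := E.exists_HH hs' ht1
    have h3 := u09_eq E hs' he ht1
    have h4 : ∀ p, s' p = E.EE (e + 1) (fun i => (t' i : K)) p := fun p =>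
      congrArg (fun G : Al K →ₐ[K] Al K => G p) h3
    apply aut_ext
    intro i
    rw [mul_ap, mul_ap, hsF, hsF, h4, h4, hF]
    apply ext_cf
    intro v
    rw [u09_coef E ht he, u09_coef E he ht, mul_comm]
  refine ⟨s, hS, fun i => ?_⟩
  unfold ch
  rw [hs, hF, u09_EE_X, cf_sum_mon]
  have h3 : ev t (E.P i [i]) = t i := by
    rw [u09_P_X]
    unfold ev
    rw [MvPolynomial.eval_X]
  split_ifs with h4
  · exact h3
  · rw [mem_Wd] at h4
    rw [← h3]
    exact (ht i [i] (by omega)).symm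

/-- `t ∈ HH d` too. For `a ∈ A` and `v` any word, `cf (s (u (X l))) v = cf (u (s (X l))) v` where `ch s = a`; here `u (X l)` is a fixed element, `s (X j) =
∑ y ∈ Wd (d + 1), ev a (P j y) • mon y`; so both sides are values at `a` of polynomials which do not depend on `a` (closure of polynomial
functions under products, as in `EE_comp`); they agree on `A`, so they agree at `t`, and `ch s = t` gives the same formulas. -/
theorem Setup.comm_cl {d : ℕ} {A : Set (Fin 3 → Kˣ)} (hA : A ⊆ E.HH d) (u : Gp K)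
    (hu : ∀ a ∈ A, ∃ s ∈ E.S, (∀ i, ch s i = a i) ∧ s * u = u * s) {s : Gp K} (hs : s ∈ E.S)
    {t : Fin 3 → Kˣ} (ht : t ∈ Cl A) (hst : ∀ i, ch s i = t i) : s * u = u * s := by
  have htd : t ∈ E.HH d := fun i v hv => ht _ fun a ha => hA ha i v hv
  have hp : ∀ (s : Gp K) (hs : s ∈ E.S) (t : Fin 3 → Kˣ), t ∈ E.HH d → (∀ i, ch s i = t i) →
      ∀ p, s p = E.EE (d + 1) (fun i => (t i : K)) p := fun s hs t ht hst p =>
    congrArg (fun G : Al K →ₐ[K] Al K => G p) (u09_eq E hs ht hst)
  apply aut_ext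
  intro l
  apply ext_cf
  intro v
  rw [mul_ap, mul_ap, hp s hs t htd hst, hp s hs t htd hst]
  obtain ⟨Q1, hQ1⟩ := u09_EE E (d + 1) (u (X l)) v
  have h2 : u09_Pf (fun w => u (E.EE (d + 1) w (X l))) := by
    simp only [u09_EE_X E _ _ l, map_sum, map_smul]
    exact u09_sum _ fun y _ => u09_smul (u09_const _) _
  obtain ⟨Q2, hQ2⟩ := h2 v
  have h3 : ev t (Q1 - Q2) = 0 := by
    refine ht _ fun a ha => ?_
    obtain ⟨s', hs', h4, h5⟩ := hu a ha
    have h6 := congrArg (fun g : Gp K => cf (g (X l)) v) h5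
    simp only [mul_ap] at h6
    rw [hp s' hs' a (hA ha) h4, hp s' hs' a (hA ha) h4] at h6
    have h7 := hQ1 (fun i => (a i : K))
    have h8 := hQ2 (fun i => (a i : K))
    simp only at h7 h8
    unfold ev
    rw [map_sub, ← h7, ← h8, h6, sub_self]
  have h7 := hQ1 (fun i => (t i : K))
  have h8 := hQ2 (fun i => (t i : K))
  simp only at h7 h8
  unfold ev at h3
  rw [map_sub, ← h7, ← h8, sub_eq_zero] at h3
  exact h3

end AFree
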