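import Pool.Agent.AFree.UM09

/-!
# MP_e44b8a_al: bounded degree implies diagonalizable
-/

namespace AFree

open MvPolynomial (eval constantCoeff)

variable {K : Type} [Field K] (E : Setup K)

/-- families of elements whose coefficients are polynomials in the parameter -/
def u10_PF (F : K → Al K) : Prop :=
  ∀ v, ∃ Q : Polynomial K, ∀ c, cf (F c) v = Q.eval c

theorem u10_const (a : Al K) : u10_PF (fun _ => a) := by
  intro v
  refine ⟨Polynomial.C (cf a v), fun c => ?_⟩
  rw [Polynomial.eval_C]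

theorem u10_add {F G : K → Al K} (hF : u10_PF F) (hG : u10_PF G) :
    u10_PF (fun c => F c + G c) := by
  intro v
  obtain ⟨Q, hQ⟩ := hF v
  obtain ⟨R, hR⟩ := hG v
  refine ⟨Q + R, fun c => ?_⟩
  rw [cf_add, hQ, hR, Polynomial.eval_add]

theorem u10_smul {F : K → Al K} (q : Polynomial K) (hF : u10_PF F) :
    u10_PF (fun c => q.eval c • F c) := by
  intro v
  obtain ⟨Q, hQ⟩ := hF v
  refine ⟨q * Q, fun c => ?_⟩
  rw [cf_smul, hQ, Polynomial.eval_mul]

theorem u10_mul {F G : K → Al K} (hF : u10_PF F) (hG : u10_PF G) :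
    u10_PF (fun c => F c * G c) := by
  intro v
  choose Q hQ using hF
  choose R hR using hG
  refine ⟨∑ k ∈ Finset.range (v.length + 1), Q (v.take k) * R (v.drop k), fun c => ?_⟩
  rw [cf_prod, Polynomial.eval_finsetSum]
  refine Finset.sum_congr rfl fun k _ => ?_
  rw [Polynomial.eval_mul, hQ, hR]

theorem u10_sum {ι : Type} (s : Finset ι) {F : ι → K → Al K} (hF : ∀ i ∈ s, u10_PF (F i)) :
    u10_PF (fun c => ∑ i ∈ s, F i c) := by
  classical
  induction s using Finset.induction_on with
  | empty =>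
    simp only [Finset.sum_empty]
    exact u10_const 0
  | insert a s ha ih =>
    simp only [Finset.sum_insert ha]
    exact u10_add (hF a (Finset.mem_insert_self a s))
      (ih fun i hi => hF i (Finset.mem_insert_of_mem hi))

theorem u10_lift {U : K → Fin 3 → Al K} (hU : ∀ i, u10_PF (fun c => U c i))
    (w : List (Fin 3)) : u10_PF (fun c => FreeAlgebra.lift K (U c) (mon w)) := by
  induction w with
  | nil =>
    simp only [mon_nil, map_one]
    exact u10_const 1
  | cons i w ih =>
    simp only [mon_cons, map_mul, lift_X]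
    exact u10_mul (hU i) ih

/-- two polynomial families which agree on the units agree at zero -/
theorem u10_eq [Infinite K] {F G : K → Al K} (hF : u10_PF F) (hG : u10_PF G)
    (h : ∀ c : Kˣ, F c = G c) : F 0 = G 0 := by
  apply ext_cf
  intro v
  obtain ⟨Q, hQ⟩ := hF v
  obtain ⟨R, hR⟩ := hG v
  have h1 : Q * Polynomial.X = R * Polynomial.X := by
    apply Polynomial.funext
    intro c
    rw [Polynomial.eval_mul, Polynomial.eval_mul, Polynomial.eval_X]
    by_cases hc : c = 0
    · rw [hc, mul_zero, mul_zero]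
    · rw [← hQ, ← hR]
      have h2 := h (Units.mk0 c hc)
      rw [Units.val_mk0] at h2
      rw [h2]
  have h2 : Q = R := mul_right_cancel₀ Polynomial.X_ne_zero h1
  rw [hQ, hR, h2]

/-- the family with given coefficients -/
noncomputable def u10_S (N : ℕ) (q : List (Fin 3) → Polynomial K) (c : K) : Al K :=
  ∑ v ∈ Wd N, (q v).eval c • mon v

theorem u10_cf (N : ℕ) (q : List (Fin 3) → Polynomial K) (c : K) (v : List (Fin 3)) :
    cf (u10_S N q c) v = if v ∈ Wd N then (q v).eval c else 0 := by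
  unfold u10_S
  exact cf_sum_mon (Wd N) (fun v => (q v).eval c) v

theorem u10_S_PF (N : ℕ) (q : List (Fin 3) → Polynomial K) : u10_PF (u10_S N q) := by
  unfold u10_S
  exact u10_sum _ fun v _ => u10_smul (q v) (u10_const (mon v))

theorem u10_hom (N : ℕ) (q : List (Fin 3) → Polynomial K) {U : K → Fin 3 → Al K}
    (hU : ∀ i, u10_PF (fun c => U c i)) :
    u10_PF (fun c => FreeAlgebra.lift K (U c) (u10_S N q c)) := by
  have h1 : (fun c => FreeAlgebra.lift K (U c) (u10_S N q c)) =
      fun c => ∑ v ∈ Wd N, (q v).eval c • FreeAlgebra.lift K (U c) (mon v) := by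
    funext c
    unfold u10_S
    rw [map_sum]
    refine Finset.sum_congr rfl fun v _ => ?_
    rw [map_smul]
  rw [h1]
  exact u10_sum _ fun v _ => u10_smul (q v) (u10_lift hU v)

theorem u10_gp (N : ℕ) (q : List (Fin 3) → Polynomial K) (s : Gp K) :
    u10_PF (fun c => s (u10_S N q c)) := by
  have h1 : (fun c => s (u10_S N q c)) =
      fun c => ∑ v ∈ Wd N, (q v).eval c • s (mon v) := by
    funext c
    unfold u10_S
    rw [map_sum]
    refine Finset.sum_congr rfl fun v _ => ?_
    rw [map_smul]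
  rw [h1]
  exact u10_sum _ fun v _ => u10_smul (q v) (u10_const (s (mon v)))

/-- the one variable polynomials -/
noncomputable def u10_p (P : Po K) : Polynomial K :=
  MvPolynomial.aeval (fun _ => (Polynomial.X : Polynomial K)) P

theorem u10_p_eval (P : Po K) (c : K) : (u10_p P).eval c = eval (fun _ => c) P := by
  unfold u10_p
  have h : (Polynomial.evalRingHom c).comp
      ((MvPolynomial.aeval (R := K) (fun _ : Fin 3 => (Polynomial.X : Polynomial K))) :
        Po K →+* Polynomial K) = MvPolynomial.eval (fun _ : Fin 3 => c) := by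
    apply MvPolynomial.ringHom_ext
    · intro a
      simp
    · intro i
      simp
  exact congrArg (fun F : Po K →+* K => F P) h

theorem u10_p_zero {P : Po K} (h : constantCoeff P = 0) : (u10_p P).coeff 0 = 0 := by
  rw [Polynomial.coeff_zero_eq_eval_zero, u10_p_eval]
  have h2 := MvPolynomial.eval_zero (R := K) (σ := Fin 3)
  have h3 : (fun _ : Fin 3 => (0 : K)) = 0 := rfl
  rw [h3, h2, h]

theorem u10_p_deg (P : Po K) : (u10_p P).natDegree ≤ P.totalDegree := by
  unfold u10_p
  rw [MvPolynomial.aeval_def, MvPolynomial.eval₂_eq']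
  apply Polynomial.natDegree_sum_le_of_forall_le
  intro m hm
  refine (Polynomial.natDegree_mul_le).trans ?_
  rw [Polynomial.algebraMap_eq, Polynomial.natDegree_C, zero_add]
  refine (Polynomial.natDegree_prod_le _ _).trans ?_
  have h1 := MvPolynomial.le_totalDegree hm
  refine le_trans ?_ h1
  rw [Finsupp.sum_fintype _ _ (fun _ => rfl)]
  refine Finset.sum_le_sum fun i _ => ?_
  refine (Polynomial.natDegree_pow_le).trans ?_
  rw [Polynomial.natDegree_X, mul_one]

theorem u10_div {p : Polynomial K} (h : p.coeff 0 = 0) (c : Kˣ) :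
    p.divX.eval (c : K) = (c⁻¹ : Kˣ).val * p.eval (c : K) := by
  have h1 := congrArg (fun q => Polynomial.eval (c : K) q) (Polynomial.divX_mul_X_add p)
  simp only [Polynomial.eval_add, Polynomial.eval_mul, Polynomial.eval_X, h,
    Polynomial.eval_C, add_zero] at h1
  rw [← h1, mul_comm (Polynomial.eval _ _), ← mul_assoc, Units.inv_mul, one_mul]

theorem u10_refl {p : Polynomial K} {n : ℕ} (h : p.natDegree ≤ n) (c : Kˣ) :
    (p.reflect n).eval (c : K) = (c : K) ^ n * p.eval ((c⁻¹ : Kˣ) : K) := by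
  have hc : (c : K) ≠ 0 := c.ne_zero
  let _ : Invertible ((c⁻¹ : Kˣ) : K) := invertibleOfNonzero (Units.ne_zero _)
  have h1 := Polynomial.eval₂_reflect_mul_pow (RingHom.id K) ((c⁻¹ : Kˣ) : K) n p h
  have h2 : ⅟ ((c⁻¹ : Kˣ) : K) = (c : K) := by
    rw [invOf_eq_inv, Units.val_inv_eq_inv_val, inv_inv]
  rw [h2] at h1
  change Polynomial.eval (c : K) (Polynomial.reflect n p) * ((c⁻¹ : Kˣ) : K) ^ n =
    Polynomial.eval ((c⁻¹ : Kˣ) : K) p at h1
  rw [← h1, Units.val_inv_eq_inv_val, inv_pow]
  field_simp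

theorem u10_tw (c : Kˣ) (v : List (Fin 3)) : tw (fun _ => c) v = (c : K) ^ v.length := by
  unfold tw
  induction v with
  | nil => rw [List.map_nil, List.prod_nil, List.length_nil, pow_zero]
  | cons i v ih => rw [List.map_cons, List.prod_cons, ih, List.length_cons, pow_succ']

/-- (Alexander trick) Now `P i v = 0` for `v.length > D`, so by `exists_S` every `t : Fin 3 → Kˣ` is `ch s` for a unique `s = s_t ∈ E.S`,
`s_t (X i) = ∑ v ∈ Wd (D + 1), ev t (P i v) • mon v`. For `c : Kˣ` let `θ c = s_(c,c,c) * (dg (fun _ => c))⁻¹`: it maps `X i` to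
`c⁻¹ • s_(c,c,c) (X i)`, whose coefficients are `c⁻¹ * eval (fun _ => c) (P i v)`, polynomials in `c` (constant coefficient `0`); and
`(θ c)⁻¹ = dg (fun _ => c) * s_(c⁻¹,c⁻¹,c⁻¹)` maps `X i` to `∑ v, eval (fun _ => c⁻¹) (P i v) * c ^ v.length • mon v`, polynomials in `c` too
(`totalDegree ≤ v.length`). So there are `U V : K → Fin 3 → Al K`, sums over `Wd (D + 1)` with coefficients polynomial in `c : K`, such that
`lift (U c) (V c i) = X i` and `lift (V c) (U c i) = X i` for `c ≠ 0`; both sides have coefficients polynomial in `c`, `K` is infinite, so this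
holds for `c = 0`: `η = mk (U 0) (V 0)` is an automorphism. For `t : Fin 3 → Kˣ` and `c : Kˣ`:
`s_t * θ c = θ c * (dg c * s_t * (dg c)⁻¹)` (`S` is commutative), and `(dg c * s_t * (dg c)⁻¹) (X i)` has the coefficients
`c⁻¹ * c ^ v.length * ev t (P i v)`, polynomial in `c` (`P i [] = 0`), with value at `c = 0` the coefficients of `t i • X i`. So
for `c = 0` we get `s_t (η (X i)) = η (t i • X i)`, that is `η⁻¹ * s_t * η = dg t`. -/
theorem Setup.final [Infinite K] {D : ℕ} (h : ∀ i v, D < v.length → E.P i v = 0) :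
    ∃ η : Gp K, ∀ s ∈ E.S, IsDg (η⁻¹ * s * η) := by
  have hD : ∀ s ∈ E.S, ∀ i v, v ∉ Wd (D + 1) → cf (s (X i)) v = 0 := by
    intro s hs i v hv
    rw [E.spec s hs, h i v, map_zero]
    by_contra h1
    exact hv (mem_Wd.2 (by omega))
  have hH : ∀ t : Fin 3 → Kˣ, t ∈ E.HH D := by
    intro t i v hv
    rw [h i v hv]
    unfold ev
    rw [map_zero]
  choose σ hσ hσ' using fun c : Kˣ => E.exists_S (hH (fun _ => c)) (hH (fun _ => c)⁻¹)
  have hch : ∀ c : Kˣ, ch (σ c) = fun _ => (c : K) := fun c => funext fun i => hσ' c i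
  have h1S : ch (1 : Gp K) = fun _ => (1 : K) := by
    funext i
    unfold ch
    rw [one_ap, ← mon_single, cf_mon_self]
  have hinv : ∀ c : Kˣ, (σ c)⁻¹ = σ c⁻¹ := by
    intro c
    rw [inv_eq_iff_mul_eq_one]
    apply E.ch_inj (E.S.mul_mem (hσ c) (hσ c⁻¹)) E.S.one_mem
    rw [h1S]
    funext i
    rw [E.ch_mul (hσ c) (hσ c⁻¹), hσ', hσ', Units.mul_inv]
  -- the families
  let q : Fin 3 → List (Fin 3) → Polynomial K := fun i v => (u10_p (E.P i v)).divX
  let r : Fin 3 → List (Fin 3) → Polynomial K := fun i v => (u10_p (E.P i v)).reflect v.length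
  let U : K → Fin 3 → Al K := fun c i => u10_S (D + 1) (q i) c
  let V : K → Fin 3 → Al K := fun c i => u10_S (D + 1) (r i) c
  have hU : ∀ i, u10_PF (fun c => U c i) := fun i => u10_S_PF (D + 1) (q i)
  have hV : ∀ i, u10_PF (fun c => V c i) := fun i => u10_S_PF (D + 1) (r i)
  let θ : Kˣ → Gp K := fun c => σ c * (dg (fun _ => c))⁻¹
  have hθ : ∀ (c : Kˣ) i, θ c (X i) = U c i := by
    intro c i
    change (σ c * (dg (fun _ => c))⁻¹) (X i) = u10_S (D + 1) (q i) c
    apply ext_cf
    intro v
    rw [mul_ap, dg_inv, dg_X, map_smul, cf_smul, u10_cf]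
    split_ifs with hv
    · change _ = ((u10_p (E.P i v)).divX).eval (c : K)
      rw [u10_div (u10_p_zero (E.cst i v)), u10_p_eval, E.spec _ (hσ c), hch]
      rfl
    · rw [hD _ (hσ c) i v hv, mul_zero]
  have hθ' : ∀ (c : Kˣ) i, (θ c)⁻¹ (X i) = V c i := by
    intro c i
    change (σ c * (dg (fun _ => c))⁻¹)⁻¹ (X i) = u10_S (D + 1) (r i) c
    apply ext_cf
    intro v
    rw [mul_inv_rev, inv_inv, mul_ap, cf_dg, u10_tw, u10_cf, hinv]
    split_ifs with hv
    · change _ = ((u10_p (E.P i v)).reflect v.length).eval (c : K)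
      rw [u10_refl ((u10_p_deg _).trans (E.deg i v)), u10_p_eval, E.spec _ (hσ c⁻¹), hch]
    · rw [hD _ (hσ c⁻¹) i v hv, mul_zero]
  have hLU : ∀ c : Kˣ, (FreeAlgebra.lift K (U c) : Al K →ₐ[K] Al K) = (θ c : Al K →ₐ[K] Al K) := by
    intro c
    apply hom_ext_X
    intro i
    rw [lift_X]
    exact (hθ c i).symm
  have hLV : ∀ c : Kˣ, (FreeAlgebra.lift K (V c) : Al K →ₐ[K] Al K) =
      ((θ c)⁻¹ : Gp K) := by
    intro c
    apply hom_ext_X
    intro i
    rw [lift_X]
    exact (hθ' c i).symm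
  have hLU' : ∀ (c : Kˣ) (a : Al K), FreeAlgebra.lift K (U c) a = θ c a := by
    intro c a
    rw [hLU c]
    rfl
  have hLV' : ∀ (c : Kˣ) (a : Al K), FreeAlgebra.lift K (V c) a = (θ c)⁻¹ a := by
    intro c a
    rw [hLV c]
    rfl
  have e1 : ∀ i, FreeAlgebra.lift K (U 0) (V 0 i) = X i := by
    intro i
    refine u10_eq (F := fun c => FreeAlgebra.lift K (U c) (V c i)) (G := fun _ => X i)
      (u10_hom (D + 1) (r i) hU) (u10_const _) fun c => ?_
    rw [hLU', ← hθ', ap_inv]
  have e2 : ∀ i, FreeAlgebra.lift K (V 0) (U 0 i) = X i := by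
    intro i
    refine u10_eq (F := fun c => FreeAlgebra.lift K (V c) (U c i)) (G := fun _ => X i)
      (u10_hom (D + 1) (q i) hV) (u10_const _) fun c => ?_
    rw [hLV', ← hθ, inv_ap]
  refine ⟨AFree.mk (U 0) (V 0) e1 e2, fun s hs => ?_⟩
  have hne : ∀ i, ch s i ≠ 0 := by
    intro i h0
    have h3 := E.ch_mul hs (E.S.inv_mem hs) i
    rw [mul_inv_cancel, h1S, h0, zero_mul] at h3
    exact one_ne_zero h3
  let t : Fin 3 → Kˣ := fun i => Units.mk0 (ch s i) (hne i)
  refine ⟨t, ?_⟩
  let w : Fin 3 → List (Fin 3) → Polynomial K := fun i v =>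
    Polynomial.C (cf (s (X i)) v) * Polynomial.X ^ (v.length - 1)
  -- the conjugate
  have hc : ∀ (c : Kˣ) i, (dg (fun _ => c) * s * (dg (fun _ => c))⁻¹) (X i) =
      u10_S (D + 1) (w i) c := by
    intro c i
    apply ext_cf
    intro v
    rw [mul_ap, mul_ap, dg_inv, dg_X, map_smul, map_smul, cf_smul, cf_dg, u10_tw, u10_cf]
    by_cases h0 : v = []
    · subst h0
      have h4 : cf (s (X i)) [] = 0 := E.fix0 s hs i
      rw [h4, mul_zero, mul_zero]
      split_ifs
      · change _ = (Polynomial.C (cf (s (X i)) []) * Polynomial.X ^ (([] : List (Fin 3)).length - 1)).eval (c : K)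
        rw [h4, Polynomial.C_0, zero_mul, Polynomial.eval_zero]
      · rfl
    · split_ifs with hv
      · change _ = (Polynomial.C (cf (s (X i)) v) * Polynomial.X ^ (v.length - 1)).eval (c : K)
        rw [Polynomial.eval_mul, Polynomial.eval_C, Polynomial.eval_pow, Polynomial.eval_X]
        have h5 : v.length = (v.length - 1) + 1 := by
          have := List.length_pos_iff.2 h0
          omega
        change ((c⁻¹ : Kˣ) : K) * _ = _
        conv_lhs => rw [h5, pow_succ']
        rw [mul_assoc, ← mul_assoc ((c⁻¹ : Kˣ) : K), Units.inv_mul, one_mul, mul_comm]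
      · rw [hD _ hs i v hv, mul_zero, mul_zero]
  have hz : ∀ i, u10_S (D + 1) (w i) 0 = (t i : K) • X i := by
    intro i
    apply ext_cf
    intro v
    rw [u10_cf, cf_smul, ← mon_single, cf_mon]
    change _ = ch s i * _
    have h6 : (w i v).eval 0 = cf (s (X i)) v * 0 ^ (v.length - 1) := by
      change (Polynomial.C (cf (s (X i)) v) * Polynomial.X ^ (v.length - 1)).eval 0 = _
      rw [Polynomial.eval_mul, Polynomial.eval_C, Polynomial.eval_pow, Polynomial.eval_X]
    rw [h6]
    match v with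
    | [] =>
      have h9 : ¬ ([i] = ([] : List (Fin 3))) := by simp
      rw [E.fix0 s hs i, zero_mul, if_neg h9, mul_zero]
      split_ifs <;> rfl
    | [j] =>
      rw [List.length_singleton, Nat.sub_self, pow_zero, mul_one]
      by_cases hj : j = i
      · subst hj
        rw [if_pos (rfl : [j] = [j]), mul_one]
        split_ifs with hv
        · rfl
        · exact (hD s hs j [j] hv).symm
      · have h9 : ¬ ([i] = [j]) := by
          intro h7
          exact hj (List.cons.inj h7).1.symm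
        rw [E.lin s hs i j hj, if_neg h9, mul_zero]
        split_ifs <;> rfl
    | j :: k :: v =>
      have h9 : ¬ ([i] = j :: k :: v) := by simp
      have h10 : (0 : K) ^ ((j :: k :: v).length - 1) = 0 := zero_pow (by simp)
      rw [if_neg h9, mul_zero, h10, mul_zero]
      split_ifs <;> rfl
  have key : ∀ i, s (U 0 i) = (t i : K) • U 0 i := by
    intro i
    have h7 := u10_eq (F := fun c => s (U c i))
      (G := fun c => FreeAlgebra.lift K (U c) (u10_S (D + 1) (w i) c))
      (u10_gp (D + 1) (q i) s) (u10_hom (D + 1) (w i) hU) (fun c => by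
        rw [hLU', ← hc, ← hθ, ← mul_ap, ← mul_ap]
        congr 1
        change s * (σ c * (dg (fun _ => c))⁻¹) =
          σ c * (dg (fun _ => c))⁻¹ * (dg (fun _ => c) * s * (dg (fun _ => c))⁻¹)
        rw [← mul_assoc s, E.comm s hs _ (hσ c)]
        group)
    change s (U 0 i) = FreeAlgebra.lift K (U 0) (u10_S (D + 1) (w i) 0) at h7
    rw [h7, hz, map_smul, lift_X]
  apply aut_ext
  intro i
  have h8 : s * AFree.mk (U 0) (V 0) e1 e2 = AFree.mk (U 0) (V 0) e1 e2 * dg t := by
    apply aut_ext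
    intro i
    rw [mul_ap, mul_ap, mk_X, dg_X, map_smul, mk_X]
    exact key i
  rw [mul_assoc, h8, ← mul_assoc, inv_mul_cancel, one_mul]

end AFree
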