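import Pool.Agent.AFree.UDefs
import Pool.Agent.AFree.UM01
import Mathlib.RingTheory.RootsOfUnity.Basic

/-!
# MP_e44b8a_al: the images of the diagonal automorphisms of order `p` have a common fixed point
-/

namespace AFree

variable {K : Type} [Field K]

/-- the translation by `-a` -/
theorem u11_tr (a : Fin 3 → K) : ∃ η : Gp K, (∀ i, η (X i) = X i - a i • 1) ∧
    ∀ q : Al K, cf (η⁻¹ q) [] = MvPolynomial.eval a (ab q) := by
  have h1 : ∀ i, FreeAlgebra.lift K (fun i => X i - a i • (1 : Al K)) ((fun i => X i + a i • (1 : Al K)) i) = X i := by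
    intro i
    rw [map_add, lift_X, map_smul, map_one, sub_add_cancel]
  have h2 : ∀ i, FreeAlgebra.lift K (fun i => X i + a i • (1 : Al K)) ((fun i => X i - a i • (1 : Al K)) i) = X i := by
    intro i
    rw [map_sub, lift_X, map_smul, map_one, add_sub_cancel_right]
  obtain ⟨η, hη⟩ : ∃ η : Gp K, η = mk _ _ h1 h2 := ⟨_, rfl⟩
  have hX : ∀ i, η (X i) = X i - a i • 1 := by
    intro i
    rw [hη, mk_X]
  have hX' : ∀ i, η⁻¹ (X i) = X i + a i • 1 := by
    intro i
    have h3 : η (X i + a i • 1) = X i := by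
      rw [map_add, hX, map_smul, map_one, sub_add_cancel]
    have h4 := congrArg (fun x => η⁻¹ x) h3
    have h5 : η⁻¹ (η (X i + a i • 1)) = η⁻¹ (X i) := h4
    rw [inv_ap] at h5
    exact h5.symm
  refine ⟨η, hX, fun q => ?_⟩
  have h3 : (AFree.ep (K := K)).comp ((η⁻¹ : Gp K) : Al K →ₐ[K] Al K) =
      (MvPolynomial.aeval (R := K) a).comp ab := by
    apply hom_ext_X
    intro i
    change AFree.ep (η⁻¹ (X i)) = MvPolynomial.aeval (R := K) a (ab (X i))
    rw [hX', ab_X, MvPolynomial.aeval_X, map_add, map_smul, map_one, ep_eq, mem_Fl_one.1 (X_Fl i), zero_add,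
      smul_eq_mul, mul_one]
  have h4 := congrArg (fun F : Al K →ₐ[K] K => F q) h3
  have h5 : AFree.ep (η⁻¹ q) = MvPolynomial.aeval (R := K) a (ab q) := h4
  rw [ep_eq, MvPolynomial.aeval_eq_eval] at h5
  exact h5

/-- Apply `fix_point` to the group `M = Fin 3 → rootsOfUnity p K` (finite, every element has order dividing `p`), or to the subgroup of the `t` with `t ^ p = 1`,
and `f t i = ab (Φ (dg t) (X i))`: `f (t * t') i = bind₁ (f t) (f t' i)` by `pa_ab` (`pa g = aeval _ = bind₁ _`), `f 1 i = X i`. Let `a` be the fixed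
point and `η` the automorphism with `η (X i) = X i - a i • 1`, `η⁻¹ (X i) = X i + a i • 1` (`mk`). Then `cf (η⁻¹ p) [] = eval a (ab p)` for all `p`
(two algebra homomorphisms, `ep_eq`), so `cf ((η⁻¹ * s * η) (X i)) [] = eval a (ab (s (X i - a i • 1))) = a i - a i = 0`. -/
theorem fix_mu [IsAlgClosed K] {p : ℕ} [Fact p.Prime] (hp : (p : K) ≠ 0) (Φ : Gp K ≃* Gp K) :
    ∃ η : Gp K, ∀ t : Fin 3 → Kˣ, t ^ p = 1 → G0 (η⁻¹ * Φ (dg t) * η) := by
  have : NeZero p := ⟨(Fact.out : p.Prime).ne_zero⟩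
  have hM : IsPGroup p (Fin 3 → rootsOfUnity p K) := by
    intro m
    refine ⟨1, ?_⟩
    funext j
    rw [pow_one, Pi.pow_apply, Pi.one_apply]
    apply Subtype.ext
    rw [Subgroup.coe_pow, Subgroup.coe_one]
    exact (mem_rootsOfUnity p (m j : Kˣ)).1 (m j).2
  obtain ⟨a, ha⟩ := fix_point hp hM (fun m i => ab (Φ (dg (fun j => (m j : Kˣ))) (X i))) (by
    intro i
    have h1 : (fun j => (((1 : Fin 3 → rootsOfUnity p K) j : rootsOfUnity p K) : Kˣ)) = 1 := rfl
    show ab (Φ (dg (fun j => (((1 : Fin 3 → rootsOfUnity p K) j : rootsOfUnity p K) : Kˣ))) (X i)) = _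
    rw [h1, dg_one, map_one, one_ap, ab_X]) (by
    intro g h i
    have h1 : (fun j => (((g * h) j : rootsOfUnity p K) : Kˣ)) =
        (fun j => ((g j : rootsOfUnity p K) : Kˣ)) * (fun j => ((h j : rootsOfUnity p K) : Kˣ)) := rfl
    show ab (Φ (dg (fun j => (((g * h) j : rootsOfUnity p K) : Kˣ))) (X i)) = _
    rw [h1, ← dg_mul, map_mul, mul_ap, ← pa_ab]
    rfl)
  obtain ⟨η, hη, hη'⟩ := u11_tr a
  refine ⟨η, fun t ht i => ?_⟩
  have hroot : ∀ j, t j ∈ rootsOfUnity p K := by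
    intro j
    rw [mem_rootsOfUnity]
    exact congrFun ht j
  have h1 := ha (fun j => ⟨t j, hroot j⟩) i
  have h2 : MvPolynomial.eval a (ab (Φ (dg t) (X i))) = a i := h1
  rw [mul_ap, mul_ap, hη, hη', map_sub, map_smul, map_one, map_sub, map_smul, map_one, map_sub, h2,
    MvPolynomial.smul_eval, map_one, mul_one, sub_self]

end AFree
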