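import Pool.Agent.AFree.UDefs
import Pool.Agent.AFree.UM02
import Pool.Agent.AFree.UM03

/-!
# MP_e44b8a_al: images of diagonal automorphisms: linear parts (helper12 for helper90)
-/

namespace AFree

variable {K : Type} [Field K]

private theorem u12_X (i : Fin 3) : X (K := K) i = emb (Pi.single i 1) := by
  rw [emb_ap, Finset.sum_eq_single i]
  · rw [Pi.single_eq_same, one_smul]
  · intro j _ hj
    rw [Pi.single_eq_of_ne hj, zero_smul]
  · exact fun h => absurd (Finset.mem_univ i) h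

private theorem u12_Lg (g : Gp K) (i j : Fin 3) : Lg g (Pi.single i 1) j = cf (g (X i)) [j] := by
  rw [Lg_ap, ← u12_X]

private theorem u12_Fl_of {n : ℕ} {m : K} (hm : m ≠ 0) {a : Al K} (h : m • a ∈ Fl K n) :
    a ∈ Fl K n := by
  have h1 := Submodule.smul_mem (Fl K n) m⁻¹ h
  rwa [smul_smul, inv_mul_cancel₀ hm, one_smul] at h1

private theorem u12_step {g : Gp K} (h0 : G0 g) {n : ℕ} (hn : 2 ≤ n)
    (H : ∀ i, g (X i) - X i ∈ Fl K n) (i : Fin 3) (k : ℕ) :
    (g ^ k) (X i) - X i - k • (g (X i) - X i) ∈ Fl K (n + 1) := by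
  induction k with
  | zero =>
    rw [pow_zero, one_ap, zero_smul, sub_self, sub_self]
    exact Submodule.zero_mem _
  | succ k ih =>
    obtain ⟨d, hd⟩ : ∃ d, d = g (X i) - X i := ⟨_, rfl⟩
    obtain ⟨e, he⟩ : ∃ e, e = (g ^ k) (X i) - X i - k • (g (X i) - X i) := ⟨_, rfl⟩
    rw [← he] at ih
    rw [← hd] at he ⊢
    have h1 : (g ^ k) (X i) = X i + k • d + e := by
      rw [he]
      abel
    have h2 : g d - d ∈ Fl K (n + 1) := by
      have h3 := cong (F := (g : Al K →ₐ[K] Al K)) (F' := AlgHom.id K (Al K)) h0.f0 F0.id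
        (n := n) H (m := n) (by omega) (p := d) (by rw [hd]; exact H i)
      exact Fl_anti (by omega) h3
    have h3 : (g ^ (k + 1)) (X i) - X i - (k + 1) • d = k • (g d - d) + g e := by
      rw [pow_succ', mul_ap, h1, map_add, map_add, map_nsmul, add_smul, one_smul, smul_sub]
      have h4 : g (X i) = d + X i := by
        rw [hd]
        abel
      rw [h4]
      abel
    rw [h3]
    exact Submodule.add_mem _ (Submodule.smul_of_tower_mem _ k h2) (h0.map ih)

/-- an automorphism of finite order prime to the characteristic which fixes the origin is determined by its linear part: let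
`g ≠ 1`; there is a least `n` such that some `g (X i) - X i ∉ Fl K (n + 1)`; `n ≥ 2` as `G0 g`, `Lg g = 1`, and all `g (X i) - X i ∈ Fl K n`. Then
`g ^ k (X i) - X i - k • (g (X i) - X i) ∈ Fl K (n + 1)` by induction on `k` (`cong` with `m = n ≥ 2`), and `k = m` gives
`m • (g (X i) - X i) ∈ Fl K (n + 1)`, a contradiction. -/
theorem unip_torsion {g : Gp K} (h0 : G0 g) (h1 : Lg g = 1) {m : ℕ} (hm : (m : K) ≠ 0) (hg : g ^ m = 1) :
    g = 1 := by
  have key : ∀ n, 2 ≤ n → ∀ i, g (X i) - X i ∈ Fl K n := by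
    intro n hn
    induction n, hn using Nat.le_induction with
    | base =>
      intro i
      rw [mem_Fl]
      intro w hw
      rw [cf_sub]
      cases w with
      | nil =>
        rw [h0 i, mem_Fl_one.1 (X_Fl i), sub_zero]
      | cons j w =>
        have h2 : w = [] := List.length_eq_zero_iff.1 (by
          rw [List.length_cons] at hw
          omega)
        rw [h2, ← u12_Lg, h1, Module.End.one_apply, u12_X, cf_emb, sub_self]
    | succ n hn ih =>
      intro i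
      have h2 := u12_step h0 hn ih i m
      rw [hg, one_ap, sub_self, zero_sub] at h2
      have h3 := Submodule.neg_mem _ h2
      rw [neg_neg, ← Nat.cast_smul_eq_nsmul K] at h3
      exact u12_Fl_of hm h3
  apply aut_ext
  intro i
  rw [one_ap, ← sub_eq_zero]
  apply ext_cf
  intro w
  rw [cf_zero]
  exact mem_Fl.1 (key (w.length + 2) (by omega) i) w (by omega)

private theorem u12_mul {Φ : Gp K ≃* Gp K} {s : Fin 3 → Kˣ} (hs : G0 (Φ (dg s)))
    (t : Fin 3 → Kˣ) : Lg (Φ (dg s)) * Lg (Φ (dg t)) = Lg (Φ (dg (s * t))) := by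
  rw [← dg_mul, map_mul, Lg_mul' hs]

private theorem u12_dg_pow (t : Fin 3 → Kˣ) (n : ℕ) : (dg t) ^ n = dg (t ^ n) := by
  induction n with
  | zero => rw [pow_zero, pow_zero, dg_one]
  | succ n ih => rw [pow_succ, pow_succ, ih, dg_mul]

private theorem u12_inj {Φ : Gp K ≃* Gp K} {t : Fin 3 → Kˣ} {m : ℕ} (hm : (m : K) ≠ 0)
    (ht : t ^ m = 1) (h0 : G0 (Φ (dg t))) (h1 : Lg (Φ (dg t)) = 1) : t = 1 := by
  have h2 : (Φ (dg t)) ^ m = 1 := by
    rw [← map_pow, u12_dg_pow, ht, dg_one, map_one]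
  have h3 := unip_torsion h0 h1 hm h2
  rw [← map_one Φ] at h3
  have h4 := Φ.injective h3
  rw [← dg_one] at h4
  exact dg_inj h4

private theorem u12_ti_pow (k : Fin 3) (u : Kˣ) (n : ℕ) : (ti k u) ^ n = ti k (u ^ n) := by
  funext l
  rw [Pi.pow_apply]
  unfold ti
  split_ifs
  · rfl
  · rw [one_pow]

/-- the basis of eigenvectors: apply `simdiag_p` to `J k = Lg (Φ (dg (ti k ω)))`, `ω` a primitive `p`-th root of unity (`ti k u` is in
`Pool/Agent/AFree/Perm.lean` or `Weight.lean`); `Lg` is multiplicative on these by `Lg_mul'`; the condition `hn`: a nontrivial product is `Lg (Φ (dg t))` with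
`t ^ p = 1`, `t ≠ 1`, so it is not `1` by `unip_torsion` and the injectivity of `Φ` and `dg` (`dg_inj`). Compare the proof of `simlin` in
`Pool/Agent/AFree/LinIm.lean`. -/
theorem eig_basis [IsAlgClosed K] {p : ℕ} [Fact p.Prime] (hp : (p : K) ≠ 0) (Φ : Gp K ≃* Gp K)
    (h : ∀ t : Fin 3 → Kˣ, t ^ p = 1 → G0 (Φ (dg t))) :
    ∃ b : Fin 3 → (Fin 3 → K), LinearIndependent K b ∧
      (∀ a, ∃ t : Fin 3 → Kˣ, t ^ p = 1 ∧ ∃ c : K, c ≠ 1 ∧ Lg (Φ (dg t)) (b a) = c • b a) ∧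
      ∀ M : Module.End K (Fin 3 → K), (∀ t : Fin 3 → Kˣ, t ^ p = 1 →
        M * Lg (Φ (dg t)) = Lg (Φ (dg t)) * M) → ∀ a, ∃ m : K, M (b a) = m • b a := by
  haveI : NeZero (p : K) := ⟨hp⟩
  obtain ⟨ζ, hζ⟩ := HasEnoughRootsOfUnity.exists_primitiveRoot K p
  have hp0 : p ≠ 0 := (Fact.out : p.Prime).ne_zero
  obtain ⟨ω, hω⟩ : ∃ ω : Kˣ, (ω : K) = ζ := ⟨Units.mk0 ζ (hζ.ne_zero hp0), rfl⟩
  have hωp : ω ^ p = 1 := by
    apply Units.ext
    rw [Units.val_pow_eq_pow_val, hω, hζ.pow_eq_one, Units.val_one]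
  have hti : ∀ (k : Fin 3) (n : ℕ), (ti k ω ^ n) ^ p = 1 := by
    intro k n
    rw [← pow_mul, mul_comm, pow_mul, u12_ti_pow, hωp, ti_one, one_pow]
  have hone : Lg (Φ (dg 1)) = 1 := by
    rw [dg_one, map_one, Lg_one]
  obtain ⟨J, hJ⟩ : ∃ J : Fin 3 → Module.End K (Fin 3 → K), J = fun k => Lg (Φ (dg (ti k ω))) :=
    ⟨_, rfl⟩
  have hJp : ∀ (k : Fin 3) (n : ℕ), J k ^ n = Lg (Φ (dg (ti k ω ^ n))) := by
    intro k n
    induction n with
    | zero => rw [pow_zero, pow_zero, hone]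
    | succ n ih =>
      rw [pow_succ, ih, hJ]
      simp only
      rw [u12_mul (h _ (hti k n)), pow_succ]
  have hti1 : ∀ k : Fin 3, (ti k ω) ^ p = 1 := by
    intro k
    have h1 := hti k 1
    rwa [pow_one] at h1
  have hc : ∀ a b, J a * J b = J b * J a := by
    intro a b
    rw [hJ]
    simp only
    rw [u12_mul (h _ (hti1 a)), u12_mul (h _ (hti1 b)), mul_comm]
  have hJ1 : ∀ a, J a ^ p = 1 := by
    intro a
    rw [hJp, hti1, hone]
  have hn : ∀ n : Fin 3 → Fin p, (∃ k, (n k : ℕ) ≠ 0) →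
      J 0 ^ (n 0 : ℕ) * J 1 ^ (n 1 : ℕ) * J 2 ^ (n 2 : ℕ) ≠ 1 := by
    rintro n ⟨k, hk⟩ h1
    have h2 : (ti 0 ω ^ (n 0 : ℕ) * ti 1 ω ^ (n 1 : ℕ)) ^ p = 1 := by
      rw [mul_pow, hti, hti, one_mul]
    have h3 : (ti 0 ω ^ (n 0 : ℕ) * ti 1 ω ^ (n 1 : ℕ) * ti 2 ω ^ (n 2 : ℕ)) ^ p = 1 := by
      rw [mul_pow, h2, hti, one_mul]
    rw [hJp, hJp, hJp, u12_mul (h _ (hti 0 _)), u12_mul (h _ h2)] at h1
    have h4 := u12_inj hp h3 (h _ h3) h1
    have h5 := congrFun h4 k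
    have h6 : (ti 0 ω ^ (n 0 : ℕ) * ti 1 ω ^ (n 1 : ℕ) * ti 2 ω ^ (n 2 : ℕ) : Fin 3 → Kˣ) k
        = ω ^ (n k : ℕ) := by
      rw [Pi.mul_apply, Pi.mul_apply, u12_ti_pow, u12_ti_pow, u12_ti_pow]
      unfold ti
      fin_cases k <;> simp
    rw [h6, Pi.one_apply] at h5
    have h7 : ζ ^ (n k : ℕ) = 1 := by
      rw [← hω, ← Units.val_pow_eq_pow_val, h5, Units.val_one]
    have h8 := Nat.le_of_dvd (Nat.pos_of_ne_zero hk) ((hζ.pow_eq_one_iff_dvd _).1 h7)
    exact absurd (n k).2 (by omega)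
  obtain ⟨b, hb, hb1, hM⟩ := simdiag_p hp (by rw [Module.finrank_fintype_fun_eq_card, Fintype.card_fin])
    hc hJ1 hn
  refine ⟨b, hb, fun a => ?_, fun M hMc a => ?_⟩
  · obtain ⟨k, c, hc1, hk⟩ := hb1 a
    rw [hJ] at hk
    exact ⟨ti k ω, hti1 k, c, hc1, hk⟩
  · refine hM M (fun k => ?_) a
    rw [hJ]
    exact hMc _ (hti1 k)

/-- The linear automorphism `η` with `η (X a) = emb (b a)` (`exists_lin`), see the end of the proof of `simlin` in
`Pool/Agent/AFree/LinIm.lean`. Here `Φ (dg t)` is not linear but fixes the origin, and `Lg (η⁻¹ * g * η) = Lg η⁻¹ * Lg g * Lg η` by `Lg_mul'`. -/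
theorem lin_diag [IsAlgClosed K] {p : ℕ} [Fact p.Prime] (hp : (p : K) ≠ 0) (Φ : Gp K ≃* Gp K)
    (h : ∀ t : Fin 3 → Kˣ, G0 (Φ (dg t))) :
    ∃ η : Gp K, ∀ t : Fin 3 → Kˣ, G0 (η⁻¹ * Φ (dg t) * η) ∧
      ∀ i j, j ≠ i → cf ((η⁻¹ * Φ (dg t) * η) (X i)) [j] = 0 := by
  obtain ⟨b, hb, _, hM⟩ := eig_basis hp Φ (fun t _ => h t)
  have hdet : (Matrix.of b).det ≠ 0 := by
    intro h0
    obtain ⟨v, hv, h1⟩ := Matrix.exists_vecMul_eq_zero_iff.2 h0
    apply hv
    funext i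
    refine Fintype.linearIndependent_iff.1 hb v ?_ i
    funext j
    rw [Finset.sum_apply]
    exact congrFun h1 j
  obtain ⟨η, hη⟩ := exists_lin (Matrix.of b) hdet
  have hηb : ∀ a, η (X a) = emb (b a) := fun a => hη a
  have hη0 : G0 η := by
    intro i
    rw [hηb]
    by_contra h1
    exact absurd (cf_emb_ne _ h1) (by simp)
  have hηL : ∀ i, Lg η (Pi.single i 1) = b i := by
    intro i
    funext j
    rw [u12_Lg, hηb, cf_emb]
  have hinv : Lg η⁻¹ * Lg η = 1 := by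
    rw [← Lg_mul' hη0.inv, inv_mul_cancel, Lg_one]
  have hinvb : ∀ i, Lg η⁻¹ (b i) = Pi.single i 1 := by
    intro i
    rw [← hηL, ← Module.End.mul_apply, hinv, Module.End.one_apply]
  refine ⟨η, fun t => ⟨(hη0.inv.mul (h t)).mul hη0, fun i j hij => ?_⟩⟩
  obtain ⟨m, hm⟩ := hM (Lg (Φ (dg t))) (fun s _ => by
    rw [u12_mul (h t), u12_mul (h s), mul_comm]) i
  rw [← u12_Lg, Lg_mul' (hη0.inv.mul (h t)), Lg_mul' hη0.inv, Module.End.mul_apply,
    Module.End.mul_apply, hηL, hm, map_smul, hinvb, Pi.smul_apply, Pi.single_eq_of_ne hij, smul_zero]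

/-- `ch (Φ (dg t))` for `t ^ m = 1`, `m = p ^ N`: the map `t ↦ ch (Φ (dg t))` is multiplicative (diagonal linear parts), so its values satisfy `u ^ m = 1`, and it is
injective on the finite set `{t | t ^ m = 1}` by `unip_torsion`; so it is surjective onto the triples of units `u` with `u ^ m = 1`. -/
theorem tors_surj {p : ℕ} [Fact p.Prime] (hp : (p : K) ≠ 0) (Φ : Gp K ≃* Gp K)
    (h : ∀ t : Fin 3 → Kˣ, G0 (Φ (dg t)))
    (hl : ∀ t : Fin 3 → Kˣ, ∀ i j, j ≠ i → cf (Φ (dg t) (X i)) [j] = 0) (N : ℕ) (u : Fin 3 → Kˣ)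
    (hu : u ^ (p ^ N) = 1) : ∃ t : Fin 3 → Kˣ, t ^ (p ^ N) = 1 ∧ ∀ i, ch (Φ (dg t)) i = u i := by
  have hL : ∀ t i, Lg (Φ (dg t)) (Pi.single i 1) = ch (Φ (dg t)) i • Pi.single i 1 := by
    intro t i
    funext j
    rw [u12_Lg, Pi.smul_apply, smul_eq_mul]
    by_cases hij : j = i
    · subst hij
      rw [Pi.single_eq_same, mul_one]
      rfl
    · rw [hl t i j hij, Pi.single_eq_of_ne hij, mul_zero]
  have hmul : ∀ s t i, ch (Φ (dg (s * t))) i = ch (Φ (dg s)) i * ch (Φ (dg t)) i := by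
    intro s t i
    have h1 := hL (s * t) i
    rw [← u12_mul (h s), Module.End.mul_apply, hL t i, map_smul, hL s i, smul_smul] at h1
    have h2 := congrFun h1 i
    rw [Pi.smul_apply, Pi.smul_apply, Pi.single_eq_same, smul_eq_mul, smul_eq_mul, mul_one,
      mul_one] at h2
    rw [← h2, mul_comm]
  have hone : ∀ i, ch (Φ (dg 1)) i = 1 := by
    intro i
    rw [dg_one, map_one]
    unfold ch
    rw [one_ap, cf_X_self]
  have hne : ∀ t i, ch (Φ (dg t)) i ≠ 0 := by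
    intro t i h1
    have h2 := hmul t t⁻¹ i
    rw [mul_inv_cancel, hone, h1, zero_mul] at h2
    exact one_ne_zero h2
  obtain ⟨f, hf⟩ : ∃ f : (Fin 3 → Kˣ) →* (Fin 3 → Kˣ), ∀ t i, (f t i : K) = ch (Φ (dg t)) i := by
    refine ⟨{ toFun := fun t i => Units.mk0 (ch (Φ (dg t)) i) (hne t i), map_one' := ?_, map_mul' := ?_ },
      fun t i => rfl⟩
    · funext i
      apply Units.ext
      exact hone i
    · intro s t
      funext i
      apply Units.ext
      exact hmul s t i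
  have hm : ((p ^ N : ℕ) : K) ≠ 0 := by
    rw [Nat.cast_pow]
    exact pow_ne_zero _ hp
  have hm0 : p ^ N ≠ 0 := pow_ne_zero _ (Fact.out : p.Prime).ne_zero
  haveI : NeZero (p ^ N) := ⟨hm0⟩
  have hfin : Finite {t : Fin 3 → Kˣ // t ^ (p ^ N) = 1} := by
    refine Finite.of_injective (β := Fin 3 → rootsOfUnity (p ^ N) K)
      (fun t i => ⟨t.1 i, (mem_rootsOfUnity _ _).2 (congrFun t.2 i)⟩) ?_
    intro s t hst
    apply Subtype.ext
    funext i
    exact congrArg Subtype.val (congrFun hst i)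
  have hinj : Function.Injective (fun t : {t : Fin 3 → Kˣ // t ^ (p ^ N) = 1} =>
      (⟨f t.1, by rw [← map_pow, t.2, map_one]⟩ : {t : Fin 3 → Kˣ // t ^ (p ^ N) = 1})) := by
    intro s t hst
    apply Subtype.ext
    have h1 : f s.1 = f t.1 := congrArg Subtype.val hst
    have h2 : f (s.1 * t.1⁻¹) = 1 := by
      rw [map_mul, h1, ← map_mul, mul_inv_cancel, map_one]
    have h3 : Lg (Φ (dg (s.1 * t.1⁻¹))) = 1 := by
      apply LinearMap.pi_ext'
      intro i
      apply LinearMap.ext_ring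
      rw [LinearMap.comp_apply, LinearMap.comp_apply, LinearMap.single_apply, hL, ← hf, h2,
        Pi.one_apply, Units.val_one, one_smul, Module.End.one_apply]
    have h4 := u12_inj (Φ := Φ) (t := s.1 * t.1⁻¹) hm (by
      rw [mul_pow, s.2, inv_pow, t.2, inv_one, one_mul]) (h _) h3
    exact mul_inv_eq_one.1 h4
  obtain ⟨t, ht⟩ := (Finite.injective_iff_surjective.1 hinj) ⟨u, hu⟩
  refine ⟨t.1, t.2, fun i => ?_⟩
  rw [← hf]
  exact congrArg (fun v : Fin 3 → Kˣ => (v i : K)) (congrArg Subtype.val ht)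

end AFree
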