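import Pool.Agent.AFree.UM12

/-!
# MP_e44b8a_al: all images of diagonal automorphisms fix the same point (helper9 for helper90)
-/

namespace AFree

variable {K : Type} [Field K]

/-- the automorphism of the commutative polynomial ring, as an equivalence -/
noncomputable def u12_E (g : Gp K) : Po K ≃ₐ[K] Po K :=
  AlgEquiv.ofAlgHom (pa g) (pa g⁻¹)
    (AlgHom.ext fun P => by rw [AlgHom.comp_apply, ← pa_mul, mul_inv_cancel, pa_one, AlgHom.id_apply])
    (AlgHom.ext fun P => by rw [AlgHom.comp_apply, ← pa_mul, inv_mul_cancel, pa_one, AlgHom.id_apply])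

theorem u12_E_ap (g : Gp K) (P : Po K) : u12_E g P = pa g P := rfl

theorem u12_E_pow (g : Gp K) (n : ℕ) : u12_E g ^ n = u12_E (g ^ n) := by
  induction n with
  | zero =>
    rw [pow_zero, pow_zero]
    apply AlgEquiv.ext
    intro P
    rw [u12_E_ap, pa_one]
    rfl
  | succ n ih =>
    rw [pow_succ, ih, pow_succ]
    apply AlgEquiv.ext
    intro P
    rw [u12_E_ap, pa_mul]
    rfl

/-- the ideal of the fixed points -/
noncomputable def u12_J (p : ℕ) (Φ : Gp K ≃* Gp K) : Ideal (Po K) :=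
  Ideal.span {P | ∃ s : Fin 3 → Kˣ, s ^ p = 1 ∧ ∃ i, P = ab (Φ (dg s) (X i)) - MvPolynomial.X i}

theorem u12_mem {p : ℕ} (Φ : Gp K ≃* Gp K) {s : Fin 3 → Kˣ} (hs : s ^ p = 1) (q : Al K) :
    ab (Φ (dg s) q) - ab q ∈ u12_J p Φ := by
  have h1 : ((Ideal.Quotient.mkₐ K (u12_J p Φ)).comp ab).comp (Φ (dg s) : Al K →ₐ[K] Al K) =
      (Ideal.Quotient.mkₐ K (u12_J p Φ)).comp ab := by
    apply hom_ext_X
    intro i
    change Ideal.Quotient.mkₐ K (u12_J p Φ) (ab (Φ (dg s) (X i))) = Ideal.Quotient.mkₐ K (u12_J p Φ) (ab (X i))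
    rw [Ideal.Quotient.mkₐ_eq_mk, Ideal.Quotient.mk_eq_mk_iff_sub_mem, ab_X]
    exact Ideal.subset_span ⟨s, hs, i, rfl⟩
  rw [← Ideal.Quotient.mk_eq_mk_iff_sub_mem]
  exact congrArg (fun F : Al K →ₐ[K] (Po K ⧸ u12_J p Φ) => F q) h1

theorem u12_cc {p : ℕ} (Φ : Gp K ≃* Gp K) (h : ∀ t : Fin 3 → Kˣ, t ^ p = 1 → G0 (Φ (dg t))) :
    ∀ P ∈ u12_J p Φ, MvPolynomial.constantCoeff P = 0 := by
  intro P hP
  have h1 : u12_J p Φ ≤ RingHom.ker (MvPolynomial.constantCoeff (R := K) (σ := Fin 3)) := by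
    unfold u12_J
    rw [Ideal.span_le]
    rintro Q ⟨s, hs, i, rfl⟩
    change MvPolynomial.constantCoeff _ = 0
    rw [map_sub, cc_ab, h s hs i, MvPolynomial.constantCoeff_X, sub_zero]
  exact h1 hP

theorem u12_le {p : ℕ} (Φ : Gp K ≃* Gp K) (t : Fin 3 → Kˣ) {P : Po K} (hP : P ∈ u12_J p Φ) :
    u12_E (Φ (dg t)) P ∈ u12_J p Φ := by
  have h1 : u12_J p Φ ≤ Ideal.comap (u12_E (Φ (dg t)) : Po K →+* Po K) (u12_J p Φ) := by
    conv_lhs => unfold u12_J
    rw [Ideal.span_le]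
    rintro Q ⟨s, hs, i, rfl⟩
    change u12_E (Φ (dg t)) (ab (Φ (dg s) (X i)) - MvPolynomial.X i) ∈ u12_J p Φ
    rw [map_sub, u12_E_ap, u12_E_ap, pa_ab, pa_X, ← mul_ap, ← map_mul, dg_comm, map_mul, mul_ap]
    exact u12_mem Φ hs _
  exact h1 hP

theorem u12_div [IsAlgClosed K] (p : ℕ) (Φ : Gp K ≃* Gp K) (t : Fin 3 → Kˣ) (n : ℕ) (hn : 0 < n) :
    ∃ ρ : MvPolynomial (Fin 3) K ≃ₐ[K] MvPolynomial (Fin 3) K,
      ρ ^ n = u12_E (Φ (dg t)) ∧ ∀ P, P ∈ u12_J p Φ ↔ ρ P ∈ u12_J p Φ := by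
  have h1 : ∀ k, ∃ z : Kˣ, z ^ n = t k := by
    intro k
    obtain ⟨z, hz⟩ := IsAlgClosed.exists_pow_nat_eq (t k : K) hn
    have hz0 : z ≠ 0 := by
      rintro rfl
      rw [zero_pow hn.ne'] at hz
      exact (t k).ne_zero hz.symm
    refine ⟨Units.mk0 z hz0, ?_⟩
    apply Units.ext
    rw [Units.val_pow_eq_pow_val, Units.val_mk0, hz]
  choose z hz using h1
  have h2 : ∀ m : ℕ, dg z ^ m = dg (z ^ m) := by
    intro m
    induction m with
    | zero => rw [pow_zero, pow_zero, dg_one]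
    | succ m ih => rw [pow_succ, ih, dg_mul, pow_succ]
  have h3 : z ^ n = t := funext fun k => hz k
  refine ⟨u12_E (Φ (dg z)), ?_, fun P => ⟨u12_le Φ z, fun hP => ?_⟩⟩
  · rw [u12_E_pow, ← map_pow, h2, h3]
  · have h4 := u12_le Φ z⁻¹ hP
    rw [u12_E_ap, u12_E_ap, ← pa_mul, ← map_mul, dg_mul, inv_mul_cancel, dg_one, map_one, pa_one] at h4
    exact h4

theorem u12_ab_Fl {q : Al K} (hq : q ∈ Fl K 2) :
    ab q ∈ (RingHom.ker (MvPolynomial.constantCoeff (R := K) (σ := Fin 3))) ^ 2 := by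
  refine sp_induct (P := fun w => 2 ≤ w.length)
    (Q := fun q => ab q ∈ (RingHom.ker (MvPolynomial.constantCoeff (R := K) (σ := Fin 3))) ^ 2) ?_ ?_ ?_ hq
  · rw [map_zero]
    exact Ideal.zero_mem _
  · intro a b _ _ ha hb
    rw [map_add]
    exact Ideal.add_mem _ ha hb
  · intro w c hw
    obtain _ | ⟨i, _ | ⟨j, w⟩⟩ := w
    · exact absurd hw (by simp)
    · exact absurd hw (by simp)
    · rw [map_smul, mon_cons, mon_cons, map_mul, map_mul, ab_X, ab_X, MvPolynomial.smul_eq_C_mul, pow_two]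
      apply Ideal.mul_mem_left
      have hX : ∀ k : Fin 3, (MvPolynomial.X k : Po K) ∈
          RingHom.ker (MvPolynomial.constantCoeff (R := K) (σ := Fin 3)) := by
        intro k
        rw [RingHom.mem_ker, MvPolynomial.constantCoeff_X]
      exact Ideal.mul_mem_mul (hX i) (Ideal.mul_mem_right _ _ (hX j))

theorem u12_emb_Fl {g : Gp K} (hg : G0 g) {v : Fin 3 → K} {c : K} (hv : Lg g v = c • v) :
    g (emb v) - c • emb v ∈ Fl K 2 := by
  rw [mem_Fl]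
  intro w hw
  have h1 : emb v ∈ Fl K 1 := by
    rw [mem_Fl]
    intro w hw
    by_contra h2
    have := cf_emb_ne v h2
    omega
  rw [cf_sub, cf_smul]
  obtain _ | ⟨j, w⟩ := w
  · rw [mem_Fl_one.1 (hg.map h1), mem_Fl_one.1 h1, mul_zero, sub_zero]
  · have h2 : w = [] := List.length_eq_zero_iff.1 (by
      rw [List.length_cons] at hw
      omega)
    rw [h2, cf_emb, ← Lg_ap, hv, Pi.smul_apply, smul_eq_mul, sub_self]

theorem u12_emb_single (i : Fin 3) : emb (Pi.single i (1 : K)) = X i := by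
  rw [emb_ap, Finset.sum_eq_single i]
  · rw [Pi.single_eq_same, one_smul]
  · intro j _ hj
    rw [Pi.single_eq_of_ne hj, zero_smul]
  · exact fun h => absurd (Finset.mem_univ i) h

theorem u12_cot [IsAlgClosed K] {p : ℕ} [Fact p.Prime] (hp : (p : K) ≠ 0) (Φ : Gp K ≃* Gp K)
    (h : ∀ t : Fin 3 → Kˣ, t ^ p = 1 → G0 (Φ (dg t))) (i : Fin 3) :
    ∃ P ∈ u12_J p Φ, ∃ Q ∈ (RingHom.ker (MvPolynomial.constantCoeff (R := K) (σ := Fin 3))) ^ 2,
      MvPolynomial.X i = P + Q := by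
  obtain ⟨b, hb, hc, _⟩ := eig_basis hp Φ h
  let W : Submodule K (Fin 3 → K) := (Submodule.restrictScalars K
    (u12_J p Φ ⊔ (RingHom.ker (MvPolynomial.constantCoeff (R := K) (σ := Fin 3))) ^ 2)).comap
    ((ab (K := K)).toLinearMap.comp emb)
  have hW : ∀ v, v ∈ W ↔ ab (emb v) ∈
      u12_J p Φ ⊔ (RingHom.ker (MvPolynomial.constantCoeff (R := K) (σ := Fin 3))) ^ 2 := fun _ => Iff.rfl
  have h1 : ∀ a, b a ∈ W := by
    intro a
    obtain ⟨t, ht, c, hc1, hv⟩ := hc a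
    have h2 := u12_mem Φ ht (emb (b a))
    have h3 := u12_ab_Fl (u12_emb_Fl (h t ht) hv)
    rw [map_sub, map_smul] at h3
    have h4 : (c - 1) • b a ∈ W := by
      rw [hW, map_smul, map_smul]
      have h5 : (c - 1) • ab (emb (b a)) = (ab (Φ (dg t) (emb (b a))) - ab (emb (b a))) -
          (ab (Φ (dg t) (emb (b a))) - c • ab (emb (b a))) := by
        rw [sub_smul, one_smul]
        abel
      rw [h5]
      exact Ideal.sub_mem _ (Ideal.mem_sup_left h2) (Ideal.mem_sup_right h3)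
    exact (W.smul_mem_iff (sub_ne_zero.2 hc1)).1 h4
  have h2 : Submodule.span K (Set.range b) = ⊤ :=
    hb.span_eq_top_of_card_eq_finrank (by rw [Fintype.card_fin, Module.finrank_fin_fun])
  have h3 : (Pi.single i (1 : K) : Fin 3 → K) ∈ W := by
    have h4 : Submodule.span K (Set.range b) ≤ W := by
      rw [Submodule.span_le]
      rintro _ ⟨a, rfl⟩
      exact h1 a
    rw [h2] at h4
    exact h4 Submodule.mem_top
  rw [hW, u12_emb_single, ab_X] at h3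
  obtain ⟨P, hP, Q, hQ, hPQ⟩ := Submodule.mem_sup.1 h3
  exact ⟨P, hP, Q, hQ, hPQ.symm⟩

/-- Let `J` be the ideal generated by the `ab (Φ (dg t) (X i)) - X i`, `t ^ p = 1`. It contains all `ab (Φ (dg t) q) - ab q`, `q : Al K` (induction on `q`).
`krull_fix` for `σ = pa (Φ (dg t))` (an `AlgEquiv` by `pa_mul`, `pa_one`) and `ρ = pa (Φ (dg t'))` with `t' ^ n = t` (componentwise `n`-th roots,
`IsAlgClosed.exists_pow_nat_eq`); `ρ` preserves `J` as `Φ (dg t')` commutes with the `Φ (dg t)`. `hJ`: `cc_ab`. `hcot`: let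
`W = {v | ab (emb v) ∈ J + m ^ 2}`, a subspace; for the basis vector `b a` and `t`, `c` as in `eig_basis`,
`Φ (dg t) (emb (b a)) - c • emb (b a) ∈ Fl K 2` (its coefficients at `[]` and `[j]` vanish, `Lg_ap`), `ab` maps `Fl K 2` into `m ^ 2`, so
`(c - 1) • ab (emb (b a)) ∈ J + m ^ 2`; so `W` contains the basis `b`, so `W` is everything. The conclusion of `krull_fix` is
`constantCoeff (ab (Φ (dg t) (X i))) = 0`, use `cc_ab`. -/
theorem fix_all [IsAlgClosed K] {p : ℕ} [Fact p.Prime] (hp : (p : K) ≠ 0) (Φ : Gp K ≃* Gp K)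
    (h : ∀ t : Fin 3 → Kˣ, t ^ p = 1 → G0 (Φ (dg t))) (t : Fin 3 → Kˣ) : G0 (Φ (dg t)) := by
  intro i
  have h1 := krull_fix (u12_J p Φ) (u12_cc Φ h) (u12_cot hp Φ h) (u12_E (Φ (dg t))) (u12_div p Φ t) i
  have h2 : u12_E (Φ (dg t)) (MvPolynomial.X i) = ab (Φ (dg t) (X i)) := pa_X _ _
  rw [h2, cc_ab] at h1
  exact h1

end AFree
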