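import Pool.Agent.AFree.UM04
import Pool.Agent.AFree.UM05
import Pool.Agent.AFree.UM06
import Pool.Agent.AFree.UM08
import Pool.Agent.AFree.UM10
import Pool.Agent.AFree.UM11
import Pool.Agent.AFree.UM12B

/-!
# MP_e44b8a_al: abstract automorphisms over uncountable algebraically closed fields (helper90)
-/

namespace AFree

noncomputable section

open Pointwise MvPolynomial

variable {K : Type} [Field K]

/-- `dg` as a homomorphism -/
def dgH : (Fin 3 → Kˣ) →* Gp K where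
  toFun := dg
  map_one' := dg_one
  map_mul' s t := (dg_mul s t).symm

/-- the image of the diagonal group -/
def ST (Φ : Gp K ≃* Gp K) : Subgroup (Gp K) := (Φ.toMonoidHom.comp dgH).range

theorem mem_ST {Φ : Gp K ≃* Gp K} {g : Gp K} : g ∈ ST Φ ↔ ∃ t, Φ (dg t) = g := Iff.rfl

theorem exists_prime (K : Type) [Field K] : ∃ p : ℕ, p.Prime ∧ (p : K) ≠ 0 := by
  by_cases h : ((2 : ℕ) : K) ≠ 0
  · exact ⟨2, Nat.prime_two, h⟩
  · refine ⟨3, Nat.prime_three, fun h3 => ?_⟩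
    push Not at h
    have h1 : (1 : K) = ((3 : ℕ) : K) - ((2 : ℕ) : K) := by
      push_cast
      ring
    rw [h, h3, sub_zero] at h1
    exact one_ne_zero h1

/-- the centralizer -/
theorem ST_cent [Infinite K] (Φ : Gp K ≃* Gp K) {g : Gp K} (h : ∀ s ∈ ST Φ, g * s = s * g) :
    g ∈ ST Φ := by
  have h1 : IsDg (Φ.symm g) := by
    refine sep_univ.comm fun t _ => ?_
    apply Φ.injective
    rw [map_mul, map_mul, MulEquiv.apply_symm_apply]
    exact h _ (mem_ST.2 ⟨t, rfl⟩)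
  obtain ⟨s, hs⟩ := h1
  exact mem_ST.2 ⟨s, by rw [← hs, MulEquiv.apply_symm_apply]⟩

theorem ST_comm (Φ : Gp K ≃* Gp K) {g h : Gp K} (hg : g ∈ ST Φ) (hh : h ∈ ST Φ) :
    g * h = h * g := by
  obtain ⟨s, rfl⟩ := mem_ST.1 hg
  obtain ⟨t, rfl⟩ := mem_ST.1 hh
  rw [← map_mul, dg_comm, map_mul]

/-- conjugation -/
abbrev cn (Φ : Gp K ≃* Gp K) (η : Gp K) : Gp K ≃* Gp K := Φ.trans (MulAut.conj η⁻¹)

theorem cn_ap (Φ : Gp K ≃* Gp K) (η g : Gp K) : cn Φ η g = η⁻¹ * Φ g * η := by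
  change η⁻¹ * Φ g * η⁻¹⁻¹ = _
  rw [inv_inv]

theorem normalize [IsAlgClosed K] (Φ : Gp K ≃* Gp K) : ∃ η : Gp K, ∀ t : Fin 3 → Kˣ,
    G0 (cn Φ η (dg t)) ∧ ∀ i j, j ≠ i → cf (cn Φ η (dg t) (X i)) [j] = 0 := by
  obtain ⟨p, hpp, hp⟩ := exists_prime K
  have : Fact p.Prime := ⟨hpp⟩
  obtain ⟨η1, h1⟩ := fix_mu hp Φ
  have h2 : ∀ t : Fin 3 → Kˣ, G0 (cn Φ η1 (dg t)) :=
    fix_all hp (cn Φ η1) fun t ht => by
      rw [cn_ap]
      exact h1 t ht
  obtain ⟨η2, h3⟩ := lin_diag hp (cn Φ η1) h2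
  refine ⟨η1 * η2, fun t => ?_⟩
  have h4 : cn Φ (η1 * η2) (dg t) = η2⁻¹ * cn Φ η1 (dg t) * η2 := by
    rw [cn_ap, cn_ap]
    group
  rw [h4]
  exact h3 t

/-- infinitely many roots of unity -/
theorem inf_roots [IsAlgClosed K] {p : ℕ} [Fact p.Prime] (hp : (p : K) ≠ 0) :
    {z : K | ∃ N, z ^ (p ^ N) = 1}.Infinite := by
  intro hfin
  have h1 : ∀ N : ℕ, p ^ N ≤ hfin.toFinset.card := by
    intro N
    have : NeZero (p : K) := ⟨hp⟩
    obtain ⟨ζ, hζ⟩ := HasEnoughRootsOfUnity.exists_primitiveRoot K (p ^ N)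
    have hpos : 0 < p ^ N := pow_pos (Fact.out (p := p.Prime)).pos _
    have h2 : (Polynomial.nthRootsFinset (p ^ N) (1 : K)).card = p ^ N := hζ.card_nthRootsFinset
    rw [← h2]
    refine Finset.card_le_card fun z hz => ?_
    rw [Polynomial.mem_nthRootsFinset hpos] at hz
    rw [Set.Finite.mem_toFinset]
    exact ⟨N, hz⟩
  have h2 := h1 (hfin.toFinset.card)
  have h3 := Nat.lt_pow_self (Fact.out (p := p.Prime)).one_lt (n := hfin.toFinset.card)
  omega

section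

variable [IsAlgClosed K] (Φ : Gp K ≃* Gp K) (h0 : ∀ t : Fin 3 → Kˣ, G0 (Φ (dg t)))
  (hl : ∀ t : Fin 3 → Kˣ, ∀ i j, j ≠ i → cf (Φ (dg t) (X i)) [j] = 0)

include h0 hl in
theorem exists_setup : ∃ E : Setup K, E.S = ST Φ := by
  obtain ⟨p, hpp, hp⟩ := exists_prime K
  have : Fact p.Prime := ⟨hpp⟩
  have : NeZero (p : K) := ⟨hp⟩
  have : Infinite K := IsAlgClosed.instInfinite
  have hr : ∀ N : ℕ, ∃ r ∈ ST Φ, ∃ ζ : K, (∀ i, ch r i = ζ) ∧ ∀ k, 1 ≤ k → k ≤ N → ζ ^ k ≠ 1 := by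
    intro N
    obtain ⟨ζ, hζ⟩ := HasEnoughRootsOfUnity.exists_primitiveRoot K (p ^ N)
    have hpos : p ^ N ≠ 0 := (pow_pos (Fact.out (p := p.Prime)).pos _).ne'
    obtain ⟨u, hu⟩ : ∃ u : Kˣ, (u : K) = ζ := ⟨hζ.isUnit hpos |>.unit, rfl⟩
    obtain ⟨t, ht, ht'⟩ := tors_surj hp Φ h0 hl N (fun _ => u) (by
      funext i
      rw [Pi.pow_apply, Pi.one_apply]
      apply Units.ext
      rw [Units.val_pow_eq_pow_val, hu, hζ.pow_eq_one, Units.val_one])
    refine ⟨Φ (dg t), mem_ST.2 ⟨t, rfl⟩, ζ, fun i => by rw [ht', hu], fun k hk1 hkN h1 => ?_⟩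
    have h2 := Nat.le_of_dvd hk1 (hζ.dvd_of_pow_eq_one k h1)
    have h3 := Nat.lt_pow_self (Fact.out (p := p.Prime)).one_lt (n := N)
    omega
  have hfix : ∀ g ∈ ST Φ, G0 g := by
    rintro g hg
    obtain ⟨t, rfl⟩ := mem_ST.1 hg
    exact h0 t
  have hlin : ∀ g ∈ ST Φ, ∀ i j, j ≠ i → cf (g (X i)) [j] = 0 := by
    rintro g hg
    obtain ⟨t, rfl⟩ := mem_ST.1 hg
    exact hl t
  obtain ⟨P, h1, h2, h3⟩ := exists_P (ST Φ) (fun g hg h hh => ST_comm Φ hg hh) hfix hlin hr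
  refine ⟨⟨ST Φ, fun g hg h hh => ST_comm Φ hg hh, hfix, hlin, fun g hg => ST_cent Φ hg, ?_,
    P, h1, h2, h3⟩, rfl⟩
  intro Q hQ
  refine MvPolynomial.funext_set (fun _ => {z : K | ∃ N, z ^ (p ^ N) = 1})
    (fun _ => inf_roots hp) fun x hx => ?_
  rw [map_zero]
  choose n hn using fun i => hx i (Set.mem_univ i)
  have hn' : ∀ i, x i ^ (p ^ (n 0 + n 1 + n 2)) = 1 := by
    intro i
    have h4 : ∃ m, n 0 + n 1 + n 2 = n i + m := by
      fin_cases i
      · exact ⟨n 1 + n 2, by simp only [Fin.zero_eta]; omega⟩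
      · exact ⟨n 0 + n 2, by simp only [Fin.mk_one]; omega⟩
      · exact ⟨n 0 + n 1, by simp only [Fin.reduceFinMk]; omega⟩
    obtain ⟨m, hm⟩ := h4
    rw [hm, pow_add, pow_mul, hn i, one_pow]
  have hx0 : ∀ i, x i ≠ 0 := by
    intro i h4
    have h5 := hn' i
    rw [h4, zero_pow (pow_pos (Fact.out (p := p.Prime)).pos _).ne'] at h5
    exact zero_ne_one h5
  obtain ⟨t, -, ht⟩ := tors_surj hp Φ h0 hl (n 0 + n 1 + n 2) (fun i => Units.mk0 (x i) (hx0 i))
    (by
      funext i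
      rw [Pi.pow_apply, Pi.one_apply]
      apply Units.ext
      rw [Units.val_pow_eq_pow_val, Units.val_mk0, hn', Units.val_one])
  have h4 : x = ch (Φ (dg t)) := by
    funext i
    rw [ht, Units.val_mk0]
  rw [h4]
  exact hQ _ (mem_ST.2 ⟨t, rfl⟩)

end

section

variable (E : Setup K) (Φ : Gp K ≃* Gp K) (hE : E.S = ST Φ)

include hE in
theorem exists_cu : ∃ u : (Fin 3 → Kˣ) → (Fin 3 → Kˣ), (∀ t i, ch (Φ (dg t)) i = u t i) ∧
    (∀ s t, u (s * t) = u s * u t) ∧ Function.Injective u := by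
  have hm : ∀ t, Φ (dg t) ∈ E.S := fun t => by
    rw [hE]
    exact mem_ST.2 ⟨t, rfl⟩
  have h1 : ∀ t i, ch (Φ (dg t)) i * ch (Φ (dg t⁻¹)) i = 1 := by
    intro t i
    rw [← E.ch_mul (hm _) (hm _), ← map_mul, dg_mul, mul_inv_cancel, dg_one, map_one]
    unfold ch
    rw [one_ap, cf_X_self]
  refine ⟨fun t i => ⟨ch (Φ (dg t)) i, ch (Φ (dg t⁻¹)) i, h1 t i, by
    have h2 := h1 t⁻¹ i
    rwa [inv_inv] at h2⟩, fun t i => rfl, fun s t => ?_, fun s t h => ?_⟩
  · funext i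
    apply Units.ext
    change ch (Φ (dg (s * t))) i = ch (Φ (dg s)) i * ch (Φ (dg t)) i
    rw [← E.ch_mul (hm _) (hm _), ← map_mul, dg_mul]
  · apply dg_inj
    apply Φ.injective
    refine E.ch_inj (hm _) (hm _) ?_
    funext i
    have h2 := congrArg (fun z : Kˣ => (z : K)) (congrFun h i)
    exact h2

/-- the sets of the linear parts of bounded subsets of the image of a coordinate subgroup -/
def AA (j : Fin 3) : Set (Set (Fin 3 → Kˣ)) :=
  {A | (∃ d, A ⊆ E.HH d) ∧ ∀ a ∈ A, ∃ t : Fin 3 → Kˣ, (∀ i, i ≠ j → t i = 1) ∧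
    ∀ i, ch (Φ (dg t)) i = a i}

include hE in
theorem exists_V [Uncountable K] (j : Fin 3) : ∃ V : Subgroup (Fin 3 → Kˣ),
    (V : Set (Fin 3 → Kˣ)).Infinite ∧ ∃ A ∈ AA E Φ j, (V : Set (Fin 3 → Kˣ)) = Cl A := by
  obtain ⟨u, hu1, hu2, hu3⟩ := exists_cu E Φ hE
  have hm : ∀ t, Φ (dg t) ∈ E.S := fun t => by
    rw [hE]
    exact mem_ST.2 ⟨t, rfl⟩
  have hone : u 1 = 1 := by
    have h1 := hu2 1 1
    rw [mul_one] at h1
    exact (left_eq_mul.1 h1)
  have huniq : ∀ t a, (∀ i, ch (Φ (dg t)) i = ((a i : Kˣ) : K)) → a = u t := by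
    intro t a h
    funext i
    apply Units.ext
    rw [← hu1, h]
  refine max_irr (AA E Φ j) ?_ ?_ ?_ ?_
  · rintro A ⟨⟨d, hd⟩, hA⟩ B ⟨⟨e, he⟩, hB⟩
    refine ⟨⟨d * e, ?_⟩, ?_⟩
    · rintro _ ⟨a, ha, b, hb, rfl⟩
      exact E.HH_mul (hd ha) (he hb)
    · rintro _ ⟨a, ha, b, hb, rfl⟩
      obtain ⟨s, hs, hs'⟩ := hA a ha
      obtain ⟨t, ht, ht'⟩ := hB b hb
      refine ⟨s * t, fun i hi => by rw [Pi.mul_apply, hs i hi, ht i hi, one_mul], fun i => ?_⟩
      rw [hu1, hu2, ← huniq s a hs', ← huniq t b ht']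
  · rintro A ⟨⟨d, hd⟩, hA⟩ B hB
    exact ⟨⟨d, fun b hb => hd (hB hb)⟩, fun b hb => hA b (hB hb)⟩
  · rintro A ⟨⟨d, hd⟩, hA⟩ a ha
    obtain ⟨s, hs, hs'⟩ := hA a ha
    have hsa := huniq s a hs'
    have hinv : a⁻¹ = u s⁻¹ := by
      rw [hsa, inv_eq_iff_mul_eq_one, ← hu2, mul_inv_cancel, hone]
    obtain ⟨e, he⟩ := E.exists_HH (hm s⁻¹) (t := a⁻¹) fun i => by rw [hu1, hinv]
    refine ⟨⟨e * d, ?_⟩, ?_⟩
    · rintro _ ⟨b, hb, rfl⟩
      exact E.HH_mul he (hd hb)
    · rintro _ ⟨b, hb, rfl⟩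
      obtain ⟨t, ht, ht'⟩ := hA b hb
      refine ⟨s⁻¹ * t, fun i hi => by
        rw [Pi.mul_apply, Pi.inv_apply, hs i hi, ht i hi, inv_one, one_mul], fun i => ?_⟩
      rw [hu1, hu2, ← hinv, huniq t b ht']
  · by_contra hcon
    push Not at hcon
    have hcov : (Set.univ : Set Kˣ) ⊆ ⋃ d, {c : Kˣ | u (ti j c) ∈ E.HH d} := by
      intro c _
      obtain ⟨d, hd⟩ := E.exists_HH (hm (ti j c)) (t := u (ti j c)) fun i => hu1 _ i
      exact Set.mem_iUnion.2 ⟨d, hd⟩
    have hinj : Function.Injective fun c : Kˣ => u (ti j c) := by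
      intro c c' h
      have h1 := congrFun (hu3 h) j
      unfold ti at h1
      rwa [if_pos rfl, if_pos rfl] at h1
    have hfin : ∀ d, {c : Kˣ | u (ti j c) ∈ E.HH d}.Finite := by
      intro d
      by_contra hinf
      have h1 : ((fun c : Kˣ => u (ti j c)) '' {c : Kˣ | u (ti j c) ∈ E.HH d}).Infinite :=
        Set.Infinite.image hinj.injOn hinf
      refine h1 (hcon _ ⟨⟨d, ?_⟩, ?_⟩)
      · rintro _ ⟨c, hc, rfl⟩
        exact hc
      · rintro _ ⟨c, hc, rfl⟩
        refine ⟨ti j c, fun i hi => ?_, fun i => hu1 _ i⟩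
        unfold ti
        rw [if_neg hi]
    have hcount : (Set.univ : Set Kˣ).Countable :=
      (Set.countable_iUnion fun d => (hfin d).countable).mono hcov
    have hK : (Set.univ : Set K).Countable := by
      have h1 : (Set.univ : Set K) ⊆ insert 0 ((fun c : Kˣ => (c : K)) '' Set.univ) := by
        intro c _
        by_cases hc : c = 0
        · exact Or.inl hc
        · exact Or.inr ⟨Units.mk0 c hc, Set.mem_univ _, rfl⟩
      exact ((hcount.image _).insert 0).mono h1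
    exact Set.not_countable_univ hK

theorem Cl_sub {A : Set (Fin 3 → Kˣ)} : Cl (Cl A) ⊆ Cl A := by
  intro t ht P hP
  exact ht P fun a ha => ha P hP

theorem sub_Cl (A : Set (Fin 3 → Kˣ)) : A ⊆ Cl A := fun a ha _ hP => hP a ha

include hE in
theorem bounded [Uncountable K] : ∃ D, ∀ i v, D < v.length → E.P i v = 0 := by
  have : Infinite K := inferInstance
  obtain ⟨u, hu1, hu2, hu3⟩ := exists_cu E Φ hE
  have hm : ∀ t, Φ (dg t) ∈ E.S := fun t => by
    rw [hE]
    exact mem_ST.2 ⟨t, rfl⟩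
  have hone : u 1 = 1 := by
    have h1 := hu2 1 1
    rw [mul_one] at h1
    exact (left_eq_mul.1 h1)
  choose V hV A hA hVA using exists_V E Φ hE
  choose d hd using fun j => (hA j).1
  have hVd : ∀ j t, t ∈ V j → t ∈ E.HH (d j) := by
    intro j t ht
    have h1 : t ∈ Cl (A j) := by
      rw [← hVA j]
      exact ht
    intro i v hv
    exact h1 _ fun a ha => hd j ha i v hv
  -- the elements of `V j` come from the coordinate subgroups
  have hVt : ∀ j t, t ∈ V j → ∃ τ : Fin 3 → Kˣ, (∀ i, i ≠ j → τ i = 1) ∧ t = u τ := by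
    intro j t ht
    obtain ⟨s, hs, hst⟩ := E.exists_S (hVd j t ht) (hVd j _ ((V j).inv_mem ht))
    have hs' := hs
    rw [hE] at hs'
    obtain ⟨τ, hτ⟩ := mem_ST.1 hs'
    refine ⟨τ, fun i hi => ?_, ?_⟩
    · have hcl : t ∈ Cl (A j) := by
        rw [← hVA j]
        exact ht
      have h1 := E.comm_cl (hd j) (Φ (el i 1)) (fun a ha => ?_) hs hcl hst
      · rw [← hτ, ← map_mul, ← map_mul] at h1
        have h2 := Φ.injective h1
        have h3 := congrArg (fun g : Gp K => g (X i)) h2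
        simp only [mul_ap] at h3
        rw [el_self (one_mem i), map_add, map_one, dg_X, map_smul, el_self (one_mem i), smul_add,
          add_right_inj] at h3
        have h4 := congrArg (fun p => cf p []) h3
        simp only [cf_smul] at h4
        rw [← mon_nil, cf_mon_self, mul_one] at h4
        apply Units.ext
        rw [Units.val_one]
        exact h4.symm
      · obtain ⟨t', ht', ht''⟩ := (hA j).2 a ha
        refine ⟨Φ (dg t'), hm t', ht'', ?_⟩
        rw [← map_mul, ← map_mul]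
        congr 1
        have h5 := dg_el t' (one_mem i)
        rw [map_one, ht' i hi, inv_one, Units.val_one, one_smul] at h5
        rw [mul_inv_eq_iff_eq_mul] at h5
        exact h5
    · funext i
      apply Units.ext
      rw [← hu1, hτ, hst]
  choose b hb hbV using fun j => exists_ops (V j) (hV j) (by
    rw [hVA j]
    exact Cl_sub)
  have hindep : ∀ n : Fin 3 → ℤ, (∀ i, ∑ j, n j * b j i = 0) → n = 0 := by
    intro n hn
    have h1 : ∀ c : Kˣ, ∀ j, (fun i => (c ^ n j) ^ b j i) = (1 : Fin 3 → Kˣ) := by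
      intro c
      choose τ hτ hτ' using fun j => hVt j _ (hbV j (c ^ n j))
      have h2 : τ 0 * τ 1 * τ 2 = 1 := by
        apply hu3
        rw [hu2, hu2, ← hτ' 0, ← hτ' 1, ← hτ' 2, hone]
        funext i
        rw [Pi.mul_apply, Pi.mul_apply, Pi.one_apply, ← zpow_mul, ← zpow_mul, ← zpow_mul,
          ← zpow_add, ← zpow_add]
        have h3 := hn i
        rw [Fin.sum_univ_three] at h3
        rw [h3, zpow_zero]
      intro j
      have h3 : τ j = 1 := by
        funext i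
        by_cases hi : i = j
        · subst hi
          have h4 := congrFun h2 i
          rw [Pi.mul_apply, Pi.mul_apply, Pi.one_apply] at h4
          rw [Pi.one_apply]
          fin_cases i
          · simp only [Fin.zero_eta] at h4 ⊢
            rw [hτ 1 0 (by decide), hτ 2 0 (by decide), mul_one, mul_one] at h4
            exact h4
          · simp only [Fin.mk_one] at h4 ⊢
            rw [hτ 0 1 (by decide), hτ 2 1 (by decide), one_mul, mul_one] at h4
            exact h4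
          · simp only [Fin.reduceFinMk] at h4 ⊢
            rw [hτ 0 2 (by decide), hτ 1 2 (by decide), one_mul, one_mul] at h4
            exact h4
        · exact hτ j i hi
      rw [hτ' j, h3, hone]
    funext j
    by_contra hne
    apply hb j
    funext i
    have h2 : ∀ c : Kˣ, c ^ (n j * b j i) = 1 := by
      intro c
      have h3 := congrFun (h1 c j) i
      rw [← zpow_mul] at h3
      exact h3
    have h3 : n j * b j i = 0 := by
      refine zpow_inj (K := K) fun c => ?_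
      rw [h2, zpow_zero]
    rcases mul_eq_zero.1 h3 with h4 | h4
    · exact absurd h4 hne
    · exact h4
  refine ⟨d 0 * d 1 * d 2, fun i v hv => ?_⟩
  refine dense_of_indep b hindep _ fun c => ?_
  have h1 : (fun i => ∏ j, c j ^ b j i) =
      (fun i => c 0 ^ b 0 i) * (fun i => c 1 ^ b 1 i) * (fun i => c 2 ^ b 2 i) := by
    funext i
    rw [Fin.prod_univ_three]
    rfl
  rw [h1]
  exact E.HH_mul (E.HH_mul (hVd 0 _ (hbV 0 _)) (hVd 1 _ (hbV 1 _))) (hVd 2 _ (hbV 2 _)) i v hv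

end

/-- abstract automorphisms of the automorphism group over uncountable algebraically closed fields -/
theorem concl_uncountable [IsAlgClosed K] [Uncountable K] (Φ : Gp K ≃* Gp K) : Concl Φ := by
  have : Infinite K := inferInstance
  obtain ⟨η, hη⟩ := normalize Φ
  obtain ⟨E, hE⟩ := exists_setup (cn Φ η) (fun t => (hη t).1) (fun t => (hη t).2)
  obtain ⟨D, hD⟩ := bounded E (cn Φ η) hE
  obtain ⟨ζ, hζ⟩ := E.final hD
  apply Concl.conj η
  refine concl_diag ζ fun t => ?_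
  refine hζ _ ?_
  rw [hE]
  exact mem_ST.2 ⟨t, rfl⟩

end

end AFree
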