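import Pool.Agent.AFree.Elem

/-!
# MP_e44b8a_al: automorphisms which commute with a subtorus (helper90)
-/

namespace AFree

noncomputable section

variable {K : Type} [Field K]

theorem pow_inj [Infinite K] {a b : ℕ} (h : ∀ u : Kˣ, (u : K) ^ a = (u : K) ^ b) : a = b := by
  have h1 : (Polynomial.X ^ a : Polynomial K) = Polynomial.X ^ b := by
    apply Polynomial.eq_of_infinite_eval_eq
    have h2 : ({0}ᶜ : Set K).Infinite := Set.Finite.infinite_compl (Set.finite_singleton 0)
    refine h2.mono fun x hx => ?_
    have hx' : x ≠ 0 := hx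
    rw [Set.mem_ofPred_eq, Polynomial.eval_pow, Polynomial.eval_pow, Polynomial.eval_X]
    exact h (Units.mk0 x hx')
  have h3 := congrArg Polynomial.natDegree h1
  rwa [Polynomial.natDegree_X_pow, Polynomial.natDegree_X_pow] at h3

/-- one-parameter subgroups of the torus -/
def tt (i j : Fin 3) (n : ℕ) (u : Kˣ) : Fin 3 → Kˣ :=
  fun l => if l = j then u else if l = i then u ^ n else 1

theorem tw_tt {i j : Fin 3} (hij : j ≠ i) (n : ℕ) (u : Kˣ) (w : List (Fin 3)) :
    tw (tt i j n u) w = (u : K) ^ (w.count j + n * w.count i) := by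
  induction w with
  | nil => simp [tw]
  | cons l w ih =>
    have h1 : tw (tt i j n u) (l :: w) = (tt i j n u l : K) * tw (tt i j n u) w := by simp [tw]
    rw [h1, ih]
    by_cases hl : l = j
    · subst hl
      have h2 : tt i l n u l = u := by simp [tt]
      rw [h2, List.count_cons_self, List.count_cons_of_ne hij, ← pow_succ']
      congr 1
      ring
    · by_cases hl' : l = i
      · subst hl'
        have h2 : tt l j n u l = u ^ n := by simp [tt, hl]
        rw [h2, List.count_cons_self, List.count_cons_of_ne hl, Units.val_pow_eq_pow_val,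
          ← pow_add]
        congr 1
        ring
      · have h2 : tt i j n u l = 1 := by simp [tt, hl, hl']
        rw [h2, List.count_cons_of_ne hl, List.count_cons_of_ne hl', Units.val_one, one_mul]

/-- `g` commutes with the subtorus of the weight `m - e_i` -/
def CW (i : Fin 3) (m : Fin 3 → ℕ) (g : Gp K) : Prop :=
  ∀ j, j ≠ i → ∀ u : Kˣ, g * dg (tt i j (m j) u) = dg (tt i j (m j) u) * g

theorem cw_count [Infinite K] {i : Fin 3} {m : Fin 3 → ℕ} {g : Gp K} (h : CW i m g) (l : Fin 3)
    {w : List (Fin 3)} (hw : cf (g (X l)) w ≠ 0) {j : Fin 3} (hj : j ≠ i) :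
    w.count j + m j * w.count i = [l].count j + m j * [l].count i := by
  apply pow_inj (K := K)
  intro u
  have h1 := weight (h j hj u) l hw
  rw [← tw_single (tt i j (m j) u) l, tw_tt hj, tw_tt hj] at h1
  exact h1

theorem eq_single {w : List (Fin 3)} {l : Fin 3} (h : ∀ j, w.count j = [l].count j) :
    w = [l] := List.perm_singleton.1 (List.perm_iff_count.2 h)

theorem count_single (l j : Fin 3) : [l].count j = if l = j then 1 else 0 := by
  rw [List.count_singleton]
  by_cases h : l = j
  · simp [h]
  · simp [h]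

theorem cf_X (l : Fin 3) (w : List (Fin 3)) : cf (X (K := K) l) w = if [l] = w then 1 else 0 := by
  rw [← mon_single, cf_mon]

theorem smul_X_of {p : Al K} {l : Fin 3} (h : ∀ w, cf p w ≠ 0 → w = [l]) :
    p = cf p [l] • X l := by
  apply ext_cf
  intro w
  rw [cf_smul, cf_X]
  by_cases hw : [l] = w
  · rw [if_pos hw, mul_one, hw]
  · rw [if_neg hw, mul_zero]
    by_contra h1
    exact hw (h w h1).symm

/-- the other variables -/
theorem cw_other [Infinite K] {i : Fin 3} {m : Fin 3 → ℕ} {g : Gp K} (h : CW i m g) {l : Fin 3}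
    (hl : l ≠ i) (hB : g (X l) ∈ Bi K i) : ∃ β : K, g (X l) = β • X l := by
  refine ⟨_, smul_X_of fun w hw => ?_⟩
  have h0 : w.count i = 0 := List.count_eq_zero.2 (mem_sp.1 hB w hw)
  refine eq_single fun j => ?_
  by_cases hj : j = i
  · subst hj
    rw [h0, count_single, if_neg hl]
  · have h1 := cw_count h l hw hj
    rw [h0, mul_zero, add_zero, count_single l i, if_neg hl, mul_zero, add_zero] at h1
    exact h1

theorem cw_big_B [Infinite K] {i : Fin 3} {m : Fin 3 → ℕ} {g : Gp K} (h : CW i m g)
    (hi : m i = 0) (hm : 2 ≤ ∑ j, m j) {l : Fin 3} (hl : l ≠ i) : g (X l) ∈ Bi K i := by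
  rw [mem_sp]
  intro w hw hmem
  have h0 : 1 ≤ w.count i := List.count_pos_iff.2 hmem
  have h1 : ∀ j, j ≠ i → j ≠ l → m j = 0 := by
    intro j hj hjl
    have h2 := cw_count h l hw hj
    rw [count_single, count_single, if_neg (Ne.symm hjl), if_neg hl] at h2
    nlinarith [Nat.zero_le (w.count j), Nat.zero_le (m j)]
  have h2 : m l ≤ 1 := by
    have h3 := cw_count h l hw hl
    rw [count_single, count_single, if_pos rfl, if_neg hl] at h3
    nlinarith [Nat.zero_le (w.count l), Nat.zero_le (m l)]
  have h3 : ∑ j, m j = m l := by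
    refine Finset.sum_eq_single l (fun j _ hj => ?_) (fun h' => absurd (Finset.mem_univ l) h')
    by_cases hji : j = i
    · rw [hji, hi]
    · exact h1 j hji hj
  omega

/-- the value at `x_i` -/
theorem cw_self [Infinite K] {i : Fin 3} {m : Fin 3 → ℕ} {g : Gp K} (h : CW i m g) (hi : m i = 0)
    (hq : ∀ a, 2 ≤ a → cf (g (X i)) (List.replicate a i) = 0) :
    g (X i) - cf (g (X i)) [i] • X i ∈ Mh K m := by
  rw [mem_sp]
  intro w hw
  rw [cf_sub, cf_smul, cf_X] at hw
  have hwi : w ≠ [i] := by
    intro h'
    rw [h', if_pos rfl, mul_one, sub_self] at hw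
    exact hw rfl
  rw [if_neg (Ne.symm hwi), mul_zero, sub_zero] at hw
  have h1 : ∀ j, j ≠ i → w.count j + m j * w.count i = m j := by
    intro j hj
    have h2 := cw_count h i hw hj
    rw [count_single, count_single, if_neg (Ne.symm hj), if_pos rfl] at h2
    omega
  have h0 : w.count i = 0 := by
    by_contra hne
    have hpos : 1 ≤ w.count i := Nat.one_le_iff_ne_zero.2 hne
    have h3 : ∀ j, j ≠ i → w.count j = 0 := by
      intro j hj
      have h4 := h1 j hj
      nlinarith [Nat.zero_le (w.count j), Nat.zero_le (m j)]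
    have h5 : w = List.replicate (w.count i) i := by
      rw [List.eq_replicate_iff]
      have h6 : ∀ b ∈ w, b = i := by
        intro b hb
        by_contra hbi
        exact List.count_eq_zero.1 (h3 b hbi) hb
      refine ⟨?_, h6⟩
      exact (List.count_eq_length.2 fun b hb => (h6 b hb).symm).symm
    by_cases h7 : w.count i = 1
    · rw [h7] at h5
      exact hwi h5
    · rw [h5] at hw
      exact hw (hq _ (by omega))
  intro j
  by_cases hj : j = i
  · rw [hj, h0, hi]
  · have h2 := h1 j hj
    rw [h0, mul_zero, add_zero] at h2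
    exact h2

theorem el_cw {i : Fin 3} {m : Fin 3 → ℕ} (hi : m i = 0) {f : Al K} (hf : f ∈ Mh K m) :
    CW i m (el i f) := by
  intro j hj u
  have h1 : dg (tt i j (m j) u) * el i f * (dg (tt i j (m j) u))⁻¹ = el i f := by
    rw [dg_el _ (Mh_le hi hf), dg_Mh _ hf, smul_smul]
    have h2 : ∏ l, ((tt i j (m j) u l : Kˣ) : K) ^ m l = (u : K) ^ m j := by
      rw [Finset.prod_eq_single j]
      · simp [tt]
      · intro l _ hl
        by_cases hli : l = i
        · rw [hli, hi, pow_zero]
        · simp [tt, hl, hli]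
      · exact fun h => absurd (Finset.mem_univ j) h
    have h3 : tt i j (m j) u i = u ^ m j := by simp [tt, Ne.symm hj]
    rw [h2, h3, ← Units.val_pow_eq_pow_val, Units.inv_mul, one_smul]
  exact (mul_inv_eq_iff_eq_mul.1 h1).symm

end

end AFree
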